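import Mathlib

set_option autoImplicit false

namespace Pool.Agent.Lib_helper10.Erdos460

open Finset

lemma sum_log_primesLE_le (n : ℕ) :
    ∑ p ∈ Nat.primesLE n, Real.log p ≤ Real.log 4 * n := by
  rw [← Chebyshev.theta_eq_sum_primesLE_log]
  exact Chebyshev.theta_le_log4_mul_x (by positivity)

lemma log_factorial_eq (n : ℕ) :
    Real.log (n.factorial : ℝ) =
      ∑ p ∈ Nat.primesLE n, ((n.factorial).factorization p : ℝ) * Real.log p := by
  rw [Real.log_nat_eq_sum_factorization]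
  refine Finsupp.sum_of_support_subset _ ?_ _ ?_
  · intro p hp
    rw [Nat.support_factorization, Nat.mem_primeFactors] at hp
    rw [Nat.primesLE, Nat.mem_primesBelow]
    exact ⟨Nat.lt_succ_of_le ((hp.1.dvd_factorial).1 hp.2.1), hp.1⟩
  · intro i _
    simp

lemma floor_le_factorization {n p : ℕ} (hp : p.Prime) :
    n / p ≤ (n.factorial).factorization p := by
  rw [Nat.factorization_factorial hp (b := Nat.log p n + 2) (by omega)]
  have : n / p ^ 1 ≤ ∑ i ∈ Ico 1 (Nat.log p n + 2), n / p ^ i := by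
    refine single_le_sum (f := fun i => n / p ^ i) (fun i _ => Nat.zero_le _) ?_
    simp
  simpa using this

/-- Mertens' first theorem, upper bound -/
lemma mertens_first_upper (n : ℕ) (hn : 1 ≤ n) :
    ∑ p ∈ Nat.primesLE n, Real.log p / p ≤ Real.log n + Real.log 4 := by
  have hn0 : (0 : ℝ) < n := by exact_mod_cast hn
  have h1 : Real.log (n.factorial : ℝ) ≤ n * Real.log n := by
    have h : (n.factorial : ℝ) ≤ (n : ℝ) ^ n := by exact_mod_cast Nat.factorial_le_pow n
    calc Real.log (n.factorial : ℝ) ≤ Real.log ((n : ℝ) ^ n) :=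
          Real.log_le_log (by exact_mod_cast Nat.factorial_pos n) h
      _ = n * Real.log n := by rw [Real.log_pow]
  have h2 : ∑ p ∈ Nat.primesLE n, ((n : ℝ) / p - 1) * Real.log p ≤
      Real.log (n.factorial : ℝ) := by
    rw [log_factorial_eq]
    refine sum_le_sum fun p hp => ?_
    have hpp : p.Prime := by
      rw [Nat.primesLE, Nat.mem_primesBelow] at hp
      exact hp.2
    refine mul_le_mul_of_nonneg_right ?_ (Real.log_nonneg (by exact_mod_cast hpp.one_lt.le))
    have h3 := floor_le_factorization (n := n) hpp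
    have h4 : (n : ℝ) / p < ((n / p : ℕ) : ℝ) + 1 := by
      rw [← Nat.floor_div_eq_div (K := ℝ)]
      exact Nat.lt_floor_add_one _
    have h5 : ((n / p : ℕ) : ℝ) ≤ ((n.factorial).factorization p : ℝ) := by exact_mod_cast h3
    linarith
  have h3 : ∑ p ∈ Nat.primesLE n, ((n : ℝ) / p - 1) * Real.log p =
      n * ∑ p ∈ Nat.primesLE n, Real.log p / p - ∑ p ∈ Nat.primesLE n, Real.log p := by
    rw [mul_sum, ← sum_sub_distrib]
    refine sum_congr rfl fun p _ => ?_
    ring
  have h4 := sum_log_primesLE_le n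
  have h5 : n * ∑ p ∈ Nat.primesLE n, Real.log p / p ≤ n * (Real.log n + Real.log 4) := by
    rw [h3] at h2
    linarith
  exact le_of_mul_le_mul_left h5 hn0

lemma log_div_sq_summable : Summable (fun m : ℕ => 2 * Real.log m / (m : ℝ) ^ 2) := by
  have h1 : Summable (fun m : ℕ => 4 * ((m : ℝ) ^ (3 / 2 : ℝ))⁻¹) :=
    (Real.summable_nat_rpow_inv.2 (by norm_num)).mul_left 4
  refine Summable.of_nonneg_of_le (fun m => ?_) (fun m => ?_) h1
  · rcases Nat.eq_zero_or_pos m with rfl | hm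
    · simp
    · have : 0 ≤ Real.log m := Real.log_nonneg (by exact_mod_cast hm)
      positivity
  · rcases Nat.eq_zero_or_pos m with rfl | hm
    · simp
    · have hm0 : (0 : ℝ) < m := by exact_mod_cast hm
      have h2 : Real.log m ≤ (m : ℝ) ^ (1 / 2 : ℝ) / (1 / 2) :=
        Real.log_le_rpow_div hm0.le (by norm_num)
      have h3 : (m : ℝ) ^ (2 : ℕ) = (m : ℝ) ^ (3 / 2 : ℝ) * (m : ℝ) ^ (1 / 2 : ℝ) := by
        rw [← Real.rpow_add hm0, ← Real.rpow_natCast]
        norm_num
      rw [h3]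
      have h4 : 0 < (m : ℝ) ^ (3 / 2 : ℝ) := Real.rpow_pos_of_pos hm0 _
      have h5 : 0 < (m : ℝ) ^ (1 / 2 : ℝ) := Real.rpow_pos_of_pos hm0 _
      rw [div_le_iff₀ (by positivity)]
      calc 2 * Real.log m ≤ 2 * ((m : ℝ) ^ (1 / 2 : ℝ) / (1 / 2)) := by linarith
        _ = 4 * ((m : ℝ) ^ (3 / 2 : ℝ))⁻¹ * ((m : ℝ) ^ (3 / 2 : ℝ) * (m : ℝ) ^ (1 / 2 : ℝ)) := by
          field_simp
          norm_num

/-- Mertens' first theorem, lower bound -/
lemma mertens_first_lower : ∃ C : ℝ, 0 ≤ C ∧ ∀ n : ℕ, 1 ≤ n →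
    Real.log n - C ≤ ∑ p ∈ Nat.primesLE n, Real.log p / p := by
  refine ⟨1 + ∑' m : ℕ, 2 * Real.log m / (m : ℝ) ^ 2, ?_, ?_⟩
  · have : 0 ≤ ∑' m : ℕ, 2 * Real.log m / (m : ℝ) ^ 2 := by
      refine tsum_nonneg fun m => ?_
      rcases Nat.eq_zero_or_pos m with rfl | hm
      · simp
      · have : 0 ≤ Real.log m := Real.log_nonneg (by exact_mod_cast hm)
        positivity
    linarith
  intro n hn
  have hn0 : (0 : ℝ) < n := by exact_mod_cast hn
  have h1 : (n : ℝ) * Real.log n - n ≤ Real.log (n.factorial : ℝ) := by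
    have := Stirling.le_log_factorial_stirling (n := n) (by omega)
    have h2 : 0 ≤ Real.log (n : ℝ) := Real.log_nonneg (by exact_mod_cast hn)
    have h3 : 0 ≤ Real.log (2 * Real.pi) := Real.log_nonneg (by linarith [Real.pi_gt_three])
    linarith
  have h2 : Real.log (n.factorial : ℝ) ≤
      ∑ p ∈ Nat.primesLE n, ((n : ℝ) * (Real.log p / p) + n * (2 * Real.log p / (p : ℝ) ^ 2)) := by
    rw [log_factorial_eq]
    refine sum_le_sum fun p hp => ?_
    have hpp : p.Prime := by
      rw [Nat.primesLE, Nat.mem_primesBelow] at hp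
      exact hp.2
    have hp2 : (2 : ℝ) ≤ p := by exact_mod_cast hpp.two_le
    have hlog : 0 ≤ Real.log p := Real.log_nonneg (by linarith)
    have h3 : ((n.factorial).factorization p : ℝ) ≤ n / (p - 1) := by
      have h4 := Nat.factorization_factorial_le_div_pred hpp n
      calc ((n.factorial).factorization p : ℝ) ≤ ((n / (p - 1) : ℕ) : ℝ) := by exact_mod_cast h4
        _ ≤ (n : ℝ) / ((p - 1 : ℕ) : ℝ) := Nat.cast_div_le
        _ = n / (p - 1) := by rw [Nat.cast_sub hpp.one_lt.le]; simp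
    have h5 : (n : ℝ) / (p - 1) ≤ n / p + n * (2 / (p : ℝ) ^ 2) := by
      have hp1 : (0 : ℝ) < p - 1 := by linarith
      have hp0 : (0 : ℝ) < p := by linarith
      have h7 : (n : ℝ) / (p - 1) - (n / p + n * (2 / (p : ℝ) ^ 2)) =
          n * ((2 - p) / ((p - 1) * p ^ 2)) := by
        field_simp
        ring
      have h8 : (2 - (p : ℝ)) / ((p - 1) * p ^ 2) ≤ 0 :=
        div_nonpos_of_nonpos_of_nonneg (by linarith) (by positivity)
      nlinarith [mul_nonneg hn0.le (neg_nonneg.2 h8)]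
    calc ((n.factorial).factorization p : ℝ) * Real.log p
        ≤ (n / p + n * (2 / (p : ℝ) ^ 2)) * Real.log p :=
          mul_le_mul_of_nonneg_right (h3.trans h5) hlog
      _ = (n : ℝ) * (Real.log p / p) + n * (2 * Real.log p / (p : ℝ) ^ 2) := by ring
  rw [sum_add_distrib, ← mul_sum, ← mul_sum] at h2
  have h3 : ∑ p ∈ Nat.primesLE n, 2 * Real.log p / (p : ℝ) ^ 2 ≤
      ∑' m : ℕ, 2 * Real.log m / (m : ℝ) ^ 2 := by
    refine log_div_sq_summable.sum_le_tsum _ fun m _ => ?_
    rcases Nat.eq_zero_or_pos m with rfl | hm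
    · simp
    · have : 0 ≤ Real.log m := Real.log_nonneg (by exact_mod_cast hm)
      positivity
  have h4 : (n : ℝ) * (Real.log n - (1 + ∑' m : ℕ, 2 * Real.log m / (m : ℝ) ^ 2)) ≤
      n * ∑ p ∈ Nat.primesLE n, Real.log p / p := by
    have := mul_le_mul_of_nonneg_left h3 hn0.le
    nlinarith
  exact le_of_mul_le_mul_left h4 hn0

end Pool.Agent.Lib_helper10.Erdos460
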