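import Mathlib
import Pool.Agent.Lib_helper10.Erdos460.Mertens

set_option autoImplicit false

namespace Pool.Agent.Lib_helper10.Erdos460

open Finset Filter Topology

lemma primesLE_succ (n : ℕ) (f : ℕ → ℝ) : ∑ p ∈ Nat.primesLE (n + 1), f p =
    ∑ p ∈ Nat.primesLE n, f p + if (n + 1).Prime then f (n + 1) else 0 := by
  rw [Nat.primesLE, Nat.primesBelow, range_add_one, filter_insert]
  split_ifs with h
  · rw [sum_insert]
    · rw [add_comm]; rfl
    · simp
  · simp [Nat.primesLE, Nat.primesBelow]

/-- two-sided Mertens first theorem -/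
lemma mertens_first : ∃ C : ℝ, 0 ≤ C ∧ ∀ n : ℕ, 1 ≤ n →
    |∑ p ∈ Nat.primesLE n, Real.log p / p - Real.log n| ≤ C := by
  obtain ⟨C, hC0, hC⟩ := mertens_first_lower
  refine ⟨C + Real.log 4, ?_, fun n hn => ?_⟩
  · have : 0 ≤ Real.log 4 := Real.log_nonneg (by norm_num)
    linarith
  · have h1 := hC n hn
    have h2 := mertens_first_upper n hn
    have : 0 ≤ Real.log 4 := Real.log_nonneg (by norm_num)
    rw [abs_le]
    constructor <;> linarith

lemma loglog_diff {n : ℕ} (hn : 2 ≤ n) :
    (Real.log (n + 1 : ℕ) - Real.log n) / Real.log (n + 1 : ℕ) ≤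
      Real.log (Real.log (n + 1 : ℕ)) - Real.log (Real.log n) ∧
    Real.log (Real.log (n + 1 : ℕ)) - Real.log (Real.log n) ≤
      (Real.log (n + 1 : ℕ) - Real.log n) / Real.log n := by
  have hnR : (2 : ℝ) ≤ n := by exact_mod_cast hn
  have hl0 : 0 < Real.log n := Real.log_pos (by linarith)
  have hl1 : Real.log n ≤ Real.log (n + 1 : ℕ) := Real.log_le_log (by linarith) (by push_cast; linarith)
  have hl2 : 0 < Real.log (n + 1 : ℕ) := lt_of_lt_of_le hl0 hl1
  rw [← Real.log_div hl2.ne' hl0.ne']
  constructor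
  · have h := Real.one_sub_inv_le_log_of_pos (div_pos hl2 hl0)
    rw [inv_div] at h
    calc (Real.log (n + 1 : ℕ) - Real.log n) / Real.log (n + 1 : ℕ)
        = 1 - Real.log n / Real.log (n + 1 : ℕ) := by field_simp
      _ ≤ _ := h
  · have h := Real.log_le_sub_one_of_pos (div_pos hl2 hl0)
    calc Real.log (Real.log (n + 1 : ℕ) / Real.log n)
        ≤ Real.log (n + 1 : ℕ) / Real.log n - 1 := h
      _ = _ := by field_simp

lemma log_succ_sub_le {n : ℕ} (hn : 1 ≤ n) :
    0 ≤ Real.log (n + 1 : ℕ) - Real.log n ∧ Real.log (n + 1 : ℕ) - Real.log n ≤ 1 / n := by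
  have hn0 : (0 : ℝ) < n := by exact_mod_cast hn
  constructor
  · have : Real.log n ≤ Real.log (n + 1 : ℕ) := Real.log_le_log hn0 (by push_cast; linarith)
    linarith
  · rw [← Real.log_div (by positivity) hn0.ne']
    have h := Real.log_le_sub_one_of_pos (x := ((n + 1 : ℕ) : ℝ) / n) (by positivity)
    refine h.trans (le_of_eq ?_)
    push_cast
    field_simp
    ring

/-- Mertens' second theorem with a rate. -/
theorem mertens_second : ∃ M C : ℝ, 0 ≤ C ∧ ∀ n : ℕ, 2 ≤ n →
    |∑ p ∈ Nat.primesLE n, (1 : ℝ) / p - Real.log (Real.log n) - M| ≤ C / Real.log n := by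
  obtain ⟨C0, hC0, hE⟩ := mertens_first
  set S : ℕ → ℝ := fun n => ∑ p ∈ Nat.primesLE n, Real.log p / p with hS
  set E : ℕ → ℝ := fun n => S n - Real.log n with hEdef
  set D : ℕ → ℝ := fun n => ∑ p ∈ Nat.primesLE n, (1 : ℝ) / p - Real.log (Real.log n) with hD
  set H : ℕ → ℝ := fun n => D n - E n / Real.log n with hH
  have hE' : ∀ n, 1 ≤ n → |E n| ≤ C0 := hE
  have hlogpos : ∀ n : ℕ, 2 ≤ n → 0 < Real.log n := fun n hn =>
    Real.log_pos (by exact_mod_cast hn)
  have hstep : ∀ n, 2 ≤ n → |H (n + 1) - H n| ≤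
      (C0 + 1) * (1 / Real.log n - 1 / Real.log (n + 1 : ℕ)) := by
    intro n hn
    have hn0 : (0 : ℝ) < n := by exact_mod_cast (by omega : 0 < n)
    have hl0 := hlogpos n hn
    have hl2 := hlogpos (n + 1) (by omega)
    obtain ⟨c0, c1⟩ := log_succ_sub_le (n := n) (by omega)
    obtain ⟨d0, d1⟩ := loglog_diff hn
    set c := Real.log (n + 1 : ℕ) - Real.log n with hc
    have hkey : H (n + 1) - H n = (c / Real.log (n + 1 : ℕ) -
        (Real.log (Real.log (n + 1 : ℕ)) - Real.log (Real.log n))) +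
        E n * (1 / Real.log n - 1 / Real.log (n + 1 : ℕ)) := by
      have e1 : D (n + 1) = ∑ p ∈ Nat.primesLE n, (1 : ℝ) / p +
          (if (n + 1).Prime then (1 : ℝ) / (n + 1 : ℕ) else 0) -
          Real.log (Real.log (n + 1 : ℕ)) := by
        simp only [hD]
        rw [primesLE_succ]
      have e2 : E (n + 1) = S n + (if (n + 1).Prime then Real.log (n + 1 : ℕ) / (n + 1 : ℕ) else 0)
          - Real.log (n + 1 : ℕ) := by
        simp only [hEdef, hS]
        rw [primesLE_succ]
      have e3 : D n = ∑ p ∈ Nat.primesLE n, (1 : ℝ) / p - Real.log (Real.log n) := rfl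
      have e4 : E n = S n - Real.log n := rfl
      simp only [hH]
      rw [e1, e2, e3, e4]
      have hn1 : ((n + 1 : ℕ) : ℝ) ≠ 0 := by positivity
      split_ifs with hp
      · field_simp
        ring
      · field_simp
        ring
    rw [hkey]
    have hdiff : 0 ≤ 1 / Real.log n - 1 / Real.log (n + 1 : ℕ) := by
      have : 1 / Real.log (n + 1 : ℕ) ≤ 1 / Real.log n :=
        one_div_le_one_div_of_le hl0 (by linarith)
      linarith
    have hA : |c / Real.log (n + 1 : ℕ) -
        (Real.log (Real.log (n + 1 : ℕ)) - Real.log (Real.log n))| ≤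
        1 / Real.log n - 1 / Real.log (n + 1 : ℕ) := by
      have hc1 : c ≤ 1 := by
        refine c1.trans ?_
        rw [div_le_one hn0]
        exact_mod_cast (by omega : 1 ≤ n)
      have h1 : c / Real.log n - c / Real.log (n + 1 : ℕ) ≤
          1 / Real.log n - 1 / Real.log (n + 1 : ℕ) := by
        have : c / Real.log n - c / Real.log (n + 1 : ℕ) =
          c * (1 / Real.log n - 1 / Real.log (n + 1 : ℕ)) := by ring
        rw [this]
        calc c * (1 / Real.log n - 1 / Real.log (n + 1 : ℕ))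
            ≤ 1 * (1 / Real.log n - 1 / Real.log (n + 1 : ℕ)) :=
              mul_le_mul_of_nonneg_right hc1 hdiff
          _ = _ := one_mul _
      rw [abs_le]
      constructor <;> linarith
    have hB : |E n * (1 / Real.log n - 1 / Real.log (n + 1 : ℕ))| ≤
        C0 * (1 / Real.log n - 1 / Real.log (n + 1 : ℕ)) := by
      rw [abs_mul, abs_of_nonneg hdiff]
      exact mul_le_mul_of_nonneg_right (hE' n (by omega)) hdiff
    refine (abs_add_le _ _).trans ?_
    linarith
  have hHmn : ∀ m n, 2 ≤ m → m ≤ n → |H n - H m| ≤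
      (C0 + 1) * (1 / Real.log m - 1 / Real.log n) := by
    intro m n hm hmn
    induction n, hmn using Nat.le_induction with
    | base => simp
    | succ n hmn ih =>
      have h1 := hstep n (by omega)
      have e : H (n + 1) - H m = (H (n + 1) - H n) + (H n - H m) := by ring
      rw [e]
      refine (abs_add_le _ _).trans ?_
      linarith
  have hHmn' : ∀ m n, 2 ≤ m → m ≤ n → |H n - H m| ≤ (C0 + 1) / Real.log m := by
    intro m n hm hmn
    refine (hHmn m n hm hmn).trans ?_
    have h1 := hlogpos n (by omega)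
    have : (C0 + 1) * (1 / Real.log m - 1 / Real.log n) =
      (C0 + 1) / Real.log m - (C0 + 1) * (1 / Real.log n) := by ring
    rw [this]
    have : 0 ≤ (C0 + 1) * (1 / Real.log n) := by positivity
    linarith
  -- Cauchy
  have htend : Tendsto (fun m : ℕ => 2 * ((C0 + 1) / Real.log ((m + 2 : ℕ) : ℝ))) atTop (𝓝 0) := by
    have h1 : Tendsto (fun m : ℕ => Real.log ((m + 2 : ℕ) : ℝ)) atTop atTop := by
      refine Real.tendsto_log_atTop.comp ?_
      exact tendsto_natCast_atTop_atTop.comp (tendsto_add_atTop_nat 2)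
    have h2 : Tendsto (fun m : ℕ => (C0 + 1) / Real.log ((m + 2 : ℕ) : ℝ)) atTop (𝓝 0) :=
      h1.const_div_atTop _
    simpa using h2.const_mul 2
  have hcauchy : CauchySeq (fun n => H (n + 2)) := by
    refine cauchySeq_of_le_tendsto_0 _ (fun n m N hn hm => ?_) htend
    rw [Real.dist_eq]
    have h1 := hHmn' (N + 2) (n + 2) (by omega) (by omega)
    have h2 := hHmn' (N + 2) (m + 2) (by omega) (by omega)
    have e : H (n + 2) - H (m + 2) = (H (n + 2) - H (N + 2)) - (H (m + 2) - H (N + 2)) := by ring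
    rw [e]
    refine (abs_sub _ _).trans ?_
    linarith
  obtain ⟨M, hM⟩ := cauchySeq_tendsto_of_complete hcauchy
  refine ⟨M, (C0 + 1) + C0, by linarith, fun n hn => ?_⟩
  have hl := hlogpos n hn
  have hlim : |M - H n| ≤ (C0 + 1) / Real.log n := by
    have ht : Tendsto (fun k => |H (k + 2) - H n|) atTop (𝓝 |M - H n|) :=
      (hM.sub_const _).abs
    refine le_of_tendsto ht ?_
    filter_upwards [eventually_ge_atTop n] with k hk
    exact hHmn' n (k + 2) hn (by omega)
  have hDH : D n - H n = E n / Real.log n := by simp only [hH]; ring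
  have hE1 : |E n / Real.log n| ≤ C0 / Real.log n := by
    rw [abs_div, abs_of_pos hl]
    exact div_le_div_of_nonneg_right (hE' n (by omega)) hl.le
  have e : D n - M = (D n - H n) - (M - H n) := by ring
  have : |D n - M| ≤ ((C0 + 1) + C0) / Real.log n := by
    rw [e, hDH]
    refine (abs_sub _ _).trans ?_
    rw [add_div]
    linarith
  exact this

end Pool.Agent.Lib_helper10.Erdos460
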