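import Mathlib

set_option autoImplicit false

namespace Pool.Agent.Lib_helper10.Erdos460

open Finset

/-- number of elements of a residue class in an interval -/
lemma count_modEq (M N m c : ℕ) (hm : 0 < m) :
    |((((Ioc M (M + N)).filter (fun n => n ≡ c [MOD m])).card : ℕ) : ℝ) - (N : ℝ) / m| ≤ 1 := by
  have h := Nat.Ioc_filter_modEq_card M (M + N) hm c
  set X := ((Ioc M (M + N)).filter (fun n => n ≡ c [MOD m])).card with hX
  have hmR : (0 : ℚ) < m := by exact_mod_cast hm
  set u : ℚ := (((M + N : ℕ) : ℚ) - (c : ℚ)) / (m : ℚ) with hu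
  set v : ℚ := ((M : ℚ) - (c : ℚ)) / (m : ℚ) with hv
  have huv : u - v = (N : ℚ) / m := by
    rw [hu, hv, ← sub_div]
    congr 1
    push_cast
    ring
  have hvu : v ≤ u := by
    have : 0 ≤ u - v := by rw [huv]; positivity
    linarith
  have hfl : ⌊v⌋ ≤ ⌊u⌋ := Int.floor_le_floor hvu
  rw [max_eq_left (by omega)] at h
  have hXq : (X : ℚ) = (⌊u⌋ : ℚ) - (⌊v⌋ : ℚ) := by
    have : ((X : ℤ) : ℚ) = ((⌊u⌋ - ⌊v⌋ : ℤ) : ℚ) := by exact_mod_cast congrArg (fun t : ℤ => (t : ℚ)) h
    push_cast at this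
    exact this
  have h1 := Int.floor_le u
  have h2 := Int.lt_floor_add_one u
  have h3 := Int.floor_le v
  have h4 := Int.lt_floor_add_one v
  have hq : |(X : ℚ) - (N : ℚ) / m| ≤ 1 := by
    rw [hXq, ← huv, abs_le]
    constructor <;> linarith
  have : ((|(X : ℚ) - (N : ℚ) / m| : ℚ) : ℝ) ≤ ((1 : ℚ) : ℝ) := by exact_mod_cast hq
  push_cast at this
  exact this

/-- the CRT count with residue sets -/
lemma count_crt (M N : ℕ) (B : ℕ → Finset ℕ) (T : Finset ℕ) :
    (∀ q ∈ T, q.Prime) → (∀ q ∈ T, ∀ r ∈ B q, r < q) →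
    ∀ (m c : ℕ), 0 < m → (∀ q ∈ T, Nat.Coprime m q) →
    |((((Ioc M (M + N)).filter (fun n => n ≡ c [MOD m] ∧ ∀ q ∈ T, n % q ∈ B q)).card : ℕ) : ℝ)
      - (N : ℝ) / m * ∏ q ∈ T, (((B q).card : ℝ) / q)| ≤ ∏ q ∈ T, ((B q).card : ℝ) := by
  classical
  induction T using Finset.induction_on with
  | empty =>
    intro _ _ m c hm _
    simpa using count_modEq M N m c hm
  | insert q T hq ih =>
    intro hprime hB m c hm hcop
    have hqp : q.Prime := hprime q (mem_insert_self _ _)
    have hq0 : 0 < q := hqp.pos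
    have hmq : Nat.Coprime m q := hcop q (mem_insert_self _ _)
    have ih' := ih (fun r hr => hprime r (mem_insert_of_mem hr))
      (fun r hr => hB r (mem_insert_of_mem hr))
    -- decompose
    have hset : ((Ioc M (M + N)).filter
        (fun n => n ≡ c [MOD m] ∧ ∀ q' ∈ insert q T, n % q' ∈ B q')) =
        (B q).biUnion (fun r => (Ioc M (M + N)).filter
          (fun n => n ≡ (Nat.chineseRemainder hmq c r : ℕ) [MOD (m * q)] ∧
            ∀ q' ∈ T, n % q' ∈ B q')) := by
      ext n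
      simp only [mem_filter, mem_biUnion, mem_insert, forall_eq_or_imp]
      constructor
      · rintro ⟨hn, hc, hr, hT⟩
        refine ⟨n % q, hr, hn, ?_, hT⟩
        have h2 := (Nat.chineseRemainder hmq c (n % q)).2
        rw [← Nat.modEq_and_modEq_iff_modEq_mul hmq]
        refine ⟨hc.trans h2.1.symm, ?_⟩
        exact ((Nat.mod_modEq n q).symm).trans h2.2.symm
      · rintro ⟨r, hr, hn, hc, hT⟩
        have h2 := (Nat.chineseRemainder hmq c r).2
        rw [← Nat.modEq_and_modEq_iff_modEq_mul hmq] at hc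
        refine ⟨hn, hc.1.trans h2.1, ?_, hT⟩
        have h3 : n ≡ r [MOD q] := hc.2.trans h2.2
        have h4 : n % q = r := by
          have := h3
          rw [Nat.ModEq, Nat.mod_eq_of_lt (hB q (mem_insert_self _ _) r hr)] at this
          exact this
        rw [h4]
        exact hr
    have hdisj : ∀ r ∈ B q, ∀ r' ∈ B q, r ≠ r' → Disjoint
        ((Ioc M (M + N)).filter
          (fun n => n ≡ (Nat.chineseRemainder hmq c r : ℕ) [MOD (m * q)] ∧
            ∀ q' ∈ T, n % q' ∈ B q'))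
        ((Ioc M (M + N)).filter
          (fun n => n ≡ (Nat.chineseRemainder hmq c r' : ℕ) [MOD (m * q)] ∧
            ∀ q' ∈ T, n % q' ∈ B q')) := by
      intro r hr r' hr' hne
      rw [Finset.disjoint_left]
      intro n hn hn'
      simp only [mem_filter] at hn hn'
      have h2 := (Nat.chineseRemainder hmq c r).2
      have h2' := (Nat.chineseRemainder hmq c r').2
      have e1 := hn.2.1
      have e2 := hn'.2.1
      rw [← Nat.modEq_and_modEq_iff_modEq_mul hmq] at e1 e2
      have h3 : r ≡ r' [MOD q] := (h2.2.symm.trans e1.2.symm).trans (e2.2.trans h2'.2)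
      rw [Nat.ModEq, Nat.mod_eq_of_lt (hB q (mem_insert_self _ _) r hr),
        Nat.mod_eq_of_lt (hB q (mem_insert_self _ _) r' hr')] at h3
      exact hne h3
    rw [hset, card_biUnion hdisj, prod_insert hq, prod_insert hq]
    have hmq0 : 0 < m * q := Nat.mul_pos hm hq0
    have hbound : ∀ r ∈ B q,
        |(((((Ioc M (M + N)).filter
          (fun n => n ≡ (Nat.chineseRemainder hmq c r : ℕ) [MOD (m * q)] ∧
            ∀ q' ∈ T, n % q' ∈ B q')).card : ℕ) : ℝ)
          - (N : ℝ) / ((m * q : ℕ) : ℝ) * ∏ q' ∈ T, (((B q').card : ℝ) / q'))| ≤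
          ∏ q' ∈ T, ((B q').card : ℝ) := by
      intro r hr
      refine ih' (m * q) _ hmq0 ?_
      intro q' hq'
      refine Nat.Coprime.mul_left (hcop q' (mem_insert_of_mem hq')) ?_
      rw [Nat.coprime_primes hqp (hprime q' (mem_insert_of_mem hq'))]
      rintro rfl
      exact hq hq'
    have hsum := Finset.sum_le_sum hbound
    rw [sum_const, nsmul_eq_mul] at hsum
    refine le_trans ?_ hsum
    refine le_trans (le_of_eq ?_) (Finset.abs_sum_le_sum_abs _ _)
    congr 1
    rw [Finset.sum_sub_distrib, sum_const, nsmul_eq_mul]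
    push_cast
    congr 1
    have hmR : (m : ℝ) ≠ 0 := by exact_mod_cast hm.ne'
    have hqR : (q : ℝ) ≠ 0 := by exact_mod_cast hq0.ne'
    field_simp

/-- elementary symmetric sums -/
noncomputable def esm (s : Finset ℕ) (x : ℕ → ℝ) (k : ℕ) : ℝ :=
  ∑ T ∈ s.powersetCard k, ∏ q ∈ T, x q

lemma esm_zero (s : Finset ℕ) (x : ℕ → ℝ) : esm s x 0 = 1 := by
  simp [esm]

lemma esm_empty_succ (x : ℕ → ℝ) (k : ℕ) : esm ∅ x (k + 1) = 0 := by
  have : powersetCard (k + 1) (∅ : Finset ℕ) = ∅ := powersetCard_eq_empty.2 (by simp)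
  rw [esm, this, sum_empty]

lemma esm_insert (s : Finset ℕ) (x : ℕ → ℝ) (k : ℕ) (p : ℕ) (hp : p ∉ s) :
    esm (insert p s) x (k + 1) = esm s x (k + 1) + x p * esm s x k := by
  classical
  unfold esm
  rw [powersetCard_succ_insert hp, sum_union]
  · congr 1
    rw [mul_sum, sum_image]
    · refine sum_congr rfl fun T hT => ?_
      rw [prod_insert]
      exact fun h => hp ((mem_powersetCard.1 hT).1 h)
    · intro T hT T' hT' h
      have h1 : p ∉ T := fun h => hp ((mem_powersetCard.1 hT).1 h)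
      have h2 : p ∉ T' := fun h => hp ((mem_powersetCard.1 hT').1 h)
      have := congrArg (fun S => S.erase p) h
      simpa [erase_insert h1, erase_insert h2] using this
  · rw [Finset.disjoint_left]
    intro T hT hT'
    rw [mem_image] at hT'
    obtain ⟨T', -, rfl⟩ := hT'
    exact hp ((mem_powersetCard.1 hT).1 (mem_insert_self _ _))

lemma esm_nonneg (s : Finset ℕ) (x : ℕ → ℝ) (hx : ∀ q ∈ s, 0 ≤ x q) (k : ℕ) :
    0 ≤ esm s x k := by
  unfold esm
  refine sum_nonneg fun T hT => prod_nonneg fun q hq => hx q ((mem_powersetCard.1 hT).1 hq)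

/-- truncated inclusion-exclusion sum (sizes `< k`) -/
noncomputable def tru (s : Finset ℕ) (x : ℕ → ℝ) (k : ℕ) : ℝ :=
  ∑ j ∈ range k, (-1 : ℝ) ^ j * esm s x j

lemma tru_insert (s : Finset ℕ) (x : ℕ → ℝ) (k : ℕ) (p : ℕ) (hp : p ∉ s) :
    tru (insert p s) x (k + 1) = tru s x (k + 1) - x p * tru s x k := by
  unfold tru
  rw [sum_range_succ', sum_range_succ' (fun j => (-1 : ℝ) ^ j * esm s x j), mul_sum]
  simp only [esm_zero, esm_insert s x _ p hp, pow_succ]
  have : ∀ j ∈ range k, (-1 : ℝ) ^ j * -1 * (esm s x (j + 1) + x p * esm s x j) =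
      (-1 : ℝ) ^ j * -1 * esm s x (j + 1) - x p * ((-1) ^ j * esm s x j) := by
    intro j _; ring
  rw [sum_congr rfl this, sum_sub_distrib]
  ring

/-- Bonferroni inequalities in product form. -/
lemma bonferroni (s : Finset ℕ) (x : ℕ → ℝ) (hx0 : ∀ q ∈ s, 0 ≤ x q) (hx1 : ∀ q ∈ s, x q ≤ 1) :
    ∀ k, 0 ≤ (-1 : ℝ) ^ k * (∏ q ∈ s, (1 - x q) - tru s x k) ∧
      (-1 : ℝ) ^ k * (∏ q ∈ s, (1 - x q) - tru s x k) ≤ esm s x k := by
  classical
  induction s using Finset.induction_on with
  | empty =>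
    intro k
    rcases k with _ | k
    · simp [tru, esm_zero]
    · have : tru ∅ x (k + 1) = 1 := by
        unfold tru
        rw [sum_range_succ']
        simp [esm_zero, esm_empty_succ]
      rw [this, esm_empty_succ]
      simp
  | insert p s hp ih =>
    have hx0' : ∀ q ∈ s, 0 ≤ x q := fun q hq => hx0 q (mem_insert_of_mem hq)
    have hx1' : ∀ q ∈ s, x q ≤ 1 := fun q hq => hx1 q (mem_insert_of_mem hq)
    have ih' := ih hx0' hx1'
    have hp0 : 0 ≤ x p := hx0 p (mem_insert_self _ _)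
    have hp1 : x p ≤ 1 := hx1 p (mem_insert_self _ _)
    intro k
    rcases k with _ | k
    · have h0 := ih' 0
      simp only [pow_zero, tru, range_zero, sum_empty, sub_zero, one_mul, esm_zero] at h0 ⊢
      rw [prod_insert hp]
      constructor
      · exact mul_nonneg (by linarith) h0.1
      · calc (1 - x p) * ∏ q ∈ s, (1 - x q) ≤ 1 * 1 :=
              mul_le_mul (by linarith) h0.2 h0.1 (by norm_num)
          _ = 1 := by norm_num
    · have h1 := ih' (k + 1)
      have h0 := ih' k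
      rw [prod_insert hp, tru_insert s x k p hp, esm_insert s x k p hp]
      have key : (-1 : ℝ) ^ (k + 1) * ((1 - x p) * ∏ q ∈ s, (1 - x q)
          - (tru s x (k + 1) - x p * tru s x k)) =
          (-1 : ℝ) ^ (k + 1) * (∏ q ∈ s, (1 - x q) - tru s x (k + 1)) +
          x p * ((-1 : ℝ) ^ k * (∏ q ∈ s, (1 - x q) - tru s x k)) := by
        rw [pow_succ]
        ring
      rw [key]
      constructor
      · exact add_nonneg h1.1 (mul_nonneg hp0 h0.1)
      · exact add_le_add h1.2 (mul_le_mul_of_nonneg_left h0.2 hp0)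

lemma abs_bonferroni (s : Finset ℕ) (x : ℕ → ℝ) (hx0 : ∀ q ∈ s, 0 ≤ x q)
    (hx1 : ∀ q ∈ s, x q ≤ 1) (k : ℕ) :
    |∏ q ∈ s, (1 - x q) - tru s x k| ≤ esm s x k := by
  have h := bonferroni s x hx0 hx1 k
  have : |∏ q ∈ s, (1 - x q) - tru s x k| =
      |(-1 : ℝ) ^ k * (∏ q ∈ s, (1 - x q) - tru s x k)| := by
    rw [abs_mul, abs_pow]
    simp
  rw [this, abs_of_nonneg h.1]
  exact h.2

/-- `e_k ≤ (∑ x)^k / k!` -/
lemma esm_le (s : Finset ℕ) (x : ℕ → ℝ) (hx : ∀ q ∈ s, 0 ≤ x q) :
    ∀ k, esm s x k ≤ (∑ q ∈ s, x q) ^ k / (k.factorial : ℝ) := by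
  classical
  induction s using Finset.induction_on with
  | empty =>
    intro k
    rcases k with _ | k
    · simp [esm_zero]
    · rw [esm_empty_succ]; simp
  | insert p s hp ih =>
    have hx' : ∀ q ∈ s, 0 ≤ x q := fun q hq => hx q (mem_insert_of_mem hq)
    have ih' := ih hx'
    have hp0 : 0 ≤ x p := hx p (mem_insert_self _ _)
    have hS : 0 ≤ ∑ q ∈ s, x q := sum_nonneg hx'
    intro k
    rcases k with _ | k
    · simp [esm_zero]
    · rw [esm_insert s x k p hp, sum_insert hp]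
      have hf : ((k + 1).factorial : ℝ) = (k + 1) * (k.factorial : ℝ) := by
        rw [Nat.factorial_succ]; push_cast; ring
      have hfpos : (0 : ℝ) < (k.factorial : ℝ) := by exact_mod_cast Nat.factorial_pos k
      have hbin : ∀ k : ℕ, (∑ q ∈ s, x q) ^ (k + 1) + (k + 1) * (x p * (∑ q ∈ s, x q) ^ k) ≤
          (x p + ∑ q ∈ s, x q) ^ (k + 1) := by
        intro k
        set S := ∑ q ∈ s, x q
        induction k with
        | zero => simp; linarith
        | succ k ihk =>
          have h1 : S ^ (k + 1) ≤ (x p + S) ^ (k + 1) := pow_le_pow_left₀ hS (by linarith) _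
          have h2 : (0 : ℝ) ≤ x p + S := by linarith
          calc S ^ (k + 1 + 1) + ((k + 1 : ℕ) + 1) * (x p * S ^ (k + 1))
              = S * (S ^ (k + 1) + (k + 1) * (x p * S ^ k)) + x p * S ^ (k + 1) := by
                push_cast; ring
            _ ≤ S * (x p + S) ^ (k + 1) + x p * (x p + S) ^ (k + 1) :=
                add_le_add (mul_le_mul_of_nonneg_left ihk hS)
                  (mul_le_mul_of_nonneg_left h1 hp0)
            _ = (x p + S) ^ (k + 1 + 1) := by ring
      have h1 := ih' (k + 1)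
      have h2 := mul_le_mul_of_nonneg_left (ih' k) hp0
      calc esm s x (k + 1) + x p * esm s x k
          ≤ (∑ q ∈ s, x q) ^ (k + 1) / ((k + 1).factorial : ℝ)
            + x p * ((∑ q ∈ s, x q) ^ k / (k.factorial : ℝ)) := add_le_add h1 h2
        _ = ((∑ q ∈ s, x q) ^ (k + 1) + (k + 1) * (x p * (∑ q ∈ s, x q) ^ k)) /
            ((k + 1).factorial : ℝ) := by
            rw [hf]; field_simp
        _ ≤ (x p + ∑ q ∈ s, x q) ^ (k + 1) / ((k + 1).factorial : ℝ) := by
            exact div_le_div_of_nonneg_right (hbin k) (by positivity)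

end Pool.Agent.Lib_helper10.Erdos460
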