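import Mathlib
import Pool.Agent.Lib_helper10.Erdos460.Count

set_option autoImplicit false

namespace Pool.Agent.Lib_helper10.Erdos460

open Finset

lemma tru_sum_bound (s : Finset ℕ) (β : ℕ → ℝ) (hβ0 : ∀ q ∈ s, 0 ≤ β q) (hβ2 : ∀ q ∈ s, β q ≤ 2)
    (z : ℝ) (hz : (s.card : ℝ) ≤ z) (hz1 : 1 ≤ z) (k : ℕ) :
    ∑ j ∈ range (k + 1), esm s β j ≤ 3 * (2 * z) ^ k := by
  have hsum : ∑ q ∈ s, β q ≤ 2 * z := by
    calc ∑ q ∈ s, β q ≤ ∑ _q ∈ s, (2 : ℝ) := sum_le_sum hβ2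
      _ = s.card * 2 := by rw [sum_const, nsmul_eq_mul]
      _ ≤ 2 * z := by linarith
  have hsum0 : 0 ≤ ∑ q ∈ s, β q := sum_nonneg hβ0
  have h1 : ∀ j ∈ range (k + 1), esm s β j ≤ (2 * z) ^ k * ((1 : ℝ) ^ j / (j.factorial : ℝ)) := by
    intro j hj
    have hjk : j ≤ k := Nat.lt_succ_iff.1 (mem_range.1 hj)
    calc esm s β j ≤ (∑ q ∈ s, β q) ^ j / (j.factorial : ℝ) := esm_le s β hβ0 j
      _ ≤ (2 * z) ^ j / (j.factorial : ℝ) :=
          div_le_div_of_nonneg_right (pow_le_pow_left₀ hsum0 hsum j) (by positivity)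
      _ ≤ (2 * z) ^ k / (j.factorial : ℝ) :=
          div_le_div_of_nonneg_right (pow_le_pow_right₀ (by linarith) hjk) (by positivity)
      _ = _ := by rw [one_pow]; ring
  refine (sum_le_sum h1).trans ?_
  rw [← mul_sum]
  have h2 : ∑ j ∈ range (k + 1), (1 : ℝ) ^ j / (j.factorial : ℝ) ≤ 3 := by
    refine (Real.sum_le_exp_of_nonneg (by norm_num : (0 : ℝ) ≤ 1) (k + 1)).trans ?_
    have := Real.exp_one_lt_d9
    linarith
  calc (2 * z) ^ k * ∑ j ∈ range (k + 1), (1 : ℝ) ^ j / (j.factorial : ℝ)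
      ≤ (2 * z) ^ k * 3 := mul_le_mul_of_nonneg_left h2 (by positivity)
    _ = 3 * (2 * z) ^ k := by ring

/-- Brun's pure sieve, for up to two residue classes per prime, in an interval and inside a
residue class modulo `m`. -/
theorem brun_pure (M N m c : ℕ) (hm : 0 < m) (P : Finset ℕ) (hP : ∀ q ∈ P, q.Prime)
    (hcop : ∀ q ∈ P, Nat.Coprime m q) (B : ℕ → Finset ℕ) (hB : ∀ q ∈ P, ∀ r ∈ B q, r < q)
    (hB2 : ∀ q ∈ P, (B q).card ≤ 2) (z : ℝ) (hz : (P.card : ℝ) ≤ z) (hz1 : 1 ≤ z) (k : ℕ)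
    (lam : ℝ) (hlam : ∑ q ∈ P, (((B q).card : ℝ) / q) ≤ lam) :
    |((((Ioc M (M + N)).filter (fun n => n ≡ c [MOD m] ∧ ∀ q ∈ P, n % q ∉ B q)).card : ℕ) : ℝ)
      - (N : ℝ) / m * ∏ q ∈ P, (1 - ((B q).card : ℝ) / q)| ≤
      2 * ((N : ℝ) / m * (lam ^ k / (k.factorial : ℝ))) + 3 * (2 * z) ^ k := by
  classical
  set I := (Ioc M (M + N)).filter (fun n => n ≡ c [MOD m]) with hI
  set ρ : ℕ → ℝ := fun q => ((B q).card : ℝ) / q with hρ
  set β : ℕ → ℝ := fun q => ((B q).card : ℝ) with hβ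
  set ind : ℕ → ℕ → ℝ := fun n q => if n % q ∈ B q then 1 else 0 with hind
  have hind0 : ∀ n q, 0 ≤ ind n q := by intro n q; simp only [hind]; split_ifs <;> norm_num
  have hind1 : ∀ n q, ind n q ≤ 1 := by intro n q; simp only [hind]; split_ifs <;> norm_num
  have hρ0 : ∀ q ∈ P, 0 ≤ ρ q := fun q _ => by positivity
  have hρ1 : ∀ q ∈ P, ρ q ≤ 1 := by
    intro q hq
    have h1 : (B q).card ≤ q := by
      have : B q ⊆ range q := fun r hr => mem_range.2 (hB q hq r hr)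
      simpa using card_le_card this
    have hq0 : (0 : ℝ) < q := by exact_mod_cast (hP q hq).pos
    simp only [hρ]
    rw [div_le_one hq0]
    exact_mod_cast h1
  -- product of indicators
  have hprodind : ∀ n, ∀ T : Finset ℕ, ∏ q ∈ T, ind n q =
      if (∀ q ∈ T, n % q ∈ B q) then 1 else 0 := by
    intro n T
    split_ifs with h
    · exact prod_eq_one fun q hq => by simp [hind, h q hq]
    · push Not at h
      obtain ⟨q, hq, hqn⟩ := h
      exact prod_eq_zero hq (by simp [hind, hqn])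
  -- sums of esm of indicators
  have hcnt : ∀ T ∈ P.powerset, |∑ n ∈ I, ∏ q ∈ T, ind n q - (N : ℝ) / m * ∏ q ∈ T, ρ q| ≤
      ∏ q ∈ T, β q := by
    intro T hT
    have hTP : T ⊆ P := mem_powerset.1 hT
    have h1 := count_crt M N B T (fun q hq => hP q (hTP hq)) (fun q hq => hB q (hTP hq)) m c hm
      (fun q hq => hcop q (hTP hq))
    have h2 : ∑ n ∈ I, ∏ q ∈ T, ind n q =
        ((((Ioc M (M + N)).filter (fun n => n ≡ c [MOD m] ∧ ∀ q ∈ T, n % q ∈ B q)).card : ℕ) : ℝ)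
        := by
      simp only [hprodind]
      rw [sum_boole, hI, filter_filter]
    rw [h2]
    exact h1
  have hesm : ∀ j, |∑ n ∈ I, esm P (ind n) j - (N : ℝ) / m * esm P ρ j| ≤ esm P β j := by
    intro j
    unfold esm
    rw [sum_comm, mul_sum, ← sum_sub_distrib]
    refine (abs_sum_le_sum_abs _ _).trans (sum_le_sum fun T hT => ?_)
    exact hcnt T (mem_powerset.2 (mem_powersetCard.1 hT).1)
  have htru : |∑ n ∈ I, tru P (ind n) k - (N : ℝ) / m * tru P ρ k| ≤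
      ∑ j ∈ range k, esm P β j := by
    unfold tru
    rw [sum_comm, mul_sum, ← sum_sub_distrib]
    refine (abs_sum_le_sum_abs _ _).trans (sum_le_sum fun j _ => ?_)
    have : ∑ n ∈ I, (-1 : ℝ) ^ j * esm P (ind n) j - (N : ℝ) / m * ((-1) ^ j * esm P ρ j) =
        (-1 : ℝ) ^ j * (∑ n ∈ I, esm P (ind n) j - (N : ℝ) / m * esm P ρ j) := by
      rw [← mul_sum]; ring
    rw [this, abs_mul, abs_pow]
    simpa using hesm j
  have hgood : ((((Ioc M (M + N)).filter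
      (fun n => n ≡ c [MOD m] ∧ ∀ q ∈ P, n % q ∉ B q)).card : ℕ) : ℝ) =
      ∑ n ∈ I, ∏ q ∈ P, (1 - ind n q) := by
    have : ∀ n, ∏ q ∈ P, (1 - ind n q) = if (∀ q ∈ P, n % q ∉ B q) then 1 else 0 := by
      intro n
      split_ifs with h
      · exact prod_eq_one fun q hq => by simp [hind, h q hq]
      · push Not at h
        obtain ⟨q, hq, hqn⟩ := h
        exact prod_eq_zero hq (by simp [hind, hqn])
    simp only [this]
    rw [sum_boole, hI, filter_filter]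
  have hb1 : |∑ n ∈ I, ∏ q ∈ P, (1 - ind n q) - ∑ n ∈ I, tru P (ind n) k| ≤
      ∑ n ∈ I, esm P (ind n) k := by
    rw [← sum_sub_distrib]
    refine (abs_sum_le_sum_abs _ _).trans (sum_le_sum fun n _ => ?_)
    exact abs_bonferroni P (ind n) (fun q _ => hind0 n q) (fun q _ => hind1 n q) k
  have hb2 : |∏ q ∈ P, (1 - ρ q) - tru P ρ k| ≤ esm P ρ k :=
    abs_bonferroni P ρ hρ0 hρ1 k
  have hNm : 0 ≤ (N : ℝ) / m := by positivity
  have hb3 : ∑ n ∈ I, esm P (ind n) k ≤ (N : ℝ) / m * esm P ρ k + esm P β k := by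
    have := (abs_le.1 (hesm k)).2
    linarith
  have hb4 : |(N : ℝ) / m * tru P ρ k - (N : ℝ) / m * ∏ q ∈ P, (1 - ρ q)| ≤
      (N : ℝ) / m * esm P ρ k := by
    rw [← mul_sub, abs_mul, abs_of_nonneg hNm, abs_sub_comm]
    exact mul_le_mul_of_nonneg_left hb2 hNm
  have hρe : esm P ρ k ≤ lam ^ k / (k.factorial : ℝ) := by
    refine (esm_le P ρ hρ0 k).trans ?_
    exact div_le_div_of_nonneg_right (pow_le_pow_left₀ (sum_nonneg hρ0) hlam k) (by positivity)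
  have hβe : ∑ j ∈ range (k + 1), esm P β j ≤ 3 * (2 * z) ^ k :=
    tru_sum_bound P β (fun q _ => by positivity)
      (fun q hq => by simp only [hβ]; exact_mod_cast hB2 q hq) z hz hz1 k
  rw [sum_range_succ] at hβe
  rw [hgood]
  have hfin : |∑ n ∈ I, ∏ q ∈ P, (1 - ind n q) - (N : ℝ) / m * ∏ q ∈ P, (1 - ρ q)| ≤
      ((N : ℝ) / m * esm P ρ k + esm P β k) + ∑ j ∈ range k, esm P β j +
        (N : ℝ) / m * esm P ρ k := by
    have e1 : ∑ n ∈ I, ∏ q ∈ P, (1 - ind n q) - (N : ℝ) / m * ∏ q ∈ P, (1 - ρ q) =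
      (∑ n ∈ I, ∏ q ∈ P, (1 - ind n q) - ∑ n ∈ I, tru P (ind n) k) +
      (∑ n ∈ I, tru P (ind n) k - (N : ℝ) / m * tru P ρ k) +
      ((N : ℝ) / m * tru P ρ k - (N : ℝ) / m * ∏ q ∈ P, (1 - ρ q)) := by ring
    rw [e1]
    refine (abs_add_le _ _).trans (add_le_add ((abs_add_le _ _).trans (add_le_add ?_ htru)) hb4)
    exact hb1.trans hb3
  refine hfin.trans ?_
  have := mul_le_mul_of_nonneg_left hρe hNm
  linarith

end Pool.Agent.Lib_helper10.Erdos460
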