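import Mathlib

set_option autoImplicit false

namespace Pool.Agent.Lib_helper10.Erdos460

open Finset

/-- number of distinct classes among `0, h` modulo `q` -/
def cq (q h : ℕ) : ℕ := if q ∣ h then 1 else 2

/-- local correlation factor -/
noncomputable def rq (q h : ℕ) : ℝ := (1 - (cq q h : ℝ) / q) / (1 - 1 / (q : ℝ)) ^ 2

lemma cq_le_two (q h : ℕ) : cq q h ≤ 2 := by unfold cq; split_ifs <;> norm_num

lemma rq_nonneg {q : ℕ} (hq : q.Prime) (h : ℕ) : 0 ≤ rq q h := by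
  have hq2 : (2 : ℝ) ≤ q := by exact_mod_cast hq.two_le
  unfold rq
  refine div_nonneg ?_ (sq_nonneg _)
  have h1 : (cq q h : ℝ) ≤ 2 := by exact_mod_cast cq_le_two q h
  have : (cq q h : ℝ) / q ≤ 1 := by
    rw [div_le_one (by linarith)]
    linarith
  linarith

lemma sum_Icc_dvd (f : ℕ → ℝ) (q H : ℕ) (hq : 0 < q) :
    ∑ h ∈ Icc 1 H, (if q ∣ h then f h else 0) = ∑ k ∈ Icc 1 (H / q), f (q * k) := by
  rw [← sum_filter]
  symm
  refine sum_bij (fun k _ => q * k) ?_ ?_ ?_ ?_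
  · intro k hk
    rw [mem_Icc] at hk
    rw [mem_filter, mem_Icc]
    refine ⟨⟨Nat.mul_pos hq hk.1, ?_⟩, dvd_mul_right _ _⟩
    calc q * k ≤ q * (H / q) := Nat.mul_le_mul_left _ hk.2
      _ ≤ H := Nat.mul_div_le H q
  · intro k _ k' _ h
    exact Nat.eq_of_mul_eq_mul_left hq h
  · intro h hh
    rw [mem_filter, mem_Icc] at hh
    obtain ⟨⟨h1, h2⟩, k, rfl⟩ := hh
    refine ⟨k, ?_, rfl⟩
    rw [mem_Icc]
    refine ⟨Nat.pos_of_ne_zero (by rintro rfl; simp at h1), ?_⟩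
    rw [Nat.le_div_iff_mul_le hq, mul_comm]
    exact h2
  · intro k _
    rfl

lemma rq_mul {q p h : ℕ} (hq : q.Prime) (hp : p.Prime) (hne : q ≠ p) :
    rq q (p * h) = rq q h := by
  unfold rq cq
  have : q ∣ p * h ↔ q ∣ h := by
    constructor
    · intro hd
      rcases (hq.dvd_mul).1 hd with h1 | h1
      · exact absurd ((Nat.prime_dvd_prime_iff_eq hq hp).1 h1) hne
      · exact h1
    · intro hd
      exact hd.mul_left _
  simp only [this]

lemma prod_rq_mul (Q : Finset ℕ) (hQ : ∀ q ∈ Q, q.Prime) {p : ℕ} (hp : p.Prime) (hpQ : p ∉ Q)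
    (h : ℕ) : ∏ q ∈ Q, rq q (p * h) = ∏ q ∈ Q, rq q h :=
  prod_congr rfl fun q hq => rq_mul (hQ q hq) hp (fun e => hpQ (e ▸ hq))

/-- The key average bound: the singular series is at most `1` on average over every initial
interval. -/
theorem rsum_le (Q : Finset ℕ) : (∀ q ∈ Q, q.Prime) →
    ∀ H : ℕ, ∑ h ∈ Icc 1 H, ∏ q ∈ Q, rq q h ≤ H := by
  classical
  induction Q using Finset.induction_on with
  | empty =>
    intro _ H
    simp
  | insert p Q hp ih =>
    intro hQ H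
    have hpp : p.Prime := hQ p (mem_insert_self _ _)
    have hQ' : ∀ q ∈ Q, q.Prime := fun q hq => hQ q (mem_insert_of_mem hq)
    have ih' := ih hQ'
    have hp2 : (2 : ℝ) ≤ p := by exact_mod_cast hpp.two_le
    have hp1 : (0 : ℝ) < p - 1 := by linarith
    have hp0 : (0 : ℝ) < p := by linarith
    -- r_p(h) = α + β 1[p | h]
    have hrp : ∀ h, rq p h = (p * (p - 2)) / ((p : ℝ) - 1) ^ 2 +
        if p ∣ h then (p : ℝ) / ((p : ℝ) - 1) ^ 2 else 0 := by
      intro h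
      unfold rq cq
      split_ifs with hd
      · push_cast
        field_simp
        ring
      · push_cast
        field_simp
        ring
    have hα : 0 ≤ (p * (p - 2)) / ((p : ℝ) - 1) ^ 2 :=
      div_nonneg (mul_nonneg hp0.le (by linarith)) (sq_nonneg _)
    have hβ : 0 ≤ (p : ℝ) / ((p : ℝ) - 1) ^ 2 := by positivity
    have hsum : ∑ h ∈ Icc 1 H, ∏ q ∈ insert p Q, rq q h =
        (p * (p - 2)) / ((p : ℝ) - 1) ^ 2 * ∑ h ∈ Icc 1 H, ∏ q ∈ Q, rq q h +
        (p : ℝ) / ((p : ℝ) - 1) ^ 2 * ∑ k ∈ Icc 1 (H / p), ∏ q ∈ Q, rq q k := by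
      have e1 : ∀ h ∈ Icc 1 H, ∏ q ∈ insert p Q, rq q h =
          (p * (p - 2)) / ((p : ℝ) - 1) ^ 2 * ∏ q ∈ Q, rq q h +
          (if p ∣ h then (p : ℝ) / ((p : ℝ) - 1) ^ 2 * ∏ q ∈ Q, rq q h else 0) := by
        intro h _
        rw [prod_insert hp, hrp h]
        split_ifs <;> ring
      rw [sum_congr rfl e1, sum_add_distrib, ← mul_sum, sum_Icc_dvd _ p H hpp.pos, ← mul_sum]
      congr 2
      refine sum_congr rfl fun k _ => ?_
      exact prod_rq_mul Q hQ' hpp hp k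
    rw [hsum]
    have h1 := mul_le_mul_of_nonneg_left (ih' H) hα
    have h2 := mul_le_mul_of_nonneg_left (ih' (H / p)) hβ
    have h3 : ((H / p : ℕ) : ℝ) ≤ (H : ℝ) / p := Nat.cast_div_le
    have h4 := mul_le_mul_of_nonneg_left h3 hβ
    have h5 : (p * (p - 2)) / ((p : ℝ) - 1) ^ 2 * (H : ℝ) +
        (p : ℝ) / ((p : ℝ) - 1) ^ 2 * ((H : ℝ) / p) = H := by
      field_simp
      ring
    linarith

/-- Abel summation comparison: nonincreasing nonnegative weights. -/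
lemma abel_compare (w R : ℕ → ℝ) (H : ℕ) (hw0 : ∀ h, 0 ≤ w h)
    (hw : ∀ h, w (h + 1) ≤ w h) (hR : ∀ K : ℕ, ∑ h ∈ Icc 1 K, R h ≤ K) :
    ∑ h ∈ Icc 1 H, w h * R h ≤ ∑ h ∈ Icc 1 H, w h := by
  have key : ∀ H : ℕ, w H * ((H : ℝ) - ∑ h ∈ Icc 1 H, R h) ≤
      ∑ h ∈ Icc 1 H, w h - ∑ h ∈ Icc 1 H, w h * R h := by
    intro H
    induction H with
    | zero => simp
    | succ H ih =>
      rw [sum_Icc_succ_top (by omega), sum_Icc_succ_top (by omega), sum_Icc_succ_top (by omega)]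
      have h1 : 0 ≤ (H : ℝ) - ∑ h ∈ Icc 1 H, R h := by linarith [hR H]
      have h2 := mul_le_mul_of_nonneg_right (hw H) h1
      push_cast
      nlinarith
  have h1 := key H
  have h2 : 0 ≤ w H * ((H : ℝ) - ∑ h ∈ Icc 1 H, R h) :=
    mul_nonneg (hw0 H) (by linarith [hR H])
  linarith

end Pool.Agent.Lib_helper10.Erdos460
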