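import Mathlib
import Pool.Agent.Lib_helper10.Erdos460.Brun
import Pool.Agent.Lib_helper10.Erdos460.RSum

set_option autoImplicit false

namespace Pool.Agent.Lib_helper10.Erdos460

open Finset

/-- error term of the pure sieve -/
noncomputable def errB (N m lam z : ℝ) (k : ℕ) : ℝ :=
  2 * (N / m * (lam ^ k / (k.factorial : ℝ))) + 3 * (2 * z) ^ k

lemma not_dvd_iff_mod {q a n : ℕ} (h : a ≤ n) : ¬ q ∣ n - a ↔ n % q ≠ a % q := by
  rw [← Nat.modEq_iff_dvd' h, Nat.ModEq]
  exact ⟨fun h e => h e.symm, fun h e => h e.symm⟩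

lemma card_pair_mod {q a b : ℕ} (hab : a ≤ b) :
    ({a % q, b % q} : Finset ℕ).card = cq q (b - a) := by
  unfold cq
  split_ifs with h
  · have : a % q = b % q := (Nat.modEq_iff_dvd' hab).2 h
    rw [this]
    simp
  · have : a % q ≠ b % q := fun e => h ((Nat.modEq_iff_dvd' hab).1 e)
    exact card_pair this

theorem pair_count (M N m c a b : ℕ) (hm : 0 < m) (P1 P2 : Finset ℕ) (hdisj : Disjoint P1 P2)
    (hP1 : ∀ q ∈ P1, q.Prime) (hP2 : ∀ q ∈ P2, q.Prime)
    (hcop1 : ∀ q ∈ P1, Nat.Coprime m q) (hcop2 : ∀ q ∈ P2, Nat.Coprime m q)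
    (hab : a ≤ b) (hb : b ≤ M) (z : ℝ) (hz : ((P1 ∪ P2).card : ℝ) ≤ z) (hz1 : 1 ≤ z) (k : ℕ)
    (lam : ℝ) (hlam : ∑ q ∈ P1 ∪ P2, ((2 : ℝ) / q) ≤ lam) :
    |((((Ioc M (M + N)).filter (fun n => n ≡ c [MOD m] ∧
        (∀ q ∈ P1, ¬ q ∣ n - a ∧ ¬ q ∣ n - b) ∧ (∀ q ∈ P2, ¬ q ∣ n - b))).card : ℕ) : ℝ)
      - (N : ℝ) / m * ((∏ q ∈ P1, (1 - (cq q (b - a) : ℝ) / q)) * ∏ q ∈ P2, (1 - 1 / (q : ℝ)))| ≤
      errB N m lam z k := by
  classical
  set B : ℕ → Finset ℕ := fun q => if q ∈ P1 then {a % q, b % q} else {b % q} with hB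
  have hprime : ∀ q ∈ P1 ∪ P2, q.Prime := by
    intro q hq
    rcases mem_union.1 hq with h | h
    · exact hP1 q h
    · exact hP2 q h
  have hcard1 : ∀ q ∈ P1, (B q).card = cq q (b - a) := by
    intro q hq
    simp only [hB, hq, if_true]
    exact card_pair_mod hab
  have hcard2 : ∀ q ∈ P2, (B q).card = 1 := by
    intro q hq
    have : q ∉ P1 := fun h => (Finset.disjoint_left.1 hdisj) h hq
    simp only [hB, this, if_false]
    simp
  have hcard : ∀ q ∈ P1 ∪ P2, (B q).card ≤ 2 := by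
    intro q hq
    rcases mem_union.1 hq with h | h
    · rw [hcard1 q h]; exact cq_le_two _ _
    · rw [hcard2 q h]; norm_num
  have hmain := brun_pure M N m c hm (P1 ∪ P2) hprime
    (fun q hq => by
      rcases mem_union.1 hq with h | h
      · exact hcop1 q h
      · exact hcop2 q h)
    B
    (fun q hq r hr => by
      have hq0 := (hprime q hq).pos
      simp only [hB] at hr
      split_ifs at hr with h1
      · rw [mem_insert, mem_singleton] at hr
        rcases hr with rfl | rfl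
        · exact Nat.mod_lt _ hq0
        · exact Nat.mod_lt _ hq0
      · rw [mem_singleton] at hr
        subst hr
        exact Nat.mod_lt _ hq0)
    hcard z hz hz1 k lam
    (by
      refine le_trans (sum_le_sum fun q hq => ?_) hlam
      refine div_le_div_of_nonneg_right ?_ (by positivity)
      exact_mod_cast hcard q hq)
  have hset : (Ioc M (M + N)).filter (fun n => n ≡ c [MOD m] ∧
        (∀ q ∈ P1, ¬ q ∣ n - a ∧ ¬ q ∣ n - b) ∧ (∀ q ∈ P2, ¬ q ∣ n - b)) =
      (Ioc M (M + N)).filter (fun n => n ≡ c [MOD m] ∧ ∀ q ∈ P1 ∪ P2, n % q ∉ B q) := by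
    refine filter_congr fun n hn => ?_
    rw [mem_Ioc] at hn
    have hbn : b ≤ n := by omega
    have han : a ≤ n := by omega
    constructor
    · rintro ⟨h0, h1, h2⟩
      refine ⟨h0, fun q hq => ?_⟩
      rcases mem_union.1 hq with h | h
      · simp only [hB, h, if_true, mem_insert, mem_singleton, not_or]
        exact ⟨(not_dvd_iff_mod han).1 (h1 q h).1, (not_dvd_iff_mod hbn).1 (h1 q h).2⟩
      · have h' : q ∉ P1 := fun h' => (Finset.disjoint_left.1 hdisj) h' h
        simp only [hB, h', if_false, mem_singleton]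
        exact (not_dvd_iff_mod hbn).1 (h2 q h)
    · rintro ⟨h0, h1⟩
      refine ⟨h0, fun q hq => ?_, fun q hq => ?_⟩
      · have := h1 q (mem_union_left _ hq)
        simp only [hB, hq, if_true, mem_insert, mem_singleton, not_or] at this
        exact ⟨(not_dvd_iff_mod han).2 this.1, (not_dvd_iff_mod hbn).2 this.2⟩
      · have h' : q ∉ P1 := fun h' => (Finset.disjoint_left.1 hdisj) h' hq
        have := h1 q (mem_union_right _ hq)
        simp only [hB, h', if_false, mem_singleton] at this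
        exact (not_dvd_iff_mod hbn).2 this
  have hprod : ∏ q ∈ P1 ∪ P2, (1 - ((B q).card : ℝ) / q) =
      (∏ q ∈ P1, (1 - (cq q (b - a) : ℝ) / q)) * ∏ q ∈ P2, (1 - 1 / (q : ℝ)) := by
    rw [prod_union hdisj]
    congr 1
    · exact prod_congr rfl fun q hq => by rw [hcard1 q hq]
    · exact prod_congr rfl fun q hq => by rw [hcard2 q hq]; norm_num
  rw [hset, ← hprod]
  exact hmain

/-- `∏ (1 - 1/p)` over primes below `a` -/
noncomputable def V (a : ℕ) : ℝ := ∏ p ∈ Nat.primesBelow a, (1 - 1 / (p : ℝ))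

lemma prime_factor_bounds {p : ℕ} (hp : p.Prime) :
    0 < 1 - 1 / (p : ℝ) ∧ 1 - 1 / (p : ℝ) ≤ 1 := by
  have hp2 : (2 : ℝ) ≤ p := by exact_mod_cast hp.two_le
  have h1 : 1 / (p : ℝ) ≤ 1 / 2 := one_div_le_one_div_of_le (by norm_num) hp2
  have h2 : 0 ≤ 1 / (p : ℝ) := by positivity
  constructor <;> linarith

lemma V_pos (a : ℕ) : 0 < V a :=
  prod_pos fun _ hp => (prime_factor_bounds (Nat.mem_primesBelow.1 hp).2).1

lemma V_le_one (a : ℕ) : V a ≤ 1 :=
  prod_le_one (fun _ hp => (prime_factor_bounds (Nat.mem_primesBelow.1 hp).2).1.le)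
    fun _ hp => (prime_factor_bounds (Nat.mem_primesBelow.1 hp).2).2

lemma primesBelow_mono {a b : ℕ} (h : a ≤ b) : Nat.primesBelow a ⊆ Nat.primesBelow b := by
  intro p hp
  rw [Nat.mem_primesBelow] at hp ⊢
  exact ⟨by omega, hp.2⟩

lemma V_anti {a b : ℕ} (h : a ≤ b) : V b ≤ V a := by
  unfold V
  rw [← prod_sdiff (primesBelow_mono h)]
  have h1 : ∏ p ∈ Nat.primesBelow b \ Nat.primesBelow a, (1 - 1 / (p : ℝ)) ≤ 1 :=
    prod_le_one (fun _ hp => (prime_factor_bounds (Nat.mem_primesBelow.1 (mem_sdiff.1 hp).1).2).1.le)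
      fun _ hp => (prime_factor_bounds (Nat.mem_primesBelow.1 (mem_sdiff.1 hp).1).2).2
  calc (∏ p ∈ Nat.primesBelow b \ Nat.primesBelow a, (1 - 1 / (p : ℝ))) *
        ∏ p ∈ Nat.primesBelow a, (1 - 1 / (p : ℝ))
      ≤ 1 * ∏ p ∈ Nat.primesBelow a, (1 - 1 / (p : ℝ)) :=
        mul_le_mul_of_nonneg_right h1 (V_pos a).le
    _ = _ := one_mul _

/-- `n - a` has no prime factor below `a` -/
def rough (n a : ℕ) : Prop := ∀ p ∈ Nat.primesBelow a, ¬ p ∣ n - a

instance (n a : ℕ) : Decidable (rough n a) := by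
  unfold rough
  infer_instance

lemma card_primesBelow_le (a : ℕ) : (Nat.primesBelow a).card ≤ a := by
  unfold Nat.primesBelow
  exact (card_filter_le _ _).trans (by simp)

/-- single count -/
theorem single_count (M N A a : ℕ) (haA : a ≤ A) (hAM : A ≤ M) (hA : 1 ≤ A) (k : ℕ)
    (lam : ℝ) (hlam : ∑ q ∈ Nat.primesBelow A, ((2 : ℝ) / q) ≤ lam) :
    |((((Ioc M (M + N)).filter (fun n => rough n a)).card : ℕ) : ℝ) - (N : ℝ) * V a| ≤
      errB N 1 lam A k := by
  classical
  have h := pair_count M N 1 0 a a one_pos ∅ (Nat.primesBelow a) (disjoint_empty_left _)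
    (by simp) (fun q hq => (Nat.mem_primesBelow.1 hq).2) (by simp) (fun q _ => Nat.coprime_one_left q)
    le_rfl (haA.trans hAM) A (by
      rw [empty_union]
      exact_mod_cast (card_primesBelow_le a).trans haA) (by exact_mod_cast hA) k lam (by
      rw [empty_union]
      refine le_trans (sum_le_sum_of_subset_of_nonneg (primesBelow_mono haA) ?_) hlam
      intro q _ _
      positivity)
  simp only [Nat.modEq_one, notMem_empty, false_imp_iff, implies_true, true_and, prod_empty,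
    one_mul, Nat.cast_one, div_one] at h
  exact h

/-- pair count -/
theorem rough_pair_count (M N A a b : ℕ) (hab : a < b) (hbA : b ≤ A) (hAM : A ≤ M) (k : ℕ)
    (lam : ℝ) (hlam : ∑ q ∈ Nat.primesBelow A, ((2 : ℝ) / q) ≤ lam) :
    |((((Ioc M (M + N)).filter (fun n => rough n a ∧ rough n b)).card : ℕ) : ℝ)
      - (N : ℝ) * (V a * V b * ∏ q ∈ Nat.primesBelow a, rq q (b - a))| ≤
      errB N 1 lam A k := by
  classical
  have hunion : Nat.primesBelow a ∪ (Nat.primesBelow b \ Nat.primesBelow a) = Nat.primesBelow b :=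
    union_sdiff_of_subset (primesBelow_mono hab.le)
  have h := pair_count M N 1 0 a b one_pos (Nat.primesBelow a)
    (Nat.primesBelow b \ Nat.primesBelow a) disjoint_sdiff
    (fun q hq => (Nat.mem_primesBelow.1 hq).2)
    (fun q hq => (Nat.mem_primesBelow.1 (mem_sdiff.1 hq).1).2)
    (fun q _ => Nat.coprime_one_left q) (fun q _ => Nat.coprime_one_left q)
    hab.le (hbA.trans hAM) A (by
      rw [hunion]
      exact_mod_cast (card_primesBelow_le b).trans hbA) (by exact_mod_cast (by omega : 1 ≤ A)) k lam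
      (by
      rw [hunion]
      refine le_trans (sum_le_sum_of_subset_of_nonneg (primesBelow_mono hbA) ?_) hlam
      intro q _ _
      positivity)
  have hset : (Ioc M (M + N)).filter (fun n => n ≡ 0 [MOD 1] ∧
        (∀ q ∈ Nat.primesBelow a, ¬ q ∣ n - a ∧ ¬ q ∣ n - b) ∧
        (∀ q ∈ Nat.primesBelow b \ Nat.primesBelow a, ¬ q ∣ n - b)) =
      (Ioc M (M + N)).filter (fun n => rough n a ∧ rough n b) := by
    refine filter_congr fun n _ => ?_
    constructor
    · rintro ⟨-, h1, h2⟩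
      refine ⟨fun q hq => (h1 q hq).1, fun q hq => ?_⟩
      by_cases hqa : q ∈ Nat.primesBelow a
      · exact (h1 q hqa).2
      · exact h2 q (mem_sdiff.2 ⟨hq, hqa⟩)
    · rintro ⟨h1, h2⟩
      refine ⟨Nat.modEq_one, fun q hq => ⟨h1 q hq, h2 q (primesBelow_mono hab.le hq)⟩,
        fun q hq => h2 q (mem_sdiff.1 hq).1⟩
  have hprod : (∏ q ∈ Nat.primesBelow a, (1 - (cq q (b - a) : ℝ) / q)) *
      ∏ q ∈ Nat.primesBelow b \ Nat.primesBelow a, (1 - 1 / (q : ℝ)) =
      V a * V b * ∏ q ∈ Nat.primesBelow a, rq q (b - a) := by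
    have hVb : V b = (∏ q ∈ Nat.primesBelow b \ Nat.primesBelow a, (1 - 1 / (q : ℝ))) *
        ∏ q ∈ Nat.primesBelow a, (1 - 1 / (q : ℝ)) := by
      unfold V
      rw [prod_sdiff (primesBelow_mono hab.le)]
    have h1 : ∏ q ∈ Nat.primesBelow a, (1 - (cq q (b - a) : ℝ) / q) =
        (∏ q ∈ Nat.primesBelow a, (1 - 1 / (q : ℝ))) * (∏ q ∈ Nat.primesBelow a, (1 - 1 / (q : ℝ))) *
        ∏ q ∈ Nat.primesBelow a, rq q (b - a) := by
      rw [← prod_mul_distrib, ← prod_mul_distrib]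
      refine prod_congr rfl fun q hq => ?_
      have hq' := (prime_factor_bounds (Nat.mem_primesBelow.1 hq).2).1
      unfold rq
      field_simp
    rw [h1, hVb]
    unfold V
    ring
  rw [hset, hprod] at h
  simpa using h

end Pool.Agent.Lib_helper10.Erdos460
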