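import Mathlib
import Pool.Agent.Lib_helper10.Erdos460.Mertens2
import Pool.Agent.Lib_helper10.Erdos460.Pair

set_option autoImplicit false

namespace Pool.Agent.Lib_helper10.Erdos460

open Finset Filter Topology

/-- `-log(1-1/p) - 1/p` at primes, zero elsewhere -/
noncomputable def gg (n : ℕ) : ℝ :=
  if n.Prime then -Real.log (1 - 1 / (n : ℝ)) - 1 / (n : ℝ) else 0

/-- the function `-log(1-y) - y` -/
lemma neg_log_bounds {y : ℝ} (h0 : 0 ≤ y) (h1 : y ≤ 1 / 2) :
    0 ≤ -Real.log (1 - y) - y ∧ -Real.log (1 - y) - y ≤ 2 * y ^ 2 := by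
  constructor
  · have h := Real.log_le_sub_one_of_pos (x := 1 - y) (by linarith)
    linarith
  · have h := Real.abs_log_sub_add_sum_range_le (x := y) (by rw [abs_of_nonneg h0]; linarith) 1
    rw [abs_of_nonneg h0] at h
    simp only [range_one, sum_singleton, zero_add, pow_one, Nat.cast_zero, div_one] at h
    have h2 := (abs_le.1 h).1
    have h3 : y ^ (1 + 1) / (1 - y) ≤ 2 * y ^ 2 := by
      rw [div_le_iff₀ (by linarith)]
      have h4 : 0 ≤ y ^ 2 * (1 - 2 * y) := mul_nonneg (sq_nonneg y) (by linarith)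
      have h5 : y ^ (1 + 1) = y ^ 2 := rfl
      rw [h5]
      nlinarith
    linarith

lemma gg_bounds (n : ℕ) : 0 ≤ gg n ∧ gg n ≤ 2 * (1 / (n : ℝ) ^ 2) := by
  unfold gg
  split_ifs with h
  · have h2 : (2 : ℝ) ≤ n := by exact_mod_cast h.two_le
    have h3 := neg_log_bounds (y := 1 / (n : ℝ)) (by positivity)
      (one_div_le_one_div_of_le (by norm_num) h2)
    refine ⟨h3.1, h3.2.trans (le_of_eq ?_)⟩
    rw [one_div_pow]
  · exact ⟨le_rfl, by positivity⟩

lemma gg_summable : Summable gg := by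
  refine Summable.of_nonneg_of_le (fun n => (gg_bounds n).1) (fun n => (gg_bounds n).2) ?_
  exact (Real.summable_one_div_nat_pow.2 (by norm_num)).mul_left 2

noncomputable def GG : ℝ := ∑' n, gg n

lemma GG_nonneg : 0 ≤ GG := tsum_nonneg fun n => (gg_bounds n).1

lemma sum_gg_primesLE (n : ℕ) : ∑ p ∈ Nat.primesLE n, gg p = ∑ i ∈ range (n + 1), gg i := by
  unfold Nat.primesLE Nat.primesBelow
  rw [sum_filter]
  refine sum_congr rfl fun i _ => ?_
  unfold gg
  split_ifs <;> rfl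

lemma log_V (n : ℕ) : Real.log (V (n + 1)) =
    -(∑ p ∈ Nat.primesLE n, (1 : ℝ) / p) - ∑ p ∈ Nat.primesLE n, gg p := by
  unfold V
  rw [Real.log_prod (fun p hp => (prime_factor_bounds (Nat.mem_primesBelow.1 hp).2).1.ne')]
  rw [← sum_neg_distrib, ← sum_sub_distrib]
  refine sum_congr rfl fun p hp => ?_
  have hpp := (Nat.mem_primesBelow.1 hp).2
  unfold gg
  rw [if_pos hpp]
  ring

/-- two-sided bound for `V (n+1) * log n` -/
theorem V_bounds_succ : ∃ c C : ℝ, 0 < c ∧ 0 < C ∧ ∀ n : ℕ, 2 ≤ n →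
    c / Real.log n ≤ V (n + 1) ∧ V (n + 1) ≤ C / Real.log n := by
  obtain ⟨M, C, hC0, hC⟩ := mertens_second
  have hl2 : 0 < Real.log 2 := Real.log_pos (by norm_num)
  refine ⟨Real.exp (-(M + C / Real.log 2 + GG)), Real.exp (-(M - C / Real.log 2)),
    Real.exp_pos _, Real.exp_pos _, fun n hn => ?_⟩
  have hln : Real.log 2 ≤ Real.log n := Real.log_le_log (by norm_num) (by exact_mod_cast hn)
  have hln0 : 0 < Real.log n := by linarith
  have h1 := abs_le.1 (hC n hn)
  have h2 : C / Real.log n ≤ C / Real.log 2 := div_le_div_of_nonneg_left hC0 hl2 hln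
  have h3 : 0 ≤ ∑ p ∈ Nat.primesLE n, gg p := sum_nonneg fun p _ => (gg_bounds p).1
  have h4 : ∑ p ∈ Nat.primesLE n, gg p ≤ GG :=
    gg_summable.sum_le_tsum _ fun p _ => (gg_bounds p).1
  have h5 := log_V n
  have hV := V_pos (n + 1)
  constructor
  · rw [← Real.exp_log hV, ← Real.exp_log hln0, ← Real.exp_sub]
    refine Real.exp_le_exp.2 ?_
    linarith
  · rw [← Real.exp_log hV, ← Real.exp_log hln0, ← Real.exp_sub]
    refine Real.exp_le_exp.2 ?_
    linarith

theorem V_bounds : ∃ c C : ℝ, 0 < c ∧ 0 < C ∧ ∀ n : ℕ, 2 ≤ n →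
    c / Real.log n ≤ V n ∧ V n ≤ C / Real.log n := by
  obtain ⟨c, C, hc, hC, h⟩ := V_bounds_succ
  refine ⟨c, 2 * C + Real.log 2, hc, by positivity, fun n hn => ⟨?_, ?_⟩⟩
  · exact (h n hn).1.trans (V_anti (Nat.le_succ n))
  · have hl2 : 0 < Real.log 2 := Real.log_pos (by norm_num)
    have hnR : (2 : ℝ) ≤ n := by exact_mod_cast hn
    have hln0 : 0 < Real.log n := Real.log_pos (by linarith)
    rcases Nat.lt_or_ge n 3 with h3 | h3
    · have : n = 2 := by omega
      subst this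
      rw [le_div_iff₀ (by exact_mod_cast hl2)]
      have : V 2 ≤ 1 := V_le_one 2
      have h4 : V 2 * Real.log ((2 : ℕ) : ℝ) ≤ 1 * Real.log ((2 : ℕ) : ℝ) :=
        mul_le_mul_of_nonneg_right this hln0.le
      push_cast at h4 ⊢
      linarith
    · obtain ⟨m, rfl⟩ : ∃ m, n = m + 1 := ⟨n - 1, by omega⟩
      have hm := (h m (by omega)).2
      have hmR : (2 : ℝ) ≤ m := by exact_mod_cast (by omega : 2 ≤ m)
      have hlm : 0 < Real.log m := Real.log_pos (by linarith)
      have h5 : Real.log ((m + 1 : ℕ) : ℝ) ≤ 2 * Real.log m := by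
        have : ((m + 1 : ℕ) : ℝ) ≤ (m : ℝ) ^ 2 := by push_cast; nlinarith
        calc Real.log ((m + 1 : ℕ) : ℝ) ≤ Real.log ((m : ℝ) ^ 2) :=
              Real.log_le_log (by positivity) this
          _ = 2 * Real.log m := by rw [Real.log_pow]; push_cast; ring
      refine hm.trans ?_
      rw [div_le_div_iff₀ hlm hln0]
      nlinarith [mul_pos hl2 hlm]

/-- convergence of `V (n+1) * log n` in terms of the Mertens constant -/
theorem V_tendsto (M C : ℝ)
    (hC : ∀ n : ℕ, 2 ≤ n →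
      |∑ p ∈ Nat.primesLE n, (1 : ℝ) / p - Real.log (Real.log n) - M| ≤ C / Real.log n) :
    Tendsto (fun n : ℕ => V (n + 1) * Real.log n) atTop (𝓝 (Real.exp (-(M + GG)))) := by
  have h1 : Tendsto (fun n : ℕ => ∑ p ∈ Nat.primesLE n, (1 : ℝ) / p - Real.log (Real.log n))
      atTop (𝓝 M) := by
    have h0 : Tendsto (fun n : ℕ => C / Real.log n) atTop (𝓝 0) :=
      (Real.tendsto_log_atTop.comp tendsto_natCast_atTop_atTop).const_div_atTop C
    rw [tendsto_iff_norm_sub_tendsto_zero]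
    refine squeeze_zero' (Eventually.of_forall fun n => norm_nonneg _) ?_ h0
    filter_upwards [eventually_ge_atTop 2] with n hn
    rw [Real.norm_eq_abs]
    exact hC n hn
  have h2 : Tendsto (fun n : ℕ => ∑ p ∈ Nat.primesLE n, gg p) atTop (𝓝 GG) := by
    simp only [sum_gg_primesLE]
    exact (gg_summable.hasSum.tendsto_sum_nat).comp (tendsto_add_atTop_nat 1)
  have h3 : Tendsto (fun n : ℕ => Real.exp (-((∑ p ∈ Nat.primesLE n, (1 : ℝ) / p
      - Real.log (Real.log n)) + ∑ p ∈ Nat.primesLE n, gg p))) atTop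
      (𝓝 (Real.exp (-(M + GG)))) :=
    (Real.continuous_exp.tendsto _).comp (h1.add h2).neg
  refine h3.congr' ?_
  filter_upwards [eventually_ge_atTop 2] with n hn
  have hln0 : 0 < Real.log n := Real.log_pos (by exact_mod_cast hn)
  have h5 := log_V n
  have : V (n + 1) * Real.log n = Real.exp (Real.log (V (n + 1)) + Real.log (Real.log n)) := by
    rw [Real.exp_add, Real.exp_log (V_pos _), Real.exp_log hln0]
  rw [this, h5]
  congr 1
  ring

end Pool.Agent.Lib_helper10.Erdos460
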