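import Mathlib
import Pool.Agent.Lib_helper10.Erdos460.Count
import Pool.Agent.Lib_helper10.Erdos460.VAsymp

set_option autoImplicit false

namespace Pool.Agent.Lib_helper10.Erdos460

open Finset Filter Topology

/-- sum of a weight over all subsets -/
noncomputable def subsum (w : Finset ℕ → ℝ) (S : Finset ℕ) : ℝ := ∑ T ∈ S.powerset, w T

/-- expected value of the divisor sum with weight `w` -/
noncomputable def meanw (w : Finset ℕ → ℝ) (P : Finset ℕ) : ℝ :=
  ∑ T ∈ P.powerset, w T * ∏ q ∈ T, (1 / (q : ℝ))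

/-- indicator of the empty set -/
noncomputable def ind0 (S : Finset ℕ) : ℝ := if S = ∅ then 1 else 0

lemma ind0_nonneg (S : Finset ℕ) : 0 ≤ ind0 S := by unfold ind0; split_ifs <;> norm_num

lemma sum_powerset_union_mul (P Q S : Finset ℕ) (hPQ : Disjoint P Q) (hS : S ⊆ P ∪ Q)
    (F G : Finset ℕ → ℝ) :
    ∑ T ∈ S.powerset, F (T ∩ P) * G (T ∩ Q) =
      (∑ T ∈ (S ∩ P).powerset, F T) * ∑ T ∈ (S ∩ Q).powerset, G T := by
  classical
  rw [sum_mul_sum, ← sum_product']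
  refine sum_bij' (fun T _ => (T ∩ P, T ∩ Q)) (fun x _ => x.1 ∪ x.2) ?_ ?_ ?_ ?_ ?_
  · intro T hT
    rw [mem_powerset] at hT
    rw [mem_product, mem_powerset, mem_powerset]
    exact ⟨inter_subset_inter_right hT, inter_subset_inter_right hT⟩
  · intro x hx
    rw [mem_product, mem_powerset, mem_powerset] at hx
    rw [mem_powerset]
    exact union_subset (hx.1.trans inter_subset_left) (hx.2.trans inter_subset_left)
  · intro T hT
    rw [mem_powerset] at hT
    simp only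
    rw [← inter_union_distrib_left]
    exact inter_eq_left.2 (hT.trans hS)
  · intro x hx
    rw [mem_product, mem_powerset, mem_powerset] at hx
    have h1 : x.1 ⊆ P := hx.1.trans inter_subset_right
    have h2 : x.2 ⊆ Q := hx.2.trans inter_subset_right
    ext q
    · simp only [mem_inter, mem_union]
      constructor
      · rintro ⟨h | h, hp⟩
        · exact h
        · exact absurd (h2 h) (Finset.disjoint_left.1 hPQ hp)
      · intro h
        exact ⟨Or.inl h, h1 h⟩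
    · simp only [mem_inter, mem_union]
      constructor
      · rintro ⟨h | h, hq⟩
        · exact absurd hq (Finset.disjoint_left.1 hPQ (h1 h))
        · exact h
      · intro h
        exact ⟨Or.inr h, h2 h⟩
  · intro T _
    rfl

lemma subsum_mul (P Q S : Finset ℕ) (hPQ : Disjoint P Q) (hS : S ⊆ P ∪ Q)
    (F G : Finset ℕ → ℝ) :
    subsum (fun T => F (T ∩ P) * G (T ∩ Q)) S = subsum F (S ∩ P) * subsum G (S ∩ Q) :=
  sum_powerset_union_mul P Q S hPQ hS F G

lemma meanw_mul (P Q : Finset ℕ) (hPQ : Disjoint P Q) (F G : Finset ℕ → ℝ) :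
    meanw (fun T => F (T ∩ P) * G (T ∩ Q)) (P ∪ Q) = meanw F P * meanw G Q := by
  classical
  unfold meanw
  have h1 : ∀ T ∈ (P ∪ Q).powerset, F (T ∩ P) * G (T ∩ Q) * ∏ q ∈ T, (1 / (q : ℝ)) =
      (F (T ∩ P) * ∏ q ∈ T ∩ P, (1 / (q : ℝ))) * (G (T ∩ Q) * ∏ q ∈ T ∩ Q, (1 / (q : ℝ))) := by
    intro T hT
    have hT' : T = (T ∩ P) ∪ (T ∩ Q) := by
      rw [← inter_union_distrib_left]
      exact (inter_eq_left.2 (mem_powerset.1 hT)).symm
    have hd : Disjoint (T ∩ P) (T ∩ Q) :=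
      disjoint_of_subset_left inter_subset_right (disjoint_of_subset_right inter_subset_right hPQ)
    conv_lhs => rw [show ∏ q ∈ T, (1 / (q : ℝ)) = ∏ q ∈ (T ∩ P) ∪ (T ∩ Q), (1 / (q : ℝ)) by
      rw [← hT']]
    rw [prod_union hd]
    ring
  rw [sum_congr rfl h1]
  have h2 := sum_powerset_union_mul P Q (P ∪ Q) hPQ (Finset.Subset.refl _)
    (fun T => F T * ∏ q ∈ T, (1 / (q : ℝ))) (fun T => G T * ∏ q ∈ T, (1 / (q : ℝ)))
  rw [h2]
  rw [union_inter_cancel_left, union_inter_cancel_right]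

/-- truncated sums in terms of subsets -/
lemma tru_eq_sum (S : Finset ℕ) (x : ℕ → ℝ) (k : ℕ) :
    tru S x k = ∑ T ∈ S.powerset, (if T.card < k then (-1 : ℝ) ^ T.card else 0) * ∏ q ∈ T, x q := by
  classical
  unfold tru esm
  have h1 : ∀ j ∈ range k, (-1 : ℝ) ^ j * ∑ T ∈ powersetCard j S, ∏ q ∈ T, x q =
      ∑ T ∈ S.powerset, if T.card = j then (-1 : ℝ) ^ T.card * ∏ q ∈ T, x q else 0 := by
    intro j _
    rw [← sum_filter, ← powersetCard_eq_filter, mul_sum]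
    refine sum_congr rfl fun T hT => ?_
    rw [(mem_powersetCard.1 hT).2]
  rw [sum_congr rfl h1, sum_comm]
  refine sum_congr rfl fun T _ => ?_
  rw [sum_ite_eq]
  simp only [mem_range]
  split_ifs <;> simp

lemma esm_eq_sum (S : Finset ℕ) (x : ℕ → ℝ) (k : ℕ) :
    esm S x k = ∑ T ∈ S.powerset, (if T.card = k then (1 : ℝ) else 0) * ∏ q ∈ T, x q := by
  classical
  unfold esm
  simp only [ite_mul, one_mul, zero_mul]
  rw [← sum_filter, ← powersetCard_eq_filter]

/-- block weights -/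
noncomputable def Ublk (b : ℕ) (T : Finset ℕ) : ℝ :=
  if T.card < 2 * b + 1 then (-1 : ℝ) ^ T.card else 0

noncomputable def Eblk (b : ℕ) (T : Finset ℕ) : ℝ := if T.card = 2 * b + 1 then 1 else 0

lemma subsum_U (b : ℕ) (S : Finset ℕ) : subsum (Ublk b) S = tru S (fun _ => 1) (2 * b + 1) := by
  rw [tru_eq_sum]
  unfold subsum Ublk
  refine sum_congr rfl fun T _ => ?_
  simp

lemma subsum_E (b : ℕ) (S : Finset ℕ) : subsum (Eblk b) S = esm S (fun _ => 1) (2 * b + 1) := by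
  rw [esm_eq_sum]
  unfold subsum Eblk
  refine sum_congr rfl fun T _ => ?_
  simp

lemma meanw_U (b : ℕ) (S : Finset ℕ) :
    meanw (Ublk b) S = tru S (fun q => 1 / (q : ℝ)) (2 * b + 1) := by
  rw [tru_eq_sum]
  rfl

lemma meanw_E (b : ℕ) (S : Finset ℕ) :
    meanw (Eblk b) S = esm S (fun q => 1 / (q : ℝ)) (2 * b + 1) := by
  rw [esm_eq_sum]
  rfl

lemma block_ineq (b : ℕ) (S : Finset ℕ) :
    ind0 S ≤ subsum (Ublk b) S ∧ subsum (Ublk b) S - ind0 S ≤ subsum (Eblk b) S := by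
  have h := bonferroni S (fun _ => 1) (fun _ _ => zero_le_one) (fun _ _ => le_rfl) (2 * b + 1)
  have h1 : ∏ q ∈ S, ((1 : ℝ) - (fun _ : ℕ => (1 : ℝ)) q) = ind0 S := by
    unfold ind0
    split_ifs with hS
    · simp [hS]
    · obtain ⟨q, hq⟩ := Finset.nonempty_of_ne_empty hS
      exact prod_eq_zero hq (by simp)
  rw [h1, ← subsum_U, ← subsum_E] at h
  have h2 : (-1 : ℝ) ^ (2 * b + 1) = -1 := by
    rw [pow_succ, pow_mul]; norm_num
  rw [h2] at h
  constructor <;> linarith [h.1, h.2]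

lemma block_mean (b : ℕ) (Q : Finset ℕ) (hQ : ∀ q ∈ Q, q.Prime) :
    ∏ q ∈ Q, (1 - 1 / (q : ℝ)) ≤ meanw (Ublk b) Q ∧
    meanw (Ublk b) Q ≤ ∏ q ∈ Q, (1 - 1 / (q : ℝ)) + meanw (Eblk b) Q ∧
    0 ≤ meanw (Eblk b) Q ∧
    meanw (Eblk b) Q ≤ (∑ q ∈ Q, 1 / (q : ℝ)) ^ (2 * b + 1) / ((2 * b + 1).factorial : ℝ) := by
  have hx0 : ∀ q ∈ Q, 0 ≤ 1 / (q : ℝ) := fun q _ => by positivity
  have hx1 : ∀ q ∈ Q, 1 / (q : ℝ) ≤ 1 := fun q hq => by
    have := (prime_factor_bounds (hQ q hq)).1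
    linarith
  have h := bonferroni Q (fun q => 1 / (q : ℝ)) hx0 hx1 (2 * b + 1)
  rw [← meanw_U, ← meanw_E] at h
  have h2 : (-1 : ℝ) ^ (2 * b + 1) = -1 := by
    rw [pow_succ, pow_mul]; norm_num
  rw [h2] at h
  refine ⟨by linarith [h.1], by linarith [h.2], ?_, ?_⟩
  · rw [meanw_E]
    exact esm_nonneg _ _ hx0 _
  · rw [meanw_E]
    exact esm_le _ _ hx0 _

/-- product over a block is bounded below -/
lemma block_prod_lower (Q : Finset ℕ) (hQ : ∀ q ∈ Q, q.Prime) (L : ℝ)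
    (hL : ∑ q ∈ Q, 1 / (q : ℝ) ≤ L) : Real.exp (-(2 * L)) ≤ ∏ q ∈ Q, (1 - 1 / (q : ℝ)) := by
  have h1 : ∀ q ∈ Q, Real.exp (-(2 * (1 / (q : ℝ)))) ≤ 1 - 1 / (q : ℝ) := by
    intro q hq
    have hp := (prime_factor_bounds (hQ q hq)).1
    have h2 : (2 : ℝ) ≤ q := by exact_mod_cast (hQ q hq).two_le
    have h3 : 1 / (q : ℝ) ≤ 1 / 2 := one_div_le_one_div_of_le (by norm_num) h2
    have h4 := (neg_log_bounds (y := 1 / (q : ℝ)) (by positivity) h3).2
    rw [← Real.le_log_iff_exp_le hp]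
    have h5 : 2 * (1 / (q : ℝ)) ^ 2 ≤ 1 / (q : ℝ) := by
      have : 0 ≤ 1 / (q : ℝ) := by positivity
      nlinarith
    linarith
  calc Real.exp (-(2 * L)) ≤ Real.exp (-(2 * ∑ q ∈ Q, 1 / (q : ℝ))) :=
        Real.exp_le_exp.2 (by linarith)
    _ = ∏ q ∈ Q, Real.exp (-(2 * (1 / (q : ℝ)))) := by
        rw [← Real.exp_sum, sum_neg_distrib, ← mul_sum]
    _ ≤ _ := prod_le_prod (fun q _ => (Real.exp_pos _).le) h1

/-- the sum of prime reciprocals between `√z` and `z` is bounded -/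
lemma block_sum_bound : ∃ L0 : ℝ, 0 < L0 ∧ ∀ z : ℕ,
    ∑ q ∈ Nat.primesBelow z \ Nat.primesBelow (Nat.sqrt z), 1 / (q : ℝ) ≤ L0 := by
  obtain ⟨M, C, hC0, hC⟩ := mertens_second
  have hl2 : 0 < Real.log 2 := Real.log_pos (by norm_num)
  refine ⟨8 + Real.log 4 + 2 * (C / Real.log 2), by positivity, fun z => ?_⟩
  have hl4 : 0 ≤ Real.log 4 := Real.log_nonneg (by norm_num)
  have hCl : 0 ≤ C / Real.log 2 := by positivity
  rcases Nat.lt_or_ge z 16 with hz | hz
  · have h1 : ∑ q ∈ Nat.primesBelow z \ Nat.primesBelow (Nat.sqrt z), 1 / (q : ℝ) ≤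
        ∑ _q ∈ Nat.primesBelow z \ Nat.primesBelow (Nat.sqrt z), (1 / 2 : ℝ) := by
      refine sum_le_sum fun q hq => ?_
      have hp := (Nat.mem_primesBelow.1 (mem_sdiff.1 hq).1).2
      exact one_div_le_one_div_of_le (by norm_num) (by exact_mod_cast hp.two_le)
    refine h1.trans ?_
    rw [sum_const, nsmul_eq_mul]
    have h2 : (Nat.primesBelow z \ Nat.primesBelow (Nat.sqrt z)).card ≤ 16 := by
      refine (card_le_card sdiff_subset).trans ?_
      exact (card_primesBelow_le z).trans hz.le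
    have h3 : (((Nat.primesBelow z \ Nat.primesBelow (Nat.sqrt z)).card : ℕ) : ℝ) ≤ 16 := by
      exact_mod_cast h2
    linarith
  · set y := Nat.sqrt z with hy
    have hy4 : 4 ≤ y := by
      rw [hy, Nat.le_sqrt]
      omega
    have hyz : y ≤ z := Nat.sqrt_le_self z
    have hsum : ∑ q ∈ Nat.primesBelow z \ Nat.primesBelow y, 1 / (q : ℝ) =
        ∑ q ∈ Nat.primesLE (z - 1), 1 / (q : ℝ) - ∑ q ∈ Nat.primesLE (y - 1), 1 / (q : ℝ) := by
      have h1 : Nat.primesLE (z - 1) = Nat.primesBelow z := by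
        unfold Nat.primesLE
        congr 1
        omega
      have h2 : Nat.primesLE (y - 1) = Nat.primesBelow y := by
        unfold Nat.primesLE
        congr 1
        omega
      rw [h1, h2, ← sum_sdiff (primesBelow_mono hyz)]
      ring
    rw [hsum]
    have h1 := (abs_le.1 (hC (z - 1) (by omega))).2
    have h2 := (abs_le.1 (hC (y - 1) (by omega))).1
    have hly : Real.log 2 ≤ Real.log ((y - 1 : ℕ) : ℝ) :=
      Real.log_le_log (by norm_num) (by exact_mod_cast (by omega : 2 ≤ y - 1))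
    have hlz : Real.log 2 ≤ Real.log ((z - 1 : ℕ) : ℝ) :=
      Real.log_le_log (by norm_num) (by exact_mod_cast (by omega : 2 ≤ z - 1))
    have h3 : C / Real.log ((y - 1 : ℕ) : ℝ) ≤ C / Real.log 2 :=
      div_le_div_of_nonneg_left hC0 hl2 hly
    have h4 : C / Real.log ((z - 1 : ℕ) : ℝ) ≤ C / Real.log 2 :=
      div_le_div_of_nonneg_left hC0 hl2 hlz
    -- z - 1 ≤ (y-1)^4
    have h5 : z - 1 ≤ (y - 1) ^ 4 := by
      have h6 : z < (y + 1) * (y + 1) := Nat.lt_succ_sqrt z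
      have h7 : y + 1 ≤ 2 * (y - 1) := by omega
      have h8 : 2 ≤ y - 1 := by omega
      have h9 : (y + 1) * (y + 1) ≤ (2 * (y - 1)) * (2 * (y - 1)) := Nat.mul_le_mul h7 h7
      have h10 : (2 * (y - 1)) * (2 * (y - 1)) ≤ ((y - 1) * (y - 1)) * ((y - 1) * (y - 1)) :=
        Nat.mul_le_mul (Nat.mul_le_mul_right _ h8) (Nat.mul_le_mul_right _ h8)
      have h11 : ((y - 1) * (y - 1)) * ((y - 1) * (y - 1)) = (y - 1) ^ 4 := by ring
      omega
    have h6 : Real.log (Real.log ((z - 1 : ℕ) : ℝ)) ≤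
        Real.log 4 + Real.log (Real.log ((y - 1 : ℕ) : ℝ)) := by
      have h7 : Real.log ((z - 1 : ℕ) : ℝ) ≤ 4 * Real.log ((y - 1 : ℕ) : ℝ) := by
        calc Real.log ((z - 1 : ℕ) : ℝ) ≤ Real.log (((y - 1 : ℕ) : ℝ) ^ 4) := by
              refine Real.log_le_log ?_ (by exact_mod_cast h5)
              exact_mod_cast (by omega : 0 < z - 1)
          _ = 4 * Real.log ((y - 1 : ℕ) : ℝ) := by rw [Real.log_pow]; norm_num
      rw [← Real.log_mul (by norm_num) (by linarith)]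
      exact Real.log_le_log (by linarith) h7
    linarith

end Pool.Agent.Lib_helper10.Erdos460
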