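import Mathlib
import Pool.Agent.Lib_helper10.Erdos460.BrunHooley

set_option autoImplicit false

namespace Pool.Agent.Lib_helper10.Erdos460

open Finset Filter Topology

/-- A pair of upper and lower sieve weights for the primes below `z`. -/
structure SieveWeights (z s : ℕ) (τ : ℝ) (Up Low : Finset ℕ → ℝ) : Prop where
  up : ∀ S ⊆ Nat.primesBelow z, ind0 S ≤ subsum Up S
  low : ∀ S ⊆ Nat.primesBelow z, subsum Low S ≤ ind0 S
  up_abs : ∀ T, |Up T| ≤ 1
  low_abs : ∀ T, |Low T| ≤ 1
  up_level : ∀ T ⊆ Nat.primesBelow z, Up T ≠ 0 → ∏ q ∈ T, q ≤ z ^ s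
  low_level : ∀ T ⊆ Nat.primesBelow z, Low T ≠ 0 → ∏ q ∈ T, q ≤ z ^ s
  up_mean : meanw Up (Nat.primesBelow z) ≤ V z * (1 + τ)
  low_mean : V z * (1 - τ) ≤ meanw Low (Nat.primesBelow z)

theorem brun_hooley_strong : ∃ Θ : ℕ → ℝ, (∀ b, 0 ≤ Θ b) ∧ Tendsto Θ atTop (𝓝 0) ∧
    Tendsto (fun b : ℕ => (b : ℝ) * Θ b) atTop (𝓝 0) ∧
    ∀ b : ℕ, 2 * Θ b ≤ 1 → ∀ z : ℕ, 1 ≤ z → ∃ Up Low : Finset ℕ → ℝ,
      SieveWeights z (4 * b + 6) (2 * Θ b) Up Low := by
  classical
  obtain ⟨L0, hL0, hblk⟩ := block_sum_bound
  set θ : ℕ → ℝ := fun j => L0 ^ (2 * j + 1) / ((2 * j + 1).factorial : ℝ) / Real.exp (-(2 * L0))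
    with hθ
  have hθ0 : ∀ j, 0 ≤ θ j := fun j => by simp only [hθ]; positivity
  have hθs : Summable θ := by
    have h1 := Real.summable_pow_div_factorial L0
    have h2 : Summable (fun j : ℕ => L0 ^ (2 * j + 1) / ((2 * j + 1).factorial : ℝ)) :=
      h1.comp_injective (i := fun j : ℕ => 2 * j + 1) (fun a b h => by
        simp only at h
        omega)
    exact h2.div_const _
  have hψs : Summable (fun j : ℕ => (j : ℝ) * θ j) := by
    have h1 := Real.summable_pow_div_factorial L0
    have h2 : Summable (fun j : ℕ => L0 ^ (2 * j) / ((2 * j).factorial : ℝ)) :=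
      h1.comp_injective (i := fun j : ℕ => 2 * j) (fun a b h => by
        simp only at h
        omega)
    refine Summable.of_nonneg_of_le (fun j => mul_nonneg (Nat.cast_nonneg j) (hθ0 j)) (fun j => ?_)
      (h2.mul_left (L0 / Real.exp (-(2 * L0))))
    have h3 : ((2 * j + 1).factorial : ℝ) = (2 * j + 1) * ((2 * j).factorial : ℝ) := by
      rw [Nat.factorial_succ]; push_cast; ring
    have h4 : (0 : ℝ) < ((2 * j).factorial : ℝ) := by positivity
    have h5 : (j : ℝ) / (2 * j + 1) ≤ 1 := by
      rw [div_le_one (by positivity)]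
      linarith [(Nat.cast_nonneg j : (0 : ℝ) ≤ (j : ℝ))]
    have h6 : (j : ℝ) * θ j = (j : ℝ) / (2 * j + 1) * (L0 / Real.exp (-(2 * L0)) *
        (L0 ^ (2 * j) / ((2 * j).factorial : ℝ))) := by
      simp only [hθ]
      rw [h3]
      field_simp
      ring
    rw [h6]
    exact mul_le_of_le_one_left (by positivity) h5
  refine ⟨fun b => ∑' j, θ (j + b), fun b => tsum_nonneg fun j => hθ0 _,
    tendsto_sum_nat_add θ, ?_, ?_⟩
  · refine squeeze_zero (fun b => mul_nonneg (Nat.cast_nonneg b) (tsum_nonneg fun j => hθ0 _))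
      (fun b => ?_) (tendsto_sum_nat_add (fun j : ℕ => (j : ℝ) * θ j))
    rw [← tsum_mul_left]
    refine Summable.tsum_le_tsum (fun j => ?_) ?_ ?_
    · refine mul_le_mul_of_nonneg_right ?_ (hθ0 _)
      push_cast
      linarith [(Nat.cast_nonneg j : (0 : ℝ) ≤ (j : ℝ))]
    · exact ((summable_nat_add_iff b).2 hθs).mul_left _
    · exact (summable_nat_add_iff (f := fun j : ℕ => (j : ℝ) * θ j) b).2 hψs
  set Θ : ℕ → ℝ := fun b => ∑' j, θ (j + b) with hΘ
  have hΘ0 : ∀ b, 0 ≤ Θ b := fun b => tsum_nonneg fun j => hθ0 _
  have hΘrec : ∀ b, Θ b = θ b + Θ (b + 1) := by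
    intro b
    have hs : Summable (fun j => θ (j + b)) := (summable_nat_add_iff b).2 hθs
    have h1 := hs.tsum_eq_zero_add
    simp only [hΘ]
    rw [h1]
    simp only [zero_add]
    congr 1
    refine tsum_congr fun j => ?_
    congr 1
    ring
  have main : ∀ z : ℕ, 1 ≤ z → ∀ b : ℕ, 2 * Θ b ≤ 1 → ∃ Up Low : Finset ℕ → ℝ,
      SieveWeights z (4 * b + 6) (2 * Θ b) Up Low := by
    intro z
    induction z using Nat.strong_induction_on with
    | _ z ih =>
      intro hz1 b hb
      rcases Nat.lt_or_ge z 3 with hz | hz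
      · -- no primes
        have hP : Nat.primesBelow z = ∅ := by
          rw [Finset.eq_empty_iff_forall_notMem]
          intro p hp
          rw [Nat.mem_primesBelow] at hp
          have := hp.2.two_le
          omega
        refine ⟨fun _ => 1, fun _ => 1, ?_⟩
        have hV : V z = 1 := by unfold V; rw [hP]; simp
        have hm : meanw (fun _ => (1 : ℝ)) (Nat.primesBelow z) = 1 := by
          unfold meanw; rw [hP]; simp
        have hΘb := hΘ0 b
        refine ⟨?_, ?_, ?_, ?_, ?_, ?_, ?_, ?_⟩
        · intro S hS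
          rw [hP, subset_empty] at hS
          subst hS
          simp [ind0, subsum]
        · intro S hS
          rw [hP, subset_empty] at hS
          subst hS
          simp [ind0, subsum]
        · intro T; simp
        · intro T; simp
        · intro T hT _
          rw [hP, subset_empty] at hT
          subst hT
          simp only [prod_empty]
          exact Nat.one_le_pow _ _ hz1
        · intro T hT _
          rw [hP, subset_empty] at hT
          subst hT
          simp only [prod_empty]
          exact Nat.one_le_pow _ _ hz1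
        · rw [hm, hV]; linarith
        · rw [hm, hV]; linarith
      · set y := Nat.sqrt z with hy
        have hyz : y < z := Nat.sqrt_lt_self (by omega)
        have hy1 : 1 ≤ y := by rw [hy, Nat.le_sqrt]; omega
        have hΘb1 : 2 * Θ (b + 1) ≤ 1 := by
          have := hΘrec b
          have := hθ0 b
          linarith
        obtain ⟨Up, Low, hW⟩ := ih y hyz hy1 (b + 1) hΘb1
        set P := Nat.primesBelow y with hPdef
        set Q := Nat.primesBelow z \ Nat.primesBelow y with hQdef
        have hPQ : Disjoint P Q := disjoint_sdiff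
        have hunion : P ∪ Q = Nat.primesBelow z := union_sdiff_of_subset (primesBelow_mono hyz.le)
        have hQp : ∀ q ∈ Q, q.Prime := fun q hq => (Nat.mem_primesBelow.1 (mem_sdiff.1 hq).1).2
        have hQlt : ∀ q ∈ Q, q ≤ z := fun q hq =>
          (Nat.mem_primesBelow.1 (mem_sdiff.1 hq).1).1.le
        have hQsum : ∑ q ∈ Q, 1 / (q : ℝ) ≤ L0 := hblk z
        have hQlow := block_prod_lower Q hQp L0 hQsum
        obtain ⟨hm1, hm2, hm3, hm4⟩ := block_mean b Q hQp
        have hQsum0 : 0 ≤ ∑ q ∈ Q, 1 / (q : ℝ) := sum_nonneg fun q _ => by positivity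
        set VQ := ∏ q ∈ Q, (1 - 1 / (q : ℝ)) with hVQ
        have hVQpos : 0 < VQ := lt_of_lt_of_le (Real.exp_pos _) hQlow
        have hVz : V z = V y * VQ := by
          unfold V
          rw [hVQ, ← prod_sdiff (primesBelow_mono hyz.le), mul_comm]
        -- E mean ≤ θ_b VQ
        have hE : meanw (Eblk b) Q ≤ θ b * VQ := by
          have h1 : meanw (Eblk b) Q ≤ L0 ^ (2 * b + 1) / ((2 * b + 1).factorial : ℝ) :=
            hm4.trans (div_le_div_of_nonneg_right (pow_le_pow_left₀ hQsum0 hQsum _)
              (by positivity))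
          refine h1.trans ?_
          have h2 : L0 ^ (2 * b + 1) / ((2 * b + 1).factorial : ℝ) = θ b * Real.exp (-(2 * L0)) := by
            simp only [hθ]
            rw [div_mul_cancel₀ _ (Real.exp_pos _).ne']
          rw [h2]
          exact mul_le_mul_of_nonneg_left hQlow (hθ0 b)
        have hVy := V_pos y
        set Up' : Finset ℕ → ℝ := fun T => Up (T ∩ P) * Ublk b (T ∩ Q) with hUp'
        set Low' : Finset ℕ → ℝ := fun T =>
          Low (T ∩ P) * Ublk b (T ∩ Q) - Up (T ∩ P) * Eblk b (T ∩ Q) with hLow'
        have hUabs : ∀ T, |Ublk b T| ≤ 1 := by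
          intro T
          unfold Ublk
          split_ifs
          · rw [abs_pow]; simp
          · simp
        have hprodQ : ∀ T ⊆ Nat.primesBelow z, (T ∩ Q).card ≤ 2 * b + 1 →
            (∏ q ∈ T ∩ P, q ≤ y ^ (4 * (b + 1) + 6)) → ∏ q ∈ T, q ≤ z ^ (4 * b + 6) := by
          intro T hT hcard hP1
          have hT' : T = (T ∩ P) ∪ (T ∩ Q) := by
            rw [← inter_union_distrib_left, hunion]
            exact (inter_eq_left.2 hT).symm
          have hd : Disjoint (T ∩ P) (T ∩ Q) :=
            disjoint_of_subset_left inter_subset_right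
              (disjoint_of_subset_right inter_subset_right hPQ)
          have h1 : ∏ q ∈ T, q = (∏ q ∈ T ∩ P, q) * ∏ q ∈ T ∩ Q, q := by
            rw [← prod_union hd, ← hT']
          have h2 : ∏ q ∈ T ∩ Q, q ≤ z ^ (2 * b + 1) := by
            calc ∏ q ∈ T ∩ Q, q ≤ ∏ _q ∈ T ∩ Q, z :=
                  prod_le_prod' fun q hq => hQlt q (mem_inter.1 hq).2
              _ = z ^ (T ∩ Q).card := by rw [prod_const]
              _ ≤ z ^ (2 * b + 1) := Nat.pow_le_pow_right hz1 hcard
          have h3 : y ^ (4 * (b + 1) + 6) ≤ z ^ (2 * b + 5) := by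
            have : y * y ≤ z := Nat.sqrt_le z
            calc y ^ (4 * (b + 1) + 6) = (y * y) ^ (2 * b + 5) := by
                  rw [← pow_two, ← pow_mul]; congr 1; ring
              _ ≤ z ^ (2 * b + 5) := Nat.pow_le_pow_left this _
          rw [h1]
          calc (∏ q ∈ T ∩ P, q) * ∏ q ∈ T ∩ Q, q ≤ z ^ (2 * b + 5) * z ^ (2 * b + 1) :=
                Nat.mul_le_mul (hP1.trans h3) h2
            _ = z ^ (4 * b + 6) := by rw [← pow_add]; congr 1; ring
        refine ⟨Up', Low', ?_, ?_, ?_, ?_, ?_, ?_, ?_, ?_⟩
        · -- upper sieve inequality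
          intro S hS
          rw [← hunion] at hS
          have h1 : subsum Up' S = subsum Up (S ∩ P) * subsum (Ublk b) (S ∩ Q) :=
            subsum_mul P Q S hPQ hS Up (Ublk b)
          have h2 := hW.up (S ∩ P) inter_subset_right
          have h3 := (block_ineq b (S ∩ Q)).1
          have h4 : ind0 S = ind0 (S ∩ P) * ind0 (S ∩ Q) := by
            unfold ind0
            have hSe : S = ∅ ↔ (S ∩ P = ∅ ∧ S ∩ Q = ∅) := by
              constructor
              · rintro rfl; simp
              · rintro ⟨h5, h6⟩
                have : S = (S ∩ P) ∪ (S ∩ Q) := by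
                  rw [← inter_union_distrib_left]
                  exact (inter_eq_left.2 hS).symm
                rw [this, h5, h6, empty_union]
            by_cases h5 : S ∩ P = ∅ <;> by_cases h6 : S ∩ Q = ∅ <;> simp [hSe, h5, h6]
          rw [h1, h4]
          exact mul_le_mul h2 h3 (ind0_nonneg _) ((ind0_nonneg _).trans h2)
        · -- lower sieve inequality
          intro S hS
          rw [← hunion] at hS
          have h1 : subsum Low' S = subsum Low (S ∩ P) * subsum (Ublk b) (S ∩ Q) -
              subsum Up (S ∩ P) * subsum (Eblk b) (S ∩ Q) := by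
            rw [← subsum_mul P Q S hPQ hS Low (Ublk b), ← subsum_mul P Q S hPQ hS Up (Eblk b)]
            unfold subsum
            rw [← sum_sub_distrib]
          have h2 := hW.up (S ∩ P) inter_subset_right
          have h2' := hW.low (S ∩ P) inter_subset_right
          obtain ⟨h3, h3'⟩ := block_ineq b (S ∩ Q)
          have h4 : ind0 S = ind0 (S ∩ P) * ind0 (S ∩ Q) := by
            unfold ind0
            have hSe : S = ∅ ↔ (S ∩ P = ∅ ∧ S ∩ Q = ∅) := by
              constructor
              · rintro rfl; simp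
              · rintro ⟨h5, h6⟩
                have : S = (S ∩ P) ∪ (S ∩ Q) := by
                  rw [← inter_union_distrib_left]
                  exact (inter_eq_left.2 hS).symm
                rw [this, h5, h6, empty_union]
            by_cases h5 : S ∩ P = ∅ <;> by_cases h6 : S ∩ Q = ∅ <;> simp [hSe, h5, h6]
          have hi0 := ind0_nonneg (S ∩ P)
          have hi1 := ind0_nonneg (S ∩ Q)
          have hE0 : 0 ≤ subsum (Eblk b) (S ∩ Q) := by
            unfold subsum
            refine sum_nonneg fun T _ => ?_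
            unfold Eblk
            split_ifs <;> norm_num
          rw [h1, h4]
          have h5 : subsum Low (S ∩ P) * subsum (Ublk b) (S ∩ Q) ≤
              ind0 (S ∩ P) * subsum (Ublk b) (S ∩ Q) :=
            mul_le_mul_of_nonneg_right h2' (hi1.trans h3)
          have h6 : ind0 (S ∩ P) * subsum (Eblk b) (S ∩ Q) ≤
              subsum Up (S ∩ P) * subsum (Eblk b) (S ∩ Q) :=
            mul_le_mul_of_nonneg_right h2 hE0
          have h7 : ind0 (S ∩ P) * (subsum (Ublk b) (S ∩ Q) - ind0 (S ∩ Q)) ≤
              ind0 (S ∩ P) * subsum (Eblk b) (S ∩ Q) :=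
            mul_le_mul_of_nonneg_left h3' hi0
          linarith
        · intro T
          simp only [hUp', abs_mul]
          exact mul_le_one₀ (hW.up_abs _) (abs_nonneg _) (hUabs _)
        · intro T
          simp only [hLow']
          unfold Ublk Eblk
          by_cases h1 : (T ∩ Q).card < 2 * b + 1
          · have h2 : ¬ (T ∩ Q).card = 2 * b + 1 := by omega
            rw [if_pos h1, if_neg h2, mul_zero, sub_zero, abs_mul, abs_pow]
            simpa using hW.low_abs (T ∩ P)
          · rw [if_neg h1, mul_zero, zero_sub, abs_neg, abs_mul]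
            split_ifs
            · simpa using hW.up_abs (T ∩ P)
            · simp
        · intro T hT hne
          simp only [hUp'] at hne
          have h1 : Up (T ∩ P) ≠ 0 := left_ne_zero_of_mul hne
          have h2 : Ublk b (T ∩ Q) ≠ 0 := right_ne_zero_of_mul hne
          have h3 : (T ∩ Q).card < 2 * b + 1 := by
            by_contra h
            apply h2
            unfold Ublk
            rw [if_neg h]
          exact hprodQ T hT h3.le (hW.up_level _ inter_subset_right h1)
        · intro T hT hne
          simp only [hLow'] at hne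
          by_cases h1 : (T ∩ Q).card < 2 * b + 1
          · have h2 : Eblk b (T ∩ Q) = 0 := by unfold Eblk; rw [if_neg (by omega)]
            rw [h2, mul_zero, sub_zero] at hne
            exact hprodQ T hT h1.le (hW.low_level _ inter_subset_right (left_ne_zero_of_mul hne))
          · have h2 : Ublk b (T ∩ Q) = 0 := by unfold Ublk; rw [if_neg h1]
            rw [h2, mul_zero, zero_sub, neg_ne_zero] at hne
            have h3 : Eblk b (T ∩ Q) ≠ 0 := right_ne_zero_of_mul hne
            have h4 : (T ∩ Q).card = 2 * b + 1 := by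
              by_contra h
              apply h3
              unfold Eblk
              rw [if_neg h]
            exact hprodQ T hT h4.le (hW.up_level _ inter_subset_right (left_ne_zero_of_mul hne))
        · -- upper mean
          have h1 : meanw Up' (Nat.primesBelow z) = meanw Up P * meanw (Ublk b) Q := by
            rw [← hunion]
            exact meanw_mul P Q hPQ Up (Ublk b)
          rw [h1]
          have hU0 : 0 ≤ meanw (Ublk b) Q := hVQpos.le.trans hm1
          have hU1 : meanw (Ublk b) Q ≤ VQ * (1 + θ b) := by nlinarith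
          have hΘ1 := hΘ0 (b + 1)
          have hθb := hθ0 b
          have hrec := hΘrec b
          calc meanw Up P * meanw (Ublk b) Q
              ≤ (V y * (1 + 2 * Θ (b + 1))) * meanw (Ublk b) Q :=
                mul_le_mul_of_nonneg_right hW.up_mean hU0
            _ ≤ (V y * (1 + 2 * Θ (b + 1))) * (VQ * (1 + θ b)) :=
                mul_le_mul_of_nonneg_left hU1 (by positivity)
            _ = V z * ((1 + 2 * Θ (b + 1)) * (1 + θ b)) := by rw [hVz]; ring
            _ ≤ V z * (1 + 2 * Θ b) := by
                refine mul_le_mul_of_nonneg_left ?_ (V_pos z).le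
                rw [hrec]
                nlinarith
        · -- lower mean
          have h1 : meanw Low' (Nat.primesBelow z) =
              meanw Low P * meanw (Ublk b) Q - meanw Up P * meanw (Eblk b) Q := by
            rw [← meanw_mul P Q hPQ Low (Ublk b), ← meanw_mul P Q hPQ Up (Eblk b), hunion]
            unfold meanw
            rw [← sum_sub_distrib]
            refine sum_congr rfl fun T _ => ?_
            simp only [hLow']
            ring
          rw [h1]
          have hΘ1 := hΘ0 (b + 1)
          have hθb := hθ0 b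
          have hrec := hΘrec b
          have h2 : (V y * (1 - 2 * Θ (b + 1))) * VQ ≤ meanw Low P * meanw (Ublk b) Q := by
            have h3 : 0 ≤ V y * (1 - 2 * Θ (b + 1)) := mul_nonneg hVy.le (by linarith)
            exact mul_le_mul hW.low_mean hm1 hVQpos.le (h3.trans hW.low_mean)
          have h3 : meanw Up P * meanw (Eblk b) Q ≤ (V y * (1 + 2 * Θ (b + 1))) * (θ b * VQ) :=
            mul_le_mul hW.up_mean hE hm3 (by positivity)
          have h4 : V z * (1 - 2 * Θ b) ≤
              (V y * (1 - 2 * Θ (b + 1))) * VQ - (V y * (1 + 2 * Θ (b + 1))) * (θ b * VQ) := by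
            have h5 : (V y * (1 - 2 * Θ (b + 1))) * VQ - (V y * (1 + 2 * Θ (b + 1))) * (θ b * VQ) =
                V z * ((1 - 2 * Θ (b + 1)) - (1 + 2 * Θ (b + 1)) * θ b) := by
              rw [hVz]; ring
            rw [h5]
            refine mul_le_mul_of_nonneg_left ?_ (V_pos z).le
            rw [hrec]
            nlinarith
          linarith
  exact fun b hb z hz => main z hz b hb

theorem brun_hooley : ∃ Θ : ℕ → ℝ, (∀ b, 0 ≤ Θ b) ∧ Tendsto Θ atTop (𝓝 0) ∧
    ∀ b : ℕ, 2 * Θ b ≤ 1 → ∀ z : ℕ, 1 ≤ z → ∃ Up Low : Finset ℕ → ℝ,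
      SieveWeights z (4 * b + 6) (2 * Θ b) Up Low := by
  obtain ⟨Θ, h1, h2, -, h3⟩ := brun_hooley_strong
  exact ⟨Θ, h1, h2, h3⟩

end Pool.Agent.Lib_helper10.Erdos460
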