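import Mathlib
import Pool.Agent.Lib_helper10.Erdos460.BrunHooley2

set_option autoImplicit false

namespace Pool.Agent.Lib_helper10.Erdos460

open Finset Filter Topology

/-- sieve weights with arbitrarily small loss and bounded exponent -/
theorem exists_weights (ε : ℝ) (hε : 0 < ε) : ∃ s : ℕ, 1 ≤ s ∧ ∀ z : ℕ, 1 ≤ z →
    ∃ Up Low : Finset ℕ → ℝ, SieveWeights z s ε Up Low := by
  obtain ⟨Θ, hΘ0, hΘt, h⟩ := brun_hooley
  obtain ⟨b, hb⟩ : ∃ b, Θ b < min (ε / 2) (1 / 2) :=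
    (hΘt.eventually (eventually_lt_nhds (lt_min (by linarith) (by norm_num)))).exists
  have h1 : Θ b < ε / 2 := lt_of_lt_of_le hb (min_le_left _ _)
  have h2 : Θ b < 1 / 2 := lt_of_lt_of_le hb (min_le_right _ _)
  refine ⟨4 * b + 6, by omega, fun z hz => ?_⟩
  obtain ⟨Up, Low, hW⟩ := h b (by linarith) z hz
  refine ⟨Up, Low, hW.up, hW.low, hW.up_abs, hW.low_abs, hW.up_level, hW.low_level, ?_, ?_⟩
  · refine hW.up_mean.trans (mul_le_mul_of_nonneg_left ?_ (V_pos z).le)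
    linarith
  · refine le_trans (mul_le_mul_of_nonneg_left ?_ (V_pos z).le) hW.low_mean
    linarith

/-- the divisor sum attached to a weight -/
noncomputable def dsum (w : Finset ℕ → ℝ) (P : Finset ℕ) (m : ℕ) : ℝ :=
  ∑ T ∈ P.powerset, w T * (if (∏ q ∈ T, q) ∣ m then 1 else 0)

lemma dsum_eq_subsum (w : Finset ℕ → ℝ) (P : Finset ℕ) (hP : ∀ q ∈ P, q.Prime) (m : ℕ) :
    dsum w P m = subsum w (P.filter (fun q => q ∣ m)) := by
  classical
  unfold dsum subsum
  simp only [mul_ite, mul_one, mul_zero]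
  rw [← sum_filter]
  refine sum_congr ?_ fun _ _ => rfl
  ext T
  rw [mem_filter, mem_powerset, mem_powerset]
  constructor
  · rintro ⟨h1, h2⟩ q hq
    rw [mem_filter]
    exact ⟨h1 hq, (dvd_prod_of_mem (fun q => q) hq).trans h2⟩
  · intro h
    refine ⟨h.trans (filter_subset _ _), ?_⟩
    refine Finset.prod_primes_dvd m (fun q hq => ?_) (fun q hq => ?_)
    · exact (hP q (mem_filter.1 (h hq)).1).prime
    · exact (mem_filter.1 (h hq)).2

lemma card_support_le (w : Finset ℕ → ℝ) (P : Finset ℕ) (hP : ∀ q ∈ P, q.Prime) (D : ℕ)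
    (hD : ∀ T ⊆ P, w T ≠ 0 → ∏ q ∈ T, q ≤ D) :
    (P.powerset.filter (fun T => w T ≠ 0)).card ≤ D := by
  classical
  have h1 : (P.powerset.filter (fun T => w T ≠ 0)).card ≤ (Icc 1 D).card := by
    refine card_le_card_of_injOn (fun T => ∏ q ∈ T, q) ?_ ?_
    · intro T hT
      have hT' := mem_filter.1 hT
      have hTP := mem_powerset.1 hT'.1
      simp only [coe_Icc, Set.mem_Icc]
      exact ⟨Nat.one_le_iff_ne_zero.2 (prod_ne_zero_iff.2 fun q hq => (hP q (hTP hq)).ne_zero),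
        hD T hTP hT'.2⟩
    · intro T hT T' hT' h
      have hTP := mem_powerset.1 (mem_filter.1 hT).1
      have hTP' := mem_powerset.1 (mem_filter.1 hT').1
      simp only at h
      rw [← Nat.primeFactors_prod (fun q hq => hP q (hTP hq)), h,
        Nat.primeFactors_prod (fun q hq => hP q (hTP' hq))]
  simpa using h1

lemma sum_abs_le (w : Finset ℕ → ℝ) (P : Finset ℕ) (hP : ∀ q ∈ P, q.Prime) (D : ℕ)
    (hD : ∀ T ⊆ P, w T ≠ 0 → ∏ q ∈ T, q ≤ D) (hw : ∀ T, |w T| ≤ 1) :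
    ∑ T ∈ P.powerset, |w T| ≤ D := by
  classical
  have h1 : ∑ T ∈ P.powerset, |w T| = ∑ T ∈ P.powerset.filter (fun T => w T ≠ 0), |w T| := by
    rw [sum_filter]
    refine sum_congr rfl fun T _ => ?_
    split_ifs with h
    · rfl
    · push Not at h
      rw [h, abs_zero]
  rw [h1]
  calc ∑ T ∈ P.powerset.filter (fun T => w T ≠ 0), |w T|
      ≤ ∑ _T ∈ P.powerset.filter (fun T => w T ≠ 0), (1 : ℝ) := sum_le_sum fun T _ => hw T
    _ = ((P.powerset.filter (fun T => w T ≠ 0)).card : ℝ) := by simp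
    _ ≤ D := by exact_mod_cast card_support_le w P hP D hD

lemma prod_one_div (T : Finset ℕ) : ∏ q ∈ T, (1 / (q : ℝ)) = 1 / ((∏ q ∈ T, q : ℕ) : ℝ) := by
  simp only [one_div]
  rw [prod_inv_distrib]
  push_cast
  rfl

/-- `n - a` free of primes below `z` -/
def roughz (n a z : ℕ) : Prop := ∀ p ∈ Nat.primesBelow z, ¬ p ∣ n - a

instance (n a z : ℕ) : Decidable (roughz n a z) := by
  unfold roughz
  infer_instance

/-- upper bound sieve for a fixed `n` and shifts `a` in an interval -/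
theorem upper_sieve {z s : ℕ} {τ : ℝ} {Up Low : Finset ℕ → ℝ} (hW : SieveWeights z s τ Up Low)
    (n u x : ℕ) (hn : u + x ≤ n) :
    ((((Ioc u (u + x)).filter (fun a => roughz n a z)).card : ℕ) : ℝ) ≤
      x * (V z * (1 + τ)) + (z : ℝ) ^ s := by
  classical
  set P := Nat.primesBelow z with hPdef
  have hP : ∀ q ∈ P, q.Prime := fun q hq => (Nat.mem_primesBelow.1 hq).2
  have h1 : ((((Ioc u (u + x)).filter (fun a => roughz n a z)).card : ℕ) : ℝ) ≤
      ∑ a ∈ Ioc u (u + x), dsum Up P (n - a) := by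
    rw [card_filter]
    push_cast
    refine sum_le_sum fun a _ => ?_
    rw [dsum_eq_subsum Up P hP]
    have h2 := hW.up (P.filter (fun q => q ∣ n - a)) (filter_subset _ _)
    split_ifs with hr
    · have : P.filter (fun q => q ∣ n - a) = ∅ := by
        rw [filter_eq_empty_iff]
        intro q hq
        exact hr q hq
      rw [this] at h2 ⊢
      unfold ind0 at h2
      simpa using h2
    · exact (ind0_nonneg _).trans h2
  have h2 : ∑ a ∈ Ioc u (u + x), dsum Up P (n - a) =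
      ∑ T ∈ P.powerset, Up T * ((((Ioc u (u + x)).filter
        (fun a => a ≡ n [MOD (∏ q ∈ T, q)])).card : ℕ) : ℝ) := by
    unfold dsum
    rw [sum_comm]
    refine sum_congr rfl fun T _ => ?_
    rw [← mul_sum]
    congr 1
    rw [card_filter]
    push_cast
    refine sum_congr rfl fun a ha => ?_
    have han : a ≤ n := (mem_Ioc.1 ha).2.trans hn
    have : (∏ q ∈ T, q) ∣ n - a ↔ a ≡ n [MOD (∏ q ∈ T, q)] := (Nat.modEq_iff_dvd' han).symm
    simp only [this]
  have h3 : ∀ T ∈ P.powerset, Up T * ((((Ioc u (u + x)).filter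
        (fun a => a ≡ n [MOD (∏ q ∈ T, q)])).card : ℕ) : ℝ) ≤
      x * (Up T * ∏ q ∈ T, (1 / (q : ℝ))) + |Up T| := by
    intro T hT
    have hTP := mem_powerset.1 hT
    have hpos : 0 < ∏ q ∈ T, q := prod_pos fun q hq => (hP q (hTP hq)).pos
    have h4 := count_modEq u x (∏ q ∈ T, q) n hpos
    set c := ((((Ioc u (u + x)).filter (fun a => a ≡ n [MOD (∏ q ∈ T, q)])).card : ℕ) : ℝ)
      with hc
    have h5 : Up T * c = Up T * (c - x / ((∏ q ∈ T, q : ℕ) : ℝ)) +
        Up T * (x / ((∏ q ∈ T, q : ℕ) : ℝ)) := by ring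
    have h6 : Up T * (c - x / ((∏ q ∈ T, q : ℕ) : ℝ)) ≤ |Up T| := by
      calc Up T * (c - x / ((∏ q ∈ T, q : ℕ) : ℝ)) ≤ |Up T * (c - x / ((∏ q ∈ T, q : ℕ) : ℝ))| :=
            le_abs_self _
        _ = |Up T| * |c - x / ((∏ q ∈ T, q : ℕ) : ℝ)| := abs_mul _ _
        _ ≤ |Up T| * 1 := mul_le_mul_of_nonneg_left h4 (abs_nonneg _)
        _ = |Up T| := mul_one _
    rw [prod_one_div]
    rw [h5]
    have h7 : Up T * (x / ((∏ q ∈ T, q : ℕ) : ℝ)) =
        x * (Up T * (1 / ((∏ q ∈ T, q : ℕ) : ℝ))) := by ring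
    rw [h7]
    linarith
  have h4 := sum_le_sum h3
  rw [sum_add_distrib, ← mul_sum] at h4
  have h5 : ∑ T ∈ P.powerset, |Up T| ≤ ((z ^ s : ℕ) : ℝ) :=
    sum_abs_le Up P hP (z ^ s) hW.up_level hW.up_abs
  have h6 := mul_le_mul_of_nonneg_left hW.up_mean (by positivity : (0 : ℝ) ≤ x)
  unfold meanw at h6
  rw [h2] at h1
  push_cast at h5
  linarith

end Pool.Agent.Lib_helper10.Erdos460
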