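import Mathlib
import Pool.Prelude.Def_F_8adaa765

set_option autoImplicit false
open N435e839e

namespace Pool.Agent.Lib_helper10.Erdos460

lemma mem_prefix_succ (n t a : ℕ) : a ∈ greedyPrefix false n (t + 1) ↔
    a ∈ greedyPrefix false n t ∨
      (a = t + 1 ∧ (t + 1 = 1 ∨ ∀ b ∈ greedyPrefix false n t,
        Nat.Coprime (n - (t + 1)) (n - b))) := by
  rw [greedyPrefix]
  by_cases h : t + 1 = 1 ∨ ∀ b ∈ greedyPrefix false n t, Nat.Coprime (n - (t + 1)) (n - b)
  · simp only [h, if_true, Finset.mem_insert, and_true]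
    tauto
  · simp only [h, if_false, and_false, or_false]

lemma prefix_bounds {n t a : ℕ} (h : a ∈ greedyPrefix false n t) : 1 ≤ a ∧ a ≤ t := by
  induction t with
  | zero => simp [greedyPrefix] at h
  | succ t ih =>
    rw [mem_prefix_succ] at h
    rcases h with h | ⟨h, -⟩
    · have := ih h
      omega
    · omega

lemma prefix_mono {n s t : ℕ} (hst : s ≤ t) :
    greedyPrefix false n s ⊆ greedyPrefix false n t := by
  induction t, hst using Nat.le_induction with
  | base => exact Finset.Subset.refl _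
  | succ t _ ih =>
    intro a ha
    rw [mem_prefix_succ]
    exact Or.inl (ih ha)

lemma mem_prefix_of_le {n s t a : ℕ} (hst : s ≤ t) (ha : a ≤ s) :
    a ∈ greedyPrefix false n t ↔ a ∈ greedyPrefix false n s := by
  induction t, hst using Nat.le_induction with
  | base => rfl
  | succ t hst ih =>
    rw [mem_prefix_succ, ih]
    constructor
    · rintro (h | ⟨h, -⟩)
      · exact h
      · omega
    · exact Or.inl

/-- Characterisation of the greedy set. -/
lemma mem_selected_iff (n a : ℕ) : a ∈ selected false n ↔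
    1 ≤ a ∧ a < n ∧ (a = 1 ∨ ∀ b ∈ selected false n, b < a → Nat.Coprime (n - a) (n - b)) := by
  have key : ∀ a, a ∈ selected false n ↔ (a ∈ greedyPrefix false n (n - 1) ∧ 1 ≤ a ∧ a < n) := by
    intro a
    rw [selected, Finset.mem_filter]
    rfl
  rw [key]
  constructor
  · rintro ⟨h, h1, h2⟩
    refine ⟨h1, h2, ?_⟩
    obtain ⟨s, rfl⟩ : ∃ s, a = s + 1 := ⟨a - 1, by omega⟩
    rw [mem_prefix_of_le (s := s + 1) (by omega) le_rfl, mem_prefix_succ] at h
    rcases h with h | ⟨-, h⟩
    · have := (prefix_bounds h).2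
      omega
    · rcases h with h | h
      · exact Or.inl h
      · refine Or.inr fun b hb hba => ?_
        rw [key] at hb
        refine h b ?_
        rw [← mem_prefix_of_le (t := n - 1) (by omega) (by omega : b ≤ s)]
        exact hb.1
  · rintro ⟨h1, h2, h⟩
    refine ⟨?_, h1, h2⟩
    obtain ⟨s, rfl⟩ : ∃ s, a = s + 1 := ⟨a - 1, by omega⟩
    rw [mem_prefix_of_le (s := s + 1) (by omega) le_rfl, mem_prefix_succ]
    refine Or.inr ⟨rfl, ?_⟩
    rcases h with h | h
    · exact Or.inl h
    · refine Or.inr fun b hb => ?_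
      have hb' := prefix_bounds hb
      refine h b ?_ (by omega)
      rw [key]
      refine ⟨?_, by omega, by omega⟩
      rw [mem_prefix_of_le (s := s) (by omega) (by omega)]
      exact hb

lemma sel_pos {n a : ℕ} (h : a ∈ selected false n) : 1 ≤ a := ((mem_selected_iff n a).1 h).1
lemma sel_lt {n a : ℕ} (h : a ∈ selected false n) : a < n := ((mem_selected_iff n a).1 h).2.1

lemma sel_coprime_lt {n a b : ℕ} (ha : a ∈ selected false n) (hb : b ∈ selected false n)
    (hba : b < a) : Nat.Coprime (n - a) (n - b) := by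
  rcases ((mem_selected_iff n a).1 ha).2.2 with h | h
  · have := sel_pos hb
    omega
  · exact h b hb hba

lemma sel_coprime {n a b : ℕ} (ha : a ∈ selected false n) (hb : b ∈ selected false n)
    (hab : a ≠ b) : Nat.Coprime (n - a) (n - b) := by
  rcases lt_or_gt_of_ne hab with h | h
  · exact (sel_coprime_lt hb ha h).symm
  · exact sel_coprime_lt ha hb h

/-- `n - a` has no prime factor `< a`: then `a` is selected. -/
lemma sel_of_rough {n a : ℕ} (h1 : 1 ≤ a) (h2 : a < n)
    (h : ∀ p, p.Prime → p < a → ¬ p ∣ n - a) : a ∈ selected false n := by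
  rw [mem_selected_iff]
  refine ⟨h1, h2, Or.inr fun b hb hba => ?_⟩
  rw [Nat.coprime_iff_gcd_eq_one]
  by_contra hg
  obtain ⟨p, hp, hpg⟩ := Nat.exists_prime_and_dvd hg
  have hpa : p ∣ n - a := hpg.trans (Nat.gcd_dvd_left _ _)
  have hpb : p ∣ n - b := hpg.trans (Nat.gcd_dvd_right _ _)
  have hpd : p ∣ (n - b) - (n - a) := Nat.dvd_sub hpb hpa
  have hd : (n - b) - (n - a) = a - b := by
    have := sel_lt hb
    omega
  rw [hd] at hpd
  have hle : p ≤ a - b := Nat.le_of_dvd (by omega) hpd
  have hb1 := sel_pos hb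
  exact h p hp (by omega) hpa

/-- If `n - b` has no prime factor `< b` other than possibly `p` and `p ∣ n - b`, then `p` divides
some `n - b'` with `b' ≤ b` selected. -/
lemma used_of_almost_rough {n b p : ℕ} (h1 : 1 ≤ b) (h2 : b < n) (hpb : p ∣ n - b)
    (h : ∀ q, q.Prime → q < b → q ≠ p → ¬ q ∣ n - b) :
    ∃ b' ∈ selected false n, b' ≤ b ∧ p ∣ n - b' := by
  by_cases hb : b ∈ selected false n
  · exact ⟨b, hb, le_rfl, hpb⟩
  rw [mem_selected_iff] at hb
  push Not at hb
  obtain ⟨hb1, b', hb', hlt, hcop⟩ := hb h1 h2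
  obtain ⟨q, hq, hqg⟩ := Nat.exists_prime_and_dvd hcop
  have hqb : q ∣ n - b := hqg.trans (Nat.gcd_dvd_left _ _)
  have hqb' : q ∣ n - b' := hqg.trans (Nat.gcd_dvd_right _ _)
  have hqd : q ∣ (n - b') - (n - b) := Nat.dvd_sub hqb' hqb
  have hd : (n - b') - (n - b) = b - b' := by
    have := sel_lt hb'
    omega
  rw [hd] at hqd
  have hle : q ≤ b - b' := Nat.le_of_dvd (by omega) hqd
  have hb1' := sel_pos hb'
  have hqp : q = p := by
    by_contra hne
    exact h q hq (by omega) hne hqb
  subst hqp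
  exact ⟨b', hb', hlt.le, hqb'⟩

/-- a prime is used at most once -/
lemma not_dvd_of_used {n a b p : ℕ} (hp : p.Prime) (ha : a ∈ selected false n)
    (hb : b ∈ selected false n) (hab : a ≠ b) (hpb : p ∣ n - b) : ¬ p ∣ n - a := by
  intro hpa
  have := sel_coprime ha hb hab
  have h1 : p ∣ Nat.gcd (n - a) (n - b) := Nat.dvd_gcd hpa hpb
  rw [Nat.coprime_iff_gcd_eq_one.1 this] at h1
  exact hp.one_lt.ne' (Nat.dvd_one.1 h1)

end Pool.Agent.Lib_helper10.Erdos460
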