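import Mathlib

set_option autoImplicit false

namespace Pool.Agent.Lib_helper10.Erdos460

open Finset Filter Topology

/-- Laplace-type summation by parts for nonnegative weights. -/
theorem swap_sum (w : ℕ → ℝ) (hw : ∀ n, 0 ≤ w n) (T : ℕ → ℕ) (S : ℕ → Finset ℕ)
    (hS : ∀ m n, w n ≠ 0 → (n ∈ S m ↔ T n ≤ m)) (x : ℝ) (hx0 : 0 < x) (hx1 : x < 1)
    (hsum : Summable (fun m => (∑ n ∈ S m, w n) * x ^ m)) :
    HasSum (fun n => w n * x ^ (T n)) ((1 - x) * ∑' m, (∑ n ∈ S m, w n) * x ^ m) := by
  classical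
  set f : ℕ × ℕ → ℝ := fun mn => if T mn.2 ≤ mn.1 then w mn.2 * x ^ mn.1 else 0 with hf
  have hf0 : 0 ≤ f := by
    intro mn
    simp only [hf, Pi.zero_apply]
    split_ifs
    · exact mul_nonneg (hw _) (pow_nonneg hx0.le _)
    · exact le_rfl
  have hrow : ∀ m, HasSum (fun n => f (m, n)) ((∑ n ∈ S m, w n) * x ^ m) := by
    intro m
    have h1 : HasSum (fun n => f (m, n)) (∑ n ∈ S m, f (m, n)) := by
      refine hasSum_sum_of_ne_finset_zero fun n hn => ?_
      simp only [hf]
      by_cases hwn : w n = 0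
      · simp [hwn]
      · have : ¬ T n ≤ m := fun h => hn ((hS m n hwn).2 h)
        simp [this]
    have h2 : ∑ n ∈ S m, f (m, n) = (∑ n ∈ S m, w n) * x ^ m := by
      rw [sum_mul]
      refine sum_congr rfl fun n hn => ?_
      simp only [hf]
      by_cases hwn : w n = 0
      · simp [hwn]
      · have : T n ≤ m := (hS m n hwn).1 hn
        simp [this]
    rw [← h2]
    exact h1
  have hcol : ∀ n, HasSum (fun m => f (m, n)) (w n * x ^ (T n) * (1 - x)⁻¹) := by
    intro n
    have hg : HasSum (fun k : ℕ => w n * x ^ (T n) * x ^ k) (w n * x ^ (T n) * (1 - x)⁻¹) :=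
      (hasSum_geometric_of_lt_one hx0.le hx1).mul_left _
    have h1 : HasSum (fun k : ℕ => f (k + T n, n)) (w n * x ^ (T n) * (1 - x)⁻¹) := by
      refine hg.congr_fun ?_ |> fun h => h
      intro k
      simp only [hf]
      rw [if_pos (by omega)]
      rw [pow_add]
      ring
    have h2 := (hasSum_nat_add_iff (f := fun m => f (m, n)) (T n)).1 h1
    have h3 : ∑ i ∈ range (T n), f (i, n) = 0 := by
      refine sum_eq_zero fun i hi => ?_
      simp only [hf]
      rw [if_neg (by have := mem_range.1 hi; omega)]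
    rw [h3, add_zero] at h2
    exact h2
  have hsumf : Summable f := by
    rw [summable_prod_of_nonneg hf0]
    refine ⟨fun m => (hrow m).summable, ?_⟩
    have : (fun m => ∑' n, f (m, n)) = fun m => (∑ n ∈ S m, w n) * x ^ m :=
      funext fun m => (hrow m).tsum_eq
    rw [this]
    exact hsum
  have htot : HasSum f (∑' m, (∑ n ∈ S m, w n) * x ^ m) := by
    have h1 := hsumf.hasSum
    have h2 := h1.prod_fiberwise hrow
    rw [h2.tsum_eq]
    exact h1
  have hswap : HasSum (fun nm : ℕ × ℕ => f (nm.2, nm.1)) (∑' m, (∑ n ∈ S m, w n) * x ^ m) := by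
    have := (Equiv.prodComm ℕ ℕ).hasSum_iff.2 htot
    exact this
  have h3 := hswap.prod_fiberwise hcol
  have h4 := h3.mul_left (1 - x)
  have hne : (1 - x) ≠ 0 := by linarith
  refine h4.congr_fun ?_ |> fun h => h
  intro n
  field_simp

end Pool.Agent.Lib_helper10.Erdos460
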