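import Mathlib
import Pool.Agent.Lib_helper10.Erdos460.Mertens2
import Pool.Agent.Lib_helper10.Erdos460.Swap

set_option autoImplicit false

namespace Pool.Agent.Lib_helper10.Erdos460

open Finset Filter Topology

/-- reciprocal at primes -/
noncomputable def wp (n : ℕ) : ℝ := if n.Prime then 1 / (n : ℝ) else 0

lemma wp_nonneg (n : ℕ) : 0 ≤ wp n := by unfold wp; split_ifs <;> positivity

/-- partial sums of prime reciprocals up to `e^m` -/
noncomputable def Ap (m : ℕ) : ℝ := ∑ n ∈ Nat.primesLE ⌊Real.exp m⌋₊, wp n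

lemma Ap_eq (m : ℕ) : Ap m = ∑ p ∈ Nat.primesLE ⌊Real.exp m⌋₊, (1 : ℝ) / p := by
  unfold Ap
  refine sum_congr rfl fun p hp => ?_
  unfold wp
  rw [if_pos (Nat.prime_of_mem_primesLE hp)]

noncomputable def Hr (m : ℕ) : ℝ := ∑ n ∈ range m, (1 : ℝ) / (n + 1)

lemma Hr_eq (m : ℕ) : Hr m = (harmonic m : ℝ) := by
  unfold Hr harmonic
  push_cast
  refine sum_congr rfl fun n _ => ?_
  rw [one_div]

lemma Ap_sub_Hr_tendsto (M C : ℝ)
    (hC : ∀ n : ℕ, 2 ≤ n →
      |∑ p ∈ Nat.primesLE n, (1 : ℝ) / p - Real.log (Real.log n) - M| ≤ C / Real.log n) :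
    Tendsto (fun m : ℕ => Ap m - Hr m) atTop (𝓝 (M - Real.eulerMascheroniConstant)) := by
  -- log floor exp m / m → 1
  have hfl : ∀ m : ℕ, 1 ≤ m → (m : ℝ) - 1 ≤ Real.log (⌊Real.exp m⌋₊ : ℝ) ∧
      Real.log (⌊Real.exp m⌋₊ : ℝ) ≤ m := by
    intro m hm
    have hm1 : (1 : ℝ) ≤ m := by exact_mod_cast hm
    have he2 : (2 : ℝ) ≤ Real.exp m := by
      have := Real.add_one_le_exp (m : ℝ)
      linarith
    have h1 : (⌊Real.exp m⌋₊ : ℝ) ≤ Real.exp m := Nat.floor_le (Real.exp_pos _).le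
    have h2 : Real.exp m - 1 < (⌊Real.exp m⌋₊ : ℝ) := Nat.sub_one_lt_floor _
    have h3 : 0 < (⌊Real.exp m⌋₊ : ℝ) := by linarith
    constructor
    · rw [Real.le_log_iff_exp_le h3]
      have h4 : Real.exp (m : ℝ) = Real.exp ((m : ℝ) - 1) * Real.exp 1 := by
        rw [← Real.exp_add]; congr 1; ring
      have h5 : (2 : ℝ) ≤ Real.exp 1 := by
        have := Real.add_one_le_exp (1 : ℝ)
        linarith
      have h6 : (1 : ℝ) ≤ Real.exp ((m : ℝ) - 1) := Real.one_le_exp (by linarith)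
      nlinarith
    · calc Real.log (⌊Real.exp m⌋₊ : ℝ) ≤ Real.log (Real.exp m) := Real.log_le_log h3 h1
        _ = m := Real.log_exp _
  have hratio : Tendsto (fun m : ℕ => Real.log (⌊Real.exp m⌋₊ : ℝ) / m) atTop (𝓝 1) := by
    have h1 : Tendsto (fun m : ℕ => 1 - 1 / (m : ℝ)) atTop (𝓝 1) := by
      have := tendsto_one_div_atTop_nhds_zero_nat (𝕜 := ℝ)
      simpa using this.const_sub 1
    refine tendsto_of_tendsto_of_tendsto_of_le_of_le' h1 tendsto_const_nhds ?_ ?_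
    · filter_upwards [eventually_ge_atTop 1] with m hm
      have hm0 : (0 : ℝ) < m := by exact_mod_cast hm
      rw [le_div_iff₀ hm0]
      have := (hfl m hm).1
      have h2 : (1 - 1 / (m : ℝ)) * m = m - 1 := by field_simp
      linarith
    · filter_upwards [eventually_ge_atTop 1] with m hm
      have hm0 : (0 : ℝ) < m := by exact_mod_cast hm
      rw [div_le_iff₀ hm0]
      linarith [(hfl m hm).2]
  have hlogratio : Tendsto (fun m : ℕ => Real.log (Real.log (⌊Real.exp m⌋₊ : ℝ)) - Real.log m)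
      atTop (𝓝 0) := by
    have h1 := (Real.continuousAt_log (one_ne_zero)).tendsto.comp hratio
    rw [Real.log_one] at h1
    refine h1.congr' ?_
    filter_upwards [eventually_ge_atTop 2] with m hm
    have hm0 : (0 : ℝ) < m := by exact_mod_cast (by omega : 0 < m)
    have hm2 : (2 : ℝ) ≤ m := by exact_mod_cast hm
    have h2 : 0 < Real.log (⌊Real.exp m⌋₊ : ℝ) := by
      have := (hfl m (by omega)).1
      linarith
    simp only [Function.comp]
    rw [Real.log_div h2.ne' hm0.ne']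
  -- A_m - loglog floor → M
  have hfloor_tendsto : Tendsto (fun m : ℕ => ⌊Real.exp m⌋₊) atTop atTop :=
    tendsto_nat_floor_atTop.comp (Real.tendsto_exp_atTop.comp tendsto_natCast_atTop_atTop)
  have hM : Tendsto (fun n : ℕ => ∑ p ∈ Nat.primesLE n, (1 : ℝ) / p - Real.log (Real.log n))
      atTop (𝓝 M) := by
    have h0 : Tendsto (fun n : ℕ => C / Real.log n) atTop (𝓝 0) :=
      (Real.tendsto_log_atTop.comp tendsto_natCast_atTop_atTop).const_div_atTop C
    rw [tendsto_iff_norm_sub_tendsto_zero]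
    refine squeeze_zero' (Eventually.of_forall fun n => norm_nonneg _) ?_ h0
    filter_upwards [eventually_ge_atTop 2] with n hn
    rw [Real.norm_eq_abs]
    exact hC n hn
  have h1 := hM.comp hfloor_tendsto
  have h2 := Real.tendsto_harmonic_sub_log
  have h3 := (h1.add hlogratio).sub h2
  rw [add_zero] at h3
  refine h3.congr fun m => ?_
  simp only [Function.comp]
  rw [Ap_eq, Hr_eq]
  ring

lemma abel_avg (R : ℕ → ℝ) (ρ : ℝ) (hR0 : R 0 = 0) (hR : Tendsto R atTop (𝓝 ρ)) :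
    Tendsto (fun x : ℝ => (1 - x) * ∑' m, R m * x ^ m) (𝓝[<] 1) (𝓝 ρ) := by
  have h1 : Tendsto (fun n : ℕ => ∑ i ∈ range n, (R (i + 1) - R i)) atTop (𝓝 ρ) := by
    refine hR.congr fun n => ?_
    rw [sum_range_sub]
    rw [hR0, sub_zero]
  have h2 := Real.tendsto_tsum_powerSeries_nhdsWithin_lt h1
  have hx : Tendsto (fun x : ℝ => x) (𝓝[<] 1) (𝓝 1) := tendsto_nhdsWithin_of_tendsto_nhds tendsto_id
  have h3 := hx.mul h2
  rw [one_mul] at h3
  refine h3.congr' ?_
  have hev : ∀ᶠ x : ℝ in 𝓝[<] 1, 0 < x ∧ x < 1 := by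
    have h4 : ∀ᶠ x : ℝ in 𝓝[<] 1, 0 < x :=
      (eventually_gt_nhds (by norm_num : (0 : ℝ) < 1)).filter_mono nhdsWithin_le_nhds
    have h5 : ∀ᶠ x : ℝ in 𝓝[<] 1, x < 1 := eventually_mem_nhdsWithin
    exact h4.and h5
  obtain ⟨B, hB⟩ : ∃ B, ∀ n, |R n| ≤ B := by
    obtain ⟨B, hB⟩ := (Metric.isBounded_range_of_tendsto R hR).exists_norm_le
    exact ⟨B, fun n => hB _ ⟨n, rfl⟩⟩
  filter_upwards [hev] with x hx
  have hsum : Summable (fun m => R m * x ^ m) := by
    refine Summable.of_norm_bounded (g := fun m => B * x ^ m)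
      ((summable_geometric_of_lt_one hx.1.le hx.2).mul_left B) fun m => ?_
    rw [norm_mul, norm_pow, Real.norm_eq_abs, Real.norm_eq_abs, abs_of_pos hx.1]
    exact mul_le_mul_of_nonneg_right (hB m) (pow_nonneg hx.1.le _)
  have hsum1 : Summable (fun m => R (m + 1) * x ^ m) := by
    refine Summable.of_norm_bounded (g := fun m => B * x ^ m)
      ((summable_geometric_of_lt_one hx.1.le hx.2).mul_left B) fun m => ?_
    rw [norm_mul, norm_pow, Real.norm_eq_abs, Real.norm_eq_abs, abs_of_pos hx.1]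
    exact mul_le_mul_of_nonneg_right (hB (m + 1)) (pow_nonneg hx.1.le _)
  have e1 : ∑' m, R m * x ^ m = x * ∑' m, R (m + 1) * x ^ m := by
    rw [hsum.tsum_eq_zero_add, hR0, zero_mul, zero_add, ← tsum_mul_left]
    refine tsum_congr fun m => ?_
    rw [pow_succ]; ring
  have e2 : ∑' n, (R (n + 1) - R n) * x ^ n = ∑' m, R (m + 1) * x ^ m - ∑' m, R m * x ^ m := by
    rw [← hsum1.tsum_sub hsum]
    refine tsum_congr fun m => ?_
    ring
  rw [e2]
  rw [e1]
  ring

/-- The prime sum `∑ (1/p) x^{⌈log p⌉}` plus `log (1 - x)` tends to `M - γ`. -/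
theorem phi_tendsto (M C : ℝ)
    (hC : ∀ n : ℕ, 2 ≤ n →
      |∑ p ∈ Nat.primesLE n, (1 : ℝ) / p - Real.log (Real.log n) - M| ≤ C / Real.log n) :
    Tendsto (fun x : ℝ => ∑' n, wp n * x ^ (⌈Real.log n⌉₊) + Real.log (1 - x)) (𝓝[<] 1)
      (𝓝 (M - Real.eulerMascheroniConstant)) ∧
    ∀ x : ℝ, 0 < x → x < 1 → Summable (fun n => wp n * x ^ (⌈Real.log n⌉₊)) := by
  have hR := Ap_sub_Hr_tendsto M C hC
  have hA0 : Ap 0 = 0 := by
    unfold Ap
    refine sum_eq_zero fun n hn => ?_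
    rw [Nat.mem_primesLE] at hn
    have h1 : n ≤ 1 := by simpa using hn.1
    have := hn.2.two_le
    omega
  have hH0 : Hr 0 = 0 := by simp [Hr]
  obtain ⟨B, hB⟩ : ∃ B, ∀ n, |Ap n - Hr n| ≤ B := by
    obtain ⟨B, hB⟩ := (Metric.isBounded_range_of_tendsto _ hR).exists_norm_le
    exact ⟨B, fun n => hB _ ⟨n, rfl⟩⟩
  have hHn : ∀ m : ℕ, 0 ≤ Hr m ∧ Hr m ≤ m := by
    intro m
    constructor
    · exact sum_nonneg fun n _ => by positivity
    · unfold Hr
      calc ∑ n ∈ range m, (1 : ℝ) / (n + 1) ≤ ∑ _n ∈ range m, (1 : ℝ) := by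
            refine sum_le_sum fun n _ => ?_
            rw [div_le_one (by positivity)]
            have : (0 : ℝ) ≤ n := by positivity
            linarith
        _ = m := by simp
  have hsumH : ∀ x : ℝ, 0 < x → x < 1 → Summable (fun m => Hr m * x ^ m) := by
    intro x hx0 hx1
    have h1 : Summable (fun m : ℕ => (m : ℝ) ^ 1 * x ^ m) :=
      summable_pow_mul_geometric_of_norm_lt_one 1 (by rw [Real.norm_eq_abs, abs_of_pos hx0]; exact hx1)
    refine Summable.of_nonneg_of_le (fun m => mul_nonneg (hHn m).1 (pow_nonneg hx0.le _))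
      (fun m => ?_) h1
    rw [pow_one]
    exact mul_le_mul_of_nonneg_right (hHn m).2 (pow_nonneg hx0.le _)
  have hsumA : ∀ x : ℝ, 0 < x → x < 1 → Summable (fun m => Ap m * x ^ m) := by
    intro x hx0 hx1
    have h1 : Summable (fun m => (Ap m - Hr m) * x ^ m) := by
      refine Summable.of_norm_bounded (g := fun m => B * x ^ m)
        ((summable_geometric_of_lt_one hx0.le hx1).mul_left B) fun m => ?_
      rw [norm_mul, norm_pow, Real.norm_eq_abs, Real.norm_eq_abs, abs_of_pos hx0]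
      exact mul_le_mul_of_nonneg_right (hB m) (pow_nonneg hx0.le _)
    have h2 := h1.add (hsumH x hx0 hx1)
    refine h2.congr fun m => ?_
    ring
  have hphi : ∀ x : ℝ, 0 < x → x < 1 →
      HasSum (fun n => wp n * x ^ (⌈Real.log n⌉₊)) ((1 - x) * ∑' m, Ap m * x ^ m) := by
    intro x hx0 hx1
    refine swap_sum wp wp_nonneg (fun n => ⌈Real.log n⌉₊) (fun m => Nat.primesLE ⌊Real.exp m⌋₊)
      ?_ x hx0 hx1 (hsumA x hx0 hx1)
    intro m n hn
    have hp : n.Prime := by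
      by_contra h
      exact hn (by unfold wp; rw [if_neg h])
    have hn0 : (0 : ℝ) < n := by exact_mod_cast hp.pos
    rw [Nat.mem_primesLE, Nat.ceil_le, Nat.le_floor_iff (Real.exp_pos _).le,
      Real.log_le_iff_le_exp hn0]
    exact ⟨fun h => h.1, fun h => ⟨h, hp⟩⟩
  have hlog : ∀ x : ℝ, 0 < x → x < 1 → (1 - x) * ∑' m, Hr m * x ^ m = -Real.log (1 - x) := by
    intro x hx0 hx1
    have h1 := swap_sum (fun n : ℕ => (1 : ℝ) / (n + 1)) (fun n => by positivity)
      (fun n => n + 1) (fun m => range m) (fun m n _ => by rw [mem_range]; omega) x hx0 hx1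
      (hsumH x hx0 hx1)
    have h2 := Real.hasSum_pow_div_log_of_abs_lt_one (x := x) (by rw [abs_of_pos hx0]; exact hx1)
    have h3 : HasSum (fun n : ℕ => (1 : ℝ) / (n + 1) * x ^ (n + 1)) (-Real.log (1 - x)) := by
      refine h2.congr_fun ?_ |> fun h => h
      intro n
      ring
    exact h1.unique h3
  refine ⟨?_, fun x hx0 hx1 => (hphi x hx0 hx1).summable⟩
  have h1 := abel_avg (fun m => Ap m - Hr m) _ (by rw [hA0, hH0, sub_zero]) hR
  refine h1.congr' ?_
  have hev : ∀ᶠ x : ℝ in 𝓝[<] 1, 0 < x ∧ x < 1 := by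
    have h4 : ∀ᶠ x : ℝ in 𝓝[<] 1, 0 < x :=
      (eventually_gt_nhds (by norm_num : (0 : ℝ) < 1)).filter_mono nhdsWithin_le_nhds
    have h5 : ∀ᶠ x : ℝ in 𝓝[<] 1, x < 1 := eventually_mem_nhdsWithin
    exact h4.and h5
  filter_upwards [hev] with x hx
  have e1 : ∑' m, (Ap m - Hr m) * x ^ m = ∑' m, Ap m * x ^ m - ∑' m, Hr m * x ^ m := by
    rw [← (hsumA x hx.1 hx.2).tsum_sub (hsumH x hx.1 hx.2)]
    exact tsum_congr fun m => by ring
  rw [e1, mul_sub, hlog x hx.1 hx.2, (hphi x hx.1 hx.2).tsum_eq]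
  ring

end Pool.Agent.Lib_helper10.Erdos460
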