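import Mathlib
import Pool.Agent.Lib_helper10.Erdos460.Gamma1
import Pool.Agent.Lib_helper10.Erdos460.VAsymp

set_option autoImplicit false

namespace Pool.Agent.Lib_helper10.Erdos460

open Finset Filter Topology

noncomputable def wps (ε : ℝ) (n : ℕ) : ℝ := if n.Prime then (n : ℝ) ^ (-(1 + ε)) else 0

noncomputable def ggs (ε : ℝ) (n : ℕ) : ℝ :=
  if n.Prime then -Real.log (1 - (n : ℝ) ^ (-(1 + ε))) - (n : ℝ) ^ (-(1 + ε)) else 0

lemma prime_rpow_bounds {n : ℕ} (hn : n.Prime) {ε : ℝ} (hε : 0 ≤ ε) :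
    0 < (n : ℝ) ^ (-(1 + ε)) ∧ (n : ℝ) ^ (-(1 + ε)) ≤ 1 / n ∧ (n : ℝ) ^ (-(1 + ε)) ≤ 1 / 2 := by
  have h2 : (2 : ℝ) ≤ n := by exact_mod_cast hn.two_le
  have h1 : (n : ℝ) ^ (-(1 + ε)) ≤ 1 / n := by
    rw [one_div, ← Real.rpow_neg_one]
    exact Real.rpow_le_rpow_of_exponent_le (by linarith) (by linarith)
  refine ⟨Real.rpow_pos_of_pos (by linarith) _, h1, h1.trans ?_⟩
  exact one_div_le_one_div_of_le (by norm_num) h2

lemma ggs_bounds (ε : ℝ) (hε : 0 ≤ ε) (n : ℕ) : 0 ≤ ggs ε n ∧ ggs ε n ≤ 2 * (1 / (n : ℝ) ^ 2) := by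
  unfold ggs
  split_ifs with h
  · obtain ⟨h1, h2, h3⟩ := prime_rpow_bounds h hε
    have h4 := neg_log_bounds h1.le h3
    refine ⟨h4.1, h4.2.trans ?_⟩
    have h5 : ((n : ℝ) ^ (-(1 + ε))) ^ 2 ≤ (1 / n) ^ 2 := pow_le_pow_left₀ h1.le h2 2
    rw [one_div_pow] at h5
    linarith
  · exact ⟨le_rfl, by positivity⟩

lemma summable_bound : Summable (fun n : ℕ => 2 * (1 / (n : ℝ) ^ 2)) :=
  (Real.summable_one_div_nat_pow.2 (by norm_num)).mul_left 2

lemma ggs_summable (ε : ℝ) (hε : 0 ≤ ε) : Summable (ggs ε) :=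
  Summable.of_nonneg_of_le (fun n => (ggs_bounds ε hε n).1) (fun n => (ggs_bounds ε hε n).2)
    summable_bound

lemma wps_nonneg (ε : ℝ) (n : ℕ) : 0 ≤ wps ε n := by
  unfold wps
  split_ifs
  · exact Real.rpow_nonneg (by positivity) _
  · exact le_rfl

lemma wps_summable (ε : ℝ) (hε : 0 < ε) : Summable (wps ε) := by
  have h1 : Summable (fun n : ℕ => ((n : ℝ) ^ (1 + ε))⁻¹) :=
    Real.summable_nat_rpow_inv.2 (by linarith)
  refine Summable.of_nonneg_of_le (fun n => wps_nonneg ε n) (fun n => ?_) h1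
  unfold wps
  split_ifs
  · rw [Real.rpow_neg (by positivity)]
  · exact inv_nonneg.2 (Real.rpow_nonneg (by positivity) _)

lemma ggs_tendsto : Tendsto (fun ε : ℝ => ∑' n, ggs ε n) (𝓝[>] 0) (𝓝 GG) := by
  unfold GG
  refine tendsto_tsum_of_dominated_convergence (bound := fun n : ℕ => 2 * (1 / (n : ℝ) ^ 2))
    summable_bound ?_ ?_
  · intro n
    unfold ggs gg
    by_cases hn : n.Prime
    · simp only [hn, if_true]
      have hn0 : (0 : ℝ) < n := by exact_mod_cast hn.pos
      have h2 : (2 : ℝ) ≤ n := by exact_mod_cast hn.two_le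
      have h1 : Tendsto (fun ε : ℝ => (n : ℝ) ^ (-(1 + ε))) (𝓝[>] 0) (𝓝 (1 / n)) := by
        have h3 : Tendsto (fun ε : ℝ => -(1 + ε)) (𝓝[>] 0) (𝓝 (-1)) := by
          have : Tendsto (fun ε : ℝ => -(1 + ε)) (𝓝 0) (𝓝 (-(1 + 0))) :=
            (continuous_const.add continuous_id).neg.tendsto 0
          rw [add_zero] at this
          exact this.mono_left nhdsWithin_le_nhds
        have h4 := (Real.continuousAt_const_rpow (a := (n : ℝ)) (b := -1) hn0.ne').tendsto.comp h3
        rw [Real.rpow_neg_one, ← one_div] at h4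
        exact h4
      have h5 : (1 : ℝ) / n ≤ 1 / 2 := one_div_le_one_div_of_le (by norm_num) h2
      have h6 : Tendsto (fun ε : ℝ => Real.log (1 - (n : ℝ) ^ (-(1 + ε)))) (𝓝[>] 0)
          (𝓝 (Real.log (1 - 1 / n))) :=
        (Real.continuousAt_log (by linarith)).tendsto.comp (h1.const_sub 1)
      exact h6.neg.sub h1
    · simp only [hn, if_false]
      exact tendsto_const_nhds
  · filter_upwards [eventually_mem_nhdsWithin] with ε hε n
    have h := ggs_bounds ε (le_of_lt hε) n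
    rw [Real.norm_eq_abs, abs_of_nonneg h.1]
    exact h.2

/-- the completely multiplicative function `n ↦ n^{-s}` -/
noncomputable def fpow (s : ℝ) (hs : s ≠ 0) : ℕ →*₀ ℝ where
  toFun n := (n : ℝ) ^ (-s)
  map_zero' := by
    rw [Nat.cast_zero, Real.zero_rpow (neg_ne_zero.2 hs)]
  map_one' := by simp
  map_mul' m n := by
    rw [Nat.cast_mul, Real.mul_rpow (by positivity) (by positivity)]

lemma log_zeta (ε : ℝ) (hε : 0 < ε) :
    Real.log (∑' n : ℕ, 1 / (n : ℝ) ^ (1 + ε)) = ∑' n, wps ε n + ∑' n, ggs ε n := by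
  have hs : (1 + ε) ≠ 0 := by linarith
  have hsum : Summable (fun n : ℕ => ‖fpow (1 + ε) hs n‖) := by
    have h1 : Summable (fun n : ℕ => ((n : ℝ) ^ (1 + ε))⁻¹) :=
      Real.summable_nat_rpow_inv.2 (by linarith)
    refine h1.congr fun n => ?_
    change _ = ‖(n : ℝ) ^ (-(1 + ε))‖
    rw [Real.norm_eq_abs, abs_of_nonneg (Real.rpow_nonneg (by positivity) _),
      Real.rpow_neg (by positivity)]
  have hprod := EulerProduct.eulerProduct_completely_multiplicative_hasProd hsum
  have hZ : ∑' n : ℕ, fpow (1 + ε) hs n = ∑' n : ℕ, 1 / (n : ℝ) ^ (1 + ε) := by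
    refine tsum_congr fun n => ?_
    change (n : ℝ) ^ (-(1 + ε)) = _
    rw [Real.rpow_neg (by positivity), one_div]
  have hL : ∀ p : Nat.Primes, Real.log ((1 - fpow (1 + ε) hs p)⁻¹) =
      wps ε p + ggs ε p := by
    intro p
    change Real.log ((1 - ((p : ℕ) : ℝ) ^ (-(1 + ε)))⁻¹) = _
    unfold wps ggs
    rw [if_pos p.2, if_pos p.2, Real.log_inv]
    ring
  have hsumN : Summable (fun n => wps ε n + ggs ε n) :=
    (wps_summable ε hε).add (ggs_summable ε hε.le)
  have hsupp : Function.support (fun n => wps ε n + ggs ε n) ⊆ {n : ℕ | n.Prime} := by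
    intro n hn
    by_contra h
    apply hn
    have h' : ¬ n.Prime := h
    simp [wps, ggs, h']
  have hsumP : Summable (fun p : Nat.Primes => wps ε p + ggs ε p) := by
    exact hsumN.comp_injective (i := fun p : Nat.Primes => (p : ℕ)) Subtype.val_injective
  have htsum : ∑' p : Nat.Primes, (wps ε p + ggs ε p) = ∑' n, (wps ε n + ggs ε n) :=
    tsum_subtype_eq_of_support_subset hsupp
  have hpos : ∀ p : Nat.Primes, 0 < (1 - fpow (1 + ε) hs p)⁻¹ := by
    intro p
    have := (prime_rpow_bounds p.2 hε.le).2.2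
    change 0 < (1 - ((p : ℕ) : ℝ) ^ (-(1 + ε)))⁻¹
    refine inv_pos.2 ?_
    linarith
  have hexp := Real.rexp_tsum_eq_tprod hpos (by
    refine hsumP.congr fun p => ?_
    rw [hL])
  rw [hprod.tprod_eq, hZ] at hexp
  rw [← hexp, Real.log_exp]
  rw [← (wps_summable ε hε).tsum_add (ggs_summable ε hε.le), ← htsum]
  exact tsum_congr fun p => hL p

lemma log_zeta_tendsto :
    Tendsto (fun ε : ℝ => Real.log (∑' n : ℕ, 1 / (n : ℝ) ^ (1 + ε)) + Real.log ε)
      (𝓝[>] 0) (𝓝 0) := by
  have h1 : Tendsto (fun ε : ℝ => 1 + ε) (𝓝[>] 0) (𝓝[>] 1) := by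
    refine tendsto_nhdsWithin_of_tendsto_nhds_of_eventually_within _ ?_ ?_
    · have : Tendsto (fun ε : ℝ => 1 + ε) (𝓝 0) (𝓝 (1 + 0)) :=
        (continuous_const.add continuous_id).tendsto 0
      rw [add_zero] at this
      exact this.mono_left nhdsWithin_le_nhds
    · filter_upwards [eventually_mem_nhdsWithin] with ε hε
      have : (0 : ℝ) < ε := hε
      simp only [Set.mem_Ioi]
      linarith
  have h2 := tendsto_sub_mul_tsum_nat_rpow.comp h1
  have h3 := (Real.continuousAt_log (one_ne_zero)).tendsto.comp h2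
  rw [Real.log_one] at h3
  refine h3.congr' ?_
  filter_upwards [eventually_mem_nhdsWithin] with ε hε
  have hε0 : (0 : ℝ) < ε := hε
  simp only [Function.comp]
  have hsum : Summable (fun n : ℕ => 1 / (n : ℝ) ^ (1 + ε)) := by
    simp only [one_div]
    exact Real.summable_nat_rpow_inv.2 (by linarith)
  have hZpos : 0 < ∑' n : ℕ, 1 / (n : ℝ) ^ (1 + ε) := by
    refine hsum.tsum_pos (fun n => ?_) 1 (by simp)
    positivity
  have e : 1 + ε - 1 = ε := by ring
  rw [e, Real.log_mul hε0.ne' hZpos.ne']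
  ring

/-- Identification of the constant: `M + GG = γ`. -/
theorem M_add_GG (M C : ℝ)
    (hC : ∀ n : ℕ, 2 ≤ n →
      |∑ p ∈ Nat.primesLE n, (1 : ℝ) / p - Real.log (Real.log n) - M| ≤ C / Real.log n) :
    M + GG = Real.eulerMascheroniConstant := by
  obtain ⟨hphi, hphisum⟩ := phi_tendsto M C hC
  -- the point x = exp(-ε)
  have hx : Tendsto (fun ε : ℝ => Real.exp (-ε)) (𝓝[>] 0) (𝓝[<] 1) := by
    refine tendsto_nhdsWithin_of_tendsto_nhds_of_eventually_within _ ?_ ?_
    · have : Tendsto (fun ε : ℝ => Real.exp (-ε)) (𝓝 0) (𝓝 (Real.exp (-0))) :=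
        (Real.continuous_exp.comp continuous_neg).tendsto 0
      rw [neg_zero, Real.exp_zero] at this
      exact this.mono_left nhdsWithin_le_nhds
    · filter_upwards [eventually_mem_nhdsWithin] with ε hε
      have : (0 : ℝ) < ε := hε
      simp only [Set.mem_Iio]
      rw [Real.exp_lt_one_iff]
      linarith
  have h1 := hphi.comp hx
  -- Q(ε) and comparison
  have hQ : ∀ ε : ℝ, 0 < ε →
      0 ≤ ∑' n, wps ε n - ∑' n, wp n * (Real.exp (-ε)) ^ (⌈Real.log n⌉₊) ∧
      ∑' n, wps ε n - ∑' n, wp n * (Real.exp (-ε)) ^ (⌈Real.log n⌉₊) ≤ ε * ∑' n, wps ε n := by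
    intro ε hε
    have hx0 : 0 < Real.exp (-ε) := Real.exp_pos _
    have hx1 : Real.exp (-ε) < 1 := by rw [Real.exp_lt_one_iff]; linarith
    have hs1 := hphisum _ hx0 hx1
    have hs2 := wps_summable ε hε
    have hpt : ∀ n, (1 - ε) * wps ε n ≤ wp n * (Real.exp (-ε)) ^ (⌈Real.log n⌉₊) ∧
        wp n * (Real.exp (-ε)) ^ (⌈Real.log n⌉₊) ≤ wps ε n := by
      intro n
      by_cases hn : n.Prime
      · have hn0 : (0 : ℝ) < n := by exact_mod_cast hn.pos
        have hlog0 : 0 ≤ Real.log n := Real.log_nonneg (by exact_mod_cast hn.one_lt.le)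
        unfold wps wp
        rw [if_pos hn, if_pos hn]
        set t := ⌈Real.log n⌉₊ with ht
        have ht1 : Real.log n ≤ t := Nat.le_ceil _
        have ht2 : (t : ℝ) < Real.log n + 1 := Nat.ceil_lt_add_one hlog0
        have hpw : (Real.exp (-ε)) ^ t = Real.exp (-ε * t) := by
          rw [← Real.exp_nat_mul]; congr 1; ring
        have hnpow : (n : ℝ) ^ (-(1 + ε)) = 1 / n * Real.exp (-ε * Real.log n) := by
          rw [Real.rpow_def_of_pos hn0]
          have : 1 / (n : ℝ) = Real.exp (-Real.log n) := by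
            rw [Real.exp_neg, Real.exp_log hn0, one_div]
          rw [this, ← Real.exp_add]
          congr 1
          ring
        rw [hpw, hnpow]
        have hinv : 0 ≤ 1 / (n : ℝ) := by positivity
        constructor
        · have h2 : (1 - ε) * Real.exp (-ε * Real.log n) ≤ Real.exp (-ε * t) := by
            have h3 : 1 - ε ≤ Real.exp (-ε) := by
              have := Real.add_one_le_exp (-ε)
              linarith
            calc (1 - ε) * Real.exp (-ε * Real.log n)
                ≤ Real.exp (-ε) * Real.exp (-ε * Real.log n) :=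
                  mul_le_mul_of_nonneg_right h3 (Real.exp_pos _).le
              _ = Real.exp (-ε * (Real.log n + 1)) := by
                  rw [← Real.exp_add]; congr 1; ring
              _ ≤ Real.exp (-ε * t) := by
                  refine Real.exp_le_exp.2 ?_
                  nlinarith
          calc (1 - ε) * (1 / (n : ℝ) * Real.exp (-ε * Real.log n))
              = 1 / (n : ℝ) * ((1 - ε) * Real.exp (-ε * Real.log n)) := by ring
            _ ≤ _ := mul_le_mul_of_nonneg_left h2 hinv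
        · refine mul_le_mul_of_nonneg_left (Real.exp_le_exp.2 ?_) hinv
          nlinarith
      · unfold wps wp
        rw [if_neg hn, if_neg hn]
        simp
    constructor
    · have := hs1.tsum_le_tsum (fun n => (hpt n).2) hs2
      linarith
    · have := (hs2.mul_left (1 - ε)).tsum_le_tsum (fun n => (hpt n).1) hs1
      rw [tsum_mul_left] at this
      linarith
  -- ε Q(ε) → 0
  have hlz := log_zeta_tendsto
  have hgg := ggs_tendsto
  have hid : Tendsto (fun ε : ℝ => ε) (𝓝[>] 0) (𝓝 0) :=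
    tendsto_nhdsWithin_of_tendsto_nhds tendsto_id
  have hεlog : Tendsto (fun ε : ℝ => ε * Real.log ε) (𝓝[>] 0) (𝓝 0) := by
    have := tendsto_log_mul_rpow_nhdsGT_zero (r := 1) one_pos
    refine this.congr fun ε => ?_
    rw [Real.rpow_one, mul_comm]
  have hεQ : Tendsto (fun ε : ℝ => ε * ∑' n, wps ε n) (𝓝[>] 0) (𝓝 0) := by
    have h2 := ((hid.mul hlz).sub hεlog).sub (hid.mul hgg)
    simp only [mul_zero, zero_mul, sub_zero] at h2
    refine h2.congr' ?_
    filter_upwards [eventually_mem_nhdsWithin] with ε hε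
    rw [log_zeta ε hε]
    ring
  have hdiff : Tendsto (fun ε : ℝ => ∑' n, wps ε n -
      ∑' n, wp n * (Real.exp (-ε)) ^ (⌈Real.log n⌉₊)) (𝓝[>] 0) (𝓝 0) := by
    refine tendsto_of_tendsto_of_tendsto_of_le_of_le' tendsto_const_nhds hεQ ?_ ?_
    · filter_upwards [eventually_mem_nhdsWithin] with ε hε using (hQ ε hε).1
    · filter_upwards [eventually_mem_nhdsWithin] with ε hε using (hQ ε hε).2
  -- log (1 - e^{-ε}) - log ε → 0
  have hratio : Tendsto (fun ε : ℝ => (1 - Real.exp (-ε)) / ε) (𝓝[>] 0) (𝓝 1) := by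
    have hd : HasDerivAt (fun ε : ℝ => 1 - Real.exp (-ε)) 1 0 := by
      have h2 : HasDerivAt (fun ε : ℝ => Real.exp (-ε)) (Real.exp (-0) * (-1)) 0 :=
        (hasDerivAt_neg (0 : ℝ)).exp
      have h3 := h2.const_sub 1
      simpa using h3
    have h4 := hd.tendsto_slope_zero_right
    refine h4.congr fun ε => ?_
    simp only [zero_add, neg_zero, Real.exp_zero, sub_self, sub_zero, smul_eq_mul]
    rw [div_eq_inv_mul]
  have hlr : Tendsto (fun ε : ℝ => Real.log (1 - Real.exp (-ε)) - Real.log ε) (𝓝[>] 0) (𝓝 0) := by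
    have h2 := (Real.continuousAt_log (one_ne_zero)).tendsto.comp hratio
    rw [Real.log_one] at h2
    refine h2.congr' ?_
    filter_upwards [eventually_mem_nhdsWithin] with ε hε
    have hε0 : (0 : ℝ) < ε := hε
    have h3 : Real.exp (-ε) < 1 := by rw [Real.exp_lt_one_iff]; linarith
    simp only [Function.comp]
    rw [Real.log_div (by linarith) hε0.ne']
  have hfin : Tendsto (fun ε : ℝ => ∑' n, wp n * (Real.exp (-ε)) ^ (⌈Real.log n⌉₊) +
      Real.log (1 - Real.exp (-ε))) (𝓝[>] 0) (𝓝 (-GG)) := by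
    have h2 := ((hlz.sub hgg).sub hdiff).add hlr
    simp only [zero_sub, sub_zero, add_zero] at h2
    refine h2.congr' ?_
    filter_upwards [eventually_mem_nhdsWithin] with ε hε
    rw [log_zeta ε hε]
    ring
  have huniq := tendsto_nhds_unique h1 hfin
  linarith

/-- Mertens' third theorem. -/
theorem mertens_third :
    Tendsto (fun n : ℕ => V (n + 1) * Real.log n) atTop
      (𝓝 (Real.exp (-Real.eulerMascheroniConstant))) := by
  obtain ⟨M, C, _, hC⟩ := mertens_second
  rw [← M_add_GG M C hC]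
  exact V_tendsto M C hC

end Pool.Agent.Lib_helper10.Erdos460
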