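import Mathlib
import Pool.Agent.Lib_helper10.Erdos460.Weights
import Pool.Agent.Lib_helper10.Erdos460.Greedy

set_option autoImplicit false
open N435e839e

namespace Pool.Agent.Lib_helper10.Erdos460

open Finset Filter Topology

lemma selected_count {z s : ℕ} {τ : ℝ} {Up Low : Finset ℕ → ℝ} (hW : SieveWeights z s τ Up Low)
    (n u x : ℕ) (hn : u + x ≤ n) :
    ((((Ioc u (u + x)).filter (fun a => a ∈ selected false n)).card : ℕ) : ℝ) ≤
      z + (x * (V z * (1 + τ)) + (z : ℝ) ^ s) := by
  classical
  set A := (Ioc u (u + x)).filter (fun a => a ∈ selected false n) with hA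
  have h1 : A.card = (A.filter (fun a => roughz n a z)).card +
      (A.filter (fun a => ¬ roughz n a z)).card := (card_filter_add_card_filter_not _).symm
  have h2 : (A.filter (fun a => ¬ roughz n a z)).card ≤ z := by
    have hex : ∀ a ∈ A.filter (fun a => ¬ roughz n a z),
        ∃ p, p ∈ Nat.primesBelow z ∧ p ∣ n - a := by
      intro a ha
      have := (mem_filter.1 ha).2
      unfold roughz at this
      push Not at this
      exact this
    choose! f hf using hex
    refine le_trans ?_ (card_primesBelow_le z)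
    refine card_le_card_of_injOn f (fun a ha => (hf a ha).1) ?_
    intro a ha b hb hab
    by_contra hne
    have ha' := (mem_filter.1 (mem_filter.1 ha).1).2
    have hb' := (mem_filter.1 (mem_filter.1 hb).1).2
    have hp := (Nat.mem_primesBelow.1 (hf a ha).1).2
    refine not_dvd_of_used hp ha' hb' hne ?_ (hf a ha).2
    rw [hab]
    exact (hf b hb).2
  have h3 : (A.filter (fun a => roughz n a z)).card ≤
      ((Ioc u (u + x)).filter (fun a => roughz n a z)).card := by
    refine card_le_card fun a ha => ?_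
    rw [mem_filter] at ha ⊢
    exact ⟨(mem_filter.1 ha.1).1, ha.2⟩
  have h4 := upper_sieve hW n u x hn
  rw [h1]
  push_cast
  have h2' : (((A.filter (fun a => ¬ roughz n a z)).card : ℕ) : ℝ) ≤ z := by exact_mod_cast h2
  have h3' : (((A.filter (fun a => roughz n a z)).card : ℕ) : ℝ) ≤
      ((((Ioc u (u + x)).filter (fun a => roughz n a z)).card : ℕ) : ℝ) := by exact_mod_cast h3
  linarith

/-- counting function of the selected set -/
noncomputable def gct (n t : ℕ) : ℝ := ((((Icc 1 t).filter (fun a => a ∈ selected false n)).card : ℕ) : ℝ)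

lemma gct_nonneg (n t : ℕ) : 0 ≤ gct n t := by unfold gct; positivity

lemma gct_le (n t : ℕ) : gct n t ≤ t := by
  unfold gct
  have : ((Icc 1 t).filter (fun a => a ∈ selected false n)).card ≤ t :=
    (card_filter_le _ _).trans (by simp)
  exact_mod_cast this

theorem gct_bound : ∃ C : ℝ, 0 < C ∧ ∀ n x : ℕ, 2 ≤ x → x ≤ n →
    gct n x ≤ C * (x / Real.log x) := by
  obtain ⟨s, hs1, hs⟩ := exists_weights 1 one_pos
  obtain ⟨c, C, hc, hC, hV⟩ := V_bounds
  have hsR : (1 : ℝ) ≤ s := by exact_mod_cast hs1
  set x0 : ℝ := (4 : ℝ) ^ (2 * s : ℕ) with hx0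
  have hx01 : 1 < x0 := by
    rw [hx0]
    exact one_lt_pow₀ (by norm_num) (by omega)
  have hlx0 : 0 < Real.log x0 := Real.log_pos hx01
  refine ⟨Real.log x0 + (4 + 8 * s * C), by positivity, fun n x hx hxn => ?_⟩
  have hxR : (2 : ℝ) ≤ x := by exact_mod_cast hx
  have hlx : 0 < Real.log x := Real.log_pos (by linarith)
  have hxl : 0 < (x : ℝ) / Real.log x := by positivity
  rcases lt_or_ge (x : ℝ) x0 with hlt | hge
  · have h1 : gct n x ≤ x := gct_le n x
    have h2 : (x : ℝ) ≤ Real.log x0 * (x / Real.log x) := by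
      have h3 : Real.log x ≤ Real.log x0 := Real.log_le_log (by linarith) hlt.le
      have h4 : (x : ℝ) = Real.log x * (x / Real.log x) := by field_simp
      calc (x : ℝ) = Real.log x * (x / Real.log x) := h4
        _ ≤ Real.log x0 * (x / Real.log x) := mul_le_mul_of_nonneg_right h3 hxl.le
    have h5 : 0 ≤ (4 + 8 * s * C) * (x / Real.log x) := by positivity
    linarith
  · -- choose z
    set t : ℝ := (x : ℝ) ^ ((1 : ℝ) / (2 * s)) with ht
    have ht4 : 4 ≤ t := by
      rw [ht]
      have h1 : (4 : ℝ) = x0 ^ ((1 : ℝ) / (2 * s)) := by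
        rw [hx0, ← Real.rpow_natCast, ← Real.rpow_mul (by norm_num)]
        push_cast
        rw [mul_one_div_cancel (by positivity), Real.rpow_one]
      rw [h1]
      exact Real.rpow_le_rpow (by linarith) hge (by positivity)
    have htpos : 0 < t := by linarith
    have ht2s : t ^ (s : ℕ) = (x : ℝ) ^ ((1 : ℝ) / 2) := by
      rw [ht, ← Real.rpow_natCast, ← Real.rpow_mul (by linarith)]
      congr 1
      field_simp
    set z : ℕ := ⌊t⌋₊ with hz
    have hzt : (z : ℝ) ≤ t := Nat.floor_le htpos.le
    have hzt' : t - 1 < z := Nat.sub_one_lt_floor t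
    have hz2 : 2 ≤ z := by
      have : (2 : ℝ) ≤ z := by linarith
      exact_mod_cast this
    obtain ⟨Up, Low, hW⟩ := hs z (by omega)
    have h1 := selected_count hW n 0 x (by omega)
    have hset : (Ioc 0 (0 + x)).filter (fun a => a ∈ selected false n) =
        (Icc 1 x).filter (fun a => a ∈ selected false n) := by
      congr 1
      ext a
      simp only [mem_Ioc, mem_Icc]
      omega
    rw [hset] at h1
    have hlogt : Real.log t = Real.log x / (2 * s) := by
      rw [ht, Real.log_rpow (by linarith)]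
      ring
    have hlogz : Real.log x / (4 * s) ≤ Real.log z := by
      have h2 : t / 2 ≤ z := by linarith
      have h3 : Real.log (t / 2) ≤ Real.log z := Real.log_le_log (by linarith) h2
      have h4 : Real.log t / 2 ≤ Real.log (t / 2) := by
        rw [Real.log_div htpos.ne' (by norm_num)]
        have h5 : Real.log 4 ≤ Real.log t := Real.log_le_log (by norm_num) ht4
        have h6 : Real.log 4 = 2 * Real.log 2 := by
          rw [show (4 : ℝ) = 2 ^ 2 by norm_num, Real.log_pow]; norm_num
        linarith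
      rw [hlogt] at h4
      have h5 : Real.log x / (2 * s) / 2 = Real.log x / (4 * s) := by field_simp; norm_num
      linarith
    have hVz : V z ≤ C * (4 * s) / Real.log x := by
      refine (hV z hz2).2.trans ?_
      have h2 : 0 < Real.log x / (4 * s) := by positivity
      calc C / Real.log z ≤ C / (Real.log x / (4 * s)) :=
            div_le_div_of_nonneg_left hC.le h2 hlogz
        _ = C * (4 * s) / Real.log x := by field_simp
    have hsqrt : (x : ℝ) ^ ((1 : ℝ) / 2) ≤ 2 * (x / Real.log x) := by
      have h2 : Real.log x ≤ (x : ℝ) ^ ((1 : ℝ) / 2) / (1 / 2) :=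
        Real.log_le_rpow_div (by linarith) (by norm_num)
      have h3 : (x : ℝ) = (x : ℝ) ^ ((1 : ℝ) / 2) * (x : ℝ) ^ ((1 : ℝ) / 2) := by
        rw [← Real.rpow_add (by linarith)]
        norm_num
      have h4 : 0 < (x : ℝ) ^ ((1 : ℝ) / 2) := Real.rpow_pos_of_pos (by linarith) _
      rw [← mul_div_assoc, le_div_iff₀ hlx]
      calc (x : ℝ) ^ ((1 : ℝ) / 2) * Real.log x
          ≤ (x : ℝ) ^ ((1 : ℝ) / 2) * ((x : ℝ) ^ ((1 : ℝ) / 2) / (1 / 2)) :=
            mul_le_mul_of_nonneg_left h2 h4.le
        _ = 2 * ((x : ℝ) ^ ((1 : ℝ) / 2) * (x : ℝ) ^ ((1 : ℝ) / 2)) := by ring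
        _ = 2 * x := by rw [← h3]
    have hzs : (z : ℝ) ^ s ≤ (x : ℝ) ^ ((1 : ℝ) / 2) := by
      rw [← ht2s]
      exact pow_le_pow_left₀ (by positivity) hzt s
    have hz1 : (z : ℝ) ≤ (z : ℝ) ^ s := by
      have : (1 : ℝ) ≤ z := by exact_mod_cast (by omega : 1 ≤ z)
      exact le_self_pow₀ this (by omega)
    have hxV : (x : ℝ) * (V z * (1 + 1)) ≤ 8 * s * C * (x / Real.log x) := by
      calc (x : ℝ) * (V z * (1 + 1)) = 2 * x * V z := by ring
        _ ≤ 2 * x * (C * (4 * s) / Real.log x) :=
            mul_le_mul_of_nonneg_left hVz (by positivity)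
        _ = 8 * s * C * (x / Real.log x) := by ring
    have h5 : 0 ≤ Real.log x0 * (x / Real.log x) := by positivity
    unfold gct
    linarith

lemma sum_sel_le (n A B : ℕ) (hA : 1 ≤ A) (hAB : A ≤ B) :
    ∑ a ∈ (Ioc A B).filter (fun a => a ∈ selected false n), (1 : ℝ) / a ≤
      gct n B / B + ∑ t ∈ Ico A B, gct n t / (t * (t + 1)) := by
  induction B, hAB using Nat.le_induction with
  | base =>
    simp only [Ioc_self, filter_empty, sum_empty, Ico_self, add_zero]
    exact div_nonneg (gct_nonneg n A) (by positivity)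
  | succ B hAB ih =>
    have hB0 : (0 : ℝ) < B := by exact_mod_cast (by omega : 0 < B)
    have h1 : ∑ a ∈ (Ioc A (B + 1)).filter (fun a => a ∈ selected false n), (1 : ℝ) / a =
        ∑ a ∈ (Ioc A B).filter (fun a => a ∈ selected false n), (1 : ℝ) / a +
        (if B + 1 ∈ selected false n then 1 / ((B + 1 : ℕ) : ℝ) else 0) := by
      rw [sum_filter, sum_filter, sum_Ioc_succ_top (by omega)]
    have h2 : gct n (B + 1) = gct n B + (if B + 1 ∈ selected false n then 1 else 0) := by
      unfold gct
      rw [card_filter, card_filter, sum_Icc_succ_top (by omega)]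
      push_cast
      rfl
    rw [h1, sum_Ico_succ_top hAB, h2]
    have h3 : gct n B / (B + 1 : ℕ) + gct n B / (B * (B + 1)) = gct n B / B := by
      push_cast
      field_simp
    have h4 : (gct n B + (if B + 1 ∈ selected false n then (1 : ℝ) else 0)) / ((B + 1 : ℕ) : ℝ) =
        gct n B / (B + 1 : ℕ) + (if B + 1 ∈ selected false n then 1 / ((B + 1 : ℕ) : ℝ) else 0) := by
      rw [add_div]
      congr 1
      split_ifs <;> simp
    rw [h4]
    linarith

lemma inv_log_sum_le (A B : ℕ) (hA : 2 ≤ A) (hAB : A ≤ B) :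
    ∑ t ∈ Ico A B, 1 / (((t : ℝ) + 1) * Real.log t) ≤
      2 * (Real.log (Real.log B) - Real.log (Real.log A)) := by
  induction B, hAB using Nat.le_induction with
  | base => simp
  | succ B hAB ih =>
    rw [sum_Ico_succ_top hAB]
    have hB2 : 2 ≤ B := by omega
    have hB0 : (2 : ℝ) ≤ B := by exact_mod_cast hB2
    have hl0 : 0 < Real.log B := Real.log_pos (by linarith)
    have h1 := (loglog_diff hB2).1
    have h2 : 1 / ((B : ℝ) + 1) ≤ Real.log (B + 1 : ℕ) - Real.log B := by
      rw [← Real.log_div (by positivity) (by positivity)]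
      have h3 := Real.one_sub_inv_le_log_of_pos (x := ((B + 1 : ℕ) : ℝ) / B) (by positivity)
      rw [inv_div] at h3
      refine le_trans (le_of_eq ?_) h3
      push_cast
      field_simp
      ring
    have h3 : Real.log (B + 1 : ℕ) ≤ 2 * Real.log B := by
      calc Real.log (B + 1 : ℕ) ≤ Real.log ((B : ℝ) ^ 2) := by
            refine Real.log_le_log (by positivity) ?_
            push_cast
            nlinarith
        _ = 2 * Real.log B := by rw [Real.log_pow]; norm_num
    have hl1 : 0 < Real.log (B + 1 : ℕ) := Real.log_pos (by push_cast; linarith)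
    have h4 : 1 / (((B : ℝ) + 1) * Real.log B) ≤
        2 * ((Real.log (B + 1 : ℕ) - Real.log B) / Real.log (B + 1 : ℕ)) := by
      calc 1 / (((B : ℝ) + 1) * Real.log B) = 2 * ((1 / ((B : ℝ) + 1)) / (2 * Real.log B)) := by
            field_simp
        _ ≤ 2 * ((1 / ((B : ℝ) + 1)) / Real.log (B + 1 : ℕ)) := by
            refine mul_le_mul_of_nonneg_left ?_ (by norm_num)
            exact div_le_div_of_nonneg_left (by positivity) hl1 h3
        _ ≤ 2 * ((Real.log (B + 1 : ℕ) - Real.log B) / Real.log (B + 1 : ℕ)) := by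
            refine mul_le_mul_of_nonneg_left ?_ (by norm_num)
            exact div_le_div_of_nonneg_right h2 hl1.le
    linarith

/-- contribution of the selected `a` in `(A, B]`, for every `n` -/
theorem tail_bound : ∃ C : ℝ, 0 < C ∧ ∀ n A B : ℕ, 2 ≤ A → A ≤ B → B ≤ n →
    ∑ a ∈ (Ioc A B).filter (fun a => a ∈ selected false n), (1 : ℝ) / a ≤
      C * (1 / Real.log A + (Real.log (Real.log B) - Real.log (Real.log A))) := by
  obtain ⟨C, hC, h⟩ := gct_bound
  refine ⟨2 * C, by positivity, fun n A B hA hAB hBn => ?_⟩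
  have hA0 : (2 : ℝ) ≤ A := by exact_mod_cast hA
  have hB0 : (2 : ℝ) ≤ B := by exact_mod_cast hA.trans hAB
  have hlA : 0 < Real.log A := Real.log_pos (by linarith)
  have hlB : 0 < Real.log B := Real.log_pos (by linarith)
  have hlAB : Real.log A ≤ Real.log B := Real.log_le_log (by linarith) (by exact_mod_cast hAB)
  refine (sum_sel_le n A B (by omega) hAB).trans ?_
  have h1 : gct n B / B ≤ C * (1 / Real.log A) := by
    rw [div_le_iff₀ (by linarith)]
    refine (h n B (by omega) hBn).trans ?_
    have h2 : (B : ℝ) / Real.log B ≤ B / Real.log A :=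
      div_le_div_of_nonneg_left (by linarith) hlA hlAB
    calc C * ((B : ℝ) / Real.log B) ≤ C * (B / Real.log A) := mul_le_mul_of_nonneg_left h2 hC.le
      _ = C * (1 / Real.log A) * B := by ring
  have h2 : ∑ t ∈ Ico A B, gct n t / (t * (t + 1)) ≤
      C * (2 * (Real.log (Real.log B) - Real.log (Real.log A))) := by
    refine le_trans ?_ (mul_le_mul_of_nonneg_left (inv_log_sum_le A B hA hAB) hC.le)
    rw [mul_sum]
    refine sum_le_sum fun t ht => ?_
    rw [mem_Ico] at ht
    have ht0 : (2 : ℝ) ≤ t := by exact_mod_cast hA.trans ht.1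
    have hlt : 0 < Real.log t := Real.log_pos (by linarith)
    have h3 := h n t (by omega) (by omega)
    rw [div_le_iff₀ (by positivity)]
    refine h3.trans (le_of_eq ?_)
    field_simp
  have h3 : 0 ≤ C * (1 / Real.log A) := by positivity
  linarith

end Pool.Agent.Lib_helper10.Erdos460
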