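import Mathlib
import Pool.Agent.Lib_helper10.Erdos460.Pair

set_option autoImplicit false

namespace Pool.Agent.Lib_helper10.Erdos460

open Finset

lemma sum_sq_split (s : Finset ℕ) (F : ℕ → ℕ → ℝ) (hF : ∀ a b, F a b = F b a) :
    ∑ a ∈ s, ∑ b ∈ s, F a b =
      ∑ a ∈ s, F a a + 2 * ∑ a ∈ s, ∑ b ∈ s with a < b, F a b := by
  classical
  have h1 : ∀ a ∈ s, ∑ b ∈ s, F a b =
      F a a + ∑ b ∈ s with a < b, F a b + ∑ b ∈ s with b < a, F a b := by
    intro a ha
    rw [sum_filter, sum_filter]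
    have : F a a = ∑ b ∈ s, if b = a then F a b else 0 := by
      rw [sum_ite_eq' s a]
      simp [ha]
    rw [this, ← sum_add_distrib, ← sum_add_distrib]
    refine sum_congr rfl fun b _ => ?_
    rcases lt_trichotomy a b with h | h | h
    · simp [h, h.ne', h.not_gt]
    · subst h; simp
    · simp [h, h.ne, h.not_gt]
  rw [sum_congr rfl h1, sum_add_distrib, sum_add_distrib]
  have h2 : ∑ a ∈ s, ∑ b ∈ s with b < a, F a b = ∑ a ∈ s, ∑ b ∈ s with a < b, F a b := by
    simp only [sum_filter]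
    rw [sum_comm]
    refine sum_congr rfl fun a _ => sum_congr rfl fun b _ => ?_
    rw [hF]
  rw [h2]
  ring

/-- the rough weight sum over shifts in `(y, A]` -/
noncomputable def XS (y A n : ℕ) : ℝ := ∑ a ∈ Ioc y A, if rough n a then (1 : ℝ) / a else 0

noncomputable def mu (y A : ℕ) : ℝ := ∑ a ∈ Ioc y A, V a / a

noncomputable def tau (y A : ℕ) : ℝ := ∑ a ∈ Ioc y A, V a / (a : ℝ) ^ 2

noncomputable def LL (y A : ℕ) : ℝ := ∑ a ∈ Ioc y A, (1 : ℝ) / a

lemma mu_nonneg (y A : ℕ) : 0 ≤ mu y A :=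
  sum_nonneg fun a _ => div_nonneg (V_pos a).le (by positivity)

lemma LL_nonneg (y A : ℕ) : 0 ≤ LL y A := sum_nonneg fun a _ => by positivity

lemma mu_le_LL (y A : ℕ) : mu y A ≤ LL y A :=
  sum_le_sum fun a _ => div_le_div_of_nonneg_right (V_le_one a) (by positivity)

lemma XS_nonneg (y A n : ℕ) : 0 ≤ XS y A n :=
  sum_nonneg fun a _ => by split_ifs <;> positivity

lemma errB_nonneg (N m lam z : ℝ) (k : ℕ) (hN : 0 ≤ N) (hm : 0 ≤ m) (hl : 0 ≤ lam) (hz : 0 ≤ z) :
    0 ≤ errB N m lam z k := by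
  unfold errB
  positivity

lemma offdiag_le (y A : ℕ) :
    ∑ a ∈ Ioc y A, ∑ b ∈ Ioc y A with a < b,
      (1 / ((a : ℝ) * b)) * (V a * V b * ∏ q ∈ Nat.primesBelow a, rq q (b - a)) ≤
    ∑ a ∈ Ioc y A, ∑ b ∈ Ioc y A with a < b, (V a / a) * (V b / b) := by
  refine sum_le_sum fun a ha => ?_
  have ha' := mem_Ioc.1 ha
  have hfil : (Ioc y A).filter (fun b => a < b) = Ioc a A := by
    ext b
    simp only [mem_filter, mem_Ioc]
    omega
  rw [hfil]
  have hre : ∀ f : ℕ → ℝ, ∑ b ∈ Ioc a A, f b = ∑ h ∈ Icc 1 (A - a), f (a + h) := by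
    intro f
    symm
    refine sum_bij (fun h _ => a + h) ?_ ?_ ?_ ?_
    · intro h hh
      rw [mem_Icc] at hh
      rw [mem_Ioc]
      omega
    · intro h _ h' _ e
      exact Nat.add_left_cancel e
    · intro b hb
      rw [mem_Ioc] at hb
      exact ⟨b - a, by rw [mem_Icc]; omega, by omega⟩
    · intro h _
      rfl
  rw [hre, hre]
  have h1 : ∀ h ∈ Icc 1 (A - a), (1 / ((a : ℝ) * (a + h : ℕ))) *
      (V a * V (a + h) * ∏ q ∈ Nat.primesBelow a, rq q (a + h - a)) =
      (V a / a) * ((V (a + h) / (a + h : ℕ)) * ∏ q ∈ Nat.primesBelow a, rq q h) := by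
    intro h _
    rw [Nat.add_sub_cancel_left]
    have ha0 : (a : ℝ) ≠ 0 := by
      have : 0 < a := by omega
      exact_mod_cast this.ne'
    have hb0 : ((a + h : ℕ) : ℝ) ≠ 0 := by
      have : 0 < a + h := by omega
      exact_mod_cast this.ne'
    field_simp
  rw [sum_congr rfl h1, ← mul_sum, ← mul_sum]
  refine mul_le_mul_of_nonneg_left ?_ (div_nonneg (V_pos a).le (by positivity))
  refine abel_compare (fun h => V (a + h) / (a + h : ℕ))
    (fun h => ∏ q ∈ Nat.primesBelow a, rq q h) (A - a) ?_ ?_ ?_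
  · intro h
    exact div_nonneg (V_pos _).le (by positivity)
  · intro h
    have hp : (0 : ℝ) < ((a + h : ℕ) : ℝ) := by
      have : 0 < a + h := by omega
      exact_mod_cast this
    refine div_le_div₀ (V_pos _).le (V_anti (by omega)) hp ?_
    push_cast
    linarith
  · intro K
    exact rsum_le _ (fun q hq => (Nat.mem_primesBelow.1 hq).2) K

/-- Second moment estimate, uniform in intervals. -/
theorem second_moment (M N y A : ℕ) (hAM : A ≤ M) (hA : 1 ≤ A) (k : ℕ)
    (lam : ℝ) (hlam : ∑ q ∈ Nat.primesBelow A, ((2 : ℝ) / q) ≤ lam) :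
    ∑ n ∈ Ioc M (M + N), (XS y A n - mu y A) ^ 2 ≤
      N * tau y A + 3 * errB N 1 lam A k * LL y A ^ 2 := by
  classical
  set Err := errB N 1 lam A k with hErr
  have hlam0 : 0 ≤ lam := le_trans (sum_nonneg fun q _ => by positivity) hlam
  have hErr0 : 0 ≤ Err := errB_nonneg _ _ _ _ _ (by positivity) (by norm_num) hlam0 (by positivity)
  set I := Ioc M (M + N) with hI
  set s := Ioc y A with hs
  have hcardI : (I.card : ℝ) = N := by rw [hI, Nat.card_Ioc]; simp
  set ind : ℕ → ℕ → ℝ := fun n a => if rough n a then 1 else 0 with hind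
  have hX : ∀ n, XS y A n = ∑ a ∈ s, (1 / (a : ℝ)) * ind n a := by
    intro n
    unfold XS
    refine sum_congr rfl fun a _ => ?_
    simp only [hind]
    split_ifs <;> simp
  -- first moment
  have hc1 : ∀ a ∈ s, ∑ n ∈ I, ind n a = (((I.filter (fun n => rough n a)).card : ℕ) : ℝ) := by
    intro a _
    simp only [hind]
    rw [sum_boole]
  have hc2 : ∀ a b, ∑ n ∈ I, ind n a * ind n b =
      (((I.filter (fun n => rough n a ∧ rough n b)).card : ℕ) : ℝ) := by
    intro a b
    have : ∀ n, ind n a * ind n b = if (rough n a ∧ rough n b) then 1 else 0 := by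
      intro n
      simp only [hind]
      by_cases h1 : rough n a <;> by_cases h2 : rough n b <;> simp [h1, h2]
    simp only [this]
    rw [sum_boole]
  have hsum1 : N * mu y A - Err * LL y A ≤ ∑ n ∈ I, XS y A n := by
    simp only [hX]
    rw [sum_comm]
    unfold mu LL
    rw [mul_sum, mul_sum, ← sum_sub_distrib]
    refine sum_le_sum fun a ha => ?_
    have haA := (mem_Ioc.1 ha).2
    rw [← mul_sum, hc1 a ha]
    have h := (abs_le.1 (single_count M N A a haA hAM hA k lam hlam)).1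
    have h1 : (N : ℝ) * V a - Err ≤ (((I.filter (fun n => rough n a)).card : ℕ) : ℝ) := by
      linarith
    have h2 : (0 : ℝ) ≤ 1 / (a : ℝ) := by positivity
    have h3 := mul_le_mul_of_nonneg_left h1 h2
    calc (N : ℝ) * (V a / a) - Err * (1 / a) = 1 / (a : ℝ) * ((N : ℝ) * V a - Err) := by ring
      _ ≤ _ := h3
  -- second moment of X
  have hsum2 : ∑ n ∈ I, (XS y A n) ^ 2 ≤ N * tau y A + N * mu y A ^ 2 + Err * LL y A ^ 2 := by
    have e1 : ∀ n, (XS y A n) ^ 2 =
        ∑ a ∈ s, ∑ b ∈ s, (1 / ((a : ℝ) * b)) * (ind n a * ind n b) := by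
      intro n
      rw [hX, sq, sum_mul_sum]
      refine sum_congr rfl fun a _ => sum_congr rfl fun b _ => ?_
      ring
    have e2 : ∑ n ∈ I, (XS y A n) ^ 2 =
        ∑ a ∈ s, ∑ b ∈ s, (1 / ((a : ℝ) * b)) * ∑ n ∈ I, ind n a * ind n b := by
      simp only [e1]
      rw [sum_comm]
      refine sum_congr rfl fun a _ => ?_
      rw [sum_comm]
      refine sum_congr rfl fun b _ => ?_
      rw [mul_sum]
    rw [e2, sum_sq_split s (fun a b => (1 / ((a : ℝ) * b)) * ∑ n ∈ I, ind n a * ind n b)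
      (fun a b => by
        rw [mul_comm (a : ℝ) b]
        congr 1
        exact sum_congr rfl fun n _ => mul_comm _ _)]
    -- diagonal
    have hdiag : ∑ a ∈ s, (1 / ((a : ℝ) * a)) * ∑ n ∈ I, ind n a * ind n a ≤
        N * tau y A + Err * ∑ a ∈ s, (1 / (a : ℝ)) * (1 / a) := by
      unfold tau
      rw [mul_sum, mul_sum, ← sum_add_distrib]
      refine sum_le_sum fun a ha => ?_
      have haA := (mem_Ioc.1 ha).2
      have h0 : ∑ n ∈ I, ind n a * ind n a = ∑ n ∈ I, ind n a := by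
        refine sum_congr rfl fun n _ => ?_
        simp only [hind]
        split_ifs <;> simp
      rw [h0, hc1 a ha]
      have h := (abs_le.1 (single_count M N A a haA hAM hA k lam hlam)).2
      have h1 : (((I.filter (fun n => rough n a)).card : ℕ) : ℝ) ≤ (N : ℝ) * V a + Err := by
        linarith
      have h2 : (0 : ℝ) ≤ 1 / ((a : ℝ) * a) := by positivity
      have h3 := mul_le_mul_of_nonneg_left h1 h2
      refine h3.trans (le_of_eq ?_)
      rw [sq, one_div_mul_one_div_rev]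
      ring
    have hoff : ∑ a ∈ s, ∑ b ∈ s with a < b, (1 / ((a : ℝ) * b)) * ∑ n ∈ I, ind n a * ind n b ≤
        N * ∑ a ∈ s, ∑ b ∈ s with a < b, (V a / a) * (V b / b) +
        Err * ∑ a ∈ s, ∑ b ∈ s with a < b, (1 / (a : ℝ)) * (1 / b) := by
      have h1 : ∑ a ∈ s, ∑ b ∈ s with a < b, (1 / ((a : ℝ) * b)) * ∑ n ∈ I, ind n a * ind n b ≤
          ∑ a ∈ s, ∑ b ∈ s with a < b, (N * ((1 / ((a : ℝ) * b)) *
            (V a * V b * ∏ q ∈ Nat.primesBelow a, rq q (b - a))) +
            Err * ((1 / (a : ℝ)) * (1 / b))) := by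
        refine sum_le_sum fun a ha => sum_le_sum fun b hb => ?_
        rw [mem_filter] at hb
        have hbA := (mem_Ioc.1 hb.1).2
        rw [hc2]
        have h := (abs_le.1 (rough_pair_count M N A a b hb.2 hbA hAM k lam hlam)).2
        have h1 : (((I.filter (fun n => rough n a ∧ rough n b)).card : ℕ) : ℝ) ≤
            (N : ℝ) * (V a * V b * ∏ q ∈ Nat.primesBelow a, rq q (b - a)) + Err := by
          linarith
        have h2 : (0 : ℝ) ≤ 1 / ((a : ℝ) * b) := by positivity
        have h3 := mul_le_mul_of_nonneg_left h1 h2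
        refine h3.trans (le_of_eq ?_)
        rw [one_div_mul_one_div_rev]
        ring
      refine h1.trans ?_
      have h2 := mul_le_mul_of_nonneg_left (offdiag_le y A) (by positivity : (0 : ℝ) ≤ N)
      have h3 : ∑ a ∈ s, ∑ b ∈ s with a < b, (N * ((1 / ((a : ℝ) * b)) *
            (V a * V b * ∏ q ∈ Nat.primesBelow a, rq q (b - a))) +
            Err * ((1 / (a : ℝ)) * (1 / b))) =
          N * ∑ a ∈ s, ∑ b ∈ s with a < b, (1 / ((a : ℝ) * b)) *
            (V a * V b * ∏ q ∈ Nat.primesBelow a, rq q (b - a)) +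
          Err * ∑ a ∈ s, ∑ b ∈ s with a < b, (1 / (a : ℝ)) * (1 / b) := by
        rw [mul_sum, mul_sum, ← sum_add_distrib]
        refine sum_congr rfl fun a _ => ?_
        rw [mul_sum, mul_sum, ← sum_add_distrib]
      rw [h3]
      linarith
    have hμ2 : mu y A ^ 2 = ∑ a ∈ s, (V a / a) * (V a / a) +
        2 * ∑ a ∈ s, ∑ b ∈ s with a < b, (V a / a) * (V b / b) := by
      unfold mu
      rw [sq, sum_mul_sum]
      exact sum_sq_split s (fun a b => (V a / a) * (V b / b)) (fun a b => mul_comm _ _)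
    have hL2 : LL y A ^ 2 = ∑ a ∈ s, (1 / (a : ℝ)) * (1 / a) +
        2 * ∑ a ∈ s, ∑ b ∈ s with a < b, (1 / (a : ℝ)) * (1 / b) := by
      unfold LL
      rw [sq, sum_mul_sum]
      exact sum_sq_split s (fun a b => (1 / (a : ℝ)) * (1 / b)) (fun a b => mul_comm _ _)
    have hpos : 0 ≤ ∑ a ∈ s, (V a / a) * (V a / a) :=
      sum_nonneg fun a _ => mul_self_nonneg _
    have hN0 : (0 : ℝ) ≤ N := by positivity
    have h5 : N * (2 * ∑ a ∈ s, ∑ b ∈ s with a < b, (V a / a) * (V b / b)) ≤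
        N * mu y A ^ 2 := by
      refine mul_le_mul_of_nonneg_left ?_ hN0
      linarith
    rw [hL2]
    nlinarith
  have hexp : ∑ n ∈ I, (XS y A n - mu y A) ^ 2 =
      ∑ n ∈ I, (XS y A n) ^ 2 - 2 * mu y A * ∑ n ∈ I, XS y A n + N * mu y A ^ 2 := by
    have : ∀ n ∈ I, (XS y A n - mu y A) ^ 2 =
        (XS y A n) ^ 2 - 2 * mu y A * XS y A n + mu y A ^ 2 := fun n _ => by ring
    rw [sum_congr rfl this, sum_add_distrib, sum_sub_distrib, ← mul_sum, sum_const, nsmul_eq_mul,
      hcardI]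
  rw [hexp]
  have hmu0 := mu_nonneg y A
  have hmuL := mu_le_LL y A
  have hL0 := LL_nonneg y A
  have h1 : 2 * mu y A * (N * mu y A - Err * LL y A) ≤ 2 * mu y A * ∑ n ∈ I, XS y A n :=
    mul_le_mul_of_nonneg_left hsum1 (by positivity)
  have h2 : mu y A * (Err * LL y A) ≤ LL y A * (Err * LL y A) :=
    mul_le_mul_of_nonneg_right hmuL (by positivity)
  nlinarith

end Pool.Agent.Lib_helper10.Erdos460
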