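import Mathlib
import Pool.Agent.Lib_helper10.Erdos460.Weights
import Pool.Agent.Lib_helper10.Erdos460.SecondMoment

set_option autoImplicit false

namespace Pool.Agent.Lib_helper10.Erdos460

open Finset Filter Topology

/-- Abel bound: decreasing nonnegative weights and bounded partial sums -/
lemma abel_bound (f c : ℕ → ℝ) (y : ℕ) (G : ℝ) (hf0 : ∀ b, y < b → 0 ≤ f b)
    (hf : ∀ b, y < b → f (b + 1) ≤ f b)
    (hc : ∀ t, y ≤ t → |∑ b ∈ Ioc y t, c b| ≤ G) (B : ℕ) (hB : y < B) :
    |∑ b ∈ Ioc y B, f b * c b| ≤ G * f (y + 1) := by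
  have key : ∀ B, y + 1 ≤ B → |∑ b ∈ Ioc y B, f b * c b - f B * ∑ b ∈ Ioc y B, c b| ≤
      G * (f (y + 1) - f B) := by
    intro B hB
    induction B, hB using Nat.le_induction with
    | base =>
      have : Ioc y (y + 1) = {y + 1} := by
        ext x; simp only [mem_Ioc, mem_singleton]; omega
      rw [this]
      simp
    | succ B hB ih =>
      rw [sum_Ioc_succ_top (by omega), sum_Ioc_succ_top (by omega)]
      have e : ∑ b ∈ Ioc y B, f b * c b + f (B + 1) * c (B + 1) -
          f (B + 1) * (∑ b ∈ Ioc y B, c b + c (B + 1)) =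
          (∑ b ∈ Ioc y B, f b * c b - f B * ∑ b ∈ Ioc y B, c b) +
          (f B - f (B + 1)) * ∑ b ∈ Ioc y B, c b := by ring
      rw [e]
      refine (abs_add_le _ _).trans ?_
      have h1 : 0 ≤ f B - f (B + 1) := by linarith [hf B (by omega)]
      have h2 : |(f B - f (B + 1)) * ∑ b ∈ Ioc y B, c b| ≤ (f B - f (B + 1)) * G := by
        rw [abs_mul, abs_of_nonneg h1]
        exact mul_le_mul_of_nonneg_left (hc B (by omega)) h1
      linarith
  have h1 := key B hB
  have h2 : |f B * ∑ b ∈ Ioc y B, c b| ≤ f B * G := by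
    rw [abs_mul, abs_of_nonneg (hf0 B hB)]
    exact mul_le_mul_of_nonneg_left (hc B hB.le) (hf0 B hB)
  have e : ∑ b ∈ Ioc y B, f b * c b = (∑ b ∈ Ioc y B, f b * c b - f B * ∑ b ∈ Ioc y B, c b) +
    f B * ∑ b ∈ Ioc y B, c b := by ring
  rw [e]
  refine (abs_add_le _ _).trans ?_
  linarith

lemma progression_dev (y B a g : ℕ) (hg : 0 < g) (hB : y < B) :
    |∑ b ∈ Ioc y B, (1 / (b : ℝ)) * ((g : ℝ) * (if b ≡ a [MOD g] then 1 else 0) - 1)| ≤
      g * (1 / ((y : ℝ) + 1)) := by
  have h := abel_bound (fun b => 1 / (b : ℝ))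
    (fun b => (g : ℝ) * (if b ≡ a [MOD g] then 1 else 0) - 1) y g
    (fun b _ => by positivity)
    (fun b hb => by
      have : (0 : ℝ) < b := by exact_mod_cast (by omega : 0 < b)
      exact one_div_le_one_div_of_le this (by push_cast; linarith))
    (fun t ht => by
      obtain ⟨x, rfl⟩ : ∃ x, t = y + x := ⟨t - y, by omega⟩
      have h1 := count_modEq y x g a hg
      have hgR : (0 : ℝ) < g := by exact_mod_cast hg
      rw [sum_sub_distrib, ← mul_sum, sum_boole]
      have h2 : ∑ b ∈ Ioc y (y + x), (1 : ℝ) = x := by simp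
      rw [h2]
      have h3 : (g : ℝ) * ((((Ioc y (y + x)).filter (fun b => b ≡ a [MOD g])).card : ℕ) : ℝ) - x =
          g * (((((Ioc y (y + x)).filter (fun b => b ≡ a [MOD g])).card : ℕ) : ℝ) - x / g) := by
        field_simp
      rw [h3, abs_mul, abs_of_pos hgR]
      calc (g : ℝ) * |((((Ioc y (y + x)).filter (fun b => b ≡ a [MOD g])).card : ℕ) : ℝ) - x / g|
          ≤ g * 1 := mul_le_mul_of_nonneg_left h1 hgR.le
        _ = g := mul_one _) B hB
  simpa using h

/-- the sum over pairs of subsets of `gcd/(dd')` -/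
lemma pair_gcd_sum (P : Finset ℕ) : (∀ q ∈ P, q.Prime) →
    ∑ T ∈ P.powerset, ∑ T' ∈ P.powerset, (Nat.gcd (∏ q ∈ T, q) (∏ q ∈ T', q) : ℝ) *
      ((∏ q ∈ T, (1 / (q : ℝ))) * ∏ q ∈ T', (1 / (q : ℝ))) = ∏ q ∈ P, (1 + 3 / (q : ℝ)) := by
  classical
  induction P using Finset.induction_on with
  | empty => intro _; simp
  | insert p P hp ih =>
    intro hP
    have hpp : p.Prime := hP p (mem_insert_self _ _)
    have hP' : ∀ q ∈ P, q.Prime := fun q hq => hP q (mem_insert_of_mem hq)
    have ih' := ih hP'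
    have hp0 : (p : ℝ) ≠ 0 := by exact_mod_cast hpp.ne_zero
    rw [sum_powerset_insert hp]
    simp only [sum_powerset_insert hp]
    rw [prod_insert hp, ← ih', mul_sum]
    rw [← sum_add_distrib]
    refine sum_congr rfl fun T hT => ?_
    have hTP := mem_powerset.1 hT
    have hpT : p ∉ T := fun h => hp (hTP h)
    have hcT : Nat.Coprime p (∏ q ∈ T, q) := by
      rw [Nat.coprime_prod_right_iff]
      intro q hq
      rw [Nat.coprime_primes hpp (hP' q (hTP hq))]
      rintro rfl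
      exact hpT hq
    rw [← sum_add_distrib, ← sum_add_distrib, ← sum_add_distrib, mul_sum]
    refine sum_congr rfl fun T' hT' => ?_
    have hTP' := mem_powerset.1 hT'
    have hpT' : p ∉ T' := fun h => hp (hTP' h)
    have hcT' : Nat.Coprime p (∏ q ∈ T', q) := by
      rw [Nat.coprime_prod_right_iff]
      intro q hq
      rw [Nat.coprime_primes hpp (hP' q (hTP' hq))]
      rintro rfl
      exact hpT' hq
    rw [prod_insert hpT, prod_insert hpT', prod_insert hpT, prod_insert hpT']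
    rw [Nat.gcd_mul_left, Nat.Coprime.gcd_mul_left_cancel _ hcT',
      Nat.Coprime.gcd_mul_left_cancel_right _ hcT]
    push_cast
    field_simp
    ring

/-- counting `n` in an interval with two divisibility conditions -/
lemma count_two (M N a b d d' : ℕ) (hd : 0 < d) (hd' : 0 < d') :
    |((((Ioc M (M + N)).filter (fun n => n ≡ a [MOD d] ∧ n ≡ b [MOD d'])).card : ℕ) : ℝ) -
      (N : ℝ) * ((Nat.gcd d d' : ℝ) * (if b ≡ a [MOD Nat.gcd d d'] then 1 else 0) *
        ((1 / d) * (1 / d')))| ≤ 1 := by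
  by_cases h : b ≡ a [MOD Nat.gcd d d']
  · rw [if_pos h]
    obtain ⟨c, hc1, hc2⟩ := Nat.chineseRemainder' (n := d) (m := d') (a := a) (b := b) h.symm
    have hset : (Ioc M (M + N)).filter (fun n => n ≡ a [MOD d] ∧ n ≡ b [MOD d']) =
        (Ioc M (M + N)).filter (fun n => n ≡ c [MOD Nat.lcm d d']) := by
      refine filter_congr fun n _ => ?_
      constructor
      · rintro ⟨h1, h2⟩
        exact Nat.mod_lcm (h1.trans hc1.symm) (h2.trans hc2.symm)
      · intro h1
        exact ⟨(h1.of_dvd (Nat.dvd_lcm_left _ _)).trans hc1,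
          (h1.of_dvd (Nat.dvd_lcm_right _ _)).trans hc2⟩
    rw [hset]
    have h1 := count_modEq M N (Nat.lcm d d') c (Nat.lcm_pos hd hd')
    have h2 : (N : ℝ) * ((Nat.gcd d d' : ℝ) * 1 * ((1 / d) * (1 / d'))) =
        (N : ℝ) / (Nat.lcm d d' : ℕ) := by
      have h3 : ((Nat.gcd d d' : ℕ) : ℝ) * (Nat.lcm d d' : ℕ) = d * d' := by
        exact_mod_cast Nat.gcd_mul_lcm d d'
      have hdR : (d : ℝ) ≠ 0 := by exact_mod_cast hd.ne'
      have hdR' : (d' : ℝ) ≠ 0 := by exact_mod_cast hd'.ne'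
      have hl : ((Nat.lcm d d' : ℕ) : ℝ) ≠ 0 := by exact_mod_cast (Nat.lcm_pos hd hd').ne'
      field_simp
      rw [mul_assoc, h3]
      ring
    rw [h2]
    exact h1
  · rw [if_neg h]
    have hset : (Ioc M (M + N)).filter (fun n => n ≡ a [MOD d] ∧ n ≡ b [MOD d']) = ∅ := by
      rw [filter_eq_empty_iff]
      rintro n _ ⟨h1, h2⟩
      apply h
      exact (h2.of_dvd (Nat.gcd_dvd_right _ _)).symm.trans (h1.of_dvd (Nat.gcd_dvd_left _ _))
    rw [hset]
    simp

end Pool.Agent.Lib_helper10.Erdos460
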