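import Mathlib
import Pool.Agent.Lib_helper10.Erdos460.WSecond

set_option autoImplicit false

namespace Pool.Agent.Lib_helper10.Erdos460

open Finset Filter Topology

/-- the sieve-weighted sum -/
noncomputable def WS (w : Finset ℕ → ℝ) (P : Finset ℕ) (y B n : ℕ) : ℝ :=
  ∑ a ∈ Ioc y B, (1 / (a : ℝ)) * dsum w P (n - a)

theorem w_second (w : Finset ℕ → ℝ) (P : Finset ℕ) (hP : ∀ q ∈ P, q.Prime) (D : ℕ)
    (hD : ∀ T ⊆ P, w T ≠ 0 → ∏ q ∈ T, q ≤ D) (hw : ∀ T, |w T| ≤ 1)
    (M N y B : ℕ) (hyB : y < B) (hBM : B ≤ M) :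
    ∑ n ∈ Ioc M (M + N), (WS w P y B n - meanw w P * LL y B) ^ 2 ≤
      N * (LL y B * (1 / ((y : ℝ) + 1)) * ∏ q ∈ P, (1 + 3 / (q : ℝ))) +
        3 * (D : ℝ) ^ 2 * LL y B ^ 2 := by
  classical
  set I := Ioc M (M + N) with hI
  set s := Ioc y B with hs
  set L := LL y B with hL
  have hL0 : 0 ≤ L := LL_nonneg y B
  set d : Finset ℕ → ℕ := fun T => ∏ q ∈ T, q with hd
  set r : Finset ℕ → ℝ := fun T => ∏ q ∈ T, (1 / (q : ℝ)) with hr
  have hrd : ∀ T, r T = 1 / (d T : ℝ) := fun T => prod_one_div T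
  have hdpos : ∀ T ∈ P.powerset, 0 < d T := fun T hT =>
    prod_pos fun q hq => (hP q (mem_powerset.1 hT hq)).pos
  have hr0 : ∀ T, 0 ≤ r T := fun T => prod_nonneg fun q _ => by positivity
  have hr1 : ∀ T ∈ P.powerset, r T ≤ 1 := by
    intro T hT
    rw [hrd, div_le_one (by exact_mod_cast hdpos T hT)]
    exact_mod_cast hdpos T hT
  set F : Finset ℕ → ℕ → ℝ := fun T n =>
    ∑ a ∈ s, (1 / (a : ℝ)) * (if n ≡ a [MOD d T] then 1 else 0) with hF
  have hWS : ∀ n ∈ I, WS w P y B n = ∑ T ∈ P.powerset, w T * F T n := by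
    intro n hn
    unfold WS dsum
    simp only [mul_sum]
    rw [sum_comm]
    refine sum_congr rfl fun T _ => ?_
    simp only [hF]
    rw [mul_sum]
    refine sum_congr rfl fun a ha => ?_
    have han : a ≤ n := by
      have h1 := (mem_Ioc.1 ha).2
      have h2 := (mem_Ioc.1 hn).1
      omega
    have : (∏ q ∈ T, q) ∣ n - a ↔ n ≡ a [MOD d T] := by
      rw [← Nat.modEq_iff_dvd' han]
      exact ⟨fun h => h.symm, fun h => h.symm⟩
    simp only [this]
    ring
  have hsumabs : ∑ T ∈ P.powerset, |w T| ≤ D := sum_abs_le w P hP D hD hw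
  have hD0 : (0 : ℝ) ≤ D := by positivity
  -- first moments
  have hF1 : ∀ T ∈ P.powerset, |∑ n ∈ I, F T n - N * (r T * L)| ≤ L := by
    intro T hT
    simp only [hF]
    rw [sum_comm]
    have e1 : (N : ℝ) * (r T * L) = ∑ a ∈ s, (1 / (a : ℝ)) * (N / (d T : ℕ)) := by
      rw [← sum_mul, hL]
      unfold LL
      rw [hrd]
      ring
    rw [e1, ← sum_sub_distrib]
    refine (abs_sum_le_sum_abs _ _).trans ?_
    rw [hL]
    unfold LL
    refine sum_le_sum fun a _ => ?_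
    rw [← mul_sum, ← mul_sub, abs_mul, sum_boole]
    have h1 := count_modEq M N (d T) a (hdpos T hT)
    have h2 : |(1 : ℝ) / a| = 1 / a := abs_of_nonneg (by positivity)
    rw [h2]
    calc (1 / (a : ℝ)) * _ ≤ (1 / (a : ℝ)) * 1 := mul_le_mul_of_nonneg_left h1 (by positivity)
      _ = 1 / (a : ℝ) := mul_one _
  have hmean : |∑ n ∈ I, WS w P y B n - N * (meanw w P * L)| ≤ D * L := by
    rw [sum_congr rfl hWS, sum_comm]
    have e1 : (N : ℝ) * (meanw w P * L) = ∑ T ∈ P.powerset, w T * (N * (r T * L)) := by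
      unfold meanw
      rw [sum_mul, mul_sum]
      refine sum_congr rfl fun T _ => ?_
      ring
    rw [e1, ← sum_sub_distrib]
    refine (abs_sum_le_sum_abs _ _).trans ?_
    calc ∑ T ∈ P.powerset, |∑ n ∈ I, w T * F T n - w T * (N * (r T * L))|
        ≤ ∑ T ∈ P.powerset, |w T| * L := by
          refine sum_le_sum fun T hT => ?_
          rw [← mul_sum, ← mul_sub, abs_mul]
          exact mul_le_mul_of_nonneg_left (hF1 T hT) (abs_nonneg _)
      _ = (∑ T ∈ P.powerset, |w T|) * L := by rw [sum_mul]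
      _ ≤ D * L := mul_le_mul_of_nonneg_right hsumabs hL0
  -- pair moments
  have hF2 : ∀ T ∈ P.powerset, ∀ T' ∈ P.powerset,
      |∑ n ∈ I, F T n * F T' n - N * (r T * r T' * L ^ 2)| ≤
        L ^ 2 + N * (L * (1 / ((y : ℝ) + 1)) * ((Nat.gcd (d T) (d T') : ℝ) * (r T * r T'))) := by
    intro T hT T' hT'
    set g := Nat.gcd (d T) (d T') with hg
    have hgpos : 0 < g := Nat.gcd_pos_of_pos_left _ (hdpos T hT)
    have e1 : ∑ n ∈ I, F T n * F T' n = ∑ a ∈ s, ∑ b ∈ s, (1 / (a : ℝ)) * (1 / (b : ℝ)) *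
        ((((I.filter (fun n => n ≡ a [MOD d T] ∧ n ≡ b [MOD d T'])).card : ℕ) : ℝ)) := by
      simp only [hF, sum_mul_sum]
      rw [sum_comm]
      refine sum_congr rfl fun a _ => ?_
      rw [sum_comm]
      refine sum_congr rfl fun b _ => ?_
      rw [card_filter]
      push_cast
      rw [mul_sum]
      refine sum_congr rfl fun n _ => ?_
      by_cases h1 : n ≡ a [MOD d T] <;> by_cases h2 : n ≡ b [MOD d T'] <;> simp [h1, h2]
    set Φ : ℝ := ∑ a ∈ s, ∑ b ∈ s, (1 / (a : ℝ)) * (1 / (b : ℝ)) *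
      (N * ((g : ℝ) * (if b ≡ a [MOD g] then 1 else 0) * ((1 / (d T : ℝ)) * (1 / (d T' : ℝ)))))
      with hΦ
    have h1 : |∑ n ∈ I, F T n * F T' n - Φ| ≤ L ^ 2 := by
      rw [e1, hΦ, ← sum_sub_distrib]
      refine (abs_sum_le_sum_abs _ _).trans ?_
      have hL2 : L ^ 2 = ∑ a ∈ s, ∑ b ∈ s, (1 / (a : ℝ)) * (1 / (b : ℝ)) := by
        rw [hL]
        unfold LL
        rw [sq, sum_mul_sum]
      rw [hL2]
      refine sum_le_sum fun a _ => ?_
      rw [← sum_sub_distrib]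
      refine (abs_sum_le_sum_abs _ _).trans (sum_le_sum fun b _ => ?_)
      rw [← mul_sub, abs_mul]
      have h2 := count_two M N a b (d T) (d T') (hdpos T hT) (hdpos T' hT')
      have h3 : |(1 : ℝ) / a * (1 / b)| = 1 / a * (1 / b) := abs_of_nonneg (by positivity)
      rw [h3]
      calc (1 / (a : ℝ)) * (1 / (b : ℝ)) * _ ≤ (1 / (a : ℝ)) * (1 / (b : ℝ)) * 1 :=
            mul_le_mul_of_nonneg_left h2 (by positivity)
        _ = _ := mul_one _
    have h2 : |Φ - N * (r T * r T' * L ^ 2)| ≤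
        N * (L * (1 / ((y : ℝ) + 1)) * ((g : ℝ) * (r T * r T'))) := by
      have e2 : Φ - N * (r T * r T' * L ^ 2) = N * (r T * r T') * ∑ a ∈ s, (1 / (a : ℝ)) *
          ∑ b ∈ s, (1 / (b : ℝ)) * ((g : ℝ) * (if b ≡ a [MOD g] then 1 else 0) - 1) := by
        have hL2 : L ^ 2 = ∑ a ∈ s, ∑ b ∈ s, (1 / (a : ℝ)) * (1 / (b : ℝ)) := by
          rw [hL]
          unfold LL
          rw [sq, sum_mul_sum]
        rw [hΦ, hL2, hrd, hrd]
        simp only [mul_sum]
        rw [← sum_sub_distrib]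
        refine sum_congr rfl fun a _ => ?_
        rw [← sum_sub_distrib]
        refine sum_congr rfl fun b _ => ?_
        ring
      rw [e2, abs_mul, abs_of_nonneg (mul_nonneg (Nat.cast_nonneg N)
        (mul_nonneg (hr0 T) (hr0 T')))]
      have h3 : |∑ a ∈ s, (1 / (a : ℝ)) *
          ∑ b ∈ s, (1 / (b : ℝ)) * ((g : ℝ) * (if b ≡ a [MOD g] then 1 else 0) - 1)| ≤
          L * ((g : ℝ) * (1 / ((y : ℝ) + 1))) := by
        refine (abs_sum_le_sum_abs _ _).trans ?_
        rw [hL]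
        unfold LL
        rw [sum_mul]
        refine sum_le_sum fun a _ => ?_
        rw [abs_mul, abs_of_nonneg (by positivity : (0 : ℝ) ≤ 1 / (a : ℝ))]
        exact mul_le_mul_of_nonneg_left (progression_dev y B a g hgpos hyB) (by positivity)
      calc (N : ℝ) * (r T * r T') * _ ≤
            (N : ℝ) * (r T * r T') * (L * ((g : ℝ) * (1 / ((y : ℝ) + 1)))) :=
            mul_le_mul_of_nonneg_left h3 (mul_nonneg (Nat.cast_nonneg N)
              (mul_nonneg (hr0 T) (hr0 T')))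
        _ = _ := by ring
    have e3 : ∑ n ∈ I, F T n * F T' n - N * (r T * r T' * L ^ 2) =
        (∑ n ∈ I, F T n * F T' n - Φ) + (Φ - N * (r T * r T' * L ^ 2)) := by ring
    rw [e3]
    exact (abs_add_le _ _).trans (add_le_add h1 h2)
  set K := ∏ q ∈ P, (1 + 3 / (q : ℝ)) with hK
  have hsq : |∑ n ∈ I, (WS w P y B n) ^ 2 - N * (meanw w P * L) ^ 2| ≤
      (D : ℝ) ^ 2 * L ^ 2 + N * (L * (1 / ((y : ℝ) + 1)) * K) := by
    have e1 : ∑ n ∈ I, (WS w P y B n) ^ 2 =
        ∑ T ∈ P.powerset, ∑ T' ∈ P.powerset, w T * w T' * ∑ n ∈ I, F T n * F T' n := by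
      have : ∀ n ∈ I, (WS w P y B n) ^ 2 =
          ∑ T ∈ P.powerset, ∑ T' ∈ P.powerset, w T * w T' * (F T n * F T' n) := by
        intro n hn
        rw [hWS n hn, sq, sum_mul_sum]
        refine sum_congr rfl fun T _ => sum_congr rfl fun T' _ => ?_
        ring
      rw [sum_congr rfl this, sum_comm]
      refine sum_congr rfl fun T _ => ?_
      rw [sum_comm]
      refine sum_congr rfl fun T' _ => ?_
      rw [mul_sum]
    have e2 : N * (meanw w P * L) ^ 2 =
        ∑ T ∈ P.powerset, ∑ T' ∈ P.powerset, w T * w T' * (N * (r T * r T' * L ^ 2)) := by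
      have : (meanw w P) ^ 2 = ∑ T ∈ P.powerset, ∑ T' ∈ P.powerset,
          (w T * r T) * (w T' * r T') := by
        unfold meanw
        rw [sq, sum_mul_sum]
      rw [mul_pow, this, sum_mul, mul_sum]
      refine sum_congr rfl fun T _ => ?_
      rw [sum_mul, mul_sum]
      refine sum_congr rfl fun T' _ => ?_
      ring
    rw [e1, e2, ← sum_sub_distrib]
    refine (abs_sum_le_sum_abs _ _).trans ?_
    have h1 : ∀ T ∈ P.powerset, |∑ T' ∈ P.powerset, w T * w T' * ∑ n ∈ I, F T n * F T' n -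
        ∑ T' ∈ P.powerset, w T * w T' * (N * (r T * r T' * L ^ 2))| ≤
        ∑ T' ∈ P.powerset, (|w T| * |w T'| * L ^ 2 +
          N * (L * (1 / ((y : ℝ) + 1))) * ((Nat.gcd (d T) (d T') : ℝ) * (r T * r T'))) := by
      intro T hT
      rw [← sum_sub_distrib]
      refine (abs_sum_le_sum_abs _ _).trans (sum_le_sum fun T' hT' => ?_)
      rw [← mul_sub, abs_mul, abs_mul]
      have h2 := hF2 T hT T' hT'
      have h3 : |w T| * |w T'| ≤ 1 := mul_le_one₀ (hw T) (abs_nonneg _) (hw T')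
      have h4 : 0 ≤ |w T| * |w T'| := mul_nonneg (abs_nonneg _) (abs_nonneg _)
      have h5 : 0 ≤ N * (L * (1 / ((y : ℝ) + 1))) * ((Nat.gcd (d T) (d T') : ℝ) * (r T * r T')) := by
        have := hr0 T
        have := hr0 T'
        positivity
      calc |w T| * |w T'| * _ ≤ |w T| * |w T'| * (L ^ 2 +
            N * (L * (1 / ((y : ℝ) + 1)) * ((Nat.gcd (d T) (d T') : ℝ) * (r T * r T')))) :=
            mul_le_mul_of_nonneg_left h2 h4
        _ = |w T| * |w T'| * L ^ 2 + (|w T| * |w T'|) *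
            (N * (L * (1 / ((y : ℝ) + 1))) * ((Nat.gcd (d T) (d T') : ℝ) * (r T * r T'))) := by ring
        _ ≤ |w T| * |w T'| * L ^ 2 + 1 *
            (N * (L * (1 / ((y : ℝ) + 1))) * ((Nat.gcd (d T) (d T') : ℝ) * (r T * r T'))) := by
            have := mul_le_mul_of_nonneg_right h3 h5
            linarith
        _ = _ := by ring
    refine (sum_le_sum h1).trans ?_
    have hK' : ∑ T ∈ P.powerset, ∑ T' ∈ P.powerset,
        ((Nat.gcd (d T) (d T') : ℝ) * (r T * r T')) = K := pair_gcd_sum P hP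
    have hsqs : (∑ T ∈ P.powerset, |w T|) ^ 2 =
        ∑ T ∈ P.powerset, ∑ T' ∈ P.powerset, |w T| * |w T'| := by
      rw [sq, sum_mul_sum]
    have h10 : ∑ T ∈ P.powerset, ∑ T' ∈ P.powerset, |w T| * |w T'| * L ^ 2 =
        (∑ T ∈ P.powerset, |w T|) ^ 2 * L ^ 2 := by
      rw [hsqs, sum_mul]
      refine sum_congr rfl fun T _ => ?_
      rw [sum_mul]
    have h11 : ∑ T ∈ P.powerset, ∑ T' ∈ P.powerset,
        N * (L * (1 / ((y : ℝ) + 1))) * ((Nat.gcd (d T) (d T') : ℝ) * (r T * r T')) =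
        N * (L * (1 / ((y : ℝ) + 1))) * K := by
      rw [← hK', mul_sum]
      refine sum_congr rfl fun T _ => ?_
      rw [mul_sum]
    have h12 : ∑ T ∈ P.powerset, ∑ T' ∈ P.powerset, (|w T| * |w T'| * L ^ 2 +
          N * (L * (1 / ((y : ℝ) + 1))) * ((Nat.gcd (d T) (d T') : ℝ) * (r T * r T'))) =
        (∑ T ∈ P.powerset, |w T|) ^ 2 * L ^ 2 + N * (L * (1 / ((y : ℝ) + 1))) * K := by
      rw [← h10, ← h11, ← sum_add_distrib]
      refine sum_congr rfl fun T _ => ?_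
      rw [sum_add_distrib]
    rw [h12]
    have h7 : (∑ T ∈ P.powerset, |w T|) ^ 2 ≤ (D : ℝ) ^ 2 :=
      pow_le_pow_left₀ (sum_nonneg fun T _ => abs_nonneg _) hsumabs 2
    have h8 := mul_le_mul_of_nonneg_right h7 (sq_nonneg L)
    have h13 : N * (L * (1 / ((y : ℝ) + 1))) * K = N * (L * (1 / ((y : ℝ) + 1)) * K) := by ring
    rw [h13]
    linarith
  have hexp : ∑ n ∈ I, (WS w P y B n - meanw w P * L) ^ 2 =
      ∑ n ∈ I, (WS w P y B n) ^ 2 - 2 * (meanw w P * L) * ∑ n ∈ I, WS w P y B n +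
        N * (meanw w P * L) ^ 2 := by
    have hcardI : (I.card : ℝ) = N := by rw [hI, Nat.card_Ioc]; simp
    have : ∀ n ∈ I, (WS w P y B n - meanw w P * L) ^ 2 =
        (WS w P y B n) ^ 2 - 2 * (meanw w P * L) * WS w P y B n + (meanw w P * L) ^ 2 :=
      fun n _ => by ring
    rw [sum_congr rfl this, sum_add_distrib, sum_sub_distrib, ← mul_sum, sum_const, nsmul_eq_mul,
      hcardI]
  rw [hexp]
  have hmabs : |meanw w P * L| ≤ D * L := by
    rw [abs_mul, abs_of_nonneg hL0]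
    refine mul_le_mul_of_nonneg_right ?_ hL0
    unfold meanw
    refine (abs_sum_le_sum_abs _ _).trans (le_trans (sum_le_sum fun T hT => ?_) hsumabs)
    rw [abs_mul, abs_of_nonneg (hr0 T)]
    calc |w T| * r T ≤ |w T| * 1 := mul_le_mul_of_nonneg_left (hr1 T hT) (abs_nonneg _)
      _ = |w T| := mul_one _
  have h1 := (abs_le.1 hsq).2
  have h2 : -(2 * (meanw w P * L) * ∑ n ∈ I, WS w P y B n) ≤
      -(2 * (N * (meanw w P * L) ^ 2)) + 2 * ((D * L) * (D * L)) := by
    have h3 : |(meanw w P * L) * (∑ n ∈ I, WS w P y B n - N * (meanw w P * L))| ≤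
        (D * L) * (D * L) := by
      rw [abs_mul]
      exact mul_le_mul hmabs hmean (abs_nonneg _) (by positivity)
    have h4 := (abs_le.1 h3).1
    nlinarith
  nlinarith

end Pool.Agent.Lib_helper10.Erdos460
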