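import Mathlib
import Pool.Agent.Lib_helper10.Erdos460.WSecond2
import Pool.Agent.Lib_helper10.Erdos460.Gamma2

set_option autoImplicit false

namespace Pool.Agent.Lib_helper10.Erdos460

open Finset Filter Topology

/-- `e^{-γ}` -/
noncomputable def kap : ℝ := Real.exp (-Real.eulerMascheroniConstant)

lemma kap_pos : 0 < kap := Real.exp_pos _

/-- `⌊e^x⌋` -/
noncomputable def BB (x : ℝ) : ℕ := ⌊Real.exp x⌋₊

lemma BB_le (x : ℝ) : (BB x : ℝ) ≤ Real.exp x := Nat.floor_le (Real.exp_pos _).le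

lemma lt_BB (x : ℝ) : Real.exp x < (BB x : ℝ) + 1 := Nat.lt_floor_add_one _

lemma BB_mono {x y : ℝ} (h : x ≤ y) : BB x ≤ BB y := Nat.floor_mono (Real.exp_le_exp.2 h)

lemma log_BB_le {x : ℝ} (hx : 0 ≤ x) : Real.log (BB x) ≤ x := by
  have h1 : 1 ≤ BB x := Nat.le_floor (by simpa using Real.one_le_exp hx)
  have h2 : (0 : ℝ) < BB x := by exact_mod_cast h1
  calc Real.log (BB x) ≤ Real.log (Real.exp x) := Real.log_le_log h2 (BB_le x)
    _ = x := Real.log_exp x

/-- lower bound for harmonic blocks -/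
lemma LL_lower (y B : ℕ) (h : y ≤ B) :
    Real.log ((B : ℝ) + 1) - Real.log ((y : ℝ) + 1) ≤ LL y B := by
  unfold LL
  induction B, h using Nat.le_induction with
  | base => simp
  | succ B hB ih =>
    rw [sum_Ioc_succ_top (by omega)]
    have h1 : Real.log (((B + 1 : ℕ) : ℝ) + 1) - Real.log ((B : ℝ) + 1) ≤ 1 / ((B + 1 : ℕ) : ℝ) := by
      rw [← Real.log_div (by positivity) (by positivity)]
      have h2 := Real.log_le_sub_one_of_pos (x := (((B + 1 : ℕ) : ℝ) + 1) / ((B : ℝ) + 1))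
        (by positivity)
      refine h2.trans (le_of_eq ?_)
      push_cast
      field_simp
      ring
    linarith

lemma LL_upper (y B : ℕ) : LL y B ≤ 1 + Real.log B := by
  have h1 : LL y B ≤ ∑ a ∈ Icc 1 B, (1 : ℝ) / a := by
    unfold LL
    refine sum_le_sum_of_subset_of_nonneg ?_ fun a _ _ => by positivity
    intro a ha
    rw [mem_Ioc] at ha
    rw [mem_Icc]
    omega
  have h2 := harmonic_le_one_add_log B
  rw [harmonic_eq_sum_Icc] at h2
  push_cast at h2
  simp only [one_div] at h1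
  exact h1.trans h2

lemma prod_three_bound : ∃ C : ℝ, 0 < C ∧ ∀ x : ℝ, 2 ≤ x →
    ∏ q ∈ Nat.primesBelow (BB x), (1 + 3 / (q : ℝ)) ≤ C * x ^ 3 := by
  obtain ⟨M, C, hC0, hC⟩ := mertens_second
  have hl2 : 0 < Real.log 2 := Real.log_pos (by norm_num)
  refine ⟨Real.exp (3 * (M + C / Real.log 2)), Real.exp_pos _, fun x hx => ?_⟩
  set n := BB x with hn
  have hn7 : 2 ≤ n := by
    refine Nat.le_floor ?_
    have := Real.add_one_le_exp x
    push_cast
    linarith
  have h1 : ∏ q ∈ Nat.primesBelow n, (1 + 3 / (q : ℝ)) ≤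
      Real.exp (3 * ∑ q ∈ Nat.primesLE n, 1 / (q : ℝ)) := by
    calc ∏ q ∈ Nat.primesBelow n, (1 + 3 / (q : ℝ))
        ≤ ∏ q ∈ Nat.primesBelow n, Real.exp (3 * (1 / (q : ℝ))) := by
          refine prod_le_prod (fun q _ => by positivity) fun q _ => ?_
          have := Real.add_one_le_exp (3 * (1 / (q : ℝ)))
          have e : 3 / (q : ℝ) = 3 * (1 / (q : ℝ)) := by ring
          rw [e]
          linarith
      _ = Real.exp (3 * ∑ q ∈ Nat.primesBelow n, 1 / (q : ℝ)) := by
          rw [← Real.exp_sum, mul_sum]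
      _ ≤ Real.exp (3 * ∑ q ∈ Nat.primesLE n, 1 / (q : ℝ)) := by
          refine Real.exp_le_exp.2 (mul_le_mul_of_nonneg_left ?_ (by norm_num))
          exact sum_le_sum_of_subset_of_nonneg (primesBelow_mono (Nat.le_succ n))
            fun q _ _ => by positivity
  refine h1.trans ?_
  have h2 := (abs_le.1 (hC n hn7)).2
  have hln : Real.log 2 ≤ Real.log n := Real.log_le_log (by norm_num) (by exact_mod_cast hn7)
  have h3 : C / Real.log n ≤ C / Real.log 2 := div_le_div_of_nonneg_left hC0 hl2 hln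
  have h4 : Real.log (Real.log n) ≤ Real.log x :=
    Real.log_le_log (by linarith) (log_BB_le (by linarith))
  have h5 : x ^ 3 = Real.exp (3 * Real.log x) := by
    have h6 : (3 : ℝ) * Real.log x = Real.log (x ^ 3) := by rw [Real.log_pow]; norm_num
    rw [h6, Real.exp_log (by positivity)]
  rw [h5, ← Real.exp_add]
  refine Real.exp_le_exp.2 ?_
  linarith

lemma poly_exp_bound (x : ℝ) (hx : 0 ≤ x) : (x + 1) ^ 4 ≤ 4096 * Real.exp (x / 2) := by
  have h1 : x + 1 ≤ 8 * Real.exp (x / 8) := by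
    have := Real.add_one_le_exp (x / 8)
    linarith
  calc (x + 1) ^ 4 ≤ (8 * Real.exp (x / 8)) ^ 4 := pow_le_pow_left₀ (by linarith) h1 4
    _ = 4096 * (Real.exp (x / 8)) ^ 4 := by rw [mul_pow]; norm_num
    _ = 4096 * Real.exp (x / 2) := by
        rw [← Real.exp_nat_mul]; congr 2; push_cast; ring

/-- Chebyshev's inequality for finite sums. -/
lemma cheb (I : Finset ℕ) (X : ℕ → ℝ) (m t S : ℝ) (ht : 0 < t)
    (hS : ∑ n ∈ I, (X n - m) ^ 2 ≤ S) (g : ℝ) (hg : g ≤ m - t) :
    (((I.filter (fun n => X n < g)).card : ℕ) : ℝ) ≤ S / t ^ 2 := by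
  rw [le_div_iff₀ (by positivity)]
  refine le_trans ?_ hS
  calc (((I.filter (fun n => X n < g)).card : ℕ) : ℝ) * t ^ 2
      = ∑ _n ∈ I.filter (fun n => X n < g), t ^ 2 := by rw [sum_const, nsmul_eq_mul]
    _ ≤ ∑ n ∈ I.filter (fun n => X n < g), (X n - m) ^ 2 := by
        refine sum_le_sum fun n hn => ?_
        have h1 := (mem_filter.1 hn).2
        nlinarith
    _ ≤ ∑ n ∈ I, (X n - m) ^ 2 :=
        sum_le_sum_of_subset_of_nonneg (filter_subset _ _) fun n _ _ => sq_nonneg _

lemma WS_le_XS {z s : ℕ} {τ : ℝ} {Up Low : Finset ℕ → ℝ} (hW : SieveWeights z s τ Up Low)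
    (y n : ℕ) : WS Low (Nat.primesBelow z) y z n ≤ XS y z n := by
  classical
  unfold WS XS
  refine sum_le_sum fun a ha => ?_
  rw [mem_Ioc] at ha
  rw [dsum_eq_subsum Low _ (fun q hq => (Nat.mem_primesBelow.1 hq).2)]
  have h1 := hW.low ((Nat.primesBelow z).filter (fun q => q ∣ n - a)) (filter_subset _ _)
  have h2 : ind0 ((Nat.primesBelow z).filter (fun q => q ∣ n - a)) ≤
      if rough n a then 1 else 0 := by
    unfold ind0
    split_ifs with h3 h4
    · exact le_rfl
    · exfalso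
      apply h4
      intro p hp hd
      have : p ∈ (Nat.primesBelow z).filter (fun q => q ∣ n - a) :=
        mem_filter.2 ⟨primesBelow_mono ha.2 hp, hd⟩
      rw [h3] at this
      exact absurd this (notMem_empty p)
    · norm_num
    · exact le_rfl
  have h3 := mul_le_mul_of_nonneg_left (h1.trans h2) (by positivity : (0 : ℝ) ≤ 1 / (a : ℝ))
  refine h3.trans (le_of_eq ?_)
  split_ifs <;> simp

/-- The block estimate. -/
theorem block_est (δ : ℝ) (hδ0 : 0 < δ) (hδ1 : δ ≤ 1 / 8) : ∃ s : ℕ, 1 ≤ s ∧ ∃ x1 C : ℝ,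
    2 ≤ x1 ∧ 0 < C ∧ ∀ x : ℝ, x1 ≤ x → ∀ N : ℕ, Real.exp (4 * s * x) ≤ N → ∀ M : ℕ, BB x ≤ M →
    ((((Ioc M (M + N)).filter
      (fun n => XS (BB ((1 - δ) * x)) (BB x) n < kap * δ * (1 - 4 * δ))).card : ℕ) : ℝ) ≤
      C * N * Real.exp (-(x / 4)) := by
  classical
  obtain ⟨s, hs1, hs⟩ := exists_weights δ hδ0
  obtain ⟨C4, hC4, h3⟩ := prod_three_bound
  have hkap := kap_pos
  -- V lower bound
  have hV : ∀ᶠ n : ℕ in atTop, (1 - δ) * kap ≤ V (n + 1) * Real.log n := by
    have h1 : (1 - δ) * kap < kap := by nlinarith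
    filter_upwards [mertens_third.eventually (eventually_gt_nhds h1)] with n hn using hn.le
  obtain ⟨n0, hn0⟩ := eventually_atTop.1 hV
  set x1 : ℝ := max (max 2 (1 / δ ^ 2)) (Real.log (n0 + 2)) with hx1
  set C : ℝ := (4096 * C4 + 12288) / (kap * δ ^ 2) ^ 2 with hC
  refine ⟨s, hs1, x1, C, (le_max_left _ _).trans (le_max_left _ _), by positivity, ?_⟩
  intro x hx N hN M hM
  have hx2 : 2 ≤ x := ((le_max_left _ _).trans (le_max_left _ _)).trans hx
  have hxδ : 1 / δ ^ 2 ≤ x := ((le_max_right _ _).trans (le_max_left _ _)).trans hx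
  have hxn : Real.log (n0 + 2) ≤ x := (le_max_right _ _).trans hx
  set B := BB x with hB
  set y := BB ((1 - δ) * x) with hy
  have hxpos : 0 < x := by linarith
  have hB2 : 2 ≤ B := by
    refine Nat.le_floor ?_
    have := Real.add_one_le_exp x
    push_cast
    linarith
  have hBn0 : n0 ≤ B := by
    refine Nat.le_floor ?_
    have h1 : ((n0 : ℝ) + 2) ≤ Real.exp x := by
      rw [← Real.log_le_iff_le_exp (by positivity)]
      exact hxn
    linarith
  obtain ⟨Up, Low, hW⟩ := hs B (by omega)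
  have hyB : y < B := by
    have h1 : (y : ℝ) ≤ Real.exp ((1 - δ) * x) := BB_le _
    have h2 : Real.exp x < (B : ℝ) + 1 := lt_BB x
    have h4 : Real.exp ((1 - δ) * x) + 1 ≤ Real.exp x := by
      have h5 : Real.exp x = Real.exp ((1 - δ) * x) * Real.exp (δ * x) := by
        rw [← Real.exp_add]; congr 1; ring
      have h6 : δ * x + 1 ≤ Real.exp (δ * x) := Real.add_one_le_exp _
      have h7 : (1 - δ) * x + 1 ≤ Real.exp ((1 - δ) * x) := Real.add_one_le_exp _
      have h8 : 1 ≤ δ ^ 2 * x := by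
        rw [div_le_iff₀ (by positivity)] at hxδ
        linarith
      have h9 : 1 ≤ δ * x := by nlinarith
      have h10 : 1 ≤ Real.exp ((1 - δ) * x) := Real.one_le_exp (by nlinarith)
      nlinarith
    have : (y : ℝ) < B := by linarith
    exact_mod_cast this
  set L := LL y B with hL
  have hlogB : Real.log B ≤ x := log_BB_le hxpos.le
  have hlogB0 : 0 < Real.log B := Real.log_pos (by exact_mod_cast hB2)
  have hL1 : δ * x - 1 ≤ L := by
    refine le_trans ?_ (LL_lower y B hyB.le)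
    have h1 : x ≤ Real.log ((B : ℝ) + 1) := by
      rw [Real.le_log_iff_exp_le (by positivity)]
      exact (lt_BB x).le
    have h2 : Real.log ((y : ℝ) + 1) ≤ (1 - δ) * x + 1 := by
      rw [Real.log_le_iff_le_exp (by positivity), Real.exp_add]
      have h4 : (y : ℝ) ≤ Real.exp ((1 - δ) * x) := BB_le _
      have h5 : (2 : ℝ) ≤ Real.exp 1 := by
        have := Real.add_one_le_exp (1 : ℝ)
        linarith
      have h6 : 1 ≤ Real.exp ((1 - δ) * x) := Real.one_le_exp (by nlinarith)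
      nlinarith
    linarith
  have hL2 : L ≤ x + 1 := by
    have := LL_upper y B
    linarith
  have hL0 : 0 ≤ L := LL_nonneg y B
  -- lower bound for the mean
  have hVB : (1 - δ) * kap / x ≤ V B := by
    have h1 := hn0 B hBn0
    have h2 : V (B + 1) ≤ V B := V_anti (Nat.le_succ B)
    have h4 : 0 ≤ (1 - δ) * kap := mul_nonneg (by linarith) hkap.le
    calc (1 - δ) * kap / x ≤ (1 - δ) * kap / Real.log B :=
          div_le_div_of_nonneg_left h4 hlogB0 hlogB
      _ ≤ V (B + 1) := by rw [div_le_iff₀ hlogB0]; exact h1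
      _ ≤ V B := h2
  set m := meanw Low (Nat.primesBelow B) * L with hm
  have hmlow : kap * δ * (1 - 3 * δ) ≤ m := by
    have h1 : (1 - δ) * kap / x * (1 - δ) ≤ meanw Low (Nat.primesBelow B) := by
      refine le_trans ?_ hW.low_mean
      exact mul_le_mul_of_nonneg_right hVB (by linarith)
    have h2 : (1 - δ) * (δ * x) ≤ L := by
      refine le_trans ?_ hL1
      have h8 : 1 ≤ δ ^ 2 * x := by
        rw [div_le_iff₀ (by positivity)] at hxδ
        linarith
      nlinarith
    have h4 : 0 ≤ (1 - δ) * kap / x * (1 - δ) :=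
      mul_nonneg (div_nonneg (mul_nonneg (by linarith) hkap.le) hxpos.le) (by linarith)
    calc kap * δ * (1 - 3 * δ) ≤ kap * δ * (1 - δ) ^ 3 := by
          refine mul_le_mul_of_nonneg_left ?_ (by positivity)
          nlinarith [sq_nonneg δ, mul_pos hδ0 hδ0]
      _ = ((1 - δ) * kap / x * (1 - δ)) * ((1 - δ) * (δ * x)) := by
          field_simp
      _ ≤ meanw Low (Nat.primesBelow B) * L :=
          mul_le_mul h1 h2 (mul_nonneg (by linarith) (by positivity)) (h4.trans h1)
  have hsec := w_second Low (Nat.primesBelow B) (fun q hq => (Nat.mem_primesBelow.1 hq).2)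
    (B ^ s) hW.low_level hW.low_abs M N y B hyB hM
  -- bound the variance
  have hvar : N * (L * (1 / ((y : ℝ) + 1)) * ∏ q ∈ Nat.primesBelow B, (1 + 3 / (q : ℝ))) +
      3 * ((B ^ s : ℕ) : ℝ) ^ 2 * L ^ 2 ≤ (4096 * C4 + 12288) * (N * Real.exp (-(x / 4))) := by
    have hN0 : (0 : ℝ) ≤ N := by positivity
    have hp := h3 x hx2
    have hy1 : 1 / ((y : ℝ) + 1) ≤ Real.exp (-((1 - δ) * x)) := by
      rw [Real.exp_neg, ← one_div]
      exact one_div_le_one_div_of_le (Real.exp_pos _) (lt_BB _).le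
    have hy2 : Real.exp (-((1 - δ) * x)) ≤ Real.exp (-(7 / 8 * x)) :=
      Real.exp_le_exp.2 (by nlinarith)
    have hprod0 : 0 ≤ ∏ q ∈ Nat.primesBelow B, (1 + 3 / (q : ℝ)) :=
      prod_nonneg fun q _ => by positivity
    have h1 : L * (1 / ((y : ℝ) + 1)) * ∏ q ∈ Nat.primesBelow B, (1 + 3 / (q : ℝ)) ≤
        (x + 1) * Real.exp (-(7 / 8 * x)) * (C4 * x ^ 3) := by
      refine mul_le_mul ?_ hp hprod0 (by positivity)
      exact mul_le_mul hL2 (hy1.trans hy2) (by positivity) (by linarith)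
    have h2 : (x + 1) * Real.exp (-(7 / 8 * x)) * (C4 * x ^ 3) ≤
        4096 * C4 * Real.exp (-(x / 4)) := by
      have h4 : (x + 1) * x ^ 3 ≤ (x + 1) ^ 4 := by
        have : x ^ 3 ≤ (x + 1) ^ 3 := pow_le_pow_left₀ hxpos.le (by linarith) 3
        calc (x + 1) * x ^ 3 ≤ (x + 1) * (x + 1) ^ 3 :=
              mul_le_mul_of_nonneg_left this (by linarith)
          _ = (x + 1) ^ 4 := by ring
      have h5 := poly_exp_bound x hxpos.le
      calc (x + 1) * Real.exp (-(7 / 8 * x)) * (C4 * x ^ 3)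
          = C4 * Real.exp (-(7 / 8 * x)) * ((x + 1) * x ^ 3) := by ring
        _ ≤ C4 * Real.exp (-(7 / 8 * x)) * (4096 * Real.exp (x / 2)) :=
            mul_le_mul_of_nonneg_left (h4.trans h5) (by positivity)
        _ = 4096 * C4 * (Real.exp (-(7 / 8 * x)) * Real.exp (x / 2)) := by ring
        _ = 4096 * C4 * Real.exp (-(3 / 8 * x)) := by
            rw [← Real.exp_add]; congr 2; ring
        _ ≤ 4096 * C4 * Real.exp (-(x / 4)) := by
            refine mul_le_mul_of_nonneg_left (Real.exp_le_exp.2 ?_) (by positivity)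
            linarith
    have h4 : 3 * ((B ^ s : ℕ) : ℝ) ^ 2 * L ^ 2 ≤ 12288 * (N * Real.exp (-(x / 4))) := by
      have h5 : ((B ^ s : ℕ) : ℝ) ≤ Real.exp (s * x) := by
        push_cast
        calc (B : ℝ) ^ s ≤ (Real.exp x) ^ s := pow_le_pow_left₀ (by positivity) (BB_le x) s
          _ = Real.exp (s * x) := by rw [← Real.exp_nat_mul]
      have h6 : ((B ^ s : ℕ) : ℝ) ^ 2 ≤ Real.exp (2 * s * x) := by
        calc ((B ^ s : ℕ) : ℝ) ^ 2 ≤ (Real.exp (s * x)) ^ 2 :=
              pow_le_pow_left₀ (by positivity) h5 2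
          _ = Real.exp (2 * s * x) := by rw [← Real.exp_nat_mul]; congr 1; push_cast; ring
      have h7 : L ^ 2 ≤ 4096 * Real.exp (x / 2) := by
        have h8 : L ^ 2 ≤ (x + 1) ^ 2 := pow_le_pow_left₀ hL0 hL2 2
        have h9 : (x + 1) ^ 2 ≤ (x + 1) ^ 4 := pow_le_pow_right₀ (by linarith) (by norm_num)
        exact (h8.trans h9).trans (poly_exp_bound x hxpos.le)
      have hsR : (1 : ℝ) ≤ s := by exact_mod_cast hs1
      have h8 : Real.exp (2 * s * x) ≤ N * Real.exp (-(2 * x)) := by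
        have h9 : Real.exp (2 * s * x) * Real.exp (2 * x) ≤ N := by
          refine le_trans ?_ hN
          rw [← Real.exp_add]
          refine Real.exp_le_exp.2 ?_
          nlinarith
        rw [Real.exp_neg, ← div_eq_mul_inv, le_div_iff₀ (Real.exp_pos _)]
        exact h9
      calc 3 * ((B ^ s : ℕ) : ℝ) ^ 2 * L ^ 2
          ≤ 3 * (N * Real.exp (-(2 * x))) * (4096 * Real.exp (x / 2)) := by
            refine mul_le_mul ?_ h7 (by positivity) (by positivity)
            linarith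
        _ = 12288 * (N * (Real.exp (-(2 * x)) * Real.exp (x / 2))) := by ring
        _ = 12288 * (N * Real.exp (-(3 / 2 * x))) := by
            rw [← Real.exp_add]; congr 3; ring
        _ ≤ 12288 * (N * Real.exp (-(x / 4))) := by
            refine mul_le_mul_of_nonneg_left (mul_le_mul_of_nonneg_left
              (Real.exp_le_exp.2 ?_) hN0) (by norm_num)
            linarith
    have h5 := mul_le_mul_of_nonneg_left (h1.trans h2) hN0
    linarith
  have hcheb := cheb (Ioc M (M + N)) (fun n => WS Low (Nat.primesBelow B) y B n) m (kap * δ ^ 2)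
    _ (by positivity) (hsec.trans hvar) (kap * δ * (1 - 4 * δ)) (by
      have : kap * δ * (1 - 4 * δ) = kap * δ * (1 - 3 * δ) - kap * δ ^ 2 := by ring
      linarith)
  have hsub : (Ioc M (M + N)).filter (fun n => XS y B n < kap * δ * (1 - 4 * δ)) ⊆
      (Ioc M (M + N)).filter (fun n => WS Low (Nat.primesBelow B) y B n <
        kap * δ * (1 - 4 * δ)) := by
    intro n hn
    rw [mem_filter] at hn ⊢
    exact ⟨hn.1, lt_of_le_of_lt (WS_le_XS hW y n) hn.2⟩
  have hcard : ((((Ioc M (M + N)).filter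
      (fun n => XS y B n < kap * δ * (1 - 4 * δ))).card : ℕ) : ℝ) ≤
      ((((Ioc M (M + N)).filter (fun n => WS Low (Nat.primesBelow B) y B n <
        kap * δ * (1 - 4 * δ))).card : ℕ) : ℝ) := by exact_mod_cast card_le_card hsub
  refine hcard.trans (hcheb.trans (le_of_eq ?_))
  rw [hC]
  ring

end Pool.Agent.Lib_helper10.Erdos460
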