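import Mathlib
import Pool.Agent.Lib_helper10.Erdos460.Weights

set_option autoImplicit false

namespace Pool.Agent.Lib_helper10.Erdos460

open Finset Filter Topology

/-- sum of a `q`-periodic function over a residue class modulo a coprime `p`, over a full period -/
lemma resample_aux (q p a : ℕ) (hq : 0 < q) (hp : 0 < p) (hc : q.Coprime p) (f : ℕ → ℝ)
    (hf : ∀ n, f (n + q) = f n) :
    ∑ n ∈ range (q * p), f n * (if n ≡ a [MOD p] then 1 else 0) = ∑ u ∈ range q, f u := by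
  classical
  have hmod : ∀ n, f n = f (n % q) := fun n =>
    (Function.Periodic.map_mod_nat (f := f) hf n).symm
  simp only [mul_ite, mul_one, mul_zero]
  rw [← sum_filter]
  refine sum_bij' (fun n _ => n % q) (fun u _ => (Nat.chineseRemainder hc u a : ℕ)) ?_ ?_ ?_ ?_ ?_
  · intro n _
    exact mem_range.2 (Nat.mod_lt _ hq)
  · intro u hu
    rw [mem_filter, mem_range]
    exact ⟨Nat.chineseRemainder_lt_mul hc u a hq.ne' hp.ne', (Nat.chineseRemainder hc u a).2.2⟩
  · intro n hn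
    rw [mem_filter, mem_range] at hn
    have h1 := (Nat.chineseRemainder hc (n % q) a).2
    have h2 : (Nat.chineseRemainder hc (n % q) a : ℕ) ≡ n [MOD q * p] := by
      rw [← Nat.modEq_and_modEq_iff_modEq_mul hc]
      exact ⟨h1.1.trans (Nat.mod_modEq _ _), h1.2.trans hn.2.symm⟩
    have h3 := Nat.chineseRemainder_lt_mul hc (n % q) a hq.ne' hp.ne'
    exact Nat.ModEq.eq_of_lt_of_lt h2 h3 hn.1
  · intro u hu
    rw [mem_range] at hu
    have h1 := (Nat.chineseRemainder hc u a).2.1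
    have h2 : (Nat.chineseRemainder hc u a : ℕ) % q = u % q := h1
    rw [h2, Nat.mod_eq_of_lt hu]
  · intro n _
    exact hmod n

lemma sum_ind_mod (p n : ℕ) (hp : 0 < p) :
    ∑ r ∈ range p, (if n ≡ r [MOD p] then (1 : ℝ) else 0) = 1 := by
  rw [sum_eq_single (n % p)]
  · rw [if_pos (Nat.mod_modEq _ _).symm]
  · intro b hb hne
    rw [if_neg]
    intro h
    apply hne
    have : n % p = b % p := h
    rw [this, Nat.mod_eq_of_lt (mem_range.1 hb)]
  · intro h
    exact absurd (mem_range.2 (Nat.mod_lt _ hp)) h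

lemma period_total (q p : ℕ) (hq : 0 < q) (hp : 0 < p) (hc : q.Coprime p) (f : ℕ → ℝ)
    (hf : ∀ n, f (n + q) = f n) :
    ∑ n ∈ range (q * p), f n = p * ∑ u ∈ range q, f u := by
  have h1 : ∑ n ∈ range (q * p), f n =
      ∑ r ∈ range p, ∑ n ∈ range (q * p), f n * (if n ≡ r [MOD p] then 1 else 0) := by
    rw [sum_comm]
    refine sum_congr rfl fun n _ => ?_
    rw [← mul_sum, sum_ind_mod p n hp, mul_one]
  rw [h1, sum_congr rfl fun r _ => resample_aux q p r hq hp hc f hf]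
  rw [sum_const, card_range, nsmul_eq_mul]

/-- resampling at the modulus `p` -/
lemma resample (q p a : ℕ) (hq : 0 < q) (hp : 0 < p) (hc : q.Coprime p) (f : ℕ → ℝ)
    (hf : ∀ n, f (n + q) = f n) :
    ∑ n ∈ range (q * p), f n * (if n ≡ a [MOD p] then 1 else 0) =
      1 / (p : ℝ) * ∑ n ∈ range (q * p), f n := by
  rw [resample_aux q p a hq hp hc f hf, period_total q p hq hp hc f hf]
  have : (p : ℝ) ≠ 0 := by exact_mod_cast hp.ne'
  field_simp

/-- the two-point version -/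
lemma resample_two (q p a a' : ℕ) (hq : 0 < q) (hp : 0 < p) (hc : q.Coprime p) (f : ℕ → ℝ)
    (hf : ∀ n, f (n + q) = f n) (hf0 : ∀ n, 0 ≤ f n) :
    ∑ n ∈ range (q * p), f n * (((if n ≡ a [MOD p] then 1 else 0) - 1 / (p : ℝ)) *
        ((if n ≡ a' [MOD p] then 1 else 0) - 1 / (p : ℝ))) ≤
      1 / (p : ℝ) * ∑ n ∈ range (q * p), f n * (if a' ≡ a [MOD p] then 1 else 0) := by
  have hpR : (0 : ℝ) < p := by exact_mod_cast hp
  have h1 := resample q p a hq hp hc f hf
  have h2 := resample q p a' hq hp hc f hf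
  have h3 : 0 ≤ ∑ n ∈ range (q * p), f n := sum_nonneg fun n _ => hf0 n
  have h4 : ∑ n ∈ range (q * p), f n * (((if n ≡ a [MOD p] then 1 else 0) - 1 / (p : ℝ)) *
        ((if n ≡ a' [MOD p] then 1 else 0) - 1 / (p : ℝ))) =
      ∑ n ∈ range (q * p), f n * ((if n ≡ a [MOD p] then 1 else 0) *
        (if n ≡ a' [MOD p] then 1 else 0)) -
      1 / (p : ℝ) * ∑ n ∈ range (q * p), f n * (if n ≡ a [MOD p] then 1 else 0) -
      1 / (p : ℝ) * ∑ n ∈ range (q * p), f n * (if n ≡ a' [MOD p] then 1 else 0) +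
      1 / (p : ℝ) * (1 / (p : ℝ)) * ∑ n ∈ range (q * p), f n := by
    rw [mul_sum, mul_sum, mul_sum, ← sum_sub_distrib, ← sum_sub_distrib, ← sum_add_distrib]
    refine sum_congr rfl fun n _ => ?_
    ring
  have h5 : ∑ n ∈ range (q * p), f n * ((if n ≡ a [MOD p] then 1 else 0) *
        (if n ≡ a' [MOD p] then 1 else 0)) =
      1 / (p : ℝ) * ∑ n ∈ range (q * p), f n * (if a' ≡ a [MOD p] then 1 else 0) := by
    by_cases haa : a' ≡ a [MOD p]
    · simp only [haa, if_true, mul_one]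
      rw [← h1]
      refine sum_congr rfl fun n _ => ?_
      by_cases hn : n ≡ a [MOD p]
      · have : n ≡ a' [MOD p] := hn.trans haa.symm
        simp [hn, this]
      · simp [hn]
    · simp only [haa, if_false, mul_zero, sum_const_zero]
      refine sum_eq_zero fun n _ => ?_
      by_cases hn : n ≡ a [MOD p]
      · have : ¬ n ≡ a' [MOD p] := fun h => haa (h.symm.trans hn)
        simp [this]
      · simp [hn]
  rw [h4, h5, h1, h2]
  have h6 : 0 ≤ 1 / (p : ℝ) * (1 / (p : ℝ) * ∑ n ∈ range (q * p), f n) := by positivity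
  linarith

/-- elementary functions: zero or the indicator of a residue class -/
def El (Q : ℕ) (h : ℕ → ℝ) : Prop :=
  (∀ n, h n = 0) ∨ ∃ d r : ℕ, d ∣ Q ∧ ∀ n, h n = if n ≡ r [MOD d] then 1 else 0

lemma El.mul {Q : ℕ} {h h' : ℕ → ℝ} (H : El Q h) (H' : El Q h') : El Q (fun n => h n * h' n) := by
  rcases H with H | ⟨d, r, hd, H⟩
  · left; intro n; simp [H n]
  rcases H' with H' | ⟨d', r', hd', H'⟩
  · left; intro n; simp [H' n]
  by_cases hex : ∃ n0, n0 ≡ r [MOD d] ∧ n0 ≡ r' [MOD d']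
  · obtain ⟨n0, h1, h2⟩ := hex
    right
    refine ⟨Nat.lcm d d', n0, Nat.lcm_dvd hd hd', fun n => ?_⟩
    simp only [H n, H' n]
    have key : n ≡ n0 [MOD Nat.lcm d d'] ↔ (n ≡ r [MOD d] ∧ n ≡ r' [MOD d']) := by
      constructor
      · intro h
        exact ⟨(h.of_dvd (Nat.dvd_lcm_left d d')).trans h1,
          (h.of_dvd (Nat.dvd_lcm_right d d')).trans h2⟩
      · rintro ⟨h3, h4⟩
        have h5 := (Nat.modEq_iff_dvd.1 (h3.trans h1.symm))
        have h6 := (Nat.modEq_iff_dvd.1 (h4.trans h2.symm))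
        rw [Nat.modEq_iff_dvd]
        have := Int.natCast_dvd.1 h5
        have h7 := Int.natCast_dvd.1 h6
        exact Int.natCast_dvd.2 (Nat.lcm_dvd this h7)
    by_cases h3 : n ≡ r [MOD d] <;> by_cases h4 : n ≡ r' [MOD d'] <;> simp [key, h3, h4]
  · left
    intro n
    simp only [H n, H' n]
    by_cases h3 : n ≡ r [MOD d] <;> by_cases h4 : n ≡ r' [MOD d']
    · exact absurd ⟨n, h3, h4⟩ hex
    all_goals simp [h3, h4]

lemma El.one (Q : ℕ) : El Q (fun _ => 1) := by
  right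
  exact ⟨1, 0, one_dvd _, fun n => by simp [Nat.modEq_one]⟩

/-- transfer for elementary functions -/
lemma El.transfer {Q : ℕ} (hQ : 0 < Q) {h : ℕ → ℝ} (H : El Q h) (M N : ℕ) :
    |∑ n ∈ Ioc M (M + N), h n - (N : ℝ) / Q * ∑ n ∈ range Q, h n| ≤ 1 := by
  rcases H with H | ⟨d, r, hd, H⟩
  · simp [H]
  obtain ⟨m, rfl⟩ := hd
  have hd0 : 0 < d := by
    rcases Nat.eq_zero_or_pos d with h0 | h0
    · rw [h0, zero_mul] at hQ; exact absurd hQ (lt_irrefl _)
    · exact h0
  have hm0 : 0 < m := by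
    rcases Nat.eq_zero_or_pos m with h0 | h0
    · rw [h0, mul_zero] at hQ; exact absurd hQ (lt_irrefl _)
    · exact h0
  have h1 : ∑ n ∈ range (d * m), h n = m := by
    have hstep : ∀ m : ℕ, ∑ n ∈ range (d * m), h n = m := by
      intro m
      induction m with
      | zero => simp
      | succ m ih =>
        rw [Nat.mul_succ, sum_range_add, ih]
        have h2 : ∑ n ∈ range d, h (d * m + n) = 1 := by
          have h3 : ∀ n ∈ range d, h (d * m + n) = if r ≡ n [MOD d] then 1 else 0 := by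
            intro n _
            rw [H]
            have h4 : (d * m + n ≡ r [MOD d]) ↔ (r ≡ n [MOD d]) := by
              have h5 : d * m + n ≡ n [MOD d] := by
                have : d * m + n ≡ 0 + n [MOD d] :=
                  Nat.ModEq.add_right n (Nat.modEq_zero_iff_dvd.2 (Dvd.intro _ rfl))
                simpa using this
              exact ⟨fun h => h.symm.trans h5, fun h => h5.trans h.symm⟩
            simp only [h4]
          rw [sum_congr rfl h3]
          exact sum_ind_mod d r hd0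
        rw [h2]
        push_cast
        ring
    exact hstep m
  rw [h1]
  have h2 := count_modEq M N d r hd0
  have h3 : ∑ n ∈ Ioc M (M + N), h n =
      ((((Ioc M (M + N)).filter (fun n => n ≡ r [MOD d])).card : ℕ) : ℝ) := by
    rw [card_filter]
    push_cast
    exact sum_congr rfl fun n _ => H n
  rw [h3]
  have hdR : (d : ℝ) ≠ 0 := by exact_mod_cast hd0.ne'
  have hmR : (m : ℝ) ≠ 0 := by exact_mod_cast hm0.ne'
  have h4 : (N : ℝ) / ((d * m : ℕ) : ℝ) * m = N / d := by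
    push_cast
    field_simp
  rw [h4]
  exact h2

/-- functions with a representation of bounded total weight -/
def Rp (Q : ℕ) (A : ℝ) (F : ℕ → ℝ) : Prop :=
  ∃ (ι : Type) (s : Finset ι) (c : ι → ℝ) (h : ι → ℕ → ℝ), (∀ i ∈ s, El Q (h i)) ∧
    (∀ n, F n = ∑ i ∈ s, c i * h i n) ∧ ∑ i ∈ s, |c i| ≤ A

lemma Rp.mono {Q : ℕ} {A A' : ℝ} {F : ℕ → ℝ} (H : Rp Q A F) (h : A ≤ A') : Rp Q A' F := by
  obtain ⟨ι, s, c, h', h1, h2, h3⟩ := H
  exact ⟨ι, s, c, h', h1, h2, h3.trans h⟩

lemma Rp.mul {Q : ℕ} {A A' : ℝ} {F F' : ℕ → ℝ} (H : Rp Q A F) (H' : Rp Q A' F') :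
    Rp Q (A * A') (fun n => F n * F' n) := by
  classical
  obtain ⟨ι, s, c, h, h1, h2, h3⟩ := H
  obtain ⟨ι', s', c', h', h1', h2', h3'⟩ := H'
  refine ⟨ι × ι', s ×ˢ s', fun x => c x.1 * c' x.2, fun x n => h x.1 n * h' x.2 n, ?_, ?_, ?_⟩
  · intro x hx
    rw [mem_product] at hx
    exact (h1 _ hx.1).mul (h1' _ hx.2)
  · intro n
    simp only
    rw [h2, h2', sum_mul_sum, ← sum_product']
    refine sum_congr rfl fun x _ => ?_
    ring
  · have h4 : ∑ x ∈ s ×ˢ s', |c x.1 * c' x.2| = (∑ i ∈ s, |c i|) * ∑ j ∈ s', |c' j| := by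
      rw [sum_mul_sum, ← sum_product']
      refine sum_congr rfl fun x _ => ?_
      rw [abs_mul]
    rw [h4]
    exact mul_le_mul h3 h3' (sum_nonneg fun _ _ => abs_nonneg _)
      ((sum_nonneg fun _ _ => abs_nonneg _).trans h3)

lemma Rp.one (Q : ℕ) : Rp Q 1 (fun _ => 1) := by
  refine ⟨Unit, {()}, fun _ => 1, fun _ _ => 1, fun _ _ => El.one Q, fun n => by simp, by simp⟩

lemma Rp.pow {Q : ℕ} {A : ℝ} {F : ℕ → ℝ} (H : Rp Q A F) (m : ℕ) :
    Rp Q (A ^ m) (fun n => F n ^ m) := by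
  induction m with
  | zero =>
    simp only [pow_zero]
    exact Rp.one Q
  | succ m ih =>
    have := ih.mul H
    simpa [pow_succ] using this

lemma Rp.transfer {Q : ℕ} (hQ : 0 < Q) {A : ℝ} {F : ℕ → ℝ} (H : Rp Q A F) (M N : ℕ) :
    |∑ n ∈ Ioc M (M + N), F n - (N : ℝ) / Q * ∑ n ∈ range Q, F n| ≤ A := by
  classical
  obtain ⟨ι, s, c, h, h1, h2, h3⟩ := H
  have e1 : ∑ n ∈ Ioc M (M + N), F n = ∑ i ∈ s, c i * ∑ n ∈ Ioc M (M + N), h i n := by
    simp only [h2, mul_sum]
    rw [sum_comm]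
  have e2 : ∑ n ∈ range Q, F n = ∑ i ∈ s, c i * ∑ n ∈ range Q, h i n := by
    simp only [h2, mul_sum]
    rw [sum_comm]
  rw [e1, e2, mul_sum, ← sum_sub_distrib]
  refine le_trans (abs_sum_le_sum_abs _ _) (le_trans (sum_le_sum fun i hi => ?_) h3)
  have h4 := (h1 i hi).transfer hQ M N
  have h5 : c i * ∑ n ∈ Ioc M (M + N), h i n - (N : ℝ) / Q * (c i * ∑ n ∈ range Q, h i n) =
      c i * (∑ n ∈ Ioc M (M + N), h i n - (N : ℝ) / Q * ∑ n ∈ range Q, h i n) := by ring
  rw [h5, abs_mul]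
  calc |c i| * _ ≤ |c i| * 1 := mul_le_mul_of_nonneg_left h4 (abs_nonneg _)
    _ = |c i| := mul_one _

end Pool.Agent.Lib_helper10.Erdos460
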