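import Mathlib
import Pool.Agent.Lib_helper10.Erdos460.Period

set_option autoImplicit false

namespace Pool.Agent.Lib_helper10.Erdos460

open Finset Filter Topology

lemma taylor_even (s z : ℝ) (i : ℕ) :
    |(s + z) ^ (i + 2) - s ^ (i + 2) - (i + 2) * s ^ (i + 1) * z| ≤
      ((i : ℝ) + 2) ^ 2 * (z ^ 2 * (|s| + |z|) ^ i) := by
  induction i with
  | zero =>
    have h1 : (s + z) ^ (0 + 2) - s ^ (0 + 2) - ((0 : ℕ) + 2) * s ^ (0 + 1) * z = z ^ 2 := by
      push_cast; ring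
    rw [h1, abs_of_nonneg (sq_nonneg z)]
    simp only [pow_zero, mul_one, Nat.cast_zero, zero_add]
    nlinarith [sq_nonneg z]
  | succ i ih =>
    have h1 : (s + z) ^ (i + 1 + 2) - s ^ (i + 1 + 2) - ((i + 1 : ℕ) + 2) * s ^ (i + 1 + 1) * z =
        (s + z) * ((s + z) ^ (i + 2) - s ^ (i + 2) - (i + 2) * s ^ (i + 1) * z) +
          (i + 2) * (s ^ (i + 1) * z ^ 2) := by
      push_cast; ring
    rw [h1]
    set R := (s + z) ^ (i + 2) - s ^ (i + 2) - (i + 2) * s ^ (i + 1) * z with hR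
    set B := |s| + |z| with hB
    have hB0 : 0 ≤ B := by positivity
    have hz2 : 0 ≤ z ^ 2 := sq_nonneg z
    calc |(s + z) * R + (i + 2) * (s ^ (i + 1) * z ^ 2)|
        ≤ |(s + z) * R| + |(i + 2) * (s ^ (i + 1) * z ^ 2)| := abs_add_le _ _
      _ = |s + z| * |R| + (i + 2) * (|s| ^ (i + 1) * z ^ 2) := by
          rw [abs_mul, abs_mul, abs_mul, abs_pow, abs_pow, sq_abs,
            abs_of_nonneg (by positivity : (0 : ℝ) ≤ (i : ℝ) + 2)]
      _ ≤ B * (((i : ℝ) + 2) ^ 2 * (z ^ 2 * B ^ i)) + (i + 2) * (B ^ (i + 1) * z ^ 2) := by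
          refine add_le_add (mul_le_mul (abs_add_le _ _) ih (abs_nonneg _) hB0) ?_
          refine mul_le_mul_of_nonneg_left (mul_le_mul_of_nonneg_right ?_ hz2) (by positivity)
          exact pow_le_pow_left₀ (abs_nonneg _) (by rw [hB]; linarith [abs_nonneg z]) _
      _ = (((i : ℝ) + 2) ^ 2 + (i + 2)) * (z ^ 2 * B ^ (i + 1)) := by ring
      _ ≤ (((i + 1 : ℕ) : ℝ) + 2) ^ 2 * (z ^ 2 * B ^ (i + 1)) := by
          refine mul_le_mul_of_nonneg_right ?_ (by positivity)
          push_cast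
          nlinarith [(Nat.cast_nonneg i : (0 : ℝ) ≤ (i : ℝ))]

lemma mix_bound (s W c τ : ℝ) (i : ℕ) (hi : Even i) (hW : 0 ≤ W) (hc : 0 ≤ c) (hτ : 0 < τ)
    (hτc : ((i : ℝ) + 2) * c ≤ τ) :
    W ^ 2 * (|s| + W * c) ^ i ≤ 3 / τ ^ 2 * (s ^ (i + 2) + τ ^ (i + 2) * W ^ (i + 2)) := by
  have hi0 : (0 : ℝ) ≤ i := Nat.cast_nonneg i
  have hexp : (1 + 1 / ((i : ℝ) + 2)) ^ i ≤ 3 := by
    have h1 : 1 + 1 / ((i : ℝ) + 2) ≤ Real.exp (1 / ((i : ℝ) + 2)) := by
      have := Real.add_one_le_exp (1 / ((i : ℝ) + 2))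
      linarith
    calc (1 + 1 / ((i : ℝ) + 2)) ^ i ≤ Real.exp (1 / ((i : ℝ) + 2)) ^ i :=
          pow_le_pow_left₀ (by positivity) h1 _
      _ = Real.exp (i * (1 / ((i : ℝ) + 2))) := by rw [Real.exp_nat_mul]
      _ ≤ Real.exp 1 := by
          refine Real.exp_le_exp.2 ?_
          rw [mul_one_div, div_le_one (by positivity)]
          linarith
      _ ≤ 3 := by
          have := Real.exp_one_lt_d9
          linarith
  have hev : |s| ^ (i + 2) = s ^ (i + 2) := by
    rw [Even.pow_abs]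
    exact hi.add (by decide)
  have hcτ : c ≤ τ / ((i : ℝ) + 2) := by
    rw [le_div_iff₀ (by positivity)]
    linarith
  have h0s : 0 ≤ s ^ (i + 2) := by rw [← hev]; positivity
  rcases le_total (τ * W) |s| with h | h
  · -- |s| large
    have h1 : |s| + W * c ≤ |s| * (1 + 1 / ((i : ℝ) + 2)) := by
      have h2 : W * c ≤ W * (τ / ((i : ℝ) + 2)) := mul_le_mul_of_nonneg_left hcτ hW
      have h3 : W * (τ / ((i : ℝ) + 2)) = (τ * W) / ((i : ℝ) + 2) := by ring
      have h4 : (τ * W) / ((i : ℝ) + 2) ≤ |s| / ((i : ℝ) + 2) :=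
        div_le_div_of_nonneg_right h (by positivity)
      have h5 : |s| * (1 + 1 / ((i : ℝ) + 2)) = |s| + |s| / ((i : ℝ) + 2) := by ring
      rw [h5]
      linarith
    have h2 : (|s| + W * c) ^ i ≤ 3 * |s| ^ i := by
      calc (|s| + W * c) ^ i ≤ (|s| * (1 + 1 / ((i : ℝ) + 2))) ^ i :=
            pow_le_pow_left₀ (by positivity) h1 _
        _ = |s| ^ i * (1 + 1 / ((i : ℝ) + 2)) ^ i := mul_pow _ _ _
        _ ≤ |s| ^ i * 3 := mul_le_mul_of_nonneg_left hexp (by positivity)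
        _ = 3 * |s| ^ i := by ring
    have h3 : W ^ 2 ≤ |s| ^ 2 / τ ^ 2 := by
      rw [le_div_iff₀ (by positivity), ← mul_pow]
      exact pow_le_pow_left₀ (by positivity) (by linarith) 2
    calc W ^ 2 * (|s| + W * c) ^ i ≤ (|s| ^ 2 / τ ^ 2) * (3 * |s| ^ i) :=
          mul_le_mul h3 h2 (by positivity) (by positivity)
      _ = 3 / τ ^ 2 * |s| ^ (i + 2) := by ring
      _ ≤ 3 / τ ^ 2 * (s ^ (i + 2) + τ ^ (i + 2) * W ^ (i + 2)) := by
          rw [hev]
          refine mul_le_mul_of_nonneg_left ?_ (by positivity)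
          have : 0 ≤ τ ^ (i + 2) * W ^ (i + 2) := by positivity
          linarith
  · have h1 : |s| + W * c ≤ τ * W * (1 + 1 / ((i : ℝ) + 2)) := by
      have h2 : W * c ≤ W * (τ / ((i : ℝ) + 2)) := mul_le_mul_of_nonneg_left hcτ hW
      have h5 : τ * W * (1 + 1 / ((i : ℝ) + 2)) = τ * W + W * (τ / ((i : ℝ) + 2)) := by ring
      rw [h5]
      linarith
    have h2 : (|s| + W * c) ^ i ≤ 3 * (τ * W) ^ i := by
      calc (|s| + W * c) ^ i ≤ (τ * W * (1 + 1 / ((i : ℝ) + 2))) ^ i :=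
            pow_le_pow_left₀ (by positivity) h1 _
        _ = (τ * W) ^ i * (1 + 1 / ((i : ℝ) + 2)) ^ i := mul_pow _ _ _
        _ ≤ (τ * W) ^ i * 3 := mul_le_mul_of_nonneg_left hexp (by positivity)
        _ = 3 * (τ * W) ^ i := by ring
    calc W ^ 2 * (|s| + W * c) ^ i ≤ W ^ 2 * (3 * (τ * W) ^ i) :=
          mul_le_mul_of_nonneg_left h2 (by positivity)
      _ = 3 / τ ^ 2 * (τ ^ (i + 2) * W ^ (i + 2)) := by
          field_simp
          ring
      _ ≤ _ := by
          refine mul_le_mul_of_nonneg_left ?_ (by positivity)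
          linarith

/-- one step of the martingale recursion -/
theorem mstep (q p : ℕ) (hq : 0 < q) (hp : 0 < p) (hcop : q.Coprime p) (I : Finset ℕ)
    (g C : ℕ → ℕ → ℝ) (S W : ℕ → ℝ)
    (hgp : ∀ a n, g a (n + q) = g a n) (hCp : ∀ a n, C a (n + q) = C a n)
    (hSp : ∀ n, S (n + q) = S n) (hWp : ∀ n, W (n + q) = W n)
    (hg0 : ∀ a n, 0 ≤ g a n) (hC0 : ∀ a n, 0 ≤ C a n) (hW0 : ∀ n, 0 ≤ W n)
    (hCW : ∀ a ∈ I, ∀ n, C a n ≤ W n) (c g0 : ℝ) (hc0 : 0 ≤ c)
    (hcl : ∀ n r, ∑ a ∈ I with a ≡ r [MOD p], g a n ≤ c) (hg : ∀ n, ∑ a ∈ I, g a n ≤ g0)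
    (i : ℕ) (hi : Even i) (τ : ℝ) (hτ : 0 < τ) (hτc : ((i : ℝ) + 2) * c ≤ τ) :
    ∑ n ∈ range (q * p), (S n + ∑ a ∈ I, g a n * (C a n *
        ((if n ≡ a [MOD p] then 1 else 0) - 1 / (p : ℝ)))) ^ (i + 2) ≤
      ∑ n ∈ range (q * p), S n ^ (i + 2) +
        ((i : ℝ) + 2) ^ 2 * (c * g0 / p) * (3 / τ ^ 2) *
          (∑ n ∈ range (q * p), S n ^ (i + 2) +
            τ ^ (i + 2) * ∑ n ∈ range (q * p), W n ^ (i + 2)) := by
  classical
  have hpR : (0 : ℝ) < p := by exact_mod_cast hp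
  set ζ : ℕ → ℝ := fun n => ∑ a ∈ I, g a n * (C a n *
        ((if n ≡ a [MOD p] then 1 else 0) - 1 / (p : ℝ))) with hζ
  -- sums of w over classes
  have hclW : ∀ n r, ∑ a ∈ I with a ≡ r [MOD p], g a n * C a n ≤ W n * c := by
    intro n r
    calc ∑ a ∈ I with a ≡ r [MOD p], g a n * C a n
        ≤ ∑ a ∈ I with a ≡ r [MOD p], g a n * W n :=
          sum_le_sum fun a ha => mul_le_mul_of_nonneg_left (hCW a (mem_filter.1 ha).1 n) (hg0 a n)
      _ = W n * ∑ a ∈ I with a ≡ r [MOD p], g a n := by rw [← sum_mul, mul_comm]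
      _ ≤ W n * c := mul_le_mul_of_nonneg_left (hcl n r) (hW0 n)
  -- (A)
  have hA : ∀ n, |ζ n| ≤ W n * c := by
    intro n
    have h1 : ζ n = ∑ a ∈ I with a ≡ n [MOD p], g a n * C a n -
        1 / (p : ℝ) * ∑ a ∈ I, g a n * C a n := by
      simp only [hζ]
      rw [sum_filter, mul_sum, ← sum_sub_distrib]
      refine sum_congr rfl fun a _ => ?_
      have h2 : (n ≡ a [MOD p]) ↔ (a ≡ n [MOD p]) := ⟨fun h => h.symm, fun h => h.symm⟩
      by_cases h3 : a ≡ n [MOD p]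
      · simp only [h2, h3, if_true]; ring
      · simp only [h2, h3, if_false]; ring
    have h2 : 0 ≤ ∑ a ∈ I with a ≡ n [MOD p], g a n * C a n :=
      sum_nonneg fun a _ => mul_nonneg (hg0 a n) (hC0 a n)
    have h3 := hclW n n
    have h4 : 0 ≤ ∑ a ∈ I, g a n * C a n := sum_nonneg fun a _ => mul_nonneg (hg0 a n) (hC0 a n)
    have h5 : ∑ a ∈ I, g a n * C a n ≤ p * (W n * c) := by
      calc ∑ a ∈ I, g a n * C a n
          = ∑ r ∈ range p, ∑ a ∈ I with a ≡ r [MOD p], g a n * C a n := by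
            have h6 : ∀ a ∈ I, g a n * C a n =
                ∑ r ∈ range p, if a ≡ r [MOD p] then g a n * C a n else 0 := by
              intro a _
              have := sum_ind_mod p a hp
              calc g a n * C a n = g a n * C a n *
                    ∑ r ∈ range p, (if a ≡ r [MOD p] then (1 : ℝ) else 0) := by
                    rw [this, mul_one]
                _ = _ := by
                    rw [mul_sum]
                    refine sum_congr rfl fun r _ => ?_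
                    rw [mul_ite, mul_one, mul_zero]
            rw [sum_congr rfl h6, sum_comm]
            refine sum_congr rfl fun r _ => ?_
            rw [sum_filter]
        _ ≤ ∑ _r ∈ range p, W n * c := sum_le_sum fun r _ => hclW n r
        _ = p * (W n * c) := by rw [sum_const, card_range, nsmul_eq_mul]
    have h6 : 1 / (p : ℝ) * ∑ a ∈ I, g a n * C a n ≤ W n * c := by
      rw [one_div, inv_mul_le_iff₀ hpR]
      exact h5
    have h7 : 0 ≤ 1 / (p : ℝ) * ∑ a ∈ I, g a n * C a n := by positivity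
    rw [h1, abs_le]
    constructor <;> linarith
  -- (B)
  have hB : ∑ n ∈ range (q * p), S n ^ (i + 1) * ζ n = 0 := by
    have h1 : ∑ n ∈ range (q * p), S n ^ (i + 1) * ζ n =
        ∑ a ∈ I, ∑ n ∈ range (q * p), (S n ^ (i + 1) * g a n * C a n) *
          ((if n ≡ a [MOD p] then 1 else 0) - 1 / (p : ℝ)) := by
      simp only [hζ, mul_sum]
      rw [sum_comm]
      refine sum_congr rfl fun a _ => sum_congr rfl fun n _ => ?_
      ring
    rw [h1]
    refine sum_eq_zero fun a _ => ?_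
    have h2 := resample q p a hq hp hcop (fun n => S n ^ (i + 1) * g a n * C a n)
      (fun n => by simp only [hSp, hgp, hCp])
    have h3 : ∑ n ∈ range (q * p), (S n ^ (i + 1) * g a n * C a n) *
          ((if n ≡ a [MOD p] then 1 else 0) - 1 / (p : ℝ)) =
        ∑ n ∈ range (q * p), (S n ^ (i + 1) * g a n * C a n) *
          (if n ≡ a [MOD p] then 1 else 0) -
        1 / (p : ℝ) * ∑ n ∈ range (q * p), (S n ^ (i + 1) * g a n * C a n) := by
      rw [mul_sum, ← sum_sub_distrib]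
      refine sum_congr rfl fun n _ => ?_
      ring
    rw [h3]
    rw [h2, sub_self]
  -- (C)
  set F : ℕ → ℝ := fun n => (|S n| + W n * c) ^ i with hF
  have hF0 : ∀ n, 0 ≤ F n := fun n => by
    have := hW0 n
    positivity
  have hFp : ∀ n, F (n + q) = F n := fun n => by simp only [hF, hSp, hWp]
  have hC : ∑ n ∈ range (q * p), ζ n ^ 2 * F n ≤
      c * g0 / p * ∑ n ∈ range (q * p), W n ^ 2 * F n := by
    have h1 : ∑ n ∈ range (q * p), ζ n ^ 2 * F n = ∑ a ∈ I, ∑ a' ∈ I, ∑ n ∈ range (q * p),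
        (F n * (g a n * C a n) * (g a' n * C a' n)) *
        (((if n ≡ a [MOD p] then 1 else 0) - 1 / (p : ℝ)) *
          ((if n ≡ a' [MOD p] then 1 else 0) - 1 / (p : ℝ))) := by
      have h2 : ∀ n, ζ n ^ 2 * F n = ∑ a ∈ I, ∑ a' ∈ I,
          (F n * (g a n * C a n) * (g a' n * C a' n)) *
          (((if n ≡ a [MOD p] then 1 else 0) - 1 / (p : ℝ)) *
            ((if n ≡ a' [MOD p] then 1 else 0) - 1 / (p : ℝ))) := by
        intro n
        simp only [hζ]
        rw [pow_two, sum_mul_sum, sum_mul]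
        refine sum_congr rfl fun a _ => ?_
        rw [sum_mul]
        refine sum_congr rfl fun a' _ => ?_
        ring
      rw [sum_congr rfl fun n _ => h2 n, sum_comm]
      refine sum_congr rfl fun a _ => ?_
      rw [sum_comm]
    rw [h1]
    have h2 : ∀ a ∈ I, ∀ a' ∈ I, ∑ n ∈ range (q * p),
        (F n * (g a n * C a n) * (g a' n * C a' n)) *
        (((if n ≡ a [MOD p] then 1 else 0) - 1 / (p : ℝ)) *
          ((if n ≡ a' [MOD p] then 1 else 0) - 1 / (p : ℝ))) ≤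
        1 / (p : ℝ) * ∑ n ∈ range (q * p), (F n * (g a n * C a n) * (g a' n * C a' n)) *
          (if a' ≡ a [MOD p] then 1 else 0) := by
      intro a _ a' _
      refine resample_two q p a a' hq hp hcop
        (fun n => F n * (g a n * C a n) * (g a' n * C a' n)) (fun n => ?_) (fun n => ?_)
      · simp only [hFp, hgp, hCp]
      · have := hF0 n
        have := mul_nonneg (hg0 a n) (hC0 a n)
        have := mul_nonneg (hg0 a' n) (hC0 a' n)
        positivity
    refine (sum_le_sum fun a ha => sum_le_sum fun a' ha' => h2 a ha a' ha').trans ?_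
    have h3 : ∑ a ∈ I, ∑ a' ∈ I, 1 / (p : ℝ) * ∑ n ∈ range (q * p),
        (F n * (g a n * C a n) * (g a' n * C a' n)) * (if a' ≡ a [MOD p] then 1 else 0) =
        1 / (p : ℝ) * ∑ n ∈ range (q * p), F n * ∑ a ∈ I, (g a n * C a n) *
          ∑ a' ∈ I with a' ≡ a [MOD p], g a' n * C a' n := by
      have h4 : ∀ n, F n * ∑ a ∈ I, (g a n * C a n) *
          ∑ a' ∈ I with a' ≡ a [MOD p], g a' n * C a' n = ∑ a ∈ I, ∑ a' ∈ I,
          (F n * (g a n * C a n) * (g a' n * C a' n)) * (if a' ≡ a [MOD p] then 1 else 0) := by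
        intro n
        rw [mul_sum]
        refine sum_congr rfl fun a _ => ?_
        rw [sum_filter, mul_sum, mul_sum]
        refine sum_congr rfl fun a' _ => ?_
        split_ifs <;> ring
      rw [sum_congr rfl fun n _ => h4 n]
      simp only [mul_sum]
      rw [sum_comm]
      conv_rhs => rw [sum_comm]
      rw [sum_comm]
      refine sum_congr rfl fun a _ => ?_
      rw [sum_comm]
    rw [h3, one_div, div_mul_eq_mul_div, inv_mul_le_iff₀ hpR, mul_div_cancel₀ _ hpR.ne']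
    rw [mul_sum]
    refine sum_le_sum fun n _ => ?_
    have h5 : ∑ a ∈ I, (g a n * C a n) * ∑ a' ∈ I with a' ≡ a [MOD p], g a' n * C a' n ≤
        (W n * g0) * (W n * c) := by
      calc ∑ a ∈ I, (g a n * C a n) * ∑ a' ∈ I with a' ≡ a [MOD p], g a' n * C a' n
          ≤ ∑ a ∈ I, (g a n * W n) * (W n * c) := by
            refine sum_le_sum fun a ha => mul_le_mul ?_ (hclW n a) ?_ ?_
            · exact mul_le_mul_of_nonneg_left (hCW a ha n) (hg0 a n)
            · exact sum_nonneg fun a' _ => mul_nonneg (hg0 a' n) (hC0 a' n)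
            · exact mul_nonneg (hg0 a n) (hW0 n)
        _ = (W n * ∑ a ∈ I, g a n) * (W n * c) := by
            rw [mul_sum, sum_mul]
            refine sum_congr rfl fun a _ => ?_
            ring
        _ ≤ (W n * g0) * (W n * c) :=
            mul_le_mul_of_nonneg_right (mul_le_mul_of_nonneg_left (hg n) (hW0 n))
              (mul_nonneg (hW0 n) hc0)
    calc F n * _ ≤ F n * ((W n * g0) * (W n * c)) := mul_le_mul_of_nonneg_left h5 (hF0 n)
      _ = c * g0 * (W n ^ 2 * F n) := by ring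
  -- (D)
  have hg00 : 0 ≤ g0 := (sum_nonneg fun a _ => hg0 a 0).trans (hg 0)
  have hD : ∑ n ∈ range (q * p), (S n + ζ n) ^ (i + 2) ≤
      ∑ n ∈ range (q * p), (S n ^ (i + 2) + (i + 2) * (S n ^ (i + 1) * ζ n) +
        ((i : ℝ) + 2) ^ 2 * (ζ n ^ 2 * F n)) := by
    refine sum_le_sum fun n _ => ?_
    have h1 := (abs_le.1 (taylor_even (S n) (ζ n) i)).2
    have h2 : (|S n| + |ζ n|) ^ i ≤ F n := by
      simp only [hF]
      exact pow_le_pow_left₀ (by positivity) (by linarith [hA n]) _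
    have h3 : ((i : ℝ) + 2) ^ 2 * (ζ n ^ 2 * (|S n| + |ζ n|) ^ i) ≤
        ((i : ℝ) + 2) ^ 2 * (ζ n ^ 2 * F n) :=
      mul_le_mul_of_nonneg_left (mul_le_mul_of_nonneg_left h2 (sq_nonneg _)) (by positivity)
    have h4 : ((i : ℝ) + 2) * S n ^ (i + 1) * ζ n = (i + 2) * (S n ^ (i + 1) * ζ n) := by ring
    linarith
  refine hD.trans ?_
  rw [sum_add_distrib, sum_add_distrib, ← mul_sum, ← mul_sum, hB, mul_zero, add_zero]
  refine add_le_add le_rfl ?_
  have h5 : ∑ n ∈ range (q * p), W n ^ 2 * F n ≤ 3 / τ ^ 2 *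
      (∑ n ∈ range (q * p), S n ^ (i + 2) + τ ^ (i + 2) * ∑ n ∈ range (q * p), W n ^ (i + 2)) := by
    rw [mul_sum, ← sum_add_distrib, mul_sum]
    refine sum_le_sum fun n _ => ?_
    exact mix_bound (S n) (W n) c τ i hi (hW0 n) hc0 hτ hτc
  calc ((i : ℝ) + 2) ^ 2 * ∑ n ∈ range (q * p), ζ n ^ 2 * F n
      ≤ ((i : ℝ) + 2) ^ 2 * (c * g0 / p * ∑ n ∈ range (q * p), W n ^ 2 * F n) :=
        mul_le_mul_of_nonneg_left hC (by positivity)
    _ ≤ ((i : ℝ) + 2) ^ 2 * (c * g0 / p * (3 / τ ^ 2 *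
      (∑ n ∈ range (q * p), S n ^ (i + 2) +
        τ ^ (i + 2) * ∑ n ∈ range (q * p), W n ^ (i + 2)))) :=
        mul_le_mul_of_nonneg_left (mul_le_mul_of_nonneg_left h5 (by positivity)) (by positivity)
    _ = _ := by ring

end Pool.Agent.Lib_helper10.Erdos460
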