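import Mathlib
import Pool.Agent.Lib_helper10.Erdos460.MStep

set_option autoImplicit false

namespace Pool.Agent.Lib_helper10.Erdos460

open Finset Filter Topology

/-- number of moduli of `T` for which `n` and `a` are congruent -/
def cnt (T : Finset ℕ) (a n : ℕ) : ℕ := (T.filter (fun p => n ≡ a [MOD p])).card

lemma cnt_insert {T : Finset ℕ} {p : ℕ} (hp : p ∉ T) (a n : ℕ) :
    cnt (insert p T) a n = cnt T a n + if n ≡ a [MOD p] then 1 else 0 := by
  classical
  unfold cnt
  rw [filter_insert]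
  split_ifs with h
  · rw [card_insert_of_notMem]
    intro h1
    exact hp (mem_filter.1 h1).1
  · rfl

lemma cnt_mono {T T' : Finset ℕ} (h : T ⊆ T') (a n : ℕ) : cnt T a n ≤ cnt T' a n := by
  unfold cnt
  exact card_le_card (filter_subset_filter _ h)

lemma cnt_periodic {T : Finset ℕ} {q : ℕ} (hq : ∀ p ∈ T, p ∣ q) (a n : ℕ) :
    cnt T a (n + q) = cnt T a n := by
  unfold cnt
  congr 1
  refine filter_congr fun p hp => ?_
  have h1 : n + q ≡ n [MOD p] := by
    have : n + q ≡ n + 0 [MOD p] := Nat.ModEq.add_left n (Nat.modEq_zero_iff_dvd.2 (hq p hp))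
    simpa using this
  exact ⟨fun h => h1.symm.trans h, fun h => h1.trans h⟩

lemma choose_insert {T : Finset ℕ} {p : ℕ} (hp : p ∉ T) (a n j : ℕ) :
    (((cnt (insert p T) a n).choose (j + 1) : ℕ) : ℝ) = ((cnt T a n).choose (j + 1) : ℕ) +
      (if n ≡ a [MOD p] then 1 else 0) * ((cnt T a n).choose j : ℕ) := by
  rw [cnt_insert hp]
  split_ifs with h
  · rw [Nat.choose_succ_succ]
    push_cast
    ring
  · simp

/-- deviation of the `j`-th binomial moment -/
noncomputable def Dm (I : Finset ℕ) (g : ℕ → ℕ → ℝ) (T : Finset ℕ) (j n : ℕ) : ℝ :=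
  ∑ a ∈ I, g a n * (((cnt T a n).choose j : ℕ) - esm T (fun q => 1 / (q : ℝ)) j)

/-- largest binomial coefficient -/
noncomputable def Wm (I : Finset ℕ) (T : Finset ℕ) (j n : ℕ) : ℝ :=
  ((I.sup (fun a => (cnt T a n).choose j) : ℕ) : ℝ)

lemma Dm_insert (I : Finset ℕ) (g : ℕ → ℕ → ℝ) {T : Finset ℕ} {p : ℕ} (hp : p ∉ T) (j n : ℕ) :
    Dm I g (insert p T) (j + 1) n = (Dm I g T (j + 1) n + 1 / (p : ℝ) * Dm I g T j n) +
      ∑ a ∈ I, g a n * ((((cnt T a n).choose j : ℕ) : ℝ) *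
        ((if n ≡ a [MOD p] then 1 else 0) - 1 / (p : ℝ))) := by
  unfold Dm
  rw [mul_sum, ← sum_add_distrib, ← sum_add_distrib]
  refine sum_congr rfl fun a _ => ?_
  rw [choose_insert hp, esm_insert T _ j p hp]
  ring

lemma Dm_zero (I : Finset ℕ) (g : ℕ → ℕ → ℝ) (T : Finset ℕ) (n : ℕ) : Dm I g T 0 n = 0 := by
  unfold Dm
  refine sum_eq_zero fun a _ => ?_
  rw [esm_zero]
  simp

lemma conv_even (x y α : ℝ) (hα : 0 ≤ α) (m : ℕ) (hm : Even m) :
    (x + α * y) ^ m ≤ (1 + α) ^ m * (x ^ m + α * y ^ m) := by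
  have h1 : (0 : ℝ) < 1 + α := by linarith
  have ha : (0 : ℝ) ≤ 1 / (1 + α) := by positivity
  have hb : (0 : ℝ) ≤ α / (1 + α) := by positivity
  have hab : 1 / (1 + α) + α / (1 + α) = 1 := by field_simp
  have hcv := (Even.convexOn_pow (𝕜 := ℝ) hm).2 (Set.mem_univ x) (Set.mem_univ y) ha hb hab
  simp only [smul_eq_mul] at hcv
  have hx : 0 ≤ x ^ m := hm.pow_nonneg x
  have hy : 0 ≤ y ^ m := hm.pow_nonneg y
  have h2 : x + α * y = (1 + α) * (1 / (1 + α) * x + α / (1 + α) * y) := by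
    field_simp
  rw [h2, mul_pow]
  refine mul_le_mul_of_nonneg_left (hcv.trans ?_) (by positivity)
  have h3 : 1 / (1 + α) * x ^ m ≤ x ^ m := by
    have : 1 / (1 + α) ≤ 1 := by rw [div_le_one h1]; linarith
    nlinarith
  have h4 : α / (1 + α) * y ^ m ≤ α * y ^ m := by
    refine mul_le_mul_of_nonneg_right ?_ hy
    rw [div_le_iff₀ h1]
    nlinarith
  linarith

/-- data for the moment recursion -/
structure MData (q1 : ℕ) (P : Finset ℕ) (I : Finset ℕ) (g : ℕ → ℕ → ℝ) (c : ℕ → ℝ)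
    (g0 : ℝ) : Prop where
  q1pos : 0 < q1
  prime : ∀ p ∈ P, p.Prime
  cop : ∀ p ∈ P, q1.Coprime p
  per : ∀ a n, g a (n + q1) = g a n
  nonneg : ∀ a n, 0 ≤ g a n
  cnonneg : ∀ p ∈ P, 0 ≤ c p
  class_le : ∀ p ∈ P, ∀ n r, ∑ a ∈ I with a ≡ r [MOD p], g a n ≤ c p
  tot_le : ∀ n, ∑ a ∈ I, g a n ≤ g0

lemma periodic_mul {f : ℕ → ℝ} {q : ℕ} (hf : ∀ n, f (n + q) = f n) (m n : ℕ) :
    f (n + q * m) = f n := by
  induction m with
  | zero => simp
  | succ m ih => rw [Nat.mul_succ, ← add_assoc, hf, ih]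

section

variable {q1 : ℕ} {P : Finset ℕ} {I : Finset ℕ} {g : ℕ → ℕ → ℝ} {c : ℕ → ℝ} {g0 : ℝ}

lemma MData.Q_eq (_H : MData q1 P I g c g0) {p : ℕ} (hp : p ∈ P) :
    q1 * ∏ q ∈ P, q = (q1 * ∏ q ∈ P.erase p, q) * p := by
  rw [mul_assoc, prod_erase_mul _ _ hp]

lemma MData.q_pos (H : MData q1 P I g c g0) (p : ℕ) : 0 < q1 * ∏ q ∈ P.erase p, q :=
  Nat.mul_pos H.q1pos (prod_pos fun q hq => (H.prime q (mem_of_mem_erase hq)).pos)

lemma MData.Qpos (H : MData q1 P I g c g0) : 0 < q1 * ∏ q ∈ P, q :=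
  Nat.mul_pos H.q1pos (prod_pos fun q hq => (H.prime q hq).pos)

lemma MData.q_cop (H : MData q1 P I g c g0) {p : ℕ} (hp : p ∈ P) :
    (q1 * ∏ q ∈ P.erase p, q).Coprime p := by
  refine Nat.Coprime.mul_left (H.cop p hp) ?_
  refine Nat.Coprime.prod_left fun q hq => ?_
  exact (Nat.coprime_primes (H.prime q (mem_of_mem_erase hq)) (H.prime p hp)).2
    (ne_of_mem_erase hq)

lemma MData.g_per (H : MData q1 P I g c g0) (p a n : ℕ) :
    g a (n + q1 * ∏ q ∈ P.erase p, q) = g a n :=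
  periodic_mul (H.per a) _ _

lemma MData.cnt_per (_H : MData q1 P I g c g0) {p : ℕ} {T : Finset ℕ} (hT : T ⊆ P.erase p)
    (a n : ℕ) : cnt T a (n + q1 * ∏ q ∈ P.erase p, q) = cnt T a n :=
  cnt_periodic (fun _ hr => (dvd_prod_of_mem (fun q => q) (hT hr)).trans (dvd_mul_left _ _)) a n

lemma MData.Xstep (H : MData q1 P I g c g0) (i : ℕ) (hi : Even i) (τ : ℝ) (hτ : 0 < τ)
    (hτc : ∀ p ∈ P, ((i : ℝ) + 2) * c p ≤ τ) {T : Finset ℕ} {p : ℕ} (hT : insert p T ⊆ P)
    (hpT : p ∉ T) (j : ℕ) :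
    ∑ n ∈ range (q1 * ∏ q ∈ P, q), Dm I g (insert p T) (j + 1) n ^ (i + 2) ≤
      (1 + ((i : ℝ) + 2) ^ 2 * (c p * g0 / p) * (3 / τ ^ 2)) * (1 + 1 / (p : ℝ)) ^ (i + 2) *
        (∑ n ∈ range (q1 * ∏ q ∈ P, q), Dm I g T (j + 1) n ^ (i + 2) +
          1 / (p : ℝ) * ∑ n ∈ range (q1 * ∏ q ∈ P, q), Dm I g T j n ^ (i + 2)) +
      ((i : ℝ) + 2) ^ 2 * (c p * g0 / p) * (3 / τ ^ 2) *
        (τ ^ (i + 2) * ∑ n ∈ range (q1 * ∏ q ∈ P, q), Wm I P j n ^ (i + 2)) := by
  classical
  have hpP : p ∈ P := hT (mem_insert_self _ _)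
  have hTe : T ⊆ P.erase p := fun r hr =>
    mem_erase.2 ⟨fun e => hpT (e ▸ hr), hT (mem_insert_of_mem hr)⟩
  have hpR : (0 : ℝ) < p := by exact_mod_cast (H.prime p hpP).pos
  set q := q1 * ∏ q ∈ P.erase p, q with hq
  have hg00 : 0 ≤ g0 := (sum_nonneg fun a _ => H.nonneg a 0).trans (H.tot_le 0)
  have hcp := H.cnonneg p hpP
  set κ : ℝ := ((i : ℝ) + 2) ^ 2 * (c p * g0 / p) * (3 / τ ^ 2) with hκ
  have hκ0 : 0 ≤ κ := by positivity
  set S : ℕ → ℝ := fun n => Dm I g T (j + 1) n + 1 / (p : ℝ) * Dm I g T j n with hS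
  have hDper : ∀ j n, Dm I g T j (n + q) = Dm I g T j n := by
    intro j n
    unfold Dm
    refine sum_congr rfl fun a _ => ?_
    rw [hq, H.g_per, H.cnt_per hTe]
  rw [H.Q_eq hpP, ← hq]
  have h1 := mstep q p (H.q_pos p) (H.prime p hpP).pos (H.q_cop hpP) I g
    (fun a n => (((cnt T a n).choose j : ℕ) : ℝ)) S (fun n => Wm I T j n)
    (fun a n => H.g_per p a n) (fun a n => by rw [hq, H.cnt_per hTe])
    (fun n => by simp only [hS, hDper])
    (fun n => by unfold Wm; simp only [hq, H.cnt_per hTe])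
    H.nonneg (fun a n => by positivity) (fun n => by unfold Wm; positivity)
    (fun a ha n => by
      unfold Wm
      exact_mod_cast le_sup (f := fun a => (cnt T a n).choose j) ha)
    (c p) g0 hcp (H.class_le p hpP) H.tot_le i hi τ hτ (hτc p hpP)
  have h2 : ∑ n ∈ range (q * p), Dm I g (insert p T) (j + 1) n ^ (i + 2) =
      ∑ n ∈ range (q * p), (S n + ∑ a ∈ I, g a n * ((((cnt T a n).choose j : ℕ) : ℝ) *
        ((if n ≡ a [MOD p] then 1 else 0) - 1 / (p : ℝ)))) ^ (i + 2) := by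
    refine sum_congr rfl fun n _ => ?_
    rw [Dm_insert I g hpT]
  rw [h2]
  refine h1.trans ?_
  rw [← hκ]
  have hev : Even (i + 2) := hi.add (by decide)
  have h3 : ∑ n ∈ range (q * p), S n ^ (i + 2) ≤ (1 + 1 / (p : ℝ)) ^ (i + 2) *
      (∑ n ∈ range (q * p), Dm I g T (j + 1) n ^ (i + 2) +
          1 / (p : ℝ) * ∑ n ∈ range (q * p), Dm I g T j n ^ (i + 2)) := by
    rw [mul_sum, ← sum_add_distrib, mul_sum]
    exact sum_le_sum fun n _ => conv_even _ _ _ (by positivity) _ hev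
  have h4 : ∑ n ∈ range (q * p), Wm I T j n ^ (i + 2) ≤
      ∑ n ∈ range (q * p), Wm I P j n ^ (i + 2) := by
    refine sum_le_sum fun n _ => pow_le_pow_left₀ (by unfold Wm; positivity) ?_ _
    unfold Wm
    have : I.sup (fun a => (cnt T a n).choose j) ≤ I.sup (fun a => (cnt P a n).choose j) := by
      refine Finset.sup_mono_fun fun a _ => ?_
      exact Nat.choose_le_choose _ (cnt_mono (hTe.trans (erase_subset _ _)) a n)
    exact_mod_cast this
  have h5 : κ * (τ ^ (i + 2) * ∑ n ∈ range (q * p), Wm I T j n ^ (i + 2)) ≤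
      κ * (τ ^ (i + 2) * ∑ n ∈ range (q * p), Wm I P j n ^ (i + 2)) := by
    refine mul_le_mul_of_nonneg_left (mul_le_mul_of_nonneg_left h4 (by positivity)) hκ0
  have h6 : (1 + κ) * ∑ n ∈ range (q * p), S n ^ (i + 2) ≤ (1 + κ) * ((1 + 1 / (p : ℝ)) ^ (i + 2) *
      (∑ n ∈ range (q * p), Dm I g T (j + 1) n ^ (i + 2) +
          1 / (p : ℝ) * ∑ n ∈ range (q * p), Dm I g T j n ^ (i + 2))) :=
    mul_le_mul_of_nonneg_left h3 (by linarith)
  calc ∑ n ∈ range (q * p), S n ^ (i + 2) + κ * (∑ n ∈ range (q * p), S n ^ (i + 2) +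
        τ ^ (i + 2) * ∑ n ∈ range (q * p), Wm I T j n ^ (i + 2))
      = (1 + κ) * ∑ n ∈ range (q * p), S n ^ (i + 2) +
        κ * (τ ^ (i + 2) * ∑ n ∈ range (q * p), Wm I T j n ^ (i + 2)) := by ring
    _ ≤ _ := by
        have e : (1 + κ) * (1 + 1 / (p : ℝ)) ^ (i + 2) *
          (∑ n ∈ range (q * p), Dm I g T (j + 1) n ^ (i + 2) +
            1 / (p : ℝ) * ∑ n ∈ range (q * p), Dm I g T j n ^ (i + 2)) =
          (1 + κ) * ((1 + 1 / (p : ℝ)) ^ (i + 2) *
          (∑ n ∈ range (q * p), Dm I g T (j + 1) n ^ (i + 2) +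
            1 / (p : ℝ) * ∑ n ∈ range (q * p), Dm I g T j n ^ (i + 2))) := by ring
        rw [e]
        exact add_le_add h6 h5

/-- exponential moment of the counting function -/
lemma MData.exp_cnt (H : MData q1 P I g c g0) (a : ℕ) {T : Finset ℕ} : T ⊆ P →
    ∑ n ∈ range (q1 * ∏ q ∈ P, q), Real.exp (cnt T a n) ≤
      ((q1 * ∏ q ∈ P, q : ℕ) : ℝ) * Real.exp (2 * ∑ p ∈ T, 1 / (p : ℝ)) := by
  classical
  induction T using Finset.induction_on with
  | empty =>
    intro _
    simp [cnt]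
  | insert p T hpT ih =>
    intro hT
    have hpP : p ∈ P := hT (mem_insert_self _ _)
    have hTP : T ⊆ P := fun _ hr => hT (mem_insert_of_mem hr)
    have hTe : T ⊆ P.erase p := fun r hr =>
      mem_erase.2 ⟨fun e => hpT (e ▸ hr), hTP hr⟩
    have ih' := ih hTP
    have hpR : (0 : ℝ) < p := by exact_mod_cast (H.prime p hpP).pos
    set q := q1 * ∏ q ∈ P.erase p, q with hq
    rw [H.Q_eq hpP, ← hq] at ih' ⊢
    have h1 : ∀ n, Real.exp (cnt (insert p T) a n) = Real.exp (cnt T a n) +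
        (Real.exp 1 - 1) * (Real.exp (cnt T a n) * (if n ≡ a [MOD p] then 1 else 0)) := by
      intro n
      rw [cnt_insert hpT]
      split_ifs
      · push_cast
        rw [Real.exp_add]
        ring
      · simp
    rw [sum_congr rfl fun n _ => h1 n, sum_add_distrib, ← mul_sum]
    rw [resample q p a (H.q_pos p) (H.prime p hpP).pos (H.q_cop hpP)
      (fun n => Real.exp (cnt T a n)) (fun n => by rw [hq, H.cnt_per hTe])]
    have h2 : Real.exp 1 - 1 ≤ 2 := by
      have := Real.exp_one_lt_d9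
      linarith
    have h3 : 0 ≤ ∑ n ∈ range (q * p), Real.exp (cnt T a n) :=
      sum_nonneg fun n _ => (Real.exp_pos _).le
    calc ∑ n ∈ range (q * p), Real.exp (cnt T a n) +
          (Real.exp 1 - 1) * (1 / (p : ℝ) * ∑ n ∈ range (q * p), Real.exp (cnt T a n))
        ≤ ∑ n ∈ range (q * p), Real.exp (cnt T a n) +
          2 * (1 / (p : ℝ) * ∑ n ∈ range (q * p), Real.exp (cnt T a n)) := by
          refine add_le_add le_rfl (mul_le_mul_of_nonneg_right h2 (by positivity))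
      _ = (2 * (1 / (p : ℝ)) + 1) * ∑ n ∈ range (q * p), Real.exp (cnt T a n) := by ring
      _ ≤ Real.exp (2 * (1 / (p : ℝ))) * (((q * p : ℕ) : ℝ) *
            Real.exp (2 * ∑ p ∈ T, 1 / (p : ℝ))) :=
          mul_le_mul (Real.add_one_le_exp _) ih' h3 (Real.exp_pos _).le
      _ = _ := by
          rw [sum_insert hpT, mul_add, Real.exp_add]
          ring

lemma MData.W_bound (H : MData q1 P I g c g0) (m j r : ℕ) (hm : 0 < m) (hjr : j ≤ r) :
    ∑ n ∈ range (q1 * ∏ q ∈ P, q), Wm I P j n ^ m ≤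
      ((q1 * ∏ q ∈ P, q : ℕ) : ℝ) * (I.card * (((r * m).factorial : ℝ) *
        Real.exp (2 * ∑ p ∈ P, 1 / (p : ℝ)))) := by
  classical
  have h1 : ∀ n, Wm I P j n ^ m ≤ ∑ a ∈ I, ((r * m).factorial : ℝ) * Real.exp (cnt P a n) := by
    intro n
    have h2 : ∀ a, ((((cnt P a n).choose j : ℕ) : ℝ)) ^ m ≤
        ((r * m).factorial : ℝ) * Real.exp (cnt P a n) := by
      intro a
      set x : ℝ := (cnt P a n : ℝ) with hx
      have hx0 : 0 ≤ x := by rw [hx]; positivity
      have h3 : (((cnt P a n).choose j : ℕ) : ℝ) ≤ x ^ j := by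
        have := Nat.choose_le_pow_div (α := ℝ) j (cnt P a n)
        refine this.trans ?_
        refine div_le_self (by positivity) ?_
        exact_mod_cast Nat.factorial_pos j
      have h4 : ((((cnt P a n).choose j : ℕ) : ℝ)) ^ m ≤ x ^ (j * m) := by
        rw [pow_mul]
        exact pow_le_pow_left₀ (by positivity) h3 m
      have h5 := Real.pow_div_factorial_le_exp x hx0 (j * m)
      rw [div_le_iff₀ (by positivity)] at h5
      have h6 : (((j * m).factorial : ℕ) : ℝ) ≤ (((r * m).factorial : ℕ) : ℝ) := by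
        exact_mod_cast Nat.factorial_le (Nat.mul_le_mul_right m hjr)
      calc _ ≤ x ^ (j * m) := h4
        _ ≤ Real.exp x * ((j * m).factorial : ℝ) := h5
        _ ≤ Real.exp x * ((r * m).factorial : ℝ) :=
            mul_le_mul_of_nonneg_left h6 (Real.exp_pos _).le
        _ = _ := mul_comm _ _
    have h0 : ∀ a, 0 ≤ ((r * m).factorial : ℝ) * Real.exp (cnt P a n) := fun a => by positivity
    rcases I.eq_empty_or_nonempty with hI | hI
    · subst hI
      unfold Wm
      simp [hm.ne']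
    · obtain ⟨a, ha, he⟩ := exists_mem_eq_sup I hI (fun a => (cnt P a n).choose j)
      unfold Wm
      rw [he]
      exact (h2 a).trans (single_le_sum (f := fun a => ((r * m).factorial : ℝ) *
        Real.exp (cnt P a n)) (fun a _ => h0 a) ha)
  refine (sum_le_sum fun n _ => h1 n).trans ?_
  rw [sum_comm]
  have h2 : ∀ a ∈ I, ∑ n ∈ range (q1 * ∏ q ∈ P, q),
      ((r * m).factorial : ℝ) * Real.exp (cnt P a n) ≤
      ((r * m).factorial : ℝ) * (((q1 * ∏ q ∈ P, q : ℕ) : ℝ) *
        Real.exp (2 * ∑ p ∈ P, 1 / (p : ℝ))) := by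
    intro a _
    rw [← mul_sum]
    exact mul_le_mul_of_nonneg_left (H.exp_cnt a (Finset.Subset.refl P)) (by positivity)
  refine (sum_le_sum h2).trans (le_of_eq ?_)
  rw [sum_const, nsmul_eq_mul]
  ring

/-- the moment bound -/
theorem MData.moment (H : MData q1 P I g c g0) (i : ℕ) (hi : Even i) (τ : ℝ) (hτ : 0 < τ)
    (hτc : ∀ p ∈ P, ((i : ℝ) + 2) * c p ≤ τ)
    (hτs : 3 * ((i : ℝ) + 2) ^ 2 * g0 * ∑ p ∈ P, c p / p ≤ τ ^ 2)
    (Λ : ℝ) (hΛ : ∑ p ∈ P, 1 / (p : ℝ) ≤ Λ) (r j : ℕ) (hjr : j ≤ r) :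
    ∑ n ∈ range (q1 * ∏ q ∈ P, q), Dm I g P j n ^ (i + 2) ≤
      ((q1 * ∏ q ∈ P, q : ℕ) : ℝ) * ((Real.exp (1 + (i + 2) * Λ) * (1 + Λ)) ^ j *
        (τ ^ (i + 2) * (I.card * (((r * (i + 2)).factorial : ℝ) * Real.exp (2 * Λ))))) := by
  classical
  have hΛ0 : 0 ≤ Λ := le_trans (sum_nonneg fun p _ => by positivity) hΛ
  have hg00 : 0 ≤ g0 := (sum_nonneg fun a _ => H.nonneg a 0).trans (H.tot_le 0)
  set Q := q1 * ∏ q ∈ P, q with hQ
  set w : ℝ := (Q : ℝ) * (I.card * (((r * (i + 2)).factorial : ℝ) * Real.exp (2 * Λ))) with hw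
  have hw0 : 0 ≤ w := by positivity
  set E : ℝ := Real.exp (1 + (i + 2) * Λ) with hE
  have hE1 : 1 ≤ E := Real.one_le_exp (by positivity)
  set κ : ℕ → ℝ := fun p => ((i : ℝ) + 2) ^ 2 * (c p * g0 / p) * (3 / τ ^ 2) with hκ
  have hκ0 : ∀ p ∈ P, 0 ≤ κ p := fun p hp => by
    have := H.cnonneg p hp
    simp only [hκ]
    positivity
  have hκs : ∑ p ∈ P, κ p ≤ 1 := by
    have h1 : ∑ p ∈ P, κ p = (3 * ((i : ℝ) + 2) ^ 2 * g0 * ∑ p ∈ P, c p / p) / τ ^ 2 := by
      rw [mul_sum, sum_div]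
      refine sum_congr rfl fun p _ => ?_
      simp only [hκ]
      ring
    rw [h1, div_le_one (by positivity)]
    exact hτs
  have hev : Even (i + 2) := hi.add (by decide)
  have hX0 : ∀ T j, 0 ≤ ∑ n ∈ range Q, Dm I g T j n ^ (i + 2) := fun T j =>
    sum_nonneg fun n _ => hev.pow_nonneg _
  have hWw : ∀ j ≤ r, ∑ n ∈ range Q, Wm I P j n ^ (i + 2) ≤ w := by
    intro j hj
    refine (H.W_bound (i + 2) j r (by omega) hj).trans ?_
    rw [hw]
    refine mul_le_mul_of_nonneg_left (mul_le_mul_of_nonneg_left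
      (mul_le_mul_of_nonneg_left ?_ (by positivity)) (by positivity)) (by positivity)
    exact Real.exp_le_exp.2 (by linarith)
  have key : ∀ j, j ≤ r → ∀ T ⊆ P, ∑ n ∈ range Q, Dm I g T j n ^ (i + 2) ≤
      (E * (1 + Λ)) ^ j * (τ ^ (i + 2) * w) := by
    intro j
    induction j with
    | zero =>
      intro _ T _
      have h1 : ∑ n ∈ range Q, Dm I g T 0 n ^ (i + 2) = 0 :=
        sum_eq_zero fun n _ => by rw [Dm_zero]; exact zero_pow (by omega)
      rw [h1]
      positivity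
    | succ j ih =>
      intro hjr
      have ih' := ih (by omega)
      set B : ℝ := (E * (1 + Λ)) ^ j * (τ ^ (i + 2) * w) with hB
      have hB0 : 0 ≤ B := by positivity
      have hWj := hWw j (by omega)
      have hind : ∀ T : Finset ℕ, T ⊆ P → ∑ n ∈ range Q, Dm I g T (j + 1) n ^ (i + 2) ≤
          (∏ p ∈ T, ((1 + κ p) * (1 + 1 / (p : ℝ)) ^ (i + 2))) *
            ∑ p ∈ T, (1 / (p : ℝ) * B + κ p * (τ ^ (i + 2) * w)) := by
        intro T
        induction T using Finset.induction_on with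
        | empty =>
          intro _
          have h1 : ∑ n ∈ range Q, Dm I g ∅ (j + 1) n ^ (i + 2) = 0 := by
            refine sum_eq_zero fun n _ => ?_
            have : Dm I g ∅ (j + 1) n = 0 := by
              unfold Dm
              refine sum_eq_zero fun a _ => ?_
              rw [esm_empty_succ]
              simp [cnt]
            rw [this]
            exact zero_pow (by omega)
          rw [h1]
          simp
        | insert p T hpT ihT =>
          intro hT
          have hpP : p ∈ P := hT (mem_insert_self _ _)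
          have hTP : T ⊆ P := fun _ hr => hT (mem_insert_of_mem hr)
          have h1 := H.Xstep i hi τ hτ hτc hT hpT j
          rw [← hQ] at h1
          have h2 := ihT hTP
          have h3 := ih' T hTP
          have hκp := hκ0 p hpP
          rw [prod_insert hpT, sum_insert hpT]
          set π : ℝ := (1 + κ p) * (1 + 1 / (p : ℝ)) ^ (i + 2) with hπ
          set PP : ℝ := ∏ p ∈ T, ((1 + κ p) * (1 + 1 / (p : ℝ)) ^ (i + 2)) with hPP
          set SS : ℝ := ∑ p ∈ T, (1 / (p : ℝ) * B + κ p * (τ ^ (i + 2) * w)) with hSS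
          have hπ1 : 1 ≤ π := by
            have h4 : (1 : ℝ) ≤ 1 + κ p := by linarith
            have h5 : (1 : ℝ) ≤ (1 + 1 / (p : ℝ)) ^ (i + 2) := one_le_pow₀ (by
              have : (0 : ℝ) ≤ 1 / (p : ℝ) := by positivity
              linarith)
            calc (1 : ℝ) = 1 * 1 := by ring
              _ ≤ π := mul_le_mul h4 h5 (by norm_num) (by linarith)
          have hPP1 : 1 ≤ PP := by
            rw [hPP]
            have h6 : ∏ _p ∈ T, (1 : ℝ) = 1 := prod_const_one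
            refine h6.symm.le.trans (prod_le_prod (fun _ _ => zero_le_one) fun q hq => ?_)
            have h4 : (1 : ℝ) ≤ 1 + κ q := by linarith [hκ0 q (hTP hq)]
            have h5 : (1 : ℝ) ≤ (1 + 1 / (q : ℝ)) ^ (i + 2) := one_le_pow₀ (by
              have : (0 : ℝ) ≤ 1 / (q : ℝ) := by positivity
              linarith)
            calc (1 : ℝ) = 1 * 1 := by ring
              _ ≤ _ := mul_le_mul h4 h5 (by norm_num) (by linarith)
          have h4 : κ p * (τ ^ (i + 2) * ∑ n ∈ range Q, Wm I P j n ^ (i + 2)) ≤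
              κ p * (τ ^ (i + 2) * w) :=
            mul_le_mul_of_nonneg_left (mul_le_mul_of_nonneg_left hWj (by positivity)) hκp
          have h5 : (1 : ℝ) / p * ∑ n ∈ range Q, Dm I g T j n ^ (i + 2) ≤ 1 / (p : ℝ) * B :=
            mul_le_mul_of_nonneg_left h3 (by positivity)
          have h6 : 0 ≤ κ p * (τ ^ (i + 2) * w) := by positivity
          have h7 : 0 ≤ 1 / (p : ℝ) * B := by positivity
          calc _ ≤ π * (∑ n ∈ range Q, Dm I g T (j + 1) n ^ (i + 2) +
                1 / (p : ℝ) * ∑ n ∈ range Q, Dm I g T j n ^ (i + 2)) +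
                κ p * (τ ^ (i + 2) * ∑ n ∈ range Q, Wm I P j n ^ (i + 2)) := h1
            _ ≤ π * (PP * SS + 1 / (p : ℝ) * B) + κ p * (τ ^ (i + 2) * w) := by
                refine add_le_add (mul_le_mul_of_nonneg_left (add_le_add h2 h5) (by linarith)) h4
            _ ≤ π * (PP * SS + PP * (1 / (p : ℝ) * B)) + π * PP * (κ p * (τ ^ (i + 2) * w)) := by
                refine add_le_add (mul_le_mul_of_nonneg_left (add_le_add le_rfl ?_)
                  (by linarith)) ?_
                · exact le_mul_of_one_le_left h7 hPP1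
                · refine le_mul_of_one_le_left h6 ?_
                  calc (1 : ℝ) = 1 * 1 := by ring
                    _ ≤ π * PP := mul_le_mul hπ1 hPP1 (by norm_num) (by linarith)
            _ = π * PP * (1 / (p : ℝ) * B + κ p * (τ ^ (i + 2) * w) + SS) := by ring
      intro T hT
      refine (hind T hT).trans ?_
      have h1 : ∏ p ∈ T, ((1 + κ p) * (1 + 1 / (p : ℝ)) ^ (i + 2)) ≤ E := by
        have h2 : ∀ p ∈ T, (1 + κ p) * (1 + 1 / (p : ℝ)) ^ (i + 2) ≤
            Real.exp (κ p + (i + 2) * (1 / (p : ℝ))) := by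
          intro p hp
          have h3 : 1 + κ p ≤ Real.exp (κ p) := by
            have := Real.add_one_le_exp (κ p)
            linarith
          have h4 : (1 + 1 / (p : ℝ)) ^ (i + 2) ≤ Real.exp ((i + 2) * (1 / (p : ℝ))) := by
            have h5 : 1 + 1 / (p : ℝ) ≤ Real.exp (1 / (p : ℝ)) := by
              have := Real.add_one_le_exp (1 / (p : ℝ))
              linarith
            calc (1 + 1 / (p : ℝ)) ^ (i + 2) ≤ Real.exp (1 / (p : ℝ)) ^ (i + 2) :=
                  pow_le_pow_left₀ (by positivity) h5 _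
              _ = Real.exp ((i + 2) * (1 / (p : ℝ))) := by
                  rw [← Real.exp_nat_mul]; push_cast; rfl
          rw [Real.exp_add]
          exact mul_le_mul h3 h4 (by positivity) (Real.exp_pos _).le
        calc _ ≤ ∏ p ∈ T, Real.exp (κ p + (i + 2) * (1 / (p : ℝ))) :=
              prod_le_prod (fun p hp => by
                have := hκ0 p (hT hp)
                positivity) h2
          _ = Real.exp (∑ p ∈ T, (κ p + (i + 2) * (1 / (p : ℝ)))) := (Real.exp_sum _ _).symm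
          _ ≤ E := by
              rw [hE]
              refine Real.exp_le_exp.2 ?_
              rw [sum_add_distrib, ← mul_sum]
              refine add_le_add ?_ (mul_le_mul_of_nonneg_left ?_ (by positivity))
              · exact (sum_le_sum_of_subset_of_nonneg hT fun p hp _ => hκ0 p hp).trans hκs
              · exact (sum_le_sum_of_subset_of_nonneg hT fun p _ _ => by positivity).trans hΛ
      have h2 : ∑ p ∈ T, (1 / (p : ℝ) * B + κ p * (τ ^ (i + 2) * w)) ≤
          Λ * B + τ ^ (i + 2) * w := by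
        rw [sum_add_distrib, ← sum_mul, ← sum_mul]
        refine add_le_add (mul_le_mul_of_nonneg_right ?_ hB0) ?_
        · exact (sum_le_sum_of_subset_of_nonneg hT fun p _ _ => by positivity).trans hΛ
        · have h3 : ∑ p ∈ T, κ p ≤ 1 :=
            (sum_le_sum_of_subset_of_nonneg hT fun p hp _ => hκ0 p hp).trans hκs
          calc (∑ p ∈ T, κ p) * (τ ^ (i + 2) * w) ≤ 1 * (τ ^ (i + 2) * w) :=
                mul_le_mul_of_nonneg_right h3 (by positivity)
            _ = _ := one_mul _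
      have h3 : τ ^ (i + 2) * w ≤ B := by
        rw [hB]
        refine le_mul_of_one_le_left (by positivity) (one_le_pow₀ ?_)
        calc (1 : ℝ) = 1 * 1 := by ring
          _ ≤ E * (1 + Λ) := mul_le_mul hE1 (by linarith) (by norm_num) (by linarith)
      calc _ ≤ E * (Λ * B + τ ^ (i + 2) * w) := by
            refine mul_le_mul h1 h2 ?_ (by linarith)
            refine sum_nonneg fun p hp => ?_
            have := hκ0 p (hT hp)
            positivity
        _ ≤ E * (Λ * B + B) := mul_le_mul_of_nonneg_left (by linarith) (by linarith)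
        _ = (E * (1 + Λ)) ^ (j + 1) * (τ ^ (i + 2) * w) := by
            rw [hB, pow_succ]
            ring
  refine (key j hjr P (Finset.Subset.refl P)).trans (le_of_eq ?_)
  rw [hw]
  ring

end

end Pool.Agent.Lib_helper10.Erdos460
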