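import Mathlib
import Pool.Agent.Lib_helper10.Erdos460.Moment

set_option autoImplicit false

namespace Pool.Agent.Lib_helper10.Erdos460

open Finset Filter Topology

lemma Rp.add {Q : ℕ} {A A' : ℝ} {F F' : ℕ → ℝ} (H : Rp Q A F) (H' : Rp Q A' F') :
    Rp Q (A + A') (fun n => F n + F' n) := by
  classical
  obtain ⟨ι, s, c, h, h1, h2, h3⟩ := H
  obtain ⟨ι', s', c', h', h1', h2', h3'⟩ := H'
  refine ⟨ι ⊕ ι', s.disjSum s', Sum.elim c c', Sum.elim h h', ?_, ?_, ?_⟩
  · intro x hx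
    rw [mem_disjSum] at hx
    rcases hx with ⟨i, hi, rfl⟩ | ⟨i, hi, rfl⟩
    · exact h1 i hi
    · exact h1' i hi
  · intro n
    rw [sum_disjSum]
    simp only [Sum.elim_inl, Sum.elim_inr]
    rw [h2, h2']
  · rw [sum_disjSum]
    simp only [Sum.elim_inl, Sum.elim_inr]
    exact add_le_add h3 h3'

lemma Rp.const (Q : ℕ) (x : ℝ) : Rp Q |x| (fun _ => x) := by
  refine ⟨Unit, {()}, fun _ => x, fun _ _ => 1, fun _ _ => El.one Q, fun n => by simp, by simp⟩

lemma Rp.of_El {Q : ℕ} {h : ℕ → ℝ} (H : El Q h) : Rp Q 1 h := by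
  refine ⟨Unit, {()}, fun _ => 1, fun _ => h, fun _ _ => H, fun n => by simp, by simp⟩

lemma Rp.sum {Q : ℕ} {κ : Type*} (s : Finset κ) (A : κ → ℝ) (F : κ → ℕ → ℝ)
    (H : ∀ i ∈ s, Rp Q (A i) (F i)) : Rp Q (∑ i ∈ s, A i) (fun n => ∑ i ∈ s, F i n) := by
  classical
  induction s using Finset.induction_on with
  | empty =>
    refine ⟨Unit, ∅, fun _ => 0, fun _ _ => 0, fun i hi => by simp at hi, fun n => by simp,
      by simp⟩
  | insert a s ha ih =>
    have h1 := H a (mem_insert_self _ _)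
    have h2 := ih fun i hi => H i (mem_insert_of_mem hi)
    have h3 := h1.add h2
    simp only [sum_insert ha]
    exact h3

lemma El.all (Q a : ℕ) (T : Finset ℕ) : (∀ q ∈ T, q ∣ Q) →
    El Q (fun n => if ∀ q ∈ T, n ≡ a [MOD q] then 1 else 0) := by
  classical
  induction T using Finset.induction_on with
  | empty =>
    intro _
    simpa using El.one Q
  | insert p T hp ih =>
    intro h
    have h1 : El Q (fun n => if n ≡ a [MOD p] then (1 : ℝ) else 0) :=
      Or.inr ⟨p, a, h p (mem_insert_self _ _), fun n => rfl⟩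
    have h2 := h1.mul (ih fun q hq => h q (mem_insert_of_mem hq))
    have h3 : (fun n => if ∀ q ∈ insert p T, n ≡ a [MOD q] then (1 : ℝ) else 0) =
        fun n => (if n ≡ a [MOD p] then (1 : ℝ) else 0) *
          (if ∀ q ∈ T, n ≡ a [MOD q] then 1 else 0) := by
      funext n
      by_cases h4 : n ≡ a [MOD p] <;> by_cases h5 : ∀ q ∈ T, n ≡ a [MOD q] <;>
        simp [h4, h5]
    rw [h3]
    exact h2

/-- divisor-type sum attached to a weight, for `n - a` -/
noncomputable def gw (w : Finset ℕ → ℝ) (P1 : Finset ℕ) (a n : ℕ) : ℝ :=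
  subsum w (P1.filter (fun q => n ≡ a [MOD q]))

lemma gw_eq (w : Finset ℕ → ℝ) (P1 : Finset ℕ) (a n : ℕ) :
    gw w P1 a n = ∑ T ∈ P1.powerset, w T * (if ∀ q ∈ T, n ≡ a [MOD q] then 1 else 0) := by
  classical
  unfold gw subsum
  simp only [mul_ite, mul_one, mul_zero]
  rw [← sum_filter]
  refine sum_congr ?_ fun _ _ => rfl
  ext T
  rw [mem_filter, mem_powerset, mem_powerset]
  constructor
  · intro h
    exact ⟨h.trans (filter_subset _ _), fun q hq => (mem_filter.1 (h hq)).2⟩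
  · rintro ⟨h1, h2⟩ q hq
    exact mem_filter.2 ⟨h1 hq, h2 q hq⟩

lemma gw_periodic (w : Finset ℕ → ℝ) (P1 : Finset ℕ) (a n : ℕ) :
    gw w P1 a (n + ∏ q ∈ P1, q) = gw w P1 a n := by
  unfold gw
  congr 1
  refine filter_congr fun p hp => ?_
  have h1 : n + ∏ q ∈ P1, q ≡ n [MOD p] := by
    have : n + ∏ q ∈ P1, q ≡ n + 0 [MOD p] :=
      Nat.ModEq.add_left n (Nat.modEq_zero_iff_dvd.2 (dvd_prod_of_mem (fun q => q) hp))
    simpa using this
  exact ⟨fun h => h1.symm.trans h, fun h => h1.trans h⟩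

/-- sums of divisor-type sums over a class in an interval -/
lemma gw_sum (w : Finset ℕ → ℝ) (P1 : Finset ℕ) (hP : ∀ q ∈ P1, q.Prime) (A L m r n : ℕ)
    (hm : 0 < m) (hcop : ∀ q ∈ P1, Nat.Coprime m q) :
    |∑ a ∈ Ioc A (A + L) with a ≡ r [MOD m], gw w P1 a n - (L : ℝ) / m * meanw w P1| ≤
      ∑ T ∈ P1.powerset, |w T| := by
  classical
  have h1 : ∑ a ∈ Ioc A (A + L) with a ≡ r [MOD m], gw w P1 a n = ∑ T ∈ P1.powerset,
      w T * ((((Ioc A (A + L)).filter (fun a => a ≡ r [MOD m] ∧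
        ∀ q ∈ T, a % q ∈ ({n % q} : Finset ℕ))).card : ℕ) : ℝ) := by
    simp only [gw_eq]
    rw [sum_comm]
    refine sum_congr rfl fun T _ => ?_
    rw [← mul_sum]
    congr 1
    rw [← filter_filter, card_filter]
    push_cast
    refine sum_congr rfl fun a _ => ?_
    have : (∀ q ∈ T, n ≡ a [MOD q]) ↔ (∀ q ∈ T, a % q ∈ ({n % q} : Finset ℕ)) := by
      refine forall₂_congr fun q _ => ?_
      rw [mem_singleton]
      exact ⟨fun h => h.symm, fun h => Eq.symm h⟩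
    simp only [this]
  rw [h1]
  unfold meanw
  rw [mul_sum, ← sum_sub_distrib]
  refine (abs_sum_le_sum_abs _ _).trans (sum_le_sum fun T hT => ?_)
  have hTP := mem_powerset.1 hT
  have h2 := count_crt A L (fun q => {n % q}) T (fun q hq => hP q (hTP hq))
    (fun q hq r hr => by
      rw [mem_singleton] at hr
      rw [hr]
      exact Nat.mod_lt _ (hP q (hTP hq)).pos) m r hm (fun q hq => hcop q (hTP hq))
  simp only [card_singleton, Nat.cast_one, prod_const_one] at h2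
  have h3 : w T * ((((Ioc A (A + L)).filter (fun a => a ≡ r [MOD m] ∧
        ∀ q ∈ T, a % q ∈ ({n % q} : Finset ℕ))).card : ℕ) : ℝ) -
      (L : ℝ) / m * (w T * ∏ q ∈ T, (1 / (q : ℝ))) =
      w T * (((((Ioc A (A + L)).filter (fun a => a ≡ r [MOD m] ∧
        ∀ q ∈ T, a % q ∈ ({n % q} : Finset ℕ))).card : ℕ) : ℝ) -
      (L : ℝ) / m * ∏ q ∈ T, (1 / (q : ℝ))) := by ring
  rw [h3, abs_mul]
  calc |w T| * _ ≤ |w T| * 1 := mul_le_mul_of_nonneg_left h2 (abs_nonneg _)
    _ = |w T| := mul_one _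

lemma gw_sum_one (w : Finset ℕ → ℝ) (P1 : Finset ℕ) (hP : ∀ q ∈ P1, q.Prime) (A L n : ℕ) :
    |∑ a ∈ Ioc A (A + L), gw w P1 a n - (L : ℝ) * meanw w P1| ≤ ∑ T ∈ P1.powerset, |w T| := by
  have h := gw_sum w P1 hP A L 1 0 n one_pos (fun q _ => Nat.coprime_one_left q)
  simpa [Nat.modEq_one] using h

lemma choose_eq_sum (P : Finset ℕ) (a n j : ℕ) :
    (((cnt P a n).choose j : ℕ) : ℝ) =
      ∑ T ∈ P.powersetCard j, (if ∀ q ∈ T, n ≡ a [MOD q] then (1 : ℝ) else 0) := by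
  classical
  unfold cnt
  rw [← card_powersetCard, ← sum_filter, sum_const, nsmul_eq_mul, mul_one]
  congr 2
  ext T
  rw [mem_filter, mem_powersetCard, mem_powersetCard]
  constructor
  · rintro ⟨h1, h2⟩
    exact ⟨⟨h1.trans (filter_subset _ _), h2⟩, fun q hq => (mem_filter.1 (h1 hq)).2⟩
  · rintro ⟨⟨h1, h2⟩, h3⟩
    exact ⟨fun q hq => mem_filter.2 ⟨h1 hq, h3 q hq⟩, h2⟩

lemma Dm_Rp (w : Finset ℕ → ℝ) (P1 P2 : Finset ℕ) (hP2 : ∀ q ∈ P2, q.Prime) (I : Finset ℕ)
    (j : ℕ) (G : ℝ) (hG : ∑ T ∈ P1.powerset, |w T| ≤ G) (Z : ℕ) (hZ : P2.card ≤ Z) :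
    Rp ((∏ q ∈ P1, q) * ∏ q ∈ P2, q) (I.card * (G * (2 * (Z : ℝ) ^ j)))
      (fun n => Dm I (gw w P1) P2 j n) := by
  classical
  set Q := (∏ q ∈ P1, q) * ∏ q ∈ P2, q with hQ
  have hd1 : ∀ q ∈ P1, q ∣ Q := fun q hq =>
    (dvd_prod_of_mem (fun q => q) hq).trans (dvd_mul_right _ _)
  have hd2 : ∀ q ∈ P2, q ∣ Q := fun q hq =>
    (dvd_prod_of_mem (fun q => q) hq).trans (dvd_mul_left _ _)
  have hcard : (((P2.powersetCard j).card : ℕ) : ℝ) ≤ (Z : ℝ) ^ j := by
    rw [card_powersetCard]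
    have h1 : P2.card.choose j ≤ Z ^ j :=
      (Nat.choose_le_pow _ _).trans (Nat.pow_le_pow_left hZ j)
    exact_mod_cast h1
  have h1 : ∀ a ∈ I, Rp Q (G * (2 * (Z : ℝ) ^ j))
      (fun n => gw w P1 a n * (((cnt P2 a n).choose j : ℕ) -
        esm P2 (fun q => 1 / (q : ℝ)) j)) := by
    intro a _
    refine Rp.mul ?_ ?_
    · have h2 : Rp Q (∑ T ∈ P1.powerset, |w T|)
          (fun n => ∑ T ∈ P1.powerset, w T * (if ∀ q ∈ T, n ≡ a [MOD q] then 1 else 0)) := by
        refine Rp.sum _ _ _ fun T hT => ?_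
        have h3 := (Rp.const Q (w T)).mul (Rp.of_El (El.all Q a T fun q hq =>
          hd1 q (mem_powerset.1 hT hq)))
        rw [mul_one] at h3
        exact h3
      have h4 : gw w P1 a = fun n => ∑ T ∈ P1.powerset,
          w T * (if ∀ q ∈ T, n ≡ a [MOD q] then 1 else 0) := by
        funext n
        exact gw_eq w P1 a n
      rw [h4]
      exact h2.mono hG
    · have h2 : Rp Q (∑ _T ∈ P2.powersetCard j, (1 : ℝ)) (fun n => ∑ T ∈ P2.powersetCard j,
          (if ∀ q ∈ T, n ≡ a [MOD q] then (1 : ℝ) else 0)) := by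
        refine Rp.sum _ _ _ fun T hT => Rp.of_El (El.all Q a T fun q hq => ?_)
        exact hd2 q ((mem_powersetCard.1 hT).1 hq)
      have h3 := h2.add (Rp.const Q (-(esm P2 (fun q => 1 / (q : ℝ)) j)))
      have h4 : (fun n => (((cnt P2 a n).choose j : ℕ) : ℝ) - esm P2 (fun q => 1 / (q : ℝ)) j) =
          fun n => ∑ T ∈ P2.powersetCard j, (if ∀ q ∈ T, n ≡ a [MOD q] then (1 : ℝ) else 0) +
            -(esm P2 (fun q => 1 / (q : ℝ)) j) := by
        funext n
        rw [choose_eq_sum]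
        ring
      rw [h4]
      refine h3.mono ?_
      have h5 : |-(esm P2 (fun q => 1 / (q : ℝ)) j)| ≤ (Z : ℝ) ^ j := by
        rw [abs_neg, abs_of_nonneg (esm_nonneg _ _ (fun q _ => by positivity) _)]
        unfold esm
        refine le_trans (sum_le_sum (g := fun _ => (1 : ℝ)) fun T hT => ?_) ?_
        · refine prod_le_one (fun q _ => by positivity) fun q hq => ?_
          have h6 := (hP2 q ((mem_powersetCard.1 hT).1 hq)).one_lt.le
          have h7 : (1 : ℝ) ≤ q := by exact_mod_cast h6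
          rw [div_le_one (by linarith)]
          exact h7
        · rw [sum_const, nsmul_eq_mul, mul_one]
          exact hcard
      rw [sum_const, nsmul_eq_mul, mul_one]
      linarith
  have h2 := Rp.sum I (fun _ => G * (2 * (Z : ℝ) ^ j)) _ h1
  rw [sum_const, nsmul_eq_mul] at h2
  exact h2

end Pool.Agent.Lib_helper10.Erdos460
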