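import Mathlib
import Pool.Agent.Lib_helper10.Erdos460.ConcRp

set_option autoImplicit false

namespace Pool.Agent.Lib_helper10.Erdos460

open Finset Filter Topology

/-- number of `a` in the interval `(A, A+L]` with `n - a` free of prime factors below `z` -/
noncomputable def Rz (A L z n : ℕ) : ℝ :=
  ((((Ioc A (A + L)).filter (fun a => ∀ q ∈ Nat.primesBelow z, ¬ n ≡ a [MOD q])).card : ℕ) : ℝ)

lemma tru_filter (P : Finset ℕ) (a n k : ℕ) :
    tru (P.filter (fun q => n ≡ a [MOD q])) (fun _ => 1) k =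
      ∑ j ∈ range k, (-1 : ℝ) ^ j * (((cnt P a n).choose j : ℕ) : ℝ) := by
  unfold tru esm cnt
  refine sum_congr rfl fun j _ => ?_
  simp only [prod_const_one, sum_const, nsmul_eq_mul, mul_one, card_powersetCard]

lemma sum_gw_choose (I : Finset ℕ) (g : ℕ → ℕ → ℝ) (P : Finset ℕ) (j n : ℕ) :
    ∑ a ∈ I, g a n * (((cnt P a n).choose j : ℕ) : ℝ) =
      Dm I g P j n + esm P (fun q => 1 / (q : ℝ)) j * ∑ a ∈ I, g a n := by
  unfold Dm
  rw [mul_sum, ← sum_add_distrib]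
  refine sum_congr rfl fun a _ => ?_
  ring

lemma sum_gw_tru (I : Finset ℕ) (g : ℕ → ℕ → ℝ) (P : Finset ℕ) (k n : ℕ) :
    ∑ a ∈ I, g a n * tru (P.filter (fun q => n ≡ a [MOD q])) (fun _ => 1) k =
      ∑ j ∈ range k, (-1 : ℝ) ^ j * Dm I g P j n +
        tru P (fun q => 1 / (q : ℝ)) k * ∑ a ∈ I, g a n := by
  have h1 : ∑ a ∈ I, g a n * tru (P.filter (fun q => n ≡ a [MOD q])) (fun _ => 1) k =
      ∑ j ∈ range k, (-1 : ℝ) ^ j * ∑ a ∈ I, g a n * (((cnt P a n).choose j : ℕ) : ℝ) := by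
    simp only [tru_filter, mul_sum]
    rw [sum_comm]
    refine sum_congr rfl fun j _ => sum_congr rfl fun a _ => ?_
    ring
  rw [h1]
  unfold tru
  rw [sum_mul, ← sum_add_distrib]
  refine sum_congr rfl fun j _ => ?_
  rw [sum_gw_choose]
  ring

theorem R_bound {y s : ℕ} {τ : ℝ} {Up Low : Finset ℕ → ℝ} (hW : SieveWeights y s τ Up Low)
    (hτ0 : 0 ≤ τ) (hτ1 : τ ≤ 1) (z : ℕ) (hyz : y ≤ z) (K : ℕ) (hK : Even K) (ε : ℝ)
    (hε1 : ε ≤ 1)
    (h1 : esm (Nat.primesBelow z \ Nat.primesBelow y) (fun q => 1 / (q : ℝ)) K ≤ ε)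
    (h2 : esm (Nat.primesBelow z \ Nat.primesBelow y) (fun q => 1 / (q : ℝ)) (K + 1) ≤ ε)
    (A L n : ℕ) :
    |Rz A L z n - V z * L| ≤
      ∑ j ∈ range (K + 1), |Dm (Ioc A (A + L)) (gw Up (Nat.primesBelow y))
        (Nat.primesBelow z \ Nat.primesBelow y) j n| +
      ((3 * τ + 2 * ε) * V y * L + 4 * (y : ℝ) ^ s) := by
  classical
  set P1 := Nat.primesBelow y with hP1
  set P2 := Nat.primesBelow z \ Nat.primesBelow y with hP2
  set I := Ioc A (A + L) with hI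
  have hP1p : ∀ q ∈ P1, q.Prime := fun q hq => (Nat.mem_primesBelow.1 hq).2
  have hP2p : ∀ q ∈ P2, q.Prime := fun q hq => (Nat.mem_primesBelow.1 (mem_sdiff.1 hq).1).2
  have hunion : P1 ∪ P2 = Nat.primesBelow z := union_sdiff_of_subset (primesBelow_mono hyz)
  set S1 : ℕ → Finset ℕ := fun a => P1.filter (fun q => n ≡ a [MOD q]) with hS1
  set S2 : ℕ → Finset ℕ := fun a => P2.filter (fun q => n ≡ a [MOD q]) with hS2
  have hind : ∀ a, (if ∀ q ∈ Nat.primesBelow z, ¬ n ≡ a [MOD q] then (1 : ℝ) else 0) =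
      ind0 (S1 a) * ind0 (S2 a) := by
    intro a
    have hiff : (∀ q ∈ Nat.primesBelow z, ¬ n ≡ a [MOD q]) ↔ (S1 a = ∅ ∧ S2 a = ∅) := by
      simp only [hS1, hS2, filter_eq_empty_iff]
      rw [← hunion]
      simp only [mem_union]
      constructor
      · intro h
        exact ⟨fun q hq => h q (Or.inl hq), fun q hq => h q (Or.inr hq)⟩
      · rintro ⟨h3, h4⟩ q (hq | hq)
        · exact h3 hq
        · exact h4 hq
    unfold ind0
    by_cases h3 : S1 a = ∅ <;> by_cases h4 : S2 a = ∅ <;> simp [hiff, h3, h4]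
  have hRz : Rz A L z n = ∑ a ∈ I, ind0 (S1 a) * ind0 (S2 a) := by
    unfold Rz
    rw [card_filter]
    push_cast
    exact sum_congr rfl fun a _ => hind a
  have hind1 : ∀ S, ind0 S ≤ 1 := fun S => by unfold ind0; split_ifs <;> norm_num
  have hUp : ∀ a, ind0 (S1 a) ≤ gw Up P1 a n := fun a => hW.up _ (filter_subset _ _)
  have hLow : ∀ a, gw Low P1 a n ≤ ind0 (S1 a) := fun a => hW.low _ (filter_subset _ _)
  have hprod1 : ∀ S : Finset ℕ, ∏ q ∈ S, ((1 : ℝ) - (fun _ : ℕ => (1 : ℝ)) q) = ind0 S := by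
    intro S
    unfold ind0
    split_ifs with hS
    · simp [hS]
    · obtain ⟨q, hq⟩ := Finset.nonempty_of_ne_empty hS
      exact prod_eq_zero hq (by simp)
  have hbon : ∀ a k, 0 ≤ (-1 : ℝ) ^ k * (ind0 (S2 a) - tru (S2 a) (fun _ => 1) k) := by
    intro a k
    have h := (bonferroni (S2 a) (fun _ => 1) (fun _ _ => zero_le_one) (fun _ _ => le_rfl) k).1
    rw [hprod1] at h
    exact h
  have hKe : (-1 : ℝ) ^ K = 1 := hK.neg_one_pow
  have hKo : (-1 : ℝ) ^ (K + 1) = -1 := by rw [pow_succ, hKe]; norm_num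
  have htU : ∀ a, ind0 (S2 a) ≤ tru (S2 a) (fun _ => 1) (K + 1) := by
    intro a
    have h := hbon a (K + 1)
    rw [hKo] at h
    linarith
  have htL : ∀ a, tru (S2 a) (fun _ => 1) K ≤ ind0 (S2 a) := by
    intro a
    have h := hbon a K
    rw [hKe] at h
    linarith
  set G0 : ℝ := ∑ a ∈ I, gw Up P1 a n with hG0
  set HL : ℝ := ∑ a ∈ I, gw Low P1 a n with hHL
  have hYU : ∑ T ∈ P1.powerset, |Up T| ≤ (y : ℝ) ^ s := by
    have := sum_abs_le Up P1 hP1p (y ^ s) hW.up_level hW.up_abs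
    push_cast at this
    exact this
  have hYL : ∑ T ∈ P1.powerset, |Low T| ≤ (y : ℝ) ^ s := by
    have := sum_abs_le Low P1 hP1p (y ^ s) hW.low_level hW.low_abs
    push_cast at this
    exact this
  have hVy := V_pos y
  have hL0 : (0 : ℝ) ≤ L := Nat.cast_nonneg L
  have hG0up : G0 ≤ L * (V y * (1 + τ)) + (y : ℝ) ^ s := by
    have h := (abs_le.1 ((gw_sum_one Up P1 hP1p A L n).trans hYU)).2
    have h3 := mul_le_mul_of_nonneg_left hW.up_mean hL0
    rw [← hG0] at h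
    linarith
  have hHLlow : L * (V y * (1 - τ)) - (y : ℝ) ^ s ≤ HL := by
    have h := (abs_le.1 ((gw_sum_one Low P1 hP1p A L n).trans hYL)).1
    have h3 := mul_le_mul_of_nonneg_left hW.low_mean hL0
    rw [← hHL] at h
    linarith
  have hHLG0 : HL ≤ G0 := sum_le_sum fun a _ => (hLow a).trans (hUp a)
  have hG00 : 0 ≤ G0 := sum_nonneg fun a _ => (ind0_nonneg _).trans (hUp a)
  -- product over P2
  set V2 : ℝ := ∏ q ∈ P2, (1 - 1 / (q : ℝ)) with hV2
  have hVz : V z = V y * V2 := by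
    unfold V
    rw [hV2, ← prod_sdiff (primesBelow_mono hyz), mul_comm]
  have hx0 : ∀ q ∈ P2, 0 ≤ 1 / (q : ℝ) := fun q _ => by positivity
  have hx1 : ∀ q ∈ P2, 1 / (q : ℝ) ≤ 1 := fun q hq => by
    have := (prime_factor_bounds (hP2p q hq)).1
    linarith
  have hV20 : 0 ≤ V2 := prod_nonneg fun q hq => by linarith [hx1 q hq]
  have hV21 : V2 ≤ 1 := prod_le_one (fun q hq => by linarith [hx1 q hq])
    fun q hq => by linarith [hx0 q hq]
  have ht1 := abs_le.1 ((abs_bonferroni P2 (fun q => 1 / (q : ℝ)) hx0 hx1 (K + 1)).trans h2)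
  have ht2 := abs_le.1 ((abs_bonferroni P2 (fun q => 1 / (q : ℝ)) hx0 hx1 K).trans h1)
  have hε0 : 0 ≤ ε := (esm_nonneg _ _ hx0 _).trans h1
  rw [← hV2] at ht1 ht2
  have hys : (0 : ℝ) ≤ (y : ℝ) ^ s := by positivity
  set DS : ℝ := ∑ j ∈ range (K + 1), |Dm I (gw Up P1) P2 j n| with hDS
  have hDk : ∀ k ≤ K + 1, |∑ j ∈ range k, (-1 : ℝ) ^ j * Dm I (gw Up P1) P2 j n| ≤ DS := by
    intro k hk
    refine (abs_sum_le_sum_abs _ _).trans ?_
    have h3 : ∀ j ∈ range k, |(-1 : ℝ) ^ j * Dm I (gw Up P1) P2 j n| =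
        |Dm I (gw Up P1) P2 j n| := by
      intro j _
      rw [abs_mul, abs_pow]
      simp
    rw [sum_congr rfl h3]
    exact sum_le_sum_of_subset_of_nonneg (range_mono hk) fun _ _ _ => abs_nonneg _
  have hup : Rz A L z n ≤ DS + (V2 + ε) * G0 := by
    rw [hRz]
    calc ∑ a ∈ I, ind0 (S1 a) * ind0 (S2 a)
        ≤ ∑ a ∈ I, gw Up P1 a n * tru (S2 a) (fun _ => 1) (K + 1) :=
          sum_le_sum fun a _ => mul_le_mul (hUp a) (htU a) (ind0_nonneg _)
            ((ind0_nonneg _).trans (hUp a))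
      _ = ∑ j ∈ range (K + 1), (-1 : ℝ) ^ j * Dm I (gw Up P1) P2 j n +
          tru P2 (fun q => 1 / (q : ℝ)) (K + 1) * G0 := sum_gw_tru I (gw Up P1) P2 (K + 1) n
      _ ≤ DS + (V2 + ε) * G0 := by
          refine add_le_add ((le_abs_self _).trans (hDk (K + 1) le_rfl)) ?_
          exact mul_le_mul_of_nonneg_right (by linarith [ht1.1]) hG00
  have hlow : -DS + (V2 - ε) * G0 - (G0 - HL) ≤ Rz A L z n := by
    rw [hRz]
    have h3 : ∀ a ∈ I, gw Up P1 a n * tru (S2 a) (fun _ => 1) K -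
        (gw Up P1 a n - gw Low P1 a n) ≤ ind0 (S1 a) * ind0 (S2 a) := by
      intro a _
      have h4 : ind0 (S1 a) * tru (S2 a) (fun _ => 1) K ≤ ind0 (S1 a) * ind0 (S2 a) :=
        mul_le_mul_of_nonneg_left (htL a) (ind0_nonneg _)
      have h5 : (gw Up P1 a n - ind0 (S1 a)) * tru (S2 a) (fun _ => 1) K ≤
          (gw Up P1 a n - ind0 (S1 a)) * 1 :=
        mul_le_mul_of_nonneg_left ((htL a).trans (hind1 _)) (by linarith [hUp a])
      have h6 := hLow a
      nlinarith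
    have h4 := sum_le_sum h3
    rw [sum_sub_distrib, sum_sub_distrib, sum_gw_tru I (gw Up P1) P2 K n, ← hG0, ← hHL] at h4
    have h5 := (abs_le.1 (hDk K (Nat.le_succ K))).1
    have h6 : (V2 - ε) * G0 ≤ tru P2 (fun q => 1 / (q : ℝ)) K * G0 :=
      mul_le_mul_of_nonneg_right (by linarith [ht2.2]) hG00
    linarith
  have hVyL : 0 ≤ V y * L := by positivity
  have hτε : 0 ≤ τ * ε := mul_nonneg hτ0 hε0
  have e1 : V2 * G0 ≤ V z * L + τ * (V y * L) + (y : ℝ) ^ s := by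
    have h3 := mul_le_mul_of_nonneg_left hG0up hV20
    have h4 : V2 * (L * (V y * (1 + τ)) + (y : ℝ) ^ s) =
        V z * L + τ * V2 * (V y * L) + V2 * (y : ℝ) ^ s := by rw [hVz]; ring
    have h5 : τ * V2 * (V y * L) ≤ τ * (V y * L) :=
      mul_le_mul_of_nonneg_right (mul_le_of_le_one_right hτ0 hV21) hVyL
    have h6 : V2 * (y : ℝ) ^ s ≤ (y : ℝ) ^ s := mul_le_of_le_one_left hys hV21
    linarith
  have e2 : V z * L - τ * (V y * L) - (y : ℝ) ^ s ≤ V2 * G0 := by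
    have h3 := mul_le_mul_of_nonneg_left (hHLlow.trans hHLG0) hV20
    have h4 : V2 * (L * (V y * (1 - τ)) - (y : ℝ) ^ s) =
        V z * L - τ * V2 * (V y * L) - V2 * (y : ℝ) ^ s := by rw [hVz]; ring
    have h5 : τ * V2 * (V y * L) ≤ τ * (V y * L) :=
      mul_le_mul_of_nonneg_right (mul_le_of_le_one_right hτ0 hV21) hVyL
    have h6 : V2 * (y : ℝ) ^ s ≤ (y : ℝ) ^ s := mul_le_of_le_one_left hys hV21
    linarith
  have e3 : ε * G0 ≤ 2 * ε * (V y * L) + (y : ℝ) ^ s := by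
    have h3 := mul_le_mul_of_nonneg_left hG0up hε0
    have h4 : ε * (L * (V y * (1 + τ)) + (y : ℝ) ^ s) =
        ε * (V y * L) + ε * τ * (V y * L) + ε * (y : ℝ) ^ s := by ring
    have h5 : ε * τ * (V y * L) ≤ ε * (V y * L) :=
      mul_le_mul_of_nonneg_right (mul_le_of_le_one_right hε0 hτ1) hVyL
    have h6 : ε * (y : ℝ) ^ s ≤ (y : ℝ) ^ s := mul_le_of_le_one_left hys hε1
    linarith
  rw [abs_le]
  constructor
  · have h3 : (V2 - ε) * G0 = V2 * G0 - ε * G0 := by ring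
    have h4 : (3 * τ + 2 * ε) * V y * L = 3 * (τ * (V y * L)) + 2 * ε * (V y * L) := by ring
    rw [h3] at hlow
    rw [h4]
    nlinarith
  · have h3 : (V2 + ε) * G0 = V2 * G0 + ε * G0 := by ring
    have h4 : (3 * τ + 2 * ε) * V y * L = 3 * (τ * (V y * L)) + 2 * ε * (V y * L) := by ring
    rw [h3] at hup
    rw [h4]
    have : 0 ≤ τ * (V y * L) := mul_nonneg hτ0 hVyL
    linarith

end Pool.Agent.Lib_helper10.Erdos460
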