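import Mathlib
import Pool.Agent.Lib_helper10.Erdos460.ConcFin

set_option autoImplicit false

namespace Pool.Agent.Lib_helper10.Erdos460

open Finset Filter Topology

theorem conc_count {y s : ℕ} {τ : ℝ} {Up Low : Finset ℕ → ℝ} (hW : SieveWeights y s τ Up Low)
    (hτ0 : 0 ≤ τ) (hτ1 : τ ≤ 1) (z : ℕ) (hz1 : 1 ≤ z) (hyz : y ≤ z) (K : ℕ) (hK : Even K) (ε : ℝ)
    (hε1 : ε ≤ 1)
    (h1 : esm (Nat.primesBelow z \ Nat.primesBelow y) (fun q => 1 / (q : ℝ)) K ≤ ε)
    (h2 : esm (Nat.primesBelow z \ Nat.primesBelow y) (fun q => 1 / (q : ℝ)) (K + 1) ≤ ε)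
    (A L M N : ℕ) (δ : ℝ)
    (hsmall : (3 * τ + 2 * ε) * V y * L + 4 * (y : ℝ) ^ s ≤ δ / 2 * (V z * L))
    (η : ℝ) (hη0 : 0 < η) (hη : η * (K + 1) ≤ δ / 2 * (V z * L))
    (i : ℕ) (hi : Even i) (T : ℝ) (hT : 0 < T)
    (hTc : ∀ p ∈ Nat.primesBelow z \ Nat.primesBelow y,
      ((i : ℝ) + 2) * (2 * L / p + (y : ℝ) ^ s) ≤ T)
    (hTs : 3 * ((i : ℝ) + 2) ^ 2 * (2 * L + (y : ℝ) ^ s) *
      ∑ p ∈ Nat.primesBelow z \ Nat.primesBelow y, (2 * L / (p : ℝ) + (y : ℝ) ^ s) / p ≤ T ^ 2)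
    (Λ : ℝ) (hΛ : ∑ p ∈ Nat.primesBelow z \ Nat.primesBelow y, 1 / (p : ℝ) ≤ Λ) :
    ((((Ioc M (M + N)).filter (fun n => δ * (V z * L) < |Rz A L z n - V z * L|)).card : ℕ) : ℝ) ≤
      (K + 1) * (N * ((Real.exp (1 + (i + 2) * Λ) * (1 + Λ)) ^ K *
        (T ^ (i + 2) * (L * (((K * (i + 2)).factorial : ℝ) * Real.exp (2 * Λ))))) +
        (L * ((y : ℝ) ^ s * (2 * (z : ℝ) ^ K))) ^ (i + 2)) / η ^ (i + 2) := by
  classical
  set P1 := Nat.primesBelow y with hP1
  set P2 := Nat.primesBelow z \ Nat.primesBelow y with hP2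
  set I := Ioc A (A + L) with hI
  have hP1p : ∀ q ∈ P1, q.Prime := fun q hq => (Nat.mem_primesBelow.1 hq).2
  have hP2p : ∀ q ∈ P2, q.Prime := fun q hq => (Nat.mem_primesBelow.1 (mem_sdiff.1 hq).1).2
  have hΛ0 : 0 ≤ Λ := le_trans (sum_nonneg fun p _ => by positivity) hΛ
  have hYU : ∑ T ∈ P1.powerset, |Up T| ≤ (y : ℝ) ^ s := by
    have := sum_abs_le Up P1 hP1p (y ^ s) hW.up_level hW.up_abs
    push_cast at this
    exact this
  have hys : (0 : ℝ) ≤ (y : ℝ) ^ s := by positivity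
  have hVy := V_pos y
  have hVy1 := V_le_one y
  have hmean : meanw Up P1 ≤ 2 := by
    refine hW.up_mean.trans ?_
    calc V y * (1 + τ) ≤ 1 * (1 + τ) := mul_le_mul_of_nonneg_right hVy1 (by linarith)
      _ ≤ 2 := by linarith
  have hL0 : (0 : ℝ) ≤ L := Nat.cast_nonneg L
  have hUp : ∀ a n, 0 ≤ gw Up P1 a n := fun a n =>
    (ind0_nonneg _).trans (hW.up _ (filter_subset _ _))
  set Q := (∏ q ∈ P1, q) * ∏ q ∈ P2, q with hQ
  have HM : MData (∏ q ∈ P1, q) P2 I (gw Up P1) (fun p => 2 * L / (p : ℝ) + (y : ℝ) ^ s)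
      (2 * L + (y : ℝ) ^ s) := by
    refine ⟨prod_pos fun q hq => (hP1p q hq).pos, hP2p, ?_, gw_periodic Up P1, hUp, ?_, ?_, ?_⟩
    · intro p hp
      refine Nat.Coprime.prod_left fun q hq => ?_
      refine (Nat.coprime_primes (hP1p q hq) (hP2p p hp)).2 fun e => ?_
      rw [e] at hq
      exact (mem_sdiff.1 hp).2 hq
    · intro p _
      positivity
    · intro p hp n r
      have hpp := hP2p p hp
      have hpR : (0 : ℝ) < p := by exact_mod_cast hpp.pos
      have h3 := gw_sum Up P1 hP1p A L p r n hpp.pos (fun q hq => by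
        refine (Nat.coprime_primes hpp (hP1p q hq)).2 fun e => ?_
        rw [← e] at hq
        exact (mem_sdiff.1 hp).2 hq)
      have h4 := (abs_le.1 (h3.trans hYU)).2
      have h5 : (L : ℝ) / p * meanw Up P1 ≤ 2 * L / p := by
        calc (L : ℝ) / p * meanw Up P1 ≤ (L : ℝ) / p * 2 :=
              mul_le_mul_of_nonneg_left hmean (by positivity)
          _ = 2 * L / p := by ring
      linarith
    · intro n
      have h4 := (abs_le.1 ((gw_sum_one Up P1 hP1p A L n).trans hYU)).2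
      have h5 : (L : ℝ) * meanw Up P1 ≤ 2 * L := by
        calc (L : ℝ) * meanw Up P1 ≤ (L : ℝ) * 2 := mul_le_mul_of_nonneg_left hmean hL0
          _ = 2 * L := by ring
      linarith
  have hQpos : 0 < Q := HM.Qpos
  have hQR : (0 : ℝ) < Q := by exact_mod_cast hQpos
  have hIcard : (I.card : ℝ) = L := by rw [hI]; simp
  set m := i + 2 with hm
  have hev : Even m := hi.add (by decide)
  set E : ℝ := Real.exp (1 + (i + 2) * Λ) * (1 + Λ) with hE
  have hE1 : 1 ≤ E := by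
    have h3 : (1 : ℝ) ≤ Real.exp (1 + (i + 2) * Λ) := Real.one_le_exp (by positivity)
    calc (1 : ℝ) = 1 * 1 := by ring
      _ ≤ E := mul_le_mul h3 (by linarith) (by norm_num) (by linarith)
  set B : ℝ := T ^ m * (L * (((K * m).factorial : ℝ) * Real.exp (2 * Λ))) with hB
  have hB0 : 0 ≤ B := by positivity
  set AA : ℝ := L * ((y : ℝ) ^ s * (2 * (z : ℝ) ^ K)) with hAA
  -- bound for each j
  have hj : ∀ j ∈ range (K + 1), ∑ n ∈ Ioc M (M + N), Dm I (gw Up P1) P2 j n ^ m ≤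
      N * (E ^ K * B) + AA ^ m := by
    intro j hj
    have hjK : j ≤ K := Nat.lt_succ_iff.1 (mem_range.1 hj)
    have h3 := HM.moment i hi T hT hTc hTs Λ hΛ K j hjK
    rw [← hQ, ← hm, hIcard, ← hE, ← hB] at h3
    have h4 : (Q : ℝ) * (E ^ j * B) ≤ (Q : ℝ) * (E ^ K * B) :=
      mul_le_mul_of_nonneg_left (mul_le_mul_of_nonneg_right (pow_le_pow_right₀ hE1 hjK) hB0)
        hQR.le
    have h5 := Dm_Rp Up P1 P2 hP2p I j ((y : ℝ) ^ s) hYU z
      ((card_le_card sdiff_subset).trans (card_primesBelow_le z))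
    rw [← hQ, hIcard] at h5
    have h6 := (h5.pow m).transfer hQpos M N
    have h7 := (abs_le.1 h6).2
    have h8 : (L * ((y : ℝ) ^ s * (2 * (z : ℝ) ^ j))) ^ m ≤ AA ^ m := by
      refine pow_le_pow_left₀ (by positivity) ?_ m
      rw [hAA]
      have hz1R : (1 : ℝ) ≤ z := by exact_mod_cast hz1
      have h9 := pow_le_pow_right₀ hz1R hjK
      exact mul_le_mul_of_nonneg_left (mul_le_mul_of_nonneg_left (by linarith) hys) hL0
    have h9 : (N : ℝ) / Q * ∑ n ∈ range Q, Dm I (gw Up P1) P2 j n ^ m ≤ N * (E ^ K * B) := by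
      calc (N : ℝ) / Q * ∑ n ∈ range Q, Dm I (gw Up P1) P2 j n ^ m
          ≤ (N : ℝ) / Q * ((Q : ℝ) * (E ^ K * B)) :=
            mul_le_mul_of_nonneg_left (h3.trans h4) (by positivity)
        _ = N * (E ^ K * B) := by
            field_simp
    linarith
  -- counting
  rw [le_div_iff₀ (by positivity)]
  have hkey : ∀ n ∈ (Ioc M (M + N)).filter (fun n => δ * (V z * L) < |Rz A L z n - V z * L|),
      η ^ m ≤ ∑ j ∈ range (K + 1), Dm I (gw Up P1) P2 j n ^ m := by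
    intro n hn
    have h3 := (mem_filter.1 hn).2
    have h4 := R_bound hW hτ0 hτ1 z hyz K hK ε hε1 h1 h2 A L n
    rw [← hP1, ← hP2, ← hI] at h4
    have h5 : η * (K + 1) < ∑ j ∈ range (K + 1), |Dm I (gw Up P1) P2 j n| := by
      have h6 : δ * (V z * L) = δ / 2 * (V z * L) + δ / 2 * (V z * L) := by ring
      linarith
    obtain ⟨j, hj, hlt⟩ : ∃ j ∈ range (K + 1), η < |Dm I (gw Up P1) P2 j n| := by
      by_contra hcon
      push Not at hcon
      have h6 : ∑ j ∈ range (K + 1), |Dm I (gw Up P1) P2 j n| ≤ ∑ _j ∈ range (K + 1), η :=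
        sum_le_sum hcon
      rw [sum_const, card_range, nsmul_eq_mul] at h6
      push_cast at h6
      linarith
    calc η ^ m ≤ |Dm I (gw Up P1) P2 j n| ^ m := pow_le_pow_left₀ hη0.le hlt.le m
      _ = Dm I (gw Up P1) P2 j n ^ m := Even.pow_abs hev _
      _ ≤ _ := single_le_sum (f := fun j => Dm I (gw Up P1) P2 j n ^ m)
          (fun j _ => hev.pow_nonneg _) hj
  calc ((((Ioc M (M + N)).filter (fun n => δ * (V z * L) < |Rz A L z n - V z * L|)).card : ℕ) : ℝ)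
        * η ^ m
      = ∑ _n ∈ (Ioc M (M + N)).filter (fun n => δ * (V z * L) < |Rz A L z n - V z * L|),
          η ^ m := by rw [sum_const, nsmul_eq_mul]
    _ ≤ ∑ n ∈ (Ioc M (M + N)).filter (fun n => δ * (V z * L) < |Rz A L z n - V z * L|),
          ∑ j ∈ range (K + 1), Dm I (gw Up P1) P2 j n ^ m := sum_le_sum hkey
    _ ≤ ∑ n ∈ Ioc M (M + N), ∑ j ∈ range (K + 1), Dm I (gw Up P1) P2 j n ^ m :=
        sum_le_sum_of_subset_of_nonneg (filter_subset _ _) fun n _ _ =>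
          sum_nonneg fun j _ => hev.pow_nonneg _
    _ = ∑ j ∈ range (K + 1), ∑ n ∈ Ioc M (M + N), Dm I (gw Up P1) P2 j n ^ m := sum_comm
    _ ≤ ∑ _j ∈ range (K + 1), (N * (E ^ K * B) + AA ^ m) := sum_le_sum hj
    _ = (K + 1) * (N * (E ^ K * B) + AA ^ m) := by
        rw [sum_const, card_range, nsmul_eq_mul]
        push_cast
        ring

end Pool.Agent.Lib_helper10.Erdos460
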