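import Mathlib
import Pool.Agent.Lib_helper10.Erdos460.ConcCount
import Pool.Agent.Lib_helper10.Erdos460.Block

set_option autoImplicit false

namespace Pool.Agent.Lib_helper10.Erdos460

open Finset Filter Topology

/-- sieve weights with small product of level exponent and loss -/
theorem exists_weights_strong (ρ : ℝ) (hρ : 0 < ρ) : ∃ s : ℕ, 1 ≤ s ∧ ∃ τ : ℝ, 0 ≤ τ ∧ τ ≤ 1 ∧
    s * τ ≤ ρ ∧ ∀ z : ℕ, 1 ≤ z → ∃ Up Low : Finset ℕ → ℝ, SieveWeights z s τ Up Low := by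
  obtain ⟨Θ, hΘ0, hΘt, hΘb, h⟩ := brun_hooley_strong
  have h1 : Tendsto (fun b : ℕ => 8 * ((b : ℝ) * Θ b) + 12 * Θ b) atTop (𝓝 (8 * 0 + 12 * 0)) :=
    (hΘb.const_mul 8).add (hΘt.const_mul 12)
  simp only [mul_zero, add_zero] at h1
  obtain ⟨b, hb1, hb2⟩ := ((h1.eventually (eventually_lt_nhds hρ)).and
    (hΘt.eventually (eventually_lt_nhds (by norm_num : (0 : ℝ) < 1 / 2)))).exists
  refine ⟨4 * b + 6, by omega, 2 * Θ b, by linarith [hΘ0 b], by linarith, ?_, ?_⟩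
  · push_cast
    nlinarith
  · intro z hz
    exact h b (by linarith) z hz

lemma sum_inv_sq (y z : ℕ) (hy : 2 ≤ y) :
    ∑ p ∈ Nat.primesBelow z \ Nat.primesBelow y, 1 / (p : ℝ) ^ 2 ≤ 2 / (y : ℝ) := by
  have h1 : ∀ z, y ≤ z → ∑ k ∈ Ico y z, 1 / (k : ℝ) ^ 2 ≤ 1 / ((y : ℝ) - 1) - 1 / ((z : ℝ) - 1) := by
    intro z hz
    induction z, hz using Nat.le_induction with
    | base => simp
    | succ z hz ih =>
      rw [sum_Ico_succ_top hz]
      have hz2 : (2 : ℝ) ≤ z := by exact_mod_cast hy.trans hz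
      have h2 : 1 / (z : ℝ) ^ 2 ≤ 1 / ((z : ℝ) - 1) - 1 / (((z + 1 : ℕ) : ℝ) - 1) := by
        push_cast
        rw [add_sub_cancel_right, div_sub_div _ _ (by linarith) (by linarith)]
        rw [div_le_div_iff₀ (by positivity) (by nlinarith)]
        nlinarith
      linarith
  have hyR : (2 : ℝ) ≤ y := by exact_mod_cast hy
  have h2 : ∑ p ∈ Nat.primesBelow z \ Nat.primesBelow y, 1 / (p : ℝ) ^ 2 ≤
      ∑ k ∈ Ico y z, 1 / (k : ℝ) ^ 2 := by
    refine sum_le_sum_of_subset_of_nonneg ?_ fun k _ _ => by positivity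
    intro p hp
    rw [Finset.mem_sdiff, Nat.mem_primesBelow, Nat.mem_primesBelow] at hp
    rw [mem_Ico]
    refine ⟨?_, hp.1.1⟩
    by_contra h
    exact hp.2 ⟨by omega, hp.1.2⟩
  rcases le_total y z with hz | hz
  · have h3 := h1 z hz
    have hzR : (2 : ℝ) ≤ z := by exact_mod_cast hy.trans hz
    have h4 : 0 ≤ 1 / ((z : ℝ) - 1) := by
      have : 0 ≤ (z : ℝ) - 1 := by linarith
      positivity
    have h5 : 1 / ((y : ℝ) - 1) ≤ 2 / y := by
      rw [div_le_div_iff₀ (by linarith) (by linarith)]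
      linarith
    linarith
  · rw [Ico_eq_empty_of_le hz, sum_empty] at h2
    have : 0 ≤ 2 / (y : ℝ) := by positivity
    linarith

lemma P2_recip (y z : ℕ) (hyz : y ≤ z) :
    ∑ p ∈ Nat.primesBelow z \ Nat.primesBelow y, 1 / (p : ℝ) ≤ Real.log (V y / V z) := by
  set P2 := Nat.primesBelow z \ Nat.primesBelow y with hP2
  have hP2p : ∀ q ∈ P2, q.Prime := fun q hq => (Nat.mem_primesBelow.1 (Finset.mem_sdiff.1 hq).1).2
  set V2 : ℝ := ∏ q ∈ P2, (1 - 1 / (q : ℝ)) with hV2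
  have hVz : V z = V y * V2 := by
    unfold V
    rw [hV2, ← prod_sdiff (primesBelow_mono hyz), mul_comm]
  have hVy := V_pos y
  have hVzp := V_pos z
  have hV2p : 0 < V2 := by
    rw [hVz] at hVzp
    exact (pos_iff_pos_of_mul_pos hVzp).1 hVy
  have h1 : V2 ≤ Real.exp (-∑ p ∈ P2, 1 / (p : ℝ)) := by
    rw [hV2, ← sum_neg_distrib, Real.exp_sum]
    refine prod_le_prod (fun q hq => (prime_factor_bounds (hP2p q hq)).1.le) fun q _ => ?_
    have := Real.add_one_le_exp (-(1 / (q : ℝ)))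
    linarith
  have h2 : V y / V z = V2⁻¹ := by
    rw [hVz]
    field_simp
  rw [h2, Real.log_inv]
  have h3 := Real.log_le_log hV2p h1
  rw [Real.log_exp] at h3
  linarith

lemma esm_P2_le (y z : ℕ) (Λ : ℝ)
    (hΛ : ∑ p ∈ Nat.primesBelow z \ Nat.primesBelow y, 1 / (p : ℝ) ≤ Λ) (k : ℕ) :
    esm (Nat.primesBelow z \ Nat.primesBelow y) (fun q => 1 / (q : ℝ)) k ≤
      Λ ^ k / (k.factorial : ℝ) := by
  refine (esm_le _ _ (fun q _ => by positivity) k).trans ?_
  exact div_le_div_of_nonneg_right (pow_le_pow_left₀ (sum_nonneg fun q _ => by positivity) hΛ _)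
    (by positivity)

lemma log_le_exp_mul (ε : ℝ) (hε : 0 < ε) (C : ℝ) : ∀ᶠ l : ℝ in atTop, C * l ≤ Real.exp (ε * l) := by
  have h1 := Real.tendsto_exp_div_pow_atTop 1
  have h2 : Tendsto (fun l : ℝ => ε * l) atTop atTop := tendsto_id.const_mul_atTop hε
  have h3 := h1.comp h2
  filter_upwards [h3.eventually_ge_atTop (|C| / ε), eventually_gt_atTop 0] with l hl hl0
  simp only [Function.comp, pow_one] at hl
  rw [le_div_iff₀ (by positivity)] at hl
  have h4 : |C| / ε * (ε * l) = |C| * l := by field_simp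
  rw [h4] at hl
  exact (mul_le_mul_of_nonneg_right (le_abs_self C) hl0.le).trans hl

end Pool.Agent.Lib_helper10.Erdos460
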