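import Mathlib
import Pool.Agent.Lib_helper10.Erdos460.ConcPre

set_option autoImplicit false

namespace Pool.Agent.Lib_helper10.Erdos460

open Finset Filter Topology

/-- numerical part: first term -/
lemma conc_num1 (K m : ℕ) (hm : 1 ≤ m) (Λ : ℝ) (hΛ : 0 ≤ Λ) :
    (Real.exp (1 + m * Λ) * (1 + Λ)) ^ K * (((K * m).factorial : ℝ) * Real.exp (2 * Λ)) ≤
      (Real.exp (K + 2 * K * Λ + 2 * Λ) * (((K : ℝ) * m) ^ K)) ^ m := by
  have hmR : (1 : ℝ) ≤ m := by exact_mod_cast hm
  have h1 : ((K * m).factorial : ℝ) ≤ (((K : ℝ) * m) ^ K) ^ m := by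
    have h2 : (K * m).factorial ≤ (K * m) ^ (K * m) := Nat.factorial_le_pow _
    calc ((K * m).factorial : ℝ) ≤ (((K * m) ^ (K * m) : ℕ) : ℝ) := by exact_mod_cast h2
      _ = _ := by push_cast; rw [pow_mul]
  have h2 : (1 + Λ) ^ K ≤ Real.exp (K * Λ) := by
    calc (1 + Λ) ^ K ≤ Real.exp Λ ^ K := by
          refine pow_le_pow_left₀ (by linarith) ?_ K
          have := Real.add_one_le_exp Λ
          linarith
      _ = Real.exp (K * Λ) := by rw [← Real.exp_nat_mul]
  have h3 : Real.exp (1 + m * Λ) ^ K = Real.exp (K * (1 + m * Λ)) := by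
    rw [← Real.exp_nat_mul]
  have hK0 : (0 : ℝ) ≤ K := Nat.cast_nonneg K
  have h4 : (Real.exp (1 + m * Λ) * (1 + Λ)) ^ K * Real.exp (2 * Λ) ≤
      Real.exp (K + 2 * K * Λ + 2 * Λ) ^ m := by
    rw [mul_pow, h3, ← Real.exp_nat_mul]
    calc Real.exp (K * (1 + m * Λ)) * (1 + Λ) ^ K * Real.exp (2 * Λ)
        ≤ Real.exp (K * (1 + m * Λ)) * Real.exp (K * Λ) * Real.exp (2 * Λ) := by
          refine mul_le_mul_of_nonneg_right (mul_le_mul_of_nonneg_left h2
            (Real.exp_pos _).le) (Real.exp_pos _).le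
      _ = Real.exp (K * (1 + m * Λ) + K * Λ + 2 * Λ) := by
          rw [← Real.exp_add, ← Real.exp_add]
      _ ≤ Real.exp (m * (K + 2 * K * Λ + 2 * Λ)) := by
          refine Real.exp_le_exp.2 ?_
          have h5 : 0 ≤ (K : ℝ) * Λ := mul_nonneg hK0 hΛ
          nlinarith [mul_nonneg (sub_nonneg.2 hmR) hK0, mul_nonneg (sub_nonneg.2 hmR) h5,
            mul_nonneg (sub_nonneg.2 hmR) hΛ]
  calc (Real.exp (1 + m * Λ) * (1 + Λ)) ^ K * (((K * m).factorial : ℝ) * Real.exp (2 * Λ))
      = ((Real.exp (1 + m * Λ) * (1 + Λ)) ^ K * Real.exp (2 * Λ)) *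
          ((K * m).factorial : ℝ) := by ring
    _ ≤ Real.exp (K + 2 * K * Λ + 2 * Λ) ^ m * (((K : ℝ) * m) ^ K) ^ m :=
        mul_le_mul h4 h1 (by positivity) (by positivity)
    _ = _ := by rw [← mul_pow]

/-- numerical part: choice of the moment -/
lemma conc_moment_choice (x D l : ℝ) (hD : 1 ≤ D) (hl : 1 ≤ l) (hx : 4 * D * l ≤ x) :
    ∃ i : ℕ, Even i ∧ x / (4 * D * l) ≤ ((i : ℝ) + 2) ∧ ((i : ℝ) + 2) * (D * l) ≤ x / 2 ∧
      ((i : ℝ) + 2) ≤ x := by
  set u : ℝ := x / (4 * D * l) with hu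
  have hDl : 0 < 4 * D * l := by positivity
  have hu1 : 1 ≤ u := by rw [hu, le_div_iff₀ hDl]; linarith
  set f := ⌊u⌋₊ with hf
  have hf1 : 1 ≤ f := Nat.le_floor (by simpa using hu1)
  have hfu : (f : ℝ) ≤ u := Nat.floor_le (by linarith)
  have hfu2 : u < f + 1 := Nat.lt_floor_add_one u
  have hf1R : (1 : ℝ) ≤ f := by exact_mod_cast hf1
  refine ⟨2 * (f - 1), even_two_mul _, ?_, ?_, ?_⟩
  · push_cast [Nat.cast_sub hf1]
    linarith
  · push_cast [Nat.cast_sub hf1]
    have h1 : (f : ℝ) * (4 * D * l) ≤ x := by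
      rw [hu, le_div_iff₀ hDl] at hfu
      exact hfu
    nlinarith
  · push_cast [Nat.cast_sub hf1]
    have h1 : (f : ℝ) * (4 * D * l) ≤ x := by
      rw [hu, le_div_iff₀ hDl] at hfu
      exact hfu
    have h2 : (4 : ℝ) ≤ 4 * D * l := by nlinarith
    nlinarith

lemma hrew_aux (k n e f x l t a η : ℝ) (K m : ℕ) :
    k * (n * (e ^ K * (t ^ m * (l * (f * x)))) + a ^ m) / η ^ m =
      k * (n * (l * ((e ^ K * (f * x)) * (t / η) ^ m)) + (a / η) ^ m) := by
  rw [div_pow, div_pow]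
  ring

/-- Concentration of the number of rough shifts in an interval, with a power-saving exceptional
set. -/
theorem conc (S : ℕ) (hS : 1 ≤ S) (δ : ℝ) (hδ0 : 0 < δ) : ∃ c : ℝ, ∃ B : ℕ, 0 < c ∧ c ≤ 1 / 2 ∧
    1 ≤ B ∧ ∀ L N z A M : ℕ, B ≤ L → (Real.log N) ^ B ≤ L → L ^ B ≤ N → L ≤ z → z ≤ L ^ S →
    ((((Ioc M (M + N)).filter (fun n => δ * (V z * L) < |Rz A L z n - V z * L|)).card : ℕ) : ℝ) ≤
      B * (N : ℝ) ^ (1 - c) := by
  classical
  obtain ⟨c1, C1, hc1, hC1, hV⟩ := V_bounds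
  have hSR : (1 : ℝ) ≤ S := by exact_mod_cast hS
  have hl2 : 0 < Real.log 2 := Real.log_pos (by norm_num)
  set ρ : ℝ := δ * c1 / (120 * S * C1) with hρdef
  have hρ : 0 < ρ := by positivity
  obtain ⟨s, hs1, τ, hτ0, hτ1, hsτ, hs⟩ := exists_weights_strong ρ hρ
  have hsR : (1 : ℝ) ≤ s := by exact_mod_cast hs1
  set κ1 : ℝ := 5 * S * s * C1 / c1 with hκ1
  have hκ1pos : 0 < κ1 := by positivity
  set Λ : ℝ := max (Real.log κ1) 0 with hΛdef
  have hΛ0 : 0 ≤ Λ := le_max_right _ _
  set ε : ℝ := min 1 (δ / (16 * κ1)) with hεdef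
  have hε0 : 0 < ε := lt_min one_pos (by positivity)
  have hε1 : ε ≤ 1 := min_le_left _ _
  have hεκ : 2 * ε * κ1 ≤ δ / 8 := by
    have h1 : ε ≤ δ / (16 * κ1) := min_le_right _ _
    rw [le_div_iff₀ (by positivity)] at h1
    linarith
  have hτκ : 3 * τ * κ1 ≤ δ / 8 := by
    have h1 : 3 * τ * κ1 = 15 * S * C1 / c1 * (s * τ) := by rw [hκ1]; ring
    rw [h1]
    calc 15 * S * C1 / c1 * (s * τ) ≤ 15 * S * C1 / c1 * ρ :=
          mul_le_mul_of_nonneg_left hsτ (by positivity)
      _ = δ / 8 := by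
          rw [hρdef]
          field_simp
          ring
  -- choice of K
  obtain ⟨K, hKe, hK1, hK2⟩ : ∃ K : ℕ, Even K ∧ Λ ^ K / (K.factorial : ℝ) ≤ ε ∧
      Λ ^ (K + 1) / ((K + 1).factorial : ℝ) ≤ ε := by
    have h1 := FloorSemiring.tendsto_pow_div_factorial_atTop Λ
    obtain ⟨n0, hn0⟩ := eventually_atTop.1 (h1.eventually (eventually_lt_nhds hε0))
    exact ⟨2 * n0, even_two_mul _, (hn0 _ (by omega)).le, (hn0 _ (by omega)).le⟩
  set D : ℕ := S * K + 2 with hD
  have hDR : (1 : ℝ) ≤ (D : ℝ) := by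
    rw [hD]; push_cast
    have : (0 : ℝ) ≤ (S : ℝ) * K := by positivity
    linarith
  set C5 : ℝ := Real.exp (K + 2 * K * Λ + 2 * Λ) * (K : ℝ) ^ K *
    (14 * (K + 1) * S / (δ * c1)) with hC5
  have hC50 : 0 ≤ C5 := by positivity
  have hev : ∀ᶠ l : ℝ in atTop, 20 * s * Real.log 2 ≤ l ∧
      C5 * l ≤ Real.exp (1 / (40 * s) * l) ∧
      16 * S / (δ * c1) * l ≤ Real.exp (3 / 4 * l) ∧
      2 * (K + 1) * S / (δ * c1) * l ≤ Real.exp (1 * l) ∧
      Λ * l ≤ Real.exp (1 / 2 * l) ∧ 2 ≤ l := by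
    filter_upwards [eventually_ge_atTop (20 * s * Real.log 2),
      log_le_exp_mul (1 / (40 * s)) (by positivity) C5,
      log_le_exp_mul (3 / 4) (by norm_num) (16 * S / (δ * c1)),
      log_le_exp_mul 1 one_pos (2 * (K + 1) * S / (δ * c1)),
      log_le_exp_mul (1 / 2) (by norm_num) Λ, eventually_ge_atTop 2] with l h1 h2 h3 h4 h5 h6
    exact ⟨h1, h2, h3, h4, h5, h6⟩
  obtain ⟨l0, hl0⟩ := eventually_atTop.1 hev
  set B : ℕ := max (max ⌈Real.exp l0⌉₊ (40 * s * (K + 1))) (max (160 * s * D) (2 * (K + 1))) with hB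
  have hB1 : ⌈Real.exp l0⌉₊ ≤ B := (le_max_left _ _).trans (le_max_left _ _)
  have hB2 : 40 * s * (K + 1) ≤ B := (le_max_right _ _).trans (le_max_left _ _)
  have hB3 : 160 * s * D ≤ B := (le_max_left _ _).trans (le_max_right _ _)
  have hB4 : 2 * (K + 1) ≤ B := (le_max_right _ _).trans (le_max_right _ _)
  refine ⟨1 / (160 * s * D), B, by positivity, ?_, by omega, ?_⟩
  · rw [div_le_div_iff₀ (by positivity) (by norm_num)]
    have : (1 : ℝ) ≤ s * D := by
      calc (1 : ℝ) = 1 * 1 := by ring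
        _ ≤ s * D := mul_le_mul hsR hDR (by norm_num) (by linarith)
    linarith
  intro L N z A M hBL hNL hLN hLz hzL
  -- logarithm of L
  set l : ℝ := Real.log L with hl
  have hL1 : 1 ≤ L := by omega
  have hLR : (0 : ℝ) < L := by exact_mod_cast hL1
  have hLexp : Real.exp l = L := Real.exp_log hLR
  have hll0 : l0 ≤ l := by
    rw [hl, Real.le_log_iff_exp_le hLR]
    calc Real.exp l0 ≤ (⌈Real.exp l0⌉₊ : ℝ) := Nat.le_ceil _
      _ ≤ L := by exact_mod_cast hB1.trans hBL
  obtain ⟨e1, e2, e3, e4, e5, e6⟩ := hl0 l hll0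
  have hlpos : 0 < l := by linarith
  -- y
  set y : ℕ := ⌊Real.exp (l / (4 * s))⌋₊ with hy
  have hyle : (y : ℝ) ≤ Real.exp (l / (4 * s)) := Nat.floor_le (Real.exp_pos _).le
  have hylt : Real.exp (l / (4 * s)) < y + 1 := Nat.lt_floor_add_one _
  have hexp2 : 2 * Real.exp (l / (5 * s)) ≤ Real.exp (l / (4 * s)) := by
    have h1 : Real.log 2 + l / (5 * s) ≤ l / (4 * s) := by
      have h2 : l / (4 * s) - l / (5 * s) = l / (20 * s) := by field_simp; ring
      have h3 : Real.log 2 ≤ l / (20 * s) := by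
        rw [le_div_iff₀ (by positivity)]
        linarith
      linarith
    calc 2 * Real.exp (l / (5 * s)) = Real.exp (Real.log 2 + l / (5 * s)) := by
          rw [Real.exp_add, Real.exp_log (by norm_num)]
      _ ≤ _ := Real.exp_le_exp.2 h1
  have hexp1 : 2 ≤ Real.exp (l / (5 * s)) := by
    have h1 : Real.log 2 ≤ l / (5 * s) := by
      rw [le_div_iff₀ (by positivity)]
      have : 0 ≤ s * Real.log 2 := by positivity
      linarith
    calc (2 : ℝ) = Real.exp (Real.log 2) := (Real.exp_log (by norm_num)).symm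
      _ ≤ _ := Real.exp_le_exp.2 h1
  have hyge : Real.exp (l / (5 * s)) ≤ y := by linarith
  have hy2R : (2 : ℝ) ≤ y := hexp1.trans hyge
  have hy2 : 2 ≤ y := by exact_mod_cast hy2R
  have hy0 : (0 : ℝ) < y := by linarith
  have hly : l / (5 * s) ≤ Real.log y := by
    rw [Real.le_log_iff_exp_le hy0]
    exact hyge
  have hlydpos : 0 < l / (5 * s) := by positivity
  have hys : (y : ℝ) ^ s ≤ Real.exp (l / 4) := by
    calc (y : ℝ) ^ s ≤ Real.exp (l / (4 * s)) ^ s := pow_le_pow_left₀ hy0.le hyle s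
      _ = Real.exp (l / 4) := by
          rw [← Real.exp_nat_mul]
          congr 1
          field_simp
  have hyq : (y : ℝ) ≤ Real.exp (l / 4) := by
    refine hyle.trans (Real.exp_le_exp.2 ?_)
    rw [div_le_div_iff₀ (by positivity) (by norm_num)]
    have := mul_le_mul_of_nonneg_left hsR hlpos.le
    linarith
  have hys0 : (0 : ℝ) ≤ (y : ℝ) ^ s := by positivity
  have hyz : y ≤ z := by
    have h1 : (y : ℝ) ≤ L := by
      rw [← hLexp]
      exact hyq.trans (Real.exp_le_exp.2 (by linarith))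
    have h2 : y ≤ L := by exact_mod_cast h1
    exact h2.trans hLz
  have hz2 : 2 ≤ z := hy2.trans hyz
  have hz0 : (0 : ℝ) < z := by exact_mod_cast (by omega : 0 < z)
  have hlz : Real.log z ≤ S * l := by
    calc Real.log z ≤ Real.log ((L : ℝ) ^ S) := Real.log_le_log hz0 (by exact_mod_cast hzL)
      _ = S * l := by rw [Real.log_pow]
  have hlz0 : 0 < Real.log z := Real.log_pos (by
    have : (2 : ℝ) ≤ z := by exact_mod_cast hz2
    linarith)
  obtain ⟨hVz, -⟩ := hV z hz2
  obtain ⟨-, hVy⟩ := hV y hy2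
  have hVyp := V_pos y
  have hVzp := V_pos z
  have hVz' : c1 / (S * l) ≤ V z := by
    refine le_trans ?_ hVz
    exact div_le_div_of_nonneg_left hc1.le hlz0 hlz
  have hVy' : V y ≤ 5 * s * C1 / l := by
    refine hVy.trans ?_
    calc C1 / Real.log y ≤ C1 / (l / (5 * s)) :=
          div_le_div_of_nonneg_left hC1.le hlydpos hly
      _ = 5 * s * C1 / l := by field_simp
  have hVyz : V y ≤ κ1 * V z := by
    calc V y ≤ 5 * s * C1 / l := hVy'
      _ = κ1 * (c1 / (S * l)) := by rw [hκ1]; field_simp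
      _ ≤ κ1 * V z := mul_le_mul_of_nonneg_left hVz' hκ1pos.le
  have hΛs : ∑ p ∈ Nat.primesBelow z \ Nat.primesBelow y, 1 / (p : ℝ) ≤ Λ := by
    refine (P2_recip y z hyz).trans (le_trans ?_ (le_max_left _ _))
    refine Real.log_le_log (by positivity) ?_
    rw [div_le_iff₀ hVzp]
    exact hVyz
  have hLl : (L : ℝ) = Real.exp (l / 4) * Real.exp (3 / 4 * l) := by
    rw [← Real.exp_add, ← hLexp]
    congr 1
    ring
  have hVL : c1 / (S * l) * L ≤ V z * L := mul_le_mul_of_nonneg_right hVz' hLR.le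
  have hsmall : (3 * τ + 2 * ε) * V y * L + 4 * (y : ℝ) ^ s ≤ δ / 2 * (V z * L) := by
    have h1 : (3 * τ + 2 * ε) * V y * L ≤ δ / 4 * (V z * L) := by
      have h2 : (3 * τ + 2 * ε) * V y ≤ (3 * τ + 2 * ε) * (κ1 * V z) :=
        mul_le_mul_of_nonneg_left hVyz (by positivity)
      have h3 : (3 * τ + 2 * ε) * (κ1 * V z) = (3 * τ * κ1 + 2 * ε * κ1) * V z := by ring
      have h4 : (3 * τ * κ1 + 2 * ε * κ1) * V z ≤ δ / 4 * V z :=
        mul_le_mul_of_nonneg_right (by linarith) hVzp.le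
      calc (3 * τ + 2 * ε) * V y * L ≤ δ / 4 * V z * L :=
            mul_le_mul_of_nonneg_right (by linarith) hLR.le
        _ = _ := by ring
    have h2 : 4 * (y : ℝ) ^ s ≤ δ / 4 * (V z * L) := by
      calc 4 * (y : ℝ) ^ s ≤ 4 * Real.exp (l / 4) := by linarith
        _ ≤ δ / 4 * (c1 / (S * l) * L) := by
            rw [hLl]
            have h3 : δ / 4 * (c1 / (S * l) * (Real.exp (l / 4) * Real.exp (3 / 4 * l))) =
                Real.exp (l / 4) * (δ * c1 / (4 * (S * l)) * Real.exp (3 / 4 * l)) := by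
              field_simp
            rw [h3, mul_comm (4 : ℝ)]
            refine mul_le_mul_of_nonneg_left ?_ (Real.exp_pos _).le
            rw [div_mul_eq_mul_div, le_div_iff₀ (by positivity)]
            have h4 : 16 * S / (δ * c1) * l * (δ * c1) = 16 * S * l := by field_simp
            have h5 := mul_le_mul_of_nonneg_right e3 (by positivity : 0 ≤ δ * c1)
            rw [h4] at h5
            linarith
        _ ≤ δ / 4 * (V z * L) := mul_le_mul_of_nonneg_left hVL (by positivity)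
    linarith
  set η : ℝ := δ * c1 * L / (2 * (K + 1) * S * l) with hη
  have hη0 : 0 < η := by positivity
  have hηK : η * (K + 1) ≤ δ / 2 * (V z * L) := by
    calc η * (K + 1) = δ / 2 * (c1 / (S * l) * L) := by
          rw [hη]
          field_simp
      _ ≤ _ := mul_le_mul_of_nonneg_left hVL (by positivity)
  have hη1 : 1 ≤ η := by
    rw [hη, le_div_iff₀ (by positivity), one_mul]
    have h4 : 2 * (K + 1) * S / (δ * c1) * l * (δ * c1) = 2 * (K + 1) * S * l := by field_simp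
    have h5 := mul_le_mul_of_nonneg_right e4 (by positivity : 0 ≤ δ * c1)
    rw [h4, one_mul, hLexp] at h5
    linarith
  -- choice of the moment
  have hN1 : (1 : ℕ) ≤ N := (Nat.one_le_pow _ _ hL1).trans hLN
  have hNR : (0 : ℝ) < N := by exact_mod_cast hN1
  set x : ℝ := Real.log N with hx
  have hxexp : Real.exp x = N := Real.exp_log hNR
  have hBlx : (B : ℝ) * l ≤ x := by
    have h1 : Real.log ((L : ℝ) ^ B) ≤ Real.log N :=
      Real.log_le_log (by positivity) (by exact_mod_cast hLN)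
    rwa [Real.log_pow] at h1
  have hB3R : (160 : ℝ) * s * D ≤ B := by exact_mod_cast hB3
  have hsD1 : (1 : ℝ) ≤ s * D := by
    calc (1 : ℝ) = 1 * 1 := by ring
      _ ≤ s * D := mul_le_mul hsR hDR (by norm_num) (by linarith)
  have hx160 : 160 * s * D * l ≤ x := (mul_le_mul_of_nonneg_right hB3R hlpos.le).trans hBlx
  have hx4 : 4 * (D : ℝ) * l ≤ x := by
    refine le_trans ?_ hx160
    refine mul_le_mul_of_nonneg_right ?_ hlpos.le
    have : (D : ℝ) ≤ s * D := le_mul_of_one_le_left (by linarith) hsR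
    linarith
  obtain ⟨i, hie, hi1, hi2, hi3⟩ := conc_moment_choice x D l hDR (by linarith) hx4
  set mR : ℝ := (i : ℝ) + 2 with hmR
  have hmR2 : 2 ≤ mR := by rw [hmR]; linarith [(Nat.cast_nonneg i : (0 : ℝ) ≤ (i : ℝ))]
  have hx1 : 1 ≤ x := by linarith
  -- T
  have hsq : 0 < Real.sqrt y := Real.sqrt_pos.2 hy0
  have hsq2 : Real.sqrt y ^ 2 = y := Real.sq_sqrt hy0.le
  have hsqle : Real.sqrt y ≤ y := by
    rw [Real.sqrt_le_left hy0.le, pow_two]
    exact le_mul_of_one_le_left hy0.le (by linarith)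
  set T : ℝ := 7 * mR * L / Real.sqrt y with hT
  have hT0 : 0 < T := by positivity
  have hysL : (y : ℝ) ^ s ≤ L / y := by
    rw [le_div_iff₀ hy0]
    calc (y : ℝ) ^ s * y ≤ Real.exp (l / 4) * Real.exp (l / 4) :=
          mul_le_mul hys hyq hy0.le (Real.exp_pos _).le
      _ = Real.exp (l / 2) := by rw [← Real.exp_add]; congr 1; ring
      _ ≤ L := by rw [← hLexp]; exact Real.exp_le_exp.2 (by linarith)
  have hΛy : (y : ℝ) ^ s * Λ ≤ L / y := by
    rw [le_div_iff₀ hy0]
    have h1 : Λ ≤ Real.exp (1 / 2 * l) := by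
      refine le_trans ?_ e5
      exact le_mul_of_one_le_right hΛ0 (by linarith)
    calc (y : ℝ) ^ s * Λ * y ≤ Real.exp (l / 4) * Real.exp (1 / 2 * l) * Real.exp (l / 4) :=
          mul_le_mul (mul_le_mul hys h1 hΛ0 (Real.exp_pos _).le) hyq hy0.le (by positivity)
      _ = L := by
          rw [← Real.exp_add, ← Real.exp_add, ← hLexp]
          congr 1
          ring
  have hysL' : (y : ℝ) ^ s ≤ L := hysL.trans (div_le_self hLR.le (by linarith))
  have hTc : ∀ p ∈ Nat.primesBelow z \ Nat.primesBelow y,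
      ((i : ℝ) + 2) * (2 * L / p + (y : ℝ) ^ s) ≤ T := by
    intro p hp
    rw [Finset.mem_sdiff, Nat.mem_primesBelow, Nat.mem_primesBelow] at hp
    have hpy : y ≤ p := by
      by_contra h
      exact hp.2 ⟨by omega, hp.1.2⟩
    have hpyR : (y : ℝ) ≤ p := by exact_mod_cast hpy
    have h1 : 2 * (L : ℝ) / p ≤ 2 * L / y := div_le_div_of_nonneg_left (by positivity) hy0 hpyR
    have h2 : 2 * (L : ℝ) / p + (y : ℝ) ^ s ≤ 3 * L / y := by
      have h3 : 3 * (L : ℝ) / y = 2 * L / y + L / y := by ring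
      rw [h3]
      linarith
    have h4 : 3 * (L : ℝ) / y ≤ 3 * L / Real.sqrt y :=
      div_le_div_of_nonneg_left (by positivity) hsq hsqle
    calc ((i : ℝ) + 2) * (2 * L / p + (y : ℝ) ^ s) ≤ mR * (3 * L / Real.sqrt y) := by
          rw [← hmR]
          exact mul_le_mul_of_nonneg_left (h2.trans h4) (by linarith)
      _ = 3 * mR * L / Real.sqrt y := by ring
      _ ≤ T := by
          rw [hT]
          refine div_le_div_of_nonneg_right ?_ hsq.le
          have : 0 ≤ mR * L := by positivity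
          linarith
  have hTs : 3 * ((i : ℝ) + 2) ^ 2 * (2 * L + (y : ℝ) ^ s) *
      ∑ p ∈ Nat.primesBelow z \ Nat.primesBelow y, (2 * L / (p : ℝ) + (y : ℝ) ^ s) / p ≤
      T ^ 2 := by
    have h1 : ∑ p ∈ Nat.primesBelow z \ Nat.primesBelow y, (2 * L / (p : ℝ) + (y : ℝ) ^ s) / p =
        2 * L * ∑ p ∈ Nat.primesBelow z \ Nat.primesBelow y, 1 / (p : ℝ) ^ 2 +
        (y : ℝ) ^ s * ∑ p ∈ Nat.primesBelow z \ Nat.primesBelow y, 1 / (p : ℝ) := by
      rw [mul_sum, mul_sum, ← sum_add_distrib]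
      refine sum_congr rfl fun p _ => ?_
      rw [add_div, div_div, pow_two]
      ring
    have h2 : ∑ p ∈ Nat.primesBelow z \ Nat.primesBelow y, (2 * L / (p : ℝ) + (y : ℝ) ^ s) / p ≤
        5 * L / y := by
      rw [h1]
      have h3 : 2 * (L : ℝ) * ∑ p ∈ Nat.primesBelow z \ Nat.primesBelow y, 1 / (p : ℝ) ^ 2 ≤
          2 * L * (2 / y) := mul_le_mul_of_nonneg_left (sum_inv_sq y z hy2) (by positivity)
      have h4 : (y : ℝ) ^ s * ∑ p ∈ Nat.primesBelow z \ Nat.primesBelow y, 1 / (p : ℝ) ≤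
          (y : ℝ) ^ s * Λ := mul_le_mul_of_nonneg_left hΛs hys0
      have h5 : 5 * (L : ℝ) / y = 2 * L * (2 / y) + L / y := by ring
      rw [h5]
      linarith
    have h3 : 3 * ((i : ℝ) + 2) ^ 2 * (2 * L + (y : ℝ) ^ s) ≤ 3 * mR ^ 2 * (3 * L) := by
      rw [← hmR]
      exact mul_le_mul_of_nonneg_left (by linarith) (by positivity)
    have h0 : 0 ≤ ∑ p ∈ Nat.primesBelow z \ Nat.primesBelow y,
        (2 * L / (p : ℝ) + (y : ℝ) ^ s) / p := sum_nonneg fun p _ => by positivity
    calc _ ≤ (3 * mR ^ 2 * (3 * L)) * (5 * L / y) := mul_le_mul h3 h2 h0 (by positivity)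
      _ = 45 * (mR ^ 2 * L ^ 2 / y) := by ring
      _ ≤ 49 * (mR ^ 2 * L ^ 2 / y) := by
          refine mul_le_mul_of_nonneg_right (by norm_num) (by positivity)
      _ = T ^ 2 := by
          rw [hT, div_pow, hsq2]
          ring
  have hK1' := (esm_P2_le y z Λ hΛs K).trans hK1
  have hK2' := (esm_P2_le y z Λ hΛs (K + 1)).trans hK2
  obtain ⟨Up, Low, hW⟩ := hs y (by omega)
  have hfin := conc_count hW hτ0 hτ1 z (by omega) hyz K hKe ε hε1 hK1' hK2' A L M N δ hsmall
    η hη0 hηK i hie T hT0 hTc hTs Λ hΛs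
  refine hfin.trans ?_
  -- numerical bound
  set m : ℕ := i + 2 with hm
  have hmcast : (m : ℝ) = mR := by rw [hm, hmR]; push_cast; ring
  have hm1 : 1 ≤ m := by omega
  have hn1 := conc_num1 K m hm1 Λ hΛ0
  set EF : ℝ := (Real.exp (1 + m * Λ) * (1 + Λ)) ^ K * (((K * m).factorial : ℝ) *
    Real.exp (2 * Λ)) with hEF
  have hEF0 : 0 ≤ EF := by positivity
  set AA : ℝ := L * ((y : ℝ) ^ s * (2 * (z : ℝ) ^ K)) with hAA
  have hAA0 : 0 ≤ AA := by positivity
  have hrew : (K + 1) * (N * ((Real.exp (1 + (i + 2) * Λ) * (1 + Λ)) ^ K *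
        (T ^ m * (L * (((K * m).factorial : ℝ) * Real.exp (2 * Λ))))) + AA ^ m) / η ^ m =
      (K + 1) * (N * (L * (EF * (T / η) ^ m)) + (AA / η) ^ m) := by
    have h1 : Real.exp (1 + (i + 2) * Λ) = Real.exp (1 + m * Λ) := by
      rw [hmcast]
    rw [h1, hEF]
    exact hrew_aux _ _ _ _ _ _ _ _ _ _ _
  rw [hrew]
  -- first term
  have hTη : T / η = 14 * (K + 1) * S / (δ * c1) * (mR * l / Real.sqrt y) := by
    rw [hT, hη]
    field_simp
    ring
  have hmK : mR ^ (K + 1) ≤ Real.exp (1 / (40 * s) * l) := by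
    have h1 : (mR ^ (K + 1)) ^ (40 * s) ≤ (Real.exp (1 / (40 * s) * l)) ^ (40 * s) := by
      have h2 : (Real.exp (1 / (40 * s) * l)) ^ (40 * s) = L := by
        rw [← Real.exp_nat_mul, ← hLexp]
        congr 1
        push_cast
        field_simp
      rw [h2, ← pow_mul]
      calc mR ^ ((K + 1) * (40 * s)) ≤ x ^ ((K + 1) * (40 * s)) :=
            pow_le_pow_left₀ (by linarith) hi3 _
        _ ≤ x ^ B := pow_le_pow_right₀ hx1 (by
            calc (K + 1) * (40 * s) = 40 * s * (K + 1) := by ring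
              _ ≤ B := hB2)
        _ ≤ L := hNL
    exact (pow_le_pow_iff_left₀ (by positivity) (Real.exp_pos _).le (by omega)).1 h1
  have hbase : Real.exp (K + 2 * K * Λ + 2 * Λ) * (((K : ℝ) * m) ^ K) * (T / η) ≤
      Real.exp (-(l / (20 * s))) := by
    rw [hTη, hmcast]
    have h1 : Real.exp (K + 2 * K * Λ + 2 * Λ) * (((K : ℝ) * mR) ^ K) *
        (14 * (K + 1) * S / (δ * c1) * (mR * l / Real.sqrt y)) =
        (C5 * l) * mR ^ (K + 1) / Real.sqrt y := by
      rw [hC5, mul_pow, pow_succ mR K]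
      ring
    rw [h1]
    have h2 : Real.exp (l / (10 * s)) ≤ Real.sqrt y := by
      refine Real.le_sqrt_of_sq_le ?_
      refine le_trans (le_of_eq ?_) hyge
      rw [← Real.exp_nat_mul]
      congr 1
      push_cast
      field_simp
      ring
    calc (C5 * l) * mR ^ (K + 1) / Real.sqrt y
        ≤ Real.exp (1 / (40 * s) * l) * Real.exp (1 / (40 * s) * l) / Real.exp (l / (10 * s)) := by
          refine div_le_div₀ (by positivity) ?_ (Real.exp_pos _) h2
          exact mul_le_mul e2 hmK (by positivity) (Real.exp_pos _).le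
      _ = Real.exp (-(l / (20 * s))) := by
          rw [← Real.exp_add, ← Real.exp_sub]
          congr 1
          field_simp
          ring
  have hfirst : EF * (T / η) ^ m ≤ Real.exp (-(x / (80 * s * D))) := by
    calc EF * (T / η) ^ m ≤ (Real.exp (K + 2 * K * Λ + 2 * Λ) * (((K : ℝ) * m) ^ K)) ^ m *
          (T / η) ^ m := mul_le_mul_of_nonneg_right hn1 (by positivity)
      _ = (Real.exp (K + 2 * K * Λ + 2 * Λ) * (((K : ℝ) * m) ^ K) * (T / η)) ^ m := by
          rw [← mul_pow]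
      _ ≤ Real.exp (-(l / (20 * s))) ^ m := pow_le_pow_left₀ (by positivity) hbase m
      _ = Real.exp (-(mR * l / (20 * s))) := by
          rw [← Real.exp_nat_mul, hmcast]
          congr 1
          ring
      _ ≤ Real.exp (-(x / (80 * s * D))) := by
          refine Real.exp_le_exp.2 (neg_le_neg ?_)
          have h1 := hi1
          rw [div_le_iff₀ (by positivity)] at h1
          rw [div_le_div_iff₀ (by positivity) (by positivity)]
          have h2 : 0 ≤ (20 : ℝ) * s := by positivity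
          have h3 := mul_le_mul_of_nonneg_right h1 h2
          calc x * (20 * s) ≤ (i + 2) * (4 * D * l) * (20 * s) := h3
            _ = mR * l * (80 * s * D) := by rw [hmR]; ring
  have hLle : (L : ℝ) ≤ Real.exp (x / (160 * s * D)) := by
    rw [← hLexp]
    refine Real.exp_le_exp.2 ?_
    rw [le_div_iff₀ (by positivity)]
    linarith
  have hNc : (N : ℝ) ^ (1 - 1 / (160 * (s : ℝ) * D)) = Real.exp (x - x / (160 * s * D)) := by
    rw [Real.rpow_def_of_pos hNR]
    congr 1
    rw [← hx]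
    ring
  have hterm1 : N * (L * (EF * (T / η) ^ m)) ≤ Real.exp (x - x / (160 * s * D)) := by
    calc N * (L * (EF * (T / η) ^ m)) ≤ Real.exp x * (Real.exp (x / (160 * s * D)) *
          Real.exp (-(x / (80 * s * D)))) := by
          rw [hxexp]
          refine mul_le_mul_of_nonneg_left (mul_le_mul hLle hfirst (by positivity)
            (Real.exp_pos _).le) hNR.le
      _ = Real.exp (x - x / (160 * s * D)) := by
          rw [← Real.exp_add, ← Real.exp_add]
          congr 1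
          field_simp
          ring
  have hterm2 : (AA / η) ^ m ≤ Real.exp (x - x / (160 * s * D)) := by
    have h1 : AA / η ≤ AA := div_le_self hAA0 hη1
    have h2 : AA ≤ Real.exp (D * l) := by
      have h3 : (z : ℝ) ^ K ≤ Real.exp ((S * K : ℕ) * l) := by
        calc (z : ℝ) ^ K ≤ ((L : ℝ) ^ S) ^ K :=
              pow_le_pow_left₀ hz0.le (by exact_mod_cast hzL) K
          _ = Real.exp ((S * K : ℕ) * l) := by
              rw [← pow_mul, ← hLexp, ← Real.exp_nat_mul]
      have h4 : (2 : ℝ) ≤ Real.exp (3 / 4 * l) := by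
        have := Real.add_one_le_exp (3 / 4 * l)
        linarith
      calc AA = L * ((y : ℝ) ^ s * (2 * (z : ℝ) ^ K)) := rfl
        _ ≤ Real.exp l * (Real.exp (l / 4) * (Real.exp (3 / 4 * l) *
            Real.exp ((S * K : ℕ) * l))) := by
            rw [hLexp]
            refine mul_le_mul_of_nonneg_left (mul_le_mul hys (mul_le_mul h4 h3 (by positivity)
              (Real.exp_pos _).le) (by positivity) (Real.exp_pos _).le) hLR.le
        _ = Real.exp (D * l) := by
            rw [← Real.exp_add, ← Real.exp_add, ← Real.exp_add]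
            congr 1
            rw [hD]
            push_cast
            ring
    calc (AA / η) ^ m ≤ Real.exp (D * l) ^ m :=
          pow_le_pow_left₀ (by positivity) (h1.trans h2) m
      _ = Real.exp (mR * (D * l)) := by rw [← Real.exp_nat_mul, hmcast]
      _ ≤ Real.exp (x - x / (160 * s * D)) := by
          refine Real.exp_le_exp.2 (hi2.trans ?_)
          have h3 : x / (160 * s * D) ≤ x / 2 := by
            refine div_le_div_of_nonneg_left (by linarith) (by norm_num) ?_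
            linarith
          linarith
  rw [hNc]
  have hB4R : 2 * ((K : ℝ) + 1) ≤ B := by exact_mod_cast hB4
  have hE0 : 0 < Real.exp (x - x / (160 * s * D)) := Real.exp_pos _
  calc (K + 1) * (N * (L * (EF * (T / η) ^ m)) + (AA / η) ^ m)
      ≤ (K + 1) * (Real.exp (x - x / (160 * s * D)) + Real.exp (x - x / (160 * s * D))) :=
        mul_le_mul_of_nonneg_left (add_le_add hterm1 hterm2) (by positivity)
    _ = 2 * ((K : ℝ) + 1) * Real.exp (x - x / (160 * s * D)) := by ring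
    _ ≤ B * Real.exp (x - x / (160 * s * D)) := mul_le_mul_of_nonneg_right hB4R hE0.le

end Pool.Agent.Lib_helper10.Erdos460
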