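import Mathlib
import Pool.Agent.Lib_helper10.Erdos460.Block
import Pool.Agent.Lib_helper10.Erdos460.Greedy

set_option autoImplicit false
open N435e839e

namespace Pool.Agent.Lib_helper10.Erdos460

open Finset Filter Topology

lemma XS_le_totalSum (y A n : ℕ) (h : A < n) : XS y A n ≤ totalSum false n := by
  classical
  unfold XS totalSum
  rw [← sum_filter]
  refine sum_le_sum_of_subset_of_nonneg ?_ fun a _ _ => by positivity
  intro a ha
  rw [mem_filter, mem_Ioc] at ha
  refine sel_of_rough (by omega) (by omega) fun p hp hpa => ?_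
  exact ha.2 p (Nat.mem_primesBelow.2 ⟨hpa, hp⟩)

lemma XS_split (y z A n : ℕ) (h1 : y ≤ z) (h2 : z ≤ A) : XS y A n = XS y z n + XS z A n := by
  unfold XS
  rw [← sum_union]
  · rw [Ioc_union_Ioc_eq_Ioc h1 h2]
  · rw [Finset.disjoint_left]
    intro a ha hb
    rw [mem_Ioc] at ha hb
    omega

/-- several blocks -/
theorem multi_block (δ : ℝ) (hδ0 : 0 < δ) (hδ1 : δ ≤ 1 / 8) : ∃ s : ℕ, 1 ≤ s ∧ ∃ x1 C : ℝ,
    2 ≤ x1 ∧ 0 < C ∧ ∀ J : ℕ, ∀ x : ℝ, x1 ≤ (1 - δ) ^ J * x → ∀ N : ℕ,
    Real.exp (4 * s * x) ≤ N → ∀ M : ℕ, BB x ≤ M →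
    ((((Ioc M (M + N)).filter
      (fun n => XS (BB ((1 - δ) ^ (J + 1) * x)) (BB x) n <
        (J + 1) * (kap * δ * (1 - 4 * δ)))).card : ℕ) : ℝ) ≤
      C * N * Real.exp (-((1 - δ) ^ J * x / 4)) := by
  classical
  obtain ⟨s, hs1, x1, C, hx1, hC, hblk⟩ := block_est δ hδ0 hδ1
  set ρ : ℝ := Real.exp (-(δ * x1 / 4)) with hρ
  have hρ1 : ρ < 1 := by
    rw [hρ, Real.exp_lt_one_iff]
    have : 0 < δ * x1 := by positivity
    linarith
  have hρ0 : 0 < ρ := Real.exp_pos _
  have h1ρ : 0 < 1 - ρ := by linarith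
  refine ⟨s, hs1, x1, C / (1 - ρ), hx1, by positivity, ?_⟩
  have h1δ : 0 < 1 - δ := by linarith
  intro J
  induction J with
  | zero =>
    intro x hx N hN M hM
    rw [pow_zero, one_mul] at hx ⊢
    rw [zero_add, pow_one]
    have h := hblk x hx N hN M hM
    have h2 : C ≤ C / (1 - ρ) := by
      rw [le_div_iff₀ h1ρ]
      nlinarith
    push_cast
    rw [zero_add, one_mul]
    refine h.trans ?_
    refine mul_le_mul_of_nonneg_right (mul_le_mul_of_nonneg_right h2 (by positivity))
      (Real.exp_pos _).le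
  | succ J ih =>
    intro x hx N hN M hM
    set G := kap * δ * (1 - 4 * δ) with hG
    have hpow : 0 < (1 - δ) ^ J := by positivity
    have hxJ : (1 - δ) ^ (J + 1) * x ≤ (1 - δ) ^ J * x := by
      have hx0 : 0 < x := by
        by_contra hneg
        push Not at hneg
        have : (1 - δ) ^ (J + 1) * x ≤ 0 :=
          mul_nonpos_of_nonneg_of_nonpos (by positivity) hneg
        linarith
      refine mul_le_mul_of_nonneg_right ?_ hx0.le
      exact pow_le_pow_of_le_one h1δ.le (by linarith) (Nat.le_succ J)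
    have hx0 : 0 < x := by
      by_contra hneg
      push Not at hneg
      have : (1 - δ) ^ (J + 1) * x ≤ 0 :=
        mul_nonpos_of_nonneg_of_nonpos (by positivity) hneg
      linarith
    have hle1 : (1 - δ) ^ (J + 1) * x ≤ x := by
      have : (1 - δ) ^ (J + 1) ≤ 1 := pow_le_one₀ h1δ.le (by linarith)
      nlinarith
    have h1 := ih x (hx.trans hxJ) N hN M hM
    have h2 := hblk ((1 - δ) ^ (J + 1) * x) hx N (by
      refine le_trans (Real.exp_le_exp.2 ?_) hN
      exact mul_le_mul_of_nonneg_left hle1 (by positivity)) M ((BB_mono hle1).trans hM)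
    have hidx : (1 - δ) * ((1 - δ) ^ (J + 1) * x) = (1 - δ) ^ (J + 1 + 1) * x := by ring
    rw [hidx] at h2
    have hmono1 : BB ((1 - δ) ^ (J + 1 + 1) * x) ≤ BB ((1 - δ) ^ (J + 1) * x) := by
      refine BB_mono ?_
      rw [← hidx]
      have : 0 ≤ (1 - δ) ^ (J + 1) * x := by positivity
      nlinarith
    have hmono2 : BB ((1 - δ) ^ (J + 1) * x) ≤ BB x := BB_mono hle1
    have hsub : (Ioc M (M + N)).filter
        (fun n => XS (BB ((1 - δ) ^ (J + 1 + 1) * x)) (BB x) n < ((J + 1 : ℕ) + 1) * G) ⊆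
        (Ioc M (M + N)).filter
          (fun n => XS (BB ((1 - δ) ^ (J + 1) * x)) (BB x) n < (J + 1) * G) ∪
        (Ioc M (M + N)).filter
          (fun n => XS (BB ((1 - δ) ^ (J + 1 + 1) * x)) (BB ((1 - δ) ^ (J + 1) * x)) n < G) := by
      intro n hn
      rw [mem_filter] at hn
      rw [mem_union, mem_filter, mem_filter]
      rw [XS_split _ _ _ n hmono1 hmono2] at hn
      by_contra hcon
      push Not at hcon
      have h3 := hcon.1 hn.1
      have h4 := hcon.2 hn.1
      have h5 := hn.2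
      push_cast at h5
      nlinarith
    have hcard : ((((Ioc M (M + N)).filter
        (fun n => XS (BB ((1 - δ) ^ (J + 1 + 1) * x)) (BB x) n <
          ((J + 1 : ℕ) + 1) * G)).card : ℕ) : ℝ) ≤
        ((((Ioc M (M + N)).filter
          (fun n => XS (BB ((1 - δ) ^ (J + 1) * x)) (BB x) n < (J + 1) * G)).card : ℕ) : ℝ) +
        ((((Ioc M (M + N)).filter
          (fun n => XS (BB ((1 - δ) ^ (J + 1 + 1) * x)) (BB ((1 - δ) ^ (J + 1) * x)) n
            < G)).card : ℕ) : ℝ) := by
      exact_mod_cast (card_le_card hsub).trans (card_union_le _ _)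
    refine hcard.trans ((add_le_add h1 h2).trans ?_)
    -- e^{-x_J/4} ≤ ρ e^{-x_{J+1}/4}
    have hexp : Real.exp (-((1 - δ) ^ J * x / 4)) ≤
        ρ * Real.exp (-((1 - δ) ^ (J + 1) * x / 4)) := by
      rw [hρ, ← Real.exp_add]
      refine Real.exp_le_exp.2 ?_
      have h3 : (1 - δ) ^ (J + 1) * x = (1 - δ) ^ J * x - δ * ((1 - δ) ^ J * x) := by ring
      have h4 : x1 ≤ (1 - δ) ^ J * x := hx.trans hxJ
      have h5 : δ * x1 ≤ δ * ((1 - δ) ^ J * x) := mul_le_mul_of_nonneg_left h4 hδ0.le
      rw [h3]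
      linarith
    have hE := Real.exp_pos (-((1 - δ) ^ (J + 1) * x / 4))
    have hCN : 0 ≤ C / (1 - ρ) * N := by positivity
    calc C / (1 - ρ) * N * Real.exp (-((1 - δ) ^ J * x / 4)) +
          C * N * Real.exp (-((1 - δ) ^ (J + 1) * x / 4))
        ≤ C / (1 - ρ) * N * (ρ * Real.exp (-((1 - δ) ^ (J + 1) * x / 4))) +
          C * N * Real.exp (-((1 - δ) ^ (J + 1) * x / 4)) := by
          have := mul_le_mul_of_nonneg_left hexp hCN
          linarith
      _ = C / (1 - ρ) * N * Real.exp (-((1 - δ) ^ (J + 1) * x / 4)) := by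
          field_simp
          ring

/-- Large deviation bound for small values of `S(n)`, uniformly in intervals. -/
theorem exceptional_bound (ε : ℝ) (hε : 0 < ε) : ∃ c C : ℝ, 0 < c ∧ 0 < C ∧
    ∀ K : ℝ, 0 ≤ K → ∀ M N : ℕ, 1 ≤ N →
    ((((Ioc M (M + N)).filter (fun n => totalSum false n < K)).card : ℕ) : ℝ) ≤
      C * (N : ℝ) ^ (1 - c *
        Real.exp (-((1 + ε) * Real.exp Real.eulerMascheroniConstant * K))) := by
  classical
  set δ : ℝ := min (1 / 8) (ε / (5 * (1 + ε))) with hδ
  have hδ0 : 0 < δ := lt_min (by norm_num) (by positivity)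
  have hδ1 : δ ≤ 1 / 8 := min_le_left _ _
  have hδ2 : δ ≤ ε / (5 * (1 + ε)) := min_le_right _ _
  obtain ⟨s, hs1, x1, C, hx1, hC, hmb⟩ := multi_block δ hδ0 hδ1
  have hsR : (1 : ℝ) ≤ s := by exact_mod_cast hs1
  have h1δ : 0 < 1 - δ := by linarith
  set G := kap * δ * (1 - 4 * δ) with hG
  have hGpos : 0 < G := by
    have := kap_pos
    have : 0 < 1 - 4 * δ := by linarith
    positivity
  set c : ℝ := 7 / (128 * s) with hc
  have hcpos : 0 < c := by positivity
  have hc1 : c ≤ 3 / 4 := by
    rw [hc, div_le_iff₀ (by positivity)]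
    linarith
  refine ⟨c, 1 + C + Real.exp (x1 / 4), hcpos, by positivity, fun K hK M N hN => ?_⟩
  have hN1 : (1 : ℝ) ≤ N := by exact_mod_cast hN
  have hN0 : (0 : ℝ) < N := by linarith
  have hlogN : 0 ≤ Real.log N := Real.log_nonneg hN1
  set E : ℝ := Real.exp (-((1 + ε) * Real.exp Real.eulerMascheroniConstant * K)) with hE
  have hEpos : 0 < E := Real.exp_pos _
  have hE1 : E ≤ 1 := by
    rw [hE, Real.exp_le_one_iff]
    have : 0 ≤ (1 + ε) * Real.exp Real.eulerMascheroniConstant * K := by positivity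
    linarith
  have hpow : (N : ℝ) ^ (1 - c * E) = N * Real.exp (-(c * E * Real.log N)) := by
    rw [Real.rpow_def_of_pos hN0, mul_sub, mul_one, sub_eq_add_neg, Real.exp_add,
      Real.exp_log hN0]
    congr 2
    ring
  rw [hpow]
  set J : ℕ := ⌈K / G⌉₊ with hJ
  have hJK : K ≤ J * G := by
    have := Nat.le_ceil (K / G)
    rw [div_le_iff₀ hGpos] at this
    exact this
  have hJlt : (J : ℝ) ≤ K / G + 1 := (Nat.ceil_lt_add_one (by positivity)).le
  set x : ℝ := Real.log N / (4 * s) with hx
  have hx0 : 0 ≤ x := by positivity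
  -- lower bound for (1-δ)^J
  have hlogδ : -Real.log (1 - δ) ≤ δ / (1 - δ) := by
    have h := Real.one_sub_inv_le_log_of_pos h1δ
    have h2 : 1 - (1 - δ)⁻¹ = -(δ / (1 - δ)) := by
      field_simp
      ring
    linarith
  have hexpgam : Real.exp Real.eulerMascheroniConstant * kap = 1 := by
    unfold kap
    rw [← Real.exp_add]
    simp
  have hrate : -Real.log (1 - δ) / G ≤ (1 + ε) * Real.exp Real.eulerMascheroniConstant := by
    have h1 : -Real.log (1 - δ) / G ≤ δ / (1 - δ) / G :=
      div_le_div_of_nonneg_right hlogδ hGpos.le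
    refine h1.trans ?_
    have h2 : δ / (1 - δ) / G = Real.exp Real.eulerMascheroniConstant / ((1 - δ) * (1 - 4 * δ)) := by
      have h4δ : (1 - 4 * δ) ≠ 0 := by linarith
      have hk := kap_pos.ne'
      have hkinv : Real.exp Real.eulerMascheroniConstant = 1 / kap := by
        rw [eq_div_iff hk]
        exact hexpgam
      rw [hG, hkinv]
      rw [div_div, div_div, div_eq_div_iff (by positivity) (by positivity)]
      ring
    rw [h2]
    have h3 : 1 / (1 + ε) ≤ (1 - δ) * (1 - 4 * δ) := by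
      have h4 : 1 / (1 + ε) ≤ 1 - 5 * δ := by
        have h5 : 5 * δ ≤ ε / (1 + ε) := by
          calc 5 * δ ≤ 5 * (ε / (5 * (1 + ε))) := by linarith
            _ = ε / (1 + ε) := by field_simp
        have h6 : 1 / (1 + ε) = 1 - ε / (1 + ε) := by field_simp; ring
        linarith
      nlinarith
    have hpos : 0 < (1 - δ) * (1 - 4 * δ) := by
      have : 0 < 1 - 4 * δ := by linarith
      positivity
    rw [div_le_iff₀ hpos]
    have h7 : 1 ≤ (1 + ε) * ((1 - δ) * (1 - 4 * δ)) := by
      rw [div_le_iff₀ (by linarith)] at h3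
      linarith
    have h8 := Real.exp_pos Real.eulerMascheroniConstant
    nlinarith
  have hpowJ : (1 - δ) * E ≤ (1 - δ) ^ J := by
    have h1 : (1 - δ) ^ J = Real.exp (Real.log (1 - δ) * J) := by
      rw [mul_comm, Real.exp_nat_mul, Real.exp_log h1δ]
    have h2 : (1 - δ) * E = Real.exp (Real.log (1 - δ) +
        -((1 + ε) * Real.exp Real.eulerMascheroniConstant * K)) := by
      rw [Real.exp_add, Real.exp_log h1δ]
    rw [h1, h2]
    refine Real.exp_le_exp.2 ?_
    have hl : Real.log (1 - δ) ≤ 0 := Real.log_nonpos h1δ.le (by linarith)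
    have h3 : Real.log (1 - δ) * (K / G + 1) ≤ Real.log (1 - δ) * J :=
      mul_le_mul_of_nonpos_left hJlt hl
    have h4 : (-Real.log (1 - δ) / G) * K ≤
        ((1 + ε) * Real.exp Real.eulerMascheroniConstant) * K :=
      mul_le_mul_of_nonneg_right hrate hK
    have h5 : Real.log (1 - δ) * (K / G + 1) = -((-Real.log (1 - δ) / G) * K) +
        Real.log (1 - δ) := by ring
    linarith
  have hxJ : c * E * Real.log N ≤ (1 - δ) ^ J * x / 4 := by
    have h1 : (1 - δ) * E * x ≤ (1 - δ) ^ J * x := mul_le_mul_of_nonneg_right hpowJ hx0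
    have h2 : c * E * Real.log N = (7 / 8) * E * x / 4 := by
      rw [hc, hx]
      field_simp
      ring
    have h3 : (7 / 8) * E * x ≤ (1 - δ) * E * x := by
      refine mul_le_mul_of_nonneg_right (mul_le_mul_of_nonneg_right (by linarith) hEpos.le) hx0
    rw [h2]
    linarith
  have hcardle : ((((Ioc M (M + N)).filter (fun n => totalSum false n < K)).card : ℕ) : ℝ) ≤ N := by
    have : ((Ioc M (M + N)).filter (fun n => totalSum false n < K)).card ≤ N := by
      refine (card_filter_le _ _).trans ?_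
      simp
    exact_mod_cast this
  rcases lt_or_ge ((1 - δ) ^ J * x) x1 with hlt | hge
  · -- trivial range
    refine hcardle.trans ?_
    have h1 : 1 ≤ Real.exp (x1 / 4) * Real.exp (-(c * E * Real.log N)) := by
      rw [← Real.exp_add]
      refine Real.one_le_exp ?_
      linarith
    have h2 : 0 ≤ (1 + C) * (N * Real.exp (-(c * E * Real.log N))) := by positivity
    calc (N : ℝ) = N * 1 := by ring
      _ ≤ N * (Real.exp (x1 / 4) * Real.exp (-(c * E * Real.log N))) :=
          mul_le_mul_of_nonneg_left h1 hN0.le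
      _ ≤ (1 + C + Real.exp (x1 / 4)) * (N * Real.exp (-(c * E * Real.log N))) := by
          linarith
  · -- main range
    have hNx : Real.exp (4 * s * x) ≤ N := by
      have : 4 * s * x = Real.log N := by
        rw [hx]; field_simp
      rw [this, Real.exp_log hN0]
    have h1 := hmb J x hge N hNx (M + BB x) (Nat.le_add_left _ _)
    have hsub : (Ioc M (M + N)).filter (fun n => totalSum false n < K) ⊆
        Ioc M (M + BB x) ∪ (Ioc (M + BB x) (M + BB x + N)).filter
          (fun n => XS (BB ((1 - δ) ^ (J + 1) * x)) (BB x) n < (J + 1) * G) := by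
      intro n hn
      rw [mem_filter, mem_Ioc] at hn
      rw [mem_union, mem_Ioc, mem_filter, mem_Ioc]
      by_cases h2 : n ≤ M + BB x
      · exact Or.inl ⟨hn.1.1, h2⟩
      · refine Or.inr ⟨⟨by omega, by omega⟩, ?_⟩
        have h3 := XS_le_totalSum (BB ((1 - δ) ^ (J + 1) * x)) (BB x) n (by omega)
        have h4 : (J : ℝ) * G ≤ (J + 1) * G := by linarith
        linarith [hn.2]
    have hcard : ((((Ioc M (M + N)).filter (fun n => totalSum false n < K)).card : ℕ) : ℝ) ≤
        BB x + ((((Ioc (M + BB x) (M + BB x + N)).filter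
          (fun n => XS (BB ((1 - δ) ^ (J + 1) * x)) (BB x) n < (J + 1) * G)).card : ℕ) : ℝ) := by
      have h2 := (card_le_card hsub).trans (card_union_le _ _)
      have h3 : (Ioc M (M + BB x)).card = BB x := by simp
      rw [h3] at h2
      exact_mod_cast h2
    refine hcard.trans ((add_le_add_right h1 _).trans ?_)
    have h2 : Real.exp (-((1 - δ) ^ J * x / 4)) ≤ Real.exp (-(c * E * Real.log N)) :=
      Real.exp_le_exp.2 (by linarith)
    have h3 : (BB x : ℝ) ≤ N * Real.exp (-(c * E * Real.log N)) := by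
      refine (BB_le x).trans ?_
      have h4 : (N : ℝ) * Real.exp (-(c * E * Real.log N)) =
          Real.exp (Real.log N + -(c * E * Real.log N)) := by
        rw [Real.exp_add, Real.exp_log hN0]
      rw [h4]
      refine Real.exp_le_exp.2 ?_
      have h5 : x ≤ Real.log N / 4 := by
        rw [hx]
        refine div_le_div_of_nonneg_left hlogN (by norm_num) ?_
        linarith
      have h6 : c * E * Real.log N ≤ 3 / 4 * Real.log N := by
        refine mul_le_mul_of_nonneg_right ?_ hlogN
        calc c * E ≤ c * 1 := mul_le_mul_of_nonneg_left hE1 hcpos.le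
          _ ≤ 3 / 4 := by linarith
      linarith
    have h4 : C * N * Real.exp (-((1 - δ) ^ J * x / 4)) ≤
        C * (N * Real.exp (-(c * E * Real.log N))) := by
      calc C * N * Real.exp (-((1 - δ) ^ J * x / 4)) ≤
            C * N * Real.exp (-(c * E * Real.log N)) :=
            mul_le_mul_of_nonneg_left h2 (by positivity)
        _ = _ := by ring
    have h5 : 0 ≤ Real.exp (x1 / 4) * (N * Real.exp (-(c * E * Real.log N))) := by positivity
    linarith

end Pool.Agent.Lib_helper10.Erdos460
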