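import Mathlib
import Pool.Agent.Lib_helper10.Erdos460.SecondMoment

set_option autoImplicit false

namespace Pool.Agent.Lib_helper10.Erdos460

open Finset Filter Topology

/-- number of pairs `j < j'` weighted by the singular series is at most the number of pairs -/
lemma pair_r_sum (Q : Finset ℕ) (hQ : ∀ q ∈ Q, q.Prime) (J : ℕ) :
    ∑ j ∈ Icc 1 J, ∑ j' ∈ Icc 1 J with j < j', ∏ q ∈ Q, rq q (j' - j) ≤
      ∑ j ∈ Icc 1 J, ∑ _j' ∈ Icc 1 J with j < _j', (1 : ℝ) := by
  refine sum_le_sum fun j hj => ?_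
  have hj' := mem_Icc.1 hj
  have hfil : (Icc 1 J).filter (fun j' => j < j') = Ioc j J := by
    ext b
    simp only [mem_filter, mem_Icc, mem_Ioc]
    omega
  rw [hfil]
  have hre : ∀ f : ℕ → ℝ, ∑ b ∈ Ioc j J, f b = ∑ h ∈ Icc 1 (J - j), f (j + h) := by
    intro f
    symm
    refine sum_bij (fun h _ => j + h) ?_ ?_ ?_ ?_
    · intro h hh
      rw [mem_Icc] at hh
      rw [mem_Ioc]
      omega
    · intro h _ h' _ e
      exact Nat.add_left_cancel e
    · intro b hb
      rw [mem_Ioc] at hb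
      exact ⟨b - j, by rw [mem_Icc]; omega, by omega⟩
    · intro h _
      rfl
  rw [hre, hre]
  have h1 : ∀ h ∈ Icc 1 (J - j), ∏ q ∈ Q, rq q (j + h - j) = ∏ q ∈ Q, rq q h := by
    intro h _
    rw [Nat.add_sub_cancel_left]
  rw [sum_congr rfl h1]
  refine (rsum_le Q hQ (J - j)).trans (le_of_eq ?_)
  simp

/-- Given a prime `p < a`, few `n ≡ a (mod p)` have no `n - (a - jp)` free of the primes `< a`
other than `p`. -/
theorem no_use_count (M N a p : ℕ) (hp : p.Prime) (hpa : p < a) (haM : a ≤ M) (k : ℕ)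
    (lam : ℝ) (hlam : ∑ q ∈ Nat.primesBelow a, ((2 : ℝ) / q) ≤ lam) :
    ((((Ioc M (M + N)).filter (fun n => n ≡ a [MOD p] ∧
      ∀ j ∈ Icc 1 ((a - 1) / p), ¬ ∀ q ∈ (Nat.primesBelow a).erase p,
        ¬ q ∣ n - (a - j * p))).card : ℕ) : ℝ) ≤
      ((N : ℝ) / p) / (((a - 1) / p : ℕ) * V a) + 4 * errB N p lam a k / V a ^ 2 := by
  classical
  set J := (a - 1) / p with hJ
  have hJ1 : 1 ≤ J := by
    rw [hJ, Nat.le_div_iff_mul_le hp.pos]
    omega
  have hJp : J * p ≤ a - 1 := Nat.div_mul_le_self _ _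
  have hJR : (1 : ℝ) ≤ J := by exact_mod_cast hJ1
  set P' := (Nat.primesBelow a).erase p with hP'
  have hP'p : ∀ q ∈ P', q.Prime := fun q hq => (Nat.mem_primesBelow.1 (mem_of_mem_erase hq)).2
  have hpP' : p ∉ P' := notMem_erase p _
  have hcop : ∀ q ∈ P', Nat.Coprime p q := by
    intro q hq
    rw [Nat.coprime_primes hp (hP'p q hq)]
    rintro rfl
    exact hpP' hq
  have hcardP' : (P'.card : ℝ) ≤ a := by
    exact_mod_cast (card_le_card (erase_subset _ _)).trans (card_primesBelow_le a)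
  have ha1 : (1 : ℝ) ≤ a := by exact_mod_cast (by omega : 1 ≤ a)
  have hlam' : ∑ q ∈ P', ((2 : ℝ) / q) ≤ lam :=
    (sum_le_sum_of_subset_of_nonneg (erase_subset _ _) fun q _ _ => by positivity).trans hlam
  have hlam0 : 0 ≤ lam := le_trans (sum_nonneg fun q _ => by positivity) hlam
  set Err := errB N p lam a k with hErr
  have hErr1 : 1 ≤ Err := by
    rw [hErr]
    unfold errB
    have h1 : 0 ≤ 2 * ((N : ℝ) / p * (lam ^ k / (k.factorial : ℝ))) := by positivity
    have h2 : (1 : ℝ) ≤ (2 * (a : ℝ)) ^ k := one_le_pow₀ (by linarith)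
    linarith
  set v := ∏ q ∈ P', (1 - 1 / (q : ℝ)) with hv
  have hv0 : 0 < v := prod_pos fun q hq => (prime_factor_bounds (hP'p q hq)).1
  have hv1 : v ≤ 1 := prod_le_one (fun q hq => (prime_factor_bounds (hP'p q hq)).1.le)
    fun q hq => (prime_factor_bounds (hP'p q hq)).2
  have hVv : V a ≤ v := by
    unfold V
    have hpm : p ∈ Nat.primesBelow a := Nat.mem_primesBelow.2 ⟨hpa, hp⟩
    rw [← mul_prod_erase _ _ hpm]
    have := (prime_factor_bounds hp).2
    calc (1 - 1 / (p : ℝ)) * ∏ q ∈ (Nat.primesBelow a).erase p, (1 - 1 / (q : ℝ))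
        ≤ 1 * v := mul_le_mul_of_nonneg_right this hv0.le
      _ = v := one_mul v
  have hVa := V_pos a
  set I' := (Ioc M (M + N)).filter (fun n => n ≡ a [MOD p]) with hI'
  set Fp : ℕ → ℕ → Prop := fun n j => ∀ q ∈ P', ¬ q ∣ n - (a - j * p) with hFp
  set ind : ℕ → ℕ → ℝ := fun n j => if Fp n j then 1 else 0 with hind
  set X : ℝ := (N : ℝ) / p with hX
  have hX0 : 0 ≤ X := by positivity
  have hcardI' : (I'.card : ℝ) ≤ X + 1 := by
    have := (abs_le.1 (count_modEq M N p a hp.pos)).2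
    linarith
  -- single counts
  have hc1 : ∀ j ∈ Icc 1 J, |∑ n ∈ I', ind n j - X * v| ≤ Err := by
    intro j hj
    have hj' := mem_Icc.1 hj
    have h := pair_count M N p a (a - j * p) (a - j * p) hp.pos ∅ P' (disjoint_empty_left _)
      (by simp) hP'p (by simp) hcop le_rfl (by omega) a (by rw [empty_union]; exact hcardP')
      ha1 k lam (by rw [empty_union]; exact hlam')
    have h2 : ∑ n ∈ I', ind n j = ((((Ioc M (M + N)).filter (fun n => n ≡ a [MOD p] ∧
        (∀ q ∈ (∅ : Finset ℕ), ¬ q ∣ n - (a - j * p) ∧ ¬ q ∣ n - (a - j * p)) ∧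
        (∀ q ∈ P', ¬ q ∣ n - (a - j * p)))).card : ℕ) : ℝ) := by
      simp only [hind]
      rw [sum_boole, hI', filter_filter]
      congr 2
      refine filter_congr fun n _ => ?_
      simp [hFp]
    rw [h2]
    rw [prod_empty, one_mul] at h
    exact h
  have hc2 : ∀ j ∈ Icc 1 J, ∀ j' ∈ Icc 1 J, j < j' → ∑ n ∈ I', ind n j * ind n j' ≤
      X * (v ^ 2 * ∏ q ∈ P', rq q (j' - j)) + Err := by
    intro j hj j' hj' hjj'
    have hj1 := mem_Icc.1 hj
    have hj1' := mem_Icc.1 hj'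
    have hjp' : j' * p ≤ a - 1 := (Nat.mul_le_mul_right p hj1'.2).trans hJp
    have hjp : j * p < j' * p := Nat.mul_lt_mul_of_pos_right hjj' hp.pos
    have h := pair_count M N p a (a - j' * p) (a - j * p) hp.pos P' ∅ (disjoint_empty_right _)
      hP'p (by simp) hcop (by simp) (by omega) (by omega) a (by rw [union_empty]; exact hcardP')
      ha1 k lam (by rw [union_empty]; exact hlam')
    have h2 : ∑ n ∈ I', ind n j * ind n j' = ((((Ioc M (M + N)).filter (fun n => n ≡ a [MOD p] ∧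
        (∀ q ∈ P', ¬ q ∣ n - (a - j' * p) ∧ ¬ q ∣ n - (a - j * p)) ∧
        (∀ q ∈ (∅ : Finset ℕ), ¬ q ∣ n - (a - j * p)))).card : ℕ) : ℝ) := by
      have e : ∀ n, ind n j * ind n j' = if (Fp n j ∧ Fp n j') then 1 else 0 := by
        intro n
        simp only [hind]
        by_cases h1 : Fp n j <;> by_cases h2 : Fp n j' <;> simp [h1, h2]
      simp only [e]
      rw [sum_boole, hI', filter_filter]
      congr 2
      refine filter_congr fun n _ => ?_
      simp only [hFp, notMem_empty, false_imp_iff, implies_true, and_true]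
      constructor
      · rintro ⟨h3, h4, h5⟩
        exact ⟨h3, fun q hq => ⟨h5 q hq, h4 q hq⟩⟩
      · rintro ⟨h3, h4⟩
        exact ⟨h3, fun q hq => (h4 q hq).2, fun q hq => (h4 q hq).1⟩
    have h3 : (a - j * p) - (a - j' * p) = p * (j' - j) := by
      have h5 : j' * p = j * p + p * (j' - j) := by
        obtain ⟨t, rfl⟩ : ∃ t, j' = j + t := ⟨j' - j, by omega⟩
        rw [Nat.add_sub_cancel_left]
        ring
      omega
    have h4 : ∏ q ∈ P', (1 - (cq q ((a - j * p) - (a - j' * p)) : ℝ) / q) =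
        v ^ 2 * ∏ q ∈ P', rq q (j' - j) := by
      rw [h3]
      have h5 : ∏ q ∈ P', rq q (j' - j) = ∏ q ∈ P', rq q (p * (j' - j)) :=
        (prod_rq_mul P' hP'p hp hpP' _).symm
      rw [h5, hv, ← prod_pow, ← prod_mul_distrib]
      refine prod_congr rfl fun q hq => ?_
      have hq' := (prime_factor_bounds (hP'p q hq)).1
      unfold rq
      field_simp
    rw [h4] at h
    rw [h2]
    have h5 := (abs_le.1 h).2
    rw [prod_empty, mul_one] at h5
    linarith
  set Z : ℕ → ℝ := fun n => ∑ j ∈ Icc 1 J, ind n j with hZ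
  have hcardJ : ((Icc 1 J).card : ℝ) = J := by simp
  have hsum1 : J * (X * v - Err) ≤ ∑ n ∈ I', Z n := by
    simp only [hZ]
    rw [sum_comm]
    have h1 : ∀ j ∈ Icc 1 J, X * v - Err ≤ ∑ n ∈ I', ind n j := fun j hj => by
      have := (abs_le.1 (hc1 j hj)).1
      linarith
    calc (J : ℝ) * (X * v - Err) = ∑ _j ∈ Icc 1 J, (X * v - Err) := by
          rw [sum_const, nsmul_eq_mul, hcardJ]
      _ ≤ _ := sum_le_sum h1
  have hpairs : (J : ℝ) ^ 2 = J + 2 * ∑ j ∈ Icc 1 J, ∑ _j' ∈ Icc 1 J with j < _j', (1 : ℝ) := by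
    have h := sum_sq_split (Icc 1 J) (fun _ _ => (1 : ℝ)) (fun _ _ => rfl)
    simp only [sum_const, nsmul_eq_mul, mul_one, hcardJ] at h ⊢
    rw [sq]
    exact h
  set np := ∑ j ∈ Icc 1 J, ∑ _j' ∈ Icc 1 J with j < _j', (1 : ℝ) with hnp
  have hnp0 : 0 ≤ np := sum_nonneg fun j _ => sum_nonneg fun j' _ => zero_le_one
  have hsum2 : ∑ n ∈ I', (Z n) ^ 2 ≤ X * J * v + X * (J : ℝ) ^ 2 * v ^ 2 + (J : ℝ) ^ 2 * Err := by
    have e1 : ∑ n ∈ I', (Z n) ^ 2 =
        ∑ j ∈ Icc 1 J, ∑ j' ∈ Icc 1 J, ∑ n ∈ I', ind n j * ind n j' := by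
      have : ∀ n ∈ I', (Z n) ^ 2 = ∑ j ∈ Icc 1 J, ∑ j' ∈ Icc 1 J, ind n j * ind n j' := by
        intro n _
        simp only [hZ]
        rw [sq, sum_mul_sum]
      rw [sum_congr rfl this, sum_comm]
      refine sum_congr rfl fun j _ => ?_
      rw [sum_comm]
    rw [e1, sum_sq_split (Icc 1 J) (fun j j' => ∑ n ∈ I', ind n j * ind n j')
      (fun j j' => sum_congr rfl fun n _ => mul_comm _ _)]
    have hdiag : ∑ j ∈ Icc 1 J, ∑ n ∈ I', ind n j * ind n j ≤ J * (X * v + Err) := by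
      calc ∑ j ∈ Icc 1 J, ∑ n ∈ I', ind n j * ind n j ≤ ∑ _j ∈ Icc 1 J, (X * v + Err) := by
            refine sum_le_sum fun j hj => ?_
            have h0 : ∑ n ∈ I', ind n j * ind n j = ∑ n ∈ I', ind n j := by
              refine sum_congr rfl fun n _ => ?_
              simp only [hind]
              split_ifs <;> simp
            rw [h0]
            have := (abs_le.1 (hc1 j hj)).2
            linarith
        _ = J * (X * v + Err) := by rw [sum_const, nsmul_eq_mul, hcardJ]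
    have hoff : ∑ j ∈ Icc 1 J, ∑ j' ∈ Icc 1 J with j < j', ∑ n ∈ I', ind n j * ind n j' ≤
        X * v ^ 2 * np + Err * np := by
      have h1 : ∑ j ∈ Icc 1 J, ∑ j' ∈ Icc 1 J with j < j', ∑ n ∈ I', ind n j * ind n j' ≤
          ∑ j ∈ Icc 1 J, ∑ j' ∈ Icc 1 J with j < j',
            (X * v ^ 2 * ∏ q ∈ P', rq q (j' - j) + Err * 1) := by
        refine sum_le_sum fun j hj => sum_le_sum fun j' hj' => ?_
        have hj'' := mem_filter.1 hj'
        refine (hc2 j hj j' hj''.1 hj''.2).trans (le_of_eq ?_)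
        ring
      refine h1.trans ?_
      have h2 : ∑ j ∈ Icc 1 J, ∑ j' ∈ Icc 1 J with j < j',
            (X * v ^ 2 * ∏ q ∈ P', rq q (j' - j) + Err * 1) =
          X * v ^ 2 * ∑ j ∈ Icc 1 J, ∑ j' ∈ Icc 1 J with j < j', ∏ q ∈ P', rq q (j' - j) +
          Err * np := by
        rw [hnp, mul_sum, mul_sum, ← sum_add_distrib]
        refine sum_congr rfl fun j _ => ?_
        rw [mul_sum, mul_sum, ← sum_add_distrib]
      rw [h2]
      have h3 := mul_le_mul_of_nonneg_left (pair_r_sum P' hP'p J)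
        (by positivity : 0 ≤ X * v ^ 2)
      linarith
    have hXv : 0 ≤ X * v ^ 2 := by positivity
    have h4 : X * v ^ 2 * (2 * np) ≤ X * v ^ 2 * (J : ℝ) ^ 2 := by
      refine mul_le_mul_of_nonneg_left ?_ hXv
      rw [hpairs]
      linarith
    have h5 : Err * (J + 2 * np) = Err * (J : ℝ) ^ 2 := by rw [hpairs]
    nlinarith
  have hexp : ∑ n ∈ I', (Z n - J * v) ^ 2 =
      ∑ n ∈ I', (Z n) ^ 2 - 2 * (J * v) * ∑ n ∈ I', Z n + I'.card * (J * v) ^ 2 := by
    have : ∀ n ∈ I', (Z n - J * v) ^ 2 = (Z n) ^ 2 - 2 * (J * v) * Z n + (J * v) ^ 2 :=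
      fun n _ => by ring
    rw [sum_congr rfl this, sum_add_distrib, sum_sub_distrib, ← mul_sum, sum_const, nsmul_eq_mul]
  have hvar : ∑ n ∈ I', (Z n - J * v) ^ 2 ≤ X * J * v + 4 * ((J : ℝ) ^ 2 * Err) := by
    rw [hexp]
    have h1 : 2 * (J * v) * (J * (X * v - Err)) ≤ 2 * (J * v) * ∑ n ∈ I', Z n :=
      mul_le_mul_of_nonneg_left hsum1 (by positivity)
    have h2 : (I'.card : ℝ) * (J * v) ^ 2 ≤ (X + 1) * (J * v) ^ 2 :=
      mul_le_mul_of_nonneg_right hcardI' (sq_nonneg _)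
    have hJ2 : 0 ≤ (J : ℝ) ^ 2 := sq_nonneg _
    have h3 : (J : ℝ) ^ 2 * v ^ 2 ≤ (J : ℝ) ^ 2 * Err := by
      refine mul_le_mul_of_nonneg_left ?_ hJ2
      have : v ^ 2 ≤ 1 := pow_le_one₀ hv0.le hv1
      linarith
    have h4 : (J : ℝ) ^ 2 * (v * Err) ≤ (J : ℝ) ^ 2 * Err := by
      refine mul_le_mul_of_nonneg_left ?_ hJ2
      nlinarith
    nlinarith
  -- Chebyshev
  have hsub : (Ioc M (M + N)).filter (fun n => n ≡ a [MOD p] ∧
      ∀ j ∈ Icc 1 J, ¬ ∀ q ∈ P', ¬ q ∣ n - (a - j * p)) = I'.filter (fun n => Z n = 0) := by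
    rw [hI', filter_filter]
    refine filter_congr fun n _ => ?_
    constructor
    · rintro ⟨h1, h2⟩
      refine ⟨h1, ?_⟩
      simp only [hZ]
      refine sum_eq_zero fun j hj => ?_
      simp only [hind, hFp]
      rw [if_neg (h2 j hj)]
    · rintro ⟨h1, h2⟩
      refine ⟨h1, fun j hj h3 => ?_⟩
      simp only [hZ] at h2
      have h4 := (sum_eq_zero_iff_of_nonneg (fun j _ => by
        simp only [hind]; split_ifs <;> norm_num)).1 h2 j hj
      simp only [hind, hFp] at h4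
      rw [if_pos h3] at h4
      norm_num at h4
  rw [hsub]
  have h1 : ((I'.filter (fun n => Z n = 0)).card : ℝ) * (J * v) ^ 2 ≤
      X * J * v + 4 * ((J : ℝ) ^ 2 * Err) := by
    refine le_trans ?_ hvar
    calc ((I'.filter (fun n => Z n = 0)).card : ℝ) * (J * v) ^ 2
        = ∑ _n ∈ I'.filter (fun n => Z n = 0), (J * v) ^ 2 := by rw [sum_const, nsmul_eq_mul]
      _ = ∑ n ∈ I'.filter (fun n => Z n = 0), (Z n - J * v) ^ 2 := by
          refine sum_congr rfl fun n hn => ?_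
          rw [(mem_filter.1 hn).2]
          ring
      _ ≤ ∑ n ∈ I', (Z n - J * v) ^ 2 :=
          sum_le_sum_of_subset_of_nonneg (filter_subset _ _) fun n _ _ => sq_nonneg _
  have hJv : 0 < (J * v) ^ 2 := by positivity
  have h2 : ((I'.filter (fun n => Z n = 0)).card : ℝ) ≤ X / (J * v) + 4 * Err / v ^ 2 := by
    have h3 : (X / (J * v) + 4 * Err / v ^ 2) * (J * v) ^ 2 =
        X * J * v + 4 * ((J : ℝ) ^ 2 * Err) := by
      field_simp
    rw [← h3] at h1
    exact le_of_mul_le_mul_right h1 hJv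
  refine h2.trans (add_le_add ?_ ?_)
  · refine div_le_div_of_nonneg_left hX0 (by positivity) ?_
    exact mul_le_mul_of_nonneg_left hVv (by positivity)
  · refine div_le_div_of_nonneg_left (by linarith) (by positivity) ?_
    exact pow_le_pow_left₀ hVa.le hVv 2

end Pool.Agent.Lib_helper10.Erdos460
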