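import Mathlib
import Pool.Agent.Lib_helper10.Erdos460.FirstUse
import Pool.Agent.Lib_helper10.Erdos460.Greedy
import Pool.Agent.Lib_helper10.Erdos460.VAsymp

set_option autoImplicit false
open N435e839e

namespace Pool.Agent.Lib_helper10.Erdos460

open Finset Filter Topology

/-- Number of `n` for which `a` is selected although `n - a` has a prime factor below `a`. -/
theorem sel_not_rough_count (M N a z : ℕ) (ha1 : 1 ≤ a) (haM : a ≤ M) (hz : 2 * z ≤ a) (k : ℕ)
    (lam : ℝ) (hlam : ∑ q ∈ Nat.primesBelow a, ((2 : ℝ) / q) ≤ lam) :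
    ((((Ioc M (M + N)).filter (fun n => a ∈ selected false n ∧ ¬ rough n a)).card : ℕ) : ℝ) ≤
      N * (2 * z / (a * V a)) +
      N * (V z * ∑ p ∈ Nat.primesBelow a \ Nat.primesBelow z, 1 / (p : ℝ)) +
      4 / V a ^ 2 * (N * (lam * (lam ^ k / (k.factorial : ℝ))) + 3 * a * (2 * (a : ℝ)) ^ k) := by
  classical
  have hlam0 : 0 ≤ lam := le_trans (sum_nonneg fun q _ => by positivity) hlam
  have haR : (1 : ℝ) ≤ a := by exact_mod_cast ha1
  have hVa := V_pos a
  have hVz := V_pos z
  set S := (Ioc M (M + N)).filter (fun n => a ∈ selected false n ∧ ¬ rough n a) with hS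
  set S1 : ℕ → Finset ℕ := fun p => (Ioc M (M + N)).filter (fun n => n ≡ a [MOD p] ∧
      ∀ j ∈ Icc 1 ((a - 1) / p), ¬ ∀ q ∈ (Nat.primesBelow a).erase p,
        ¬ q ∣ n - (a - j * p)) with hS1
  set S2 : ℕ → Finset ℕ := fun p => (Ioc M (M + N)).filter (fun n => n ≡ a [MOD p] ∧
      (∀ q ∈ (∅ : Finset ℕ), ¬ q ∣ n - a ∧ ¬ q ∣ n - a) ∧
      ∀ q ∈ Nat.primesBelow z, ¬ q ∣ n - a) with hS2
  have hza : z ≤ a := by omega
  have hcover : S ⊆ (Nat.primesBelow z).biUnion S1 ∪
      (Nat.primesBelow a \ Nat.primesBelow z).biUnion S2 := by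
    intro n hn
    rw [hS, mem_filter] at hn
    obtain ⟨hnI, hsel, hnr⟩ := hn
    have hnI' := mem_Ioc.1 hnI
    have han : a ≤ n := by omega
    rw [mem_union, mem_biUnion, mem_biUnion]
    by_cases h1 : ∃ p ∈ Nat.primesBelow z, p ∣ n - a
    · obtain ⟨p, hp, hpd⟩ := h1
      left
      refine ⟨p, hp, ?_⟩
      rw [hS1, mem_filter]
      have hp' := Nat.mem_primesBelow.1 hp
      refine ⟨hnI, ((Nat.modEq_iff_dvd' han).2 hpd).symm, fun j hj hall => ?_⟩
      rw [mem_Icc] at hj
      have hjp : j * p ≤ a - 1 := (Nat.mul_le_mul_right p hj.2).trans (Nat.div_mul_le_self _ _)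
      have hjp0 : 0 < j * p := Nat.mul_pos (by omega) hp'.2.pos
      set b := a - j * p with hb
      have hb1 : 1 ≤ b := by omega
      have hpb : p ∣ n - b := by
        have : n - b = (n - a) + j * p := by omega
        rw [this]
        exact dvd_add hpd (dvd_mul_left p j)
      obtain ⟨b', hb'sel, hb'le, hpb'⟩ := used_of_almost_rough hb1 (by omega : b < n) hpb
        (fun q hq hqb hqp => by
          refine hall q ?_
          rw [mem_erase]
          exact ⟨hqp, Nat.mem_primesBelow.2 ⟨by omega, hq⟩⟩)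
      exact not_dvd_of_used hp'.2 hsel hb'sel (by omega) hpb' hpd
    · push Not at h1
      right
      unfold rough at hnr
      push Not at hnr
      obtain ⟨p, hp, hpd⟩ := hnr
      have hpz : p ∉ Nat.primesBelow z := fun h => h1 p h hpd
      refine ⟨p, Finset.mem_sdiff.2 ⟨hp, hpz⟩, ?_⟩
      rw [hS2, mem_filter]
      exact ⟨hnI, ((Nat.modEq_iff_dvd' han).2 hpd).symm, by simp, h1⟩
  -- bounds
  have hb1 : ∀ p ∈ Nat.primesBelow z, ((S1 p).card : ℝ) ≤
      N * (2 / (a * V a)) + 4 / V a ^ 2 * errB N p lam a k := by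
    intro p hp
    have hp' := Nat.mem_primesBelow.1 hp
    have h := no_use_count M N a p hp'.2 (by omega) haM k lam hlam
    have hp0 : (0 : ℝ) < p := by exact_mod_cast hp'.2.pos
    have hJ : (a : ℝ) / (2 * p) ≤ (((a - 1) / p : ℕ) : ℝ) := by
      have h1 : a ≤ ((a - 1) / p + 1) * p := by
        have := Nat.lt_div_mul_add (a := a - 1) hp'.2.pos
        have e : ((a - 1) / p + 1) * p = (a - 1) / p * p + p := by ring
        omega
      have h2 : (a : ℝ) ≤ ((((a - 1) / p : ℕ) : ℝ) + 1) * p := by exact_mod_cast h1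
      have h3 : 2 * (p : ℝ) ≤ a := by exact_mod_cast (by omega : 2 * p ≤ a)
      rw [div_le_iff₀ (by positivity)]
      nlinarith
    refine h.trans (add_le_add ?_ (le_of_eq ?_))
    · have hpos : 0 < (a : ℝ) / (2 * p) * V a := by positivity
      calc ((N : ℝ) / p) / (((a - 1) / p : ℕ) * V a) ≤ ((N : ℝ) / p) / ((a : ℝ) / (2 * p) * V a) :=
            div_le_div_of_nonneg_left (by positivity) hpos
              (mul_le_mul_of_nonneg_right hJ hVa.le)
        _ = N * (2 / (a * V a)) := by field_simp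
    · ring
  have hb2 : ∀ p ∈ Nat.primesBelow a \ Nat.primesBelow z, ((S2 p).card : ℝ) ≤
      N * (V z * (1 / (p : ℝ))) + 4 / V a ^ 2 * errB N p lam a k := by
    intro p hp
    rw [Finset.mem_sdiff] at hp
    have hp' := Nat.mem_primesBelow.1 hp.1
    have hpz : z ≤ p := by
      by_contra h
      exact hp.2 (Nat.mem_primesBelow.2 ⟨by omega, hp'.2⟩)
    have h := pair_count M N p a a a hp'.2.pos ∅ (Nat.primesBelow z) (disjoint_empty_left _)
      (by simp) (fun q hq => (Nat.mem_primesBelow.1 hq).2) (by simp)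
      (fun q hq => by
        have hq' := Nat.mem_primesBelow.1 hq
        rw [Nat.coprime_primes hp'.2 hq'.2]
        omega) le_rfl haM a (by
        rw [empty_union]
        exact_mod_cast (card_primesBelow_le z).trans hza) haR k lam (by
        rw [empty_union]
        exact (sum_le_sum_of_subset_of_nonneg (primesBelow_mono hza)
          fun q _ _ => by positivity).trans hlam)
    have h1 := (abs_le.1 h).2
    rw [prod_empty, one_mul] at h1
    have hE : 0 ≤ errB N p lam a k := errB_nonneg _ _ _ _ _ (by positivity) (by positivity)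
      hlam0 (by positivity)
    have h4 : errB N p lam a k ≤ 4 / V a ^ 2 * errB N p lam a k := by
      have h5 : 1 ≤ 4 / V a ^ 2 := by
        rw [le_div_iff₀ (by positivity)]
        have : V a ^ 2 ≤ 1 := pow_le_one₀ hVa.le (V_le_one a)
        linarith
      nlinarith
    have h6 : (N : ℝ) / p * ∏ q ∈ Nat.primesBelow z, (1 - 1 / (q : ℝ)) =
        N * (V z * (1 / (p : ℝ))) := by
      unfold V
      ring
    rw [h6] at h1
    simp only [hS2]
    linarith
  have hcard : (S.card : ℝ) ≤ ∑ p ∈ Nat.primesBelow z, ((S1 p).card : ℝ) +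
      ∑ p ∈ Nat.primesBelow a \ Nat.primesBelow z, ((S2 p).card : ℝ) := by
    have h1 : S.card ≤ ∑ p ∈ Nat.primesBelow z, (S1 p).card +
        ∑ p ∈ Nat.primesBelow a \ Nat.primesBelow z, (S2 p).card := by
      refine (card_le_card hcover).trans ((card_union_le _ _).trans ?_)
      exact add_le_add card_biUnion_le card_biUnion_le
    exact_mod_cast h1
  refine hcard.trans ((add_le_add (sum_le_sum hb1) (sum_le_sum hb2)).trans ?_)
  rw [sum_add_distrib, sum_add_distrib, sum_const, nsmul_eq_mul, ← mul_sum, ← mul_sum, ← mul_sum,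
    ← mul_sum]
  have h1 : ((Nat.primesBelow z).card : ℝ) * (N * (2 / (a * V a))) ≤ N * (2 * z / (a * V a)) := by
    have h2 : ((Nat.primesBelow z).card : ℝ) ≤ z := by exact_mod_cast card_primesBelow_le z
    calc ((Nat.primesBelow z).card : ℝ) * (N * (2 / (a * V a))) ≤ z * (N * (2 / (a * V a))) :=
          mul_le_mul_of_nonneg_right h2 (by positivity)
      _ = N * (2 * z / (a * V a)) := by ring
  have h2 : ∑ p ∈ Nat.primesBelow z, errB N p lam a k +
      ∑ p ∈ Nat.primesBelow a \ Nat.primesBelow z, errB N p lam a k ≤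
      N * (lam * (lam ^ k / (k.factorial : ℝ))) + 3 * a * (2 * (a : ℝ)) ^ k := by
    rw [add_comm, sum_sdiff (primesBelow_mono hza)]
    unfold errB
    rw [sum_add_distrib, sum_const, nsmul_eq_mul]
    refine add_le_add ?_ ?_
    · have h3 : ∑ p ∈ Nat.primesBelow a, 2 * ((N : ℝ) / p * (lam ^ k / (k.factorial : ℝ))) =
          N * ((∑ p ∈ Nat.primesBelow a, ((2 : ℝ) / p)) * (lam ^ k / (k.factorial : ℝ))) := by
        rw [sum_mul, mul_sum]
        refine sum_congr rfl fun p _ => ?_
        ring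
      rw [h3]
      refine mul_le_mul_of_nonneg_left (mul_le_mul_of_nonneg_right hlam (by positivity))
        (by positivity)
    · have h3 : ((Nat.primesBelow a).card : ℝ) ≤ a := by exact_mod_cast card_primesBelow_le a
      calc ((Nat.primesBelow a).card : ℝ) * (3 * (2 * (a : ℝ)) ^ k) ≤
            a * (3 * (2 * (a : ℝ)) ^ k) := mul_le_mul_of_nonneg_right h3 (by positivity)
        _ = 3 * a * (2 * (a : ℝ)) ^ k := by ring
  have h3 : 0 ≤ 4 / V a ^ 2 := by positivity
  have h4 := mul_le_mul_of_nonneg_left h2 h3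
  linarith

end Pool.Agent.Lib_helper10.Erdos460
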