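import Mathlib
import Pool.Agent.Lib_helper10.Erdos460.SelNotRough
import Pool.Agent.Lib_helper10.Erdos460.Block

set_option autoImplicit false
open N435e839e

namespace Pool.Agent.Lib_helper10.Erdos460

open Finset Filter Topology

/-- `t^2 e^{-θ t}` is eventually small -/
lemma eventually_sq_exp (θ η : ℝ) (hθ : 0 < θ) (hη : 0 < η) :
    ∀ᶠ t : ℝ in atTop, t ^ 2 * Real.exp (-θ * t) ≤ η := by
  have h := tendsto_rpow_mul_exp_neg_mul_atTop_nhds_zero 2 θ hθ
  filter_upwards [h.eventually (eventually_lt_nhds hη)] with t ht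
  have e : t ^ (2 : ℝ) = t ^ 2 := by
    rw [← Real.rpow_natCast]; norm_num
  rw [e] at ht
  exact ht.le

theorem nonrough_asymp : ∃ C1 : ℝ, 0 < C1 ∧ ∀ θ : ℝ, 0 < θ → θ ≤ 1 / 8 → ∃ a0 : ℕ, 3 ≤ a0 ∧
    ∀ a : ℕ, a0 ≤ a → ∃ z : ℕ, 2 * z ≤ a ∧
      2 * z / (a * V a) + V z * ∑ p ∈ Nat.primesBelow a \ Nat.primesBelow z, 1 / (p : ℝ) ≤
        C1 * θ / Real.log a := by
  classical
  obtain ⟨c, C, hc, hC, hV⟩ := V_bounds
  obtain ⟨M, C', hC'0, hM⟩ := mertens_second
  refine ⟨1 + 8 * C, by positivity, fun θ hθ hθ8 => ?_⟩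
  -- eventual conditions on t = log a
  have hev : ∀ᶠ t : ℝ in atTop, t ^ 2 * Real.exp (-θ * t) ≤ θ * c / 2 ∧ 1 / θ ≤ t ∧
      3 * C' / θ ≤ t ∧ 4 ≤ t :=
    (eventually_sq_exp θ (θ * c / 2) hθ (by positivity)).and
      ((eventually_ge_atTop _).and ((eventually_ge_atTop _).and (eventually_ge_atTop _)))
  have hev' : ∀ᶠ a : ℕ in atTop, (Real.log a) ^ 2 * Real.exp (-θ * Real.log a) ≤ θ * c / 2 ∧
      1 / θ ≤ Real.log a ∧ 3 * C' / θ ≤ Real.log a ∧ 4 ≤ Real.log a :=
    (Real.tendsto_log_atTop.comp tendsto_natCast_atTop_atTop).eventually hev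
  obtain ⟨a0, ha0⟩ := eventually_atTop.1 hev'
  refine ⟨max a0 3, le_max_right _ _, fun a ha => ?_⟩
  obtain ⟨h1, h2, h3, h4⟩ := ha0 a ((le_max_left _ _).trans ha)
  have ha3 : 3 ≤ a := (le_max_right _ _).trans ha
  set t := Real.log a with ht
  have ha0R : (0 : ℝ) < a := by exact_mod_cast (by omega : 0 < a)
  have hexpt : Real.exp t = a := Real.exp_log ha0R
  have htpos : 0 < t := by linarith
  have hθt : 1 ≤ θ * t := by
    rw [div_le_iff₀ hθ] at h2
    linarith
  have he : (2 : ℝ) ≤ Real.exp (θ * t) := by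
    have := Real.add_one_le_exp (θ * t)
    linarith
  set z := BB ((1 - θ) * t) with hz
  have hzle : (z : ℝ) ≤ Real.exp ((1 - θ) * t) := BB_le _
  have hzge : Real.exp ((1 - θ) * t) - 1 < z := by have := lt_BB ((1 - θ) * t); linarith
  have hE : Real.exp t = Real.exp ((1 - θ) * t) * Real.exp (θ * t) := by
    rw [← Real.exp_add]; congr 1; ring
  have h2z : 2 * z ≤ a := by
    have : 2 * (z : ℝ) ≤ a := by
      rw [← hexpt, hE]
      have := Real.exp_pos ((1 - θ) * t)
      nlinarith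
    exact_mod_cast this
  refine ⟨z, h2z, ?_⟩
  -- bounds for z - 1
  have hE2 : Real.exp ((1 - θ) * t) = Real.exp ((1 - 2 * θ) * t) * Real.exp (θ * t) := by
    rw [← Real.exp_add]; congr 1; ring
  have hE3 : (2 : ℝ) + 1 ≤ Real.exp ((1 - 2 * θ) * t) := by
    have := Real.add_one_le_exp ((1 - 2 * θ) * t)
    nlinarith
  have hz1 : Real.exp ((1 - 2 * θ) * t) ≤ (z : ℝ) - 1 := by
    rw [hE2] at hzge
    nlinarith
  have hz4 : 4 ≤ z := by
    have : (3 : ℝ) < z := by linarith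
    exact_mod_cast this
  have hzcast : ((z - 1 : ℕ) : ℝ) = z - 1 := by
    rw [Nat.cast_sub (by omega)]; simp
  have hacast : ((a - 1 : ℕ) : ℝ) = a - 1 := by
    rw [Nat.cast_sub (by omega)]; simp
  have hlogz1 : (1 - 2 * θ) * t ≤ Real.log ((z - 1 : ℕ) : ℝ) := by
    rw [hzcast, Real.le_log_iff_exp_le (by linarith)]
    exact hz1
  have hlogz : (1 - 2 * θ) * t ≤ Real.log (z : ℝ) := by
    refine hlogz1.trans (Real.log_le_log ?_ ?_)
    · rw [hzcast]; linarith
    · rw [hzcast]; linarith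
  have h12 : (3 / 4 : ℝ) ≤ 1 - 2 * θ := by linarith
  have hlow : 0 < (1 - 2 * θ) * t := by nlinarith
  have hlow2 : 3 / 4 * t ≤ (1 - 2 * θ) * t := mul_le_mul_of_nonneg_right h12 htpos.le
  -- first term
  have hterm1 : 2 * (z : ℝ) / (a * V a) ≤ θ / t := by
    have hVa := (hV a (by omega)).1
    have hVa0 := V_pos a
    have h5 : c / t ≤ V a := hVa
    calc 2 * (z : ℝ) / (a * V a) ≤ 2 * Real.exp ((1 - θ) * t) / (a * (c / t)) := by
          refine div_le_div₀ (by positivity) (by linarith) (by positivity) ?_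
          exact mul_le_mul_of_nonneg_left h5 ha0R.le
      _ = 2 * (Real.exp ((1 - θ) * t) / Real.exp t) * t / c := by
          rw [hexpt]; field_simp
      _ = 2 * Real.exp (-θ * t) * t / c := by
          rw [← Real.exp_sub]; congr 4; ring
      _ ≤ θ / t := by
          rw [div_le_div_iff₀ hc htpos]
          nlinarith
  -- V z
  have hVz : V z ≤ 2 * C / t := by
    refine (hV z (by omega)).2.trans ?_
    calc C / Real.log z ≤ C / (3 / 4 * t) :=
          div_le_div_of_nonneg_left hC.le (by positivity) (hlow2.trans hlogz)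
      _ ≤ 2 * C / t := by
          rw [div_le_div_iff₀ (by positivity) htpos]
          nlinarith
  -- prime sum
  have hza : z ≤ a := by omega
  have hsum : ∑ q ∈ Nat.primesBelow a \ Nat.primesBelow z, 1 / (q : ℝ) ≤ 4 * θ := by
    have hs : ∑ q ∈ Nat.primesBelow a \ Nat.primesBelow z, 1 / (q : ℝ) =
        ∑ q ∈ Nat.primesLE (a - 1), 1 / (q : ℝ) - ∑ q ∈ Nat.primesLE (z - 1), 1 / (q : ℝ) := by
      have e1 : Nat.primesLE (a - 1) = Nat.primesBelow a := by
        unfold Nat.primesLE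
        congr 1
        omega
      have e2 : Nat.primesLE (z - 1) = Nat.primesBelow z := by
        unfold Nat.primesLE
        congr 1
        omega
      rw [e1, e2, ← sum_sdiff (primesBelow_mono hza)]
      ring
    rw [hs]
    have m1 := (abs_le.1 (hM (a - 1) (by omega))).2
    have m2 := (abs_le.1 (hM (z - 1) (by omega))).1
    have hla1 : Real.log ((z - 1 : ℕ) : ℝ) ≤ Real.log ((a - 1 : ℕ) : ℝ) := by
      refine Real.log_le_log ?_ ?_
      · rw [hzcast]; linarith
      · exact_mod_cast (by omega : z - 1 ≤ a - 1)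
    have hla2 : Real.log ((a - 1 : ℕ) : ℝ) ≤ t := by
      rw [ht]
      refine Real.log_le_log ?_ ?_
      · exact_mod_cast (by omega : 0 < a - 1)
      · exact_mod_cast (by omega : a - 1 ≤ a)
    have e3 : C' / Real.log ((z - 1 : ℕ) : ℝ) ≤ C' / (3 / 4 * t) :=
      div_le_div_of_nonneg_left hC'0 (by positivity) (hlow2.trans hlogz1)
    have e4 : C' / Real.log ((a - 1 : ℕ) : ℝ) ≤ C' / (3 / 4 * t) :=
      div_le_div_of_nonneg_left hC'0 (by positivity) ((hlow2.trans hlogz1).trans hla1)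
    have e5 : C' / (3 / 4 * t) ≤ θ / 2 := by
      rw [div_le_div_iff₀ (by positivity) (by norm_num)]
      rw [div_le_iff₀ hθ] at h3
      nlinarith
    have e6 : Real.log (Real.log ((a - 1 : ℕ) : ℝ)) - Real.log (Real.log ((z - 1 : ℕ) : ℝ)) ≤
        3 * θ := by
      have f1 : Real.log (Real.log ((a - 1 : ℕ) : ℝ)) ≤ Real.log t :=
        Real.log_le_log (lt_of_lt_of_le hlow (hlogz1.trans hla1)) hla2
      have f2 : Real.log ((1 - 2 * θ) * t) ≤ Real.log (Real.log ((z - 1 : ℕ) : ℝ)) :=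
        Real.log_le_log hlow hlogz1
      rw [Real.log_mul (by linarith) htpos.ne'] at f2
      have f3 := Real.one_sub_inv_le_log_of_pos (x := 1 - 2 * θ) (by linarith)
      have f4 : (1 - 2 * θ)⁻¹ ≤ 1 + 3 * θ := by
        rw [inv_le_iff_one_le_mul₀ (by linarith)]
        nlinarith
      linarith
    linarith
  have hsum0 : 0 ≤ ∑ q ∈ Nat.primesBelow a \ Nat.primesBelow z, 1 / (q : ℝ) :=
    sum_nonneg fun q _ => by positivity
  have hterm2 : V z * ∑ p ∈ Nat.primesBelow a \ Nat.primesBelow z, 1 / (p : ℝ) ≤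
      (2 * C / t) * (4 * θ) := mul_le_mul hVz hsum hsum0 (by positivity)
  have e : (1 + 8 * C) * θ / t = θ / t + (2 * C / t) * (4 * θ) := by ring
  rw [e]
  exact add_le_add hterm1 hterm2

/-- `∑_{m < a ≤ A} 1/(a log a) ≤ log log A - log log m` -/
lemma inv_mul_log_sum (m A : ℕ) (hm : 2 ≤ m) (hmA : m ≤ A) :
    ∑ a ∈ Ioc m A, 1 / ((a : ℝ) * Real.log a) ≤
      Real.log (Real.log A) - Real.log (Real.log m) := by
  induction A, hmA using Nat.le_induction with
  | base => simp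
  | succ B hB ih =>
    rw [sum_Ioc_succ_top (by omega)]
    have hB2 : 2 ≤ B := by omega
    have hB0 : (2 : ℝ) ≤ B := by exact_mod_cast hB2
    have h1 := (loglog_diff hB2).1
    have h2 : 1 / ((B + 1 : ℕ) : ℝ) ≤ Real.log (B + 1 : ℕ) - Real.log B := by
      rw [← Real.log_div (by positivity) (by positivity)]
      have h3 := Real.one_sub_inv_le_log_of_pos (x := ((B + 1 : ℕ) : ℝ) / B) (by positivity)
      rw [inv_div] at h3
      refine le_trans (le_of_eq ?_) h3
      push_cast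
      field_simp
      ring
    have hl1 : 0 < Real.log (B + 1 : ℕ) := Real.log_pos (by push_cast; linarith)
    have h4 : 1 / (((B + 1 : ℕ) : ℝ) * Real.log (B + 1 : ℕ)) ≤
        (Real.log (B + 1 : ℕ) - Real.log B) / Real.log (B + 1 : ℕ) := by
      rw [← div_div]
      exact div_le_div_of_nonneg_right h2 hl1.le
    linarith

/-- upper bound for `V a` with the sharp constant -/
lemma V_upper_sharp (θ : ℝ) (hθ : 0 < θ) : ∀ᶠ a : ℕ in atTop, V a ≤ (kap + θ) / Real.log a := by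
  have h1 : ∀ᶠ n : ℕ in atTop, V (n + 1) * Real.log n < kap + θ / 2 :=
    mertens_third.eventually (eventually_lt_nhds (by unfold kap; linarith))
  have h2 : ∀ᶠ n : ℕ in atTop, 1 / (n : ℝ) < θ / 2 :=
    tendsto_one_div_atTop_nhds_zero_nat.eventually (eventually_lt_nhds (by linarith))
  obtain ⟨n0, hn0⟩ := eventually_atTop.1 (h1.and (h2.and (eventually_ge_atTop 2)))
  filter_upwards [eventually_ge_atTop (n0 + 1)] with a ha
  obtain ⟨n, rfl⟩ : ∃ n, a = n + 1 := ⟨a - 1, by omega⟩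
  obtain ⟨h3, h4, h5⟩ := hn0 n (by omega)
  have hl : 0 < Real.log ((n + 1 : ℕ) : ℝ) := Real.log_pos (by exact_mod_cast (by omega : 1 < n + 1))
  rw [le_div_iff₀ hl]
  have h6 := (log_succ_sub_le (n := n) (by omega)).2
  have h7 := V_le_one (n + 1)
  have h8 := V_pos (n + 1)
  have h9 := (log_succ_sub_le (n := n) (by omega)).1
  have h10 : V (n + 1) * (Real.log ((n + 1 : ℕ) : ℝ) - Real.log n) ≤ 1 / n := by
    calc V (n + 1) * (Real.log ((n + 1 : ℕ) : ℝ) - Real.log n)
        ≤ 1 * (Real.log ((n + 1 : ℕ) : ℝ) - Real.log n) := mul_le_mul_of_nonneg_right h7 h9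
      _ ≤ 1 / n := by rw [one_mul]; exact h6
  nlinarith

end Pool.Agent.Lib_helper10.Erdos460
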