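import Mathlib
import Pool.Agent.Lib_helper10.Erdos460.FMa

set_option autoImplicit false
open N435e839e

namespace Pool.Agent.Lib_helper10.Erdos460

open Finset Filter Topology

/-- contribution of the selected `a` in `(y, A]` -/
noncomputable def TS (y A n : ℕ) : ℝ :=
  ∑ a ∈ (Ioc y A).filter (fun a => a ∈ selected false n), (1 : ℝ) / a

noncomputable def ErrT (N lam : ℝ) (A k : ℕ) : ℝ :=
  errB N 1 lam A k +
    4 / V A ^ 2 * (N * (lam * (lam ^ k / (k.factorial : ℝ))) + 3 * A * (2 * (A : ℝ)) ^ k)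

theorem FM_finite : ∃ C1 : ℝ, 0 < C1 ∧ ∀ θ : ℝ, 0 < θ → θ ≤ 1 / 8 → ∃ a0 : ℕ, 3 ≤ a0 ∧
    ∀ A : ℕ, a0 ≤ A → ∀ M N : ℕ, A ≤ M → ∀ (k : ℕ) (lam : ℝ),
      ∑ q ∈ Nat.primesBelow A, ((2 : ℝ) / q) ≤ lam →
      ∑ n ∈ Ioc M (M + N), TS a0 A n ≤
        N * ((kap + C1 * θ) * (Real.log (Real.log A) - Real.log (Real.log a0))) +
          LL a0 A * ErrT N lam A k := by
  classical
  obtain ⟨C1, hC1, h⟩ := nonrough_asymp
  refine ⟨1 + C1, by positivity, fun θ hθ hθ8 => ?_⟩
  obtain ⟨a1, ha1, h1⟩ := h θ hθ hθ8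
  obtain ⟨a2, ha2⟩ := eventually_atTop.1 (V_upper_sharp θ hθ)
  refine ⟨max a1 a2, ha1.trans (le_max_left _ _), ?_⟩
  set a0 := max a1 a2 with ha0
  have ha03 : 3 ≤ a0 := ha1.trans (le_max_left _ _)
  intro A hA M N hAM k lam hlam
  have hlam0 : 0 ≤ lam := le_trans (sum_nonneg fun q _ => by positivity) hlam
  have hVA := V_pos A
  -- swap
  have hswap : ∑ n ∈ Ioc M (M + N), TS a0 A n = ∑ a ∈ Ioc a0 A, (1 / (a : ℝ)) *
      ((((Ioc M (M + N)).filter (fun n => a ∈ selected false n)).card : ℕ) : ℝ) := by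
    unfold TS
    simp only [sum_filter]
    rw [sum_comm]
    refine sum_congr rfl fun a _ => ?_
    rw [card_filter]
    push_cast
    rw [mul_sum]
    refine sum_congr rfl fun n _ => ?_
    split_ifs <;> simp
  rw [hswap]
  have hterm : ∀ a ∈ Ioc a0 A, (1 / (a : ℝ)) *
      ((((Ioc M (M + N)).filter (fun n => a ∈ selected false n)).card : ℕ) : ℝ) ≤
      N * ((kap + (1 + C1) * θ) * (1 / ((a : ℝ) * Real.log a))) +
        (1 / (a : ℝ)) * ErrT N lam A k := by
    intro a ha
    rw [mem_Ioc] at ha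
    have hlog : 0 < Real.log a := Real.log_pos (by exact_mod_cast (by omega : 1 < a))
    have haR : (0 : ℝ) < a := by exact_mod_cast (by omega : 0 < a)
    obtain ⟨z, hz, hz2⟩ := h1 a (by omega)
    have hV := ha2 a (by omega)
    have hVa := V_pos a
    have hVVa : V A ≤ V a := V_anti ha.2
    have hlama : ∑ q ∈ Nat.primesBelow a, ((2 : ℝ) / q) ≤ lam :=
      (sum_le_sum_of_subset_of_nonneg (primesBelow_mono ha.2) fun q _ _ => by positivity).trans hlam
    have hs1 := (abs_le.1 (single_count M N A a ha.2 hAM (by omega) k lam hlam)).2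
    have hs2 := sel_not_rough_count M N a z (by omega) (ha.2.trans hAM) hz k lam hlama
    have hcard : ((((Ioc M (M + N)).filter (fun n => a ∈ selected false n)).card : ℕ) : ℝ) ≤
        ((((Ioc M (M + N)).filter (fun n => rough n a)).card : ℕ) : ℝ) +
        ((((Ioc M (M + N)).filter (fun n => a ∈ selected false n ∧ ¬ rough n a)).card : ℕ) : ℝ)
        := by
      have hsub : (Ioc M (M + N)).filter (fun n => a ∈ selected false n) ⊆
          (Ioc M (M + N)).filter (fun n => rough n a) ∪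
          (Ioc M (M + N)).filter (fun n => a ∈ selected false n ∧ ¬ rough n a) := by
        intro n hn
        rw [mem_filter] at hn
        rw [mem_union, mem_filter, mem_filter]
        by_cases hr : rough n a
        · exact Or.inl ⟨hn.1, hr⟩
        · exact Or.inr ⟨hn.1, hn.2, hr⟩
      exact_mod_cast (card_le_card hsub).trans (card_union_le _ _)
    have hz3 : N * (2 * z / (a * V a)) +
        N * (V z * ∑ p ∈ Nat.primesBelow a \ Nat.primesBelow z, 1 / (p : ℝ)) ≤
        N * (C1 * θ / Real.log a) := by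
      rw [← mul_add]
      exact mul_le_mul_of_nonneg_left hz2 (by positivity)
    have hNV : (N : ℝ) * V a ≤ N * ((kap + θ) / Real.log a) :=
      mul_le_mul_of_nonneg_left hV (by positivity)
    have haA : (a : ℝ) ≤ A := by exact_mod_cast ha.2
    have hErr2 : 4 / V a ^ 2 * (N * (lam * (lam ^ k / (k.factorial : ℝ))) +
          3 * a * (2 * (a : ℝ)) ^ k) ≤
        4 / V A ^ 2 * (N * (lam * (lam ^ k / (k.factorial : ℝ))) +
          3 * A * (2 * (A : ℝ)) ^ k) := by
      refine mul_le_mul ?_ ?_ (by positivity) (by positivity)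
      · refine div_le_div_of_nonneg_left (by norm_num) (by positivity) ?_
        exact pow_le_pow_left₀ hVA.le hVVa 2
      · have h3 : 3 * (a : ℝ) * (2 * (a : ℝ)) ^ k ≤ 3 * A * (2 * (A : ℝ)) ^ k := by
          refine mul_le_mul (by linarith) ?_ (by positivity) (by positivity)
          exact pow_le_pow_left₀ (by positivity) (by linarith) k
        linarith
    have htot : ((((Ioc M (M + N)).filter (fun n => a ∈ selected false n)).card : ℕ) : ℝ) ≤
        N * ((kap + θ) / Real.log a) + N * (C1 * θ / Real.log a) + ErrT N lam A k := by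
      unfold ErrT
      linarith
    have h5 := mul_le_mul_of_nonneg_left htot (by positivity : (0 : ℝ) ≤ 1 / (a : ℝ))
    refine h5.trans (le_of_eq ?_)
    field_simp
    ring
  refine (sum_le_sum hterm).trans ?_
  rw [sum_add_distrib, ← mul_sum, ← mul_sum, ← sum_mul]
  have h6 := inv_mul_log_sum a0 A (by omega) hA
  have h7 : 0 ≤ kap + (1 + C1) * θ := by have := kap_pos; positivity
  have h8 := mul_le_mul_of_nonneg_left (mul_le_mul_of_nonneg_left h6 h7)
    (by positivity : (0 : ℝ) ≤ N)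
  unfold LL
  linarith

/-- parameters: eventually the error is negligible -/
theorem err_small (θ : ℝ) (hθ : 0 < θ) (hθ8 : θ ≤ 1 / 8) (a0 : ℕ) :
    ∀ᶠ N : ℕ in atTop, ∃ (k : ℕ) (lam : ℝ),
      ∑ q ∈ Nat.primesBelow (BB ((Real.log N) ^ (1 - θ))), ((2 : ℝ) / q) ≤ lam ∧
      LL a0 (BB ((Real.log N) ^ (1 - θ))) * ErrT N lam (BB ((Real.log N) ^ (1 - θ))) k ≤ N := by
  classical
  obtain ⟨c, C, hc, hC, hV⟩ := V_bounds
  obtain ⟨M, C', hC'0, hM⟩ := mertens_second
  have hl2 : 0 < Real.log 2 := Real.log_pos (by norm_num)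
  set C3 : ℝ := |M| + C' / Real.log 2 with hC3
  have hC30 : 0 ≤ C3 := by positivity
  set K : ℝ := 2 * (5 + 16 / c ^ 2) with hK
  have hKpos : 0 < K := by positivity
  -- eventual conditions in u
  have hlog_o : ∀ᶠ u : ℝ in atTop, Real.exp 2 * (2 * (Real.log u + C3)) ≤ u ^ (θ / 2) := by
    have h1 : Tendsto (fun u : ℝ => u ^ (-(θ / 2)) * Real.log u) atTop (𝓝 0) := by
      have h := isLittleO_log_rpow_atTop (r := θ / 2) (by positivity)
      have h2 := h.tendsto_div_nhds_zero
      refine h2.congr' ?_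
      filter_upwards [eventually_gt_atTop 0] with u hu
      rw [Real.rpow_neg hu.le, div_eq_inv_mul]
    have h3 : ∀ᶠ u : ℝ in atTop, u ^ (-(θ / 2)) * Real.log u < 1 / (4 * Real.exp 2) :=
      h1.eventually (eventually_lt_nhds (by positivity))
    have h4 : ∀ᶠ u : ℝ in atTop, 4 * Real.exp 2 * C3 ≤ u ^ (θ / 2) :=
      (tendsto_rpow_atTop (by positivity : 0 < θ / 2)).eventually_ge_atTop _
    filter_upwards [h3, h4, eventually_gt_atTop 0] with u h5 h6 hu
    have h7 : 0 < u ^ (θ / 2) := Real.rpow_pos_of_pos hu _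
    rw [Real.rpow_neg hu.le, inv_mul_lt_iff₀ h7] at h5
    have h8 : 0 < Real.exp 2 := Real.exp_pos 2
    have h9 : Real.log u * (4 * Real.exp 2) < u ^ (θ / 2) := by
      rw [mul_one_div, lt_div_iff₀ (by positivity)] at h5
      exact h5
    nlinarith
  have hpoly : ∀ᶠ u : ℝ in atTop, K * u ^ 4 * Real.exp (-(u ^ (θ / 2))) ≤ 1 := by
    have h1 := tendsto_rpow_mul_exp_neg_mul_atTop_nhds_zero (8 / θ) 1 one_pos
    have h2 : Tendsto (fun u : ℝ => u ^ (θ / 2)) atTop atTop :=
      tendsto_rpow_atTop (by positivity)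
    have h3 := h1.comp h2
    filter_upwards [h3.eventually (eventually_lt_nhds (by positivity : (0 : ℝ) < 1 / K)),
      eventually_gt_atTop 0] with u hu hu0
    simp only [Function.comp] at hu
    have e : (u ^ (θ / 2)) ^ (8 / θ) = u ^ 4 := by
      rw [← Real.rpow_mul hu0.le, ← Real.rpow_natCast]
      congr 1
      field_simp
      norm_num
    rw [e, lt_div_iff₀ hKpos] at hu
    have e2 : -1 * u ^ (θ / 2) = -(u ^ (θ / 2)) := by ring
    rw [e2] at hu
    nlinarith
  have hsize : ∀ᶠ u : ℝ in atTop, (u ^ (1 - θ) + 1) * (u ^ (θ / 2) + 2) ≤ u / 4 := by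
    have h1 : ∀ᶠ u : ℝ in atTop, 48 ≤ u ^ (θ / 2) :=
      (tendsto_rpow_atTop (by positivity : 0 < θ / 2)).eventually_ge_atTop _
    filter_upwards [h1, eventually_ge_atTop 1] with u hu hu1
    have hu0 : 0 < u := by linarith
    have h2 : 1 ≤ u ^ (1 - θ) := Real.one_le_rpow hu1 (by linarith)
    have h3 : u ^ (1 - θ) * u ^ (θ / 2) * u ^ (θ / 2) = u := by
      rw [← Real.rpow_add hu0, ← Real.rpow_add hu0]
      have : 1 - θ + θ / 2 + θ / 2 = 1 := by ring
      rw [this, Real.rpow_one]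
    have h4 : 0 < u ^ (θ / 2) := by linarith
    have h5 : (u ^ (1 - θ) + 1) ≤ 2 * u ^ (1 - θ) := by linarith
    have h6 : (u ^ (θ / 2) + 2) ≤ 2 * u ^ (θ / 2) := by linarith
    calc (u ^ (1 - θ) + 1) * (u ^ (θ / 2) + 2) ≤ (2 * u ^ (1 - θ)) * (2 * u ^ (θ / 2)) :=
          mul_le_mul h5 h6 (by linarith) (by linarith)
      _ = 4 * (u ^ (1 - θ) * u ^ (θ / 2)) := by ring
      _ ≤ u ^ (1 - θ) * u ^ (θ / 2) * u ^ (θ / 2) / 4 := by
          have : 0 < u ^ (1 - θ) * u ^ (θ / 2) := by positivity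
          nlinarith
      _ = u / 4 := by rw [h3]
  have hw2 : ∀ᶠ u : ℝ in atTop, u ^ (θ / 2) ≤ u / 4 := by
    filter_upwards [hsize, eventually_ge_atTop 1] with u hu hu1
    have h2 : 0 ≤ u ^ (1 - θ) := Real.rpow_nonneg (by linarith) _
    have h3 : 0 ≤ u ^ (θ / 2) := Real.rpow_nonneg (by linarith) _
    nlinarith
  have hA2 : ∀ᶠ u : ℝ in atTop, 2 ≤ u ^ (1 - θ) :=
    (tendsto_rpow_atTop (by linarith : 0 < 1 - θ)).eventually_ge_atTop _
  have hall := hlog_o.and (hpoly.and (hsize.and (hw2.and (hA2.and (eventually_ge_atTop 1)))))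
  have hlogN : Tendsto (fun N : ℕ => Real.log (N : ℝ)) atTop atTop :=
    Real.tendsto_log_atTop.comp tendsto_natCast_atTop_atTop
  filter_upwards [hlogN.eventually hall, eventually_ge_atTop 3] with N hN hN3
  obtain ⟨g1, g2, g3, g4, g5, g6⟩ := hN
  set u := Real.log (N : ℝ) with hu
  have hN0 : (0 : ℝ) < N := by exact_mod_cast (by omega : 0 < N)
  have hexpu : Real.exp u = N := Real.exp_log hN0
  have hu0 : 0 < u := by linarith
  set A := BB (u ^ (1 - θ)) with hA
  set w := u ^ (θ / 2) with hw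
  have hw0 : 0 < w := Real.rpow_pos_of_pos hu0 _
  set k : ℕ := ⌈w⌉₊ with hk
  have hkw : w ≤ k := Nat.le_ceil w
  have hkw' : (k : ℝ) ≤ w + 1 := (Nat.ceil_lt_add_one hw0.le).le
  set lam : ℝ := 2 * (Real.log u + C3) with hlam
  have hlogu : 0 ≤ Real.log u := Real.log_nonneg g6
  have hlam0 : 0 ≤ lam := by positivity
  have hA3 : 2 ≤ A := by
    refine Nat.le_floor ?_
    have := Real.add_one_le_exp (u ^ (1 - θ))
    push_cast
    linarith
  have hlogA : Real.log A ≤ u ^ (1 - θ) := log_BB_le (by linarith)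
  have hlogA0 : 0 < Real.log A := Real.log_pos (by exact_mod_cast hA3)
  have hu1θ : u ^ (1 - θ) ≤ u := by
    calc u ^ (1 - θ) ≤ u ^ (1 : ℝ) := Real.rpow_le_rpow_of_exponent_le g6 (by linarith)
      _ = u := Real.rpow_one u
  refine ⟨k, lam, ?_, ?_⟩
  · -- the prime sum
    have h1 : ∑ q ∈ Nat.primesBelow A, ((2 : ℝ) / q) = 2 * ∑ q ∈ Nat.primesBelow A, 1 / (q : ℝ) := by
      rw [mul_sum]
      exact sum_congr rfl fun q _ => by ring
    rw [h1, hlam]
    refine mul_le_mul_of_nonneg_left ?_ (by norm_num)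
    have h2 : ∑ q ∈ Nat.primesBelow A, 1 / (q : ℝ) ≤ ∑ q ∈ Nat.primesLE A, 1 / (q : ℝ) :=
      sum_le_sum_of_subset_of_nonneg (primesBelow_mono (Nat.le_succ A)) fun q _ _ => by positivity
    have h3 := (abs_le.1 (hM A hA3)).2
    have h4 : C' / Real.log A ≤ C' / Real.log 2 :=
      div_le_div_of_nonneg_left hC'0 hl2 (Real.log_le_log (by norm_num) (by exact_mod_cast hA3))
    have h5 : Real.log (Real.log A) ≤ Real.log u :=
      Real.log_le_log hlogA0 (hlogA.trans hu1θ)
    have h6 := le_abs_self M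
    rw [hC3]
    linarith
  · -- the error
    have hfac : lam ^ k / (k.factorial : ℝ) ≤ Real.exp (-w) := by
      have hk0 : (0 : ℝ) < k := by linarith
      have h1 : (k : ℝ) ^ k / (k.factorial : ℝ) ≤ Real.exp k :=
        Real.pow_div_factorial_le_exp k hk0.le k
      have h2 : lam ≤ Real.exp (-2) * k := by
        rw [Real.exp_neg, ← div_eq_inv_mul, le_div_iff₀ (Real.exp_pos 2)]
        rw [mul_comm]
        exact g1.trans hkw
      calc lam ^ k / (k.factorial : ℝ) ≤ (Real.exp (-2) * k) ^ k / (k.factorial : ℝ) :=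
            div_le_div_of_nonneg_right (pow_le_pow_left₀ hlam0 h2 k) (by positivity)
        _ = (Real.exp (-2)) ^ k * ((k : ℝ) ^ k / (k.factorial : ℝ)) := by
            rw [mul_pow]; ring
        _ ≤ (Real.exp (-2)) ^ k * Real.exp k := mul_le_mul_of_nonneg_left h1 (by positivity)
        _ = Real.exp (-k) := by
            rw [← Real.exp_nat_mul, ← Real.exp_add]; congr 1; ring
        _ ≤ Real.exp (-w) := Real.exp_le_exp.2 (by linarith)
    have hAle : (A : ℝ) ≤ Real.exp (u ^ (1 - θ)) := BB_le _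
    have hpow : (A : ℝ) * (2 * (A : ℝ)) ^ k ≤ Real.exp (u / 4) := by
      have h1 : 2 * (A : ℝ) ≤ Real.exp (u ^ (1 - θ) + 1) := by
        rw [Real.exp_add]
        have : (2 : ℝ) ≤ Real.exp 1 := by
          have := Real.add_one_le_exp (1 : ℝ)
          linarith
        have h2 := Real.exp_pos (u ^ (1 - θ))
        nlinarith
      have h2 : (A : ℝ) ≤ Real.exp (u ^ (1 - θ) + 1) := by
        have : (0 : ℝ) ≤ A := by positivity
        linarith
      calc (A : ℝ) * (2 * (A : ℝ)) ^ k ≤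
            Real.exp (u ^ (1 - θ) + 1) * (Real.exp (u ^ (1 - θ) + 1)) ^ k :=
            mul_le_mul h2 (pow_le_pow_left₀ (by positivity) h1 k) (by positivity)
              (Real.exp_pos _).le
        _ = Real.exp ((u ^ (1 - θ) + 1) * (k + 1)) := by
            rw [← Real.exp_nat_mul, ← Real.exp_add]; congr 1; ring
        _ ≤ Real.exp (u / 4) := by
            refine Real.exp_le_exp.2 (le_trans ?_ g3)
            refine mul_le_mul_of_nonneg_left (by linarith) ?_
            linarith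
    have hA1 : (1 : ℝ) ≤ A := by exact_mod_cast (by omega : 1 ≤ A)
    have hpow2 : (2 * (A : ℝ)) ^ k ≤ Real.exp (u / 4) := by
      refine le_trans ?_ hpow
      have : 0 ≤ (2 * (A : ℝ)) ^ k := by positivity
      nlinarith
    have hVA : 4 / V A ^ 2 ≤ 4 * u ^ 2 / c ^ 2 := by
      have h1 := (hV A hA3).1
      have h2 : c / u ≤ V A := by
        refine le_trans ?_ h1
        exact div_le_div_of_nonneg_left hc.le hlogA0 (hlogA.trans hu1θ)
      have h3 : 0 < c / u := by positivity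
      calc 4 / V A ^ 2 ≤ 4 / (c / u) ^ 2 :=
            div_le_div_of_nonneg_left (by norm_num) (by positivity)
              (pow_le_pow_left₀ h3.le h2 2)
        _ = 4 * u ^ 2 / c ^ 2 := by field_simp
    have hLL : LL a0 A ≤ 2 * u := by
      have := LL_upper a0 A
      linarith
    have hexpw : Real.exp (u / 4) ≤ N * Real.exp (-w) := by
      rw [← hexpu, ← Real.exp_add]
      refine Real.exp_le_exp.2 ?_
      linarith
    have hlamu : lam ≤ u := by
      have h1 : (1 : ℝ) ≤ Real.exp 2 := Real.one_le_exp (by norm_num)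
      have h2 : lam ≤ Real.exp 2 * lam := by nlinarith
      calc lam ≤ Real.exp 2 * lam := h2
        _ ≤ w := g1
        _ ≤ u := by linarith
    set e := Real.exp (-w) with he
    have he0 : 0 < e := Real.exp_pos _
    have hE1 : errB N 1 lam A k ≤ 5 * (N * e) := by
      unfold errB
      have h1 : (N : ℝ) / 1 * (lam ^ k / (k.factorial : ℝ)) ≤ N * e := by
        rw [div_one]
        exact mul_le_mul_of_nonneg_left hfac hN0.le
      have h2 : (2 * (A : ℝ)) ^ k ≤ N * e := hpow2.trans hexpw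
      linarith
    have hE2 : N * (lam * (lam ^ k / (k.factorial : ℝ))) + 3 * A * (2 * (A : ℝ)) ^ k ≤
        4 * u * (N * e) := by
      have h1 : N * (lam * (lam ^ k / (k.factorial : ℝ))) ≤ N * (u * e) := by
        refine mul_le_mul_of_nonneg_left ?_ hN0.le
        exact mul_le_mul hlamu hfac (by positivity) hu0.le
      have h2 : (A : ℝ) * (2 * (A : ℝ)) ^ k ≤ N * e := hpow.trans hexpw
      have h3 : N * e ≤ u * (N * e) := by
        have : 0 ≤ (N : ℝ) * e := by positivity
        nlinarith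
      linarith
    have hErrT : ErrT N lam A k ≤ (5 + 16 / c ^ 2) * u ^ 3 * (N * e) := by
      unfold ErrT
      have h1 : 4 / V A ^ 2 * (N * (lam * (lam ^ k / (k.factorial : ℝ))) +
          3 * A * (2 * (A : ℝ)) ^ k) ≤ (4 * u ^ 2 / c ^ 2) * (4 * u * (N * e)) :=
        mul_le_mul hVA hE2 (by positivity) (by positivity)
      have h2 : (4 * u ^ 2 / c ^ 2) * (4 * u * (N * e)) = 16 / c ^ 2 * u ^ 3 * (N * e) := by ring
      have h3 : 5 * (N * e) ≤ 5 * u ^ 3 * (N * e) := by
        have h4 : (1 : ℝ) ≤ u ^ 3 := one_le_pow₀ g6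
        have : 0 ≤ (N : ℝ) * e := by positivity
        nlinarith
      have h4 : (5 + 16 / c ^ 2) * u ^ 3 * (N * e) =
          5 * u ^ 3 * (N * e) + 16 / c ^ 2 * u ^ 3 * (N * e) := by ring
      rw [h4]
      linarith
    have hErr0 : 0 ≤ ErrT N lam A k := by
      unfold ErrT errB
      positivity
    calc LL a0 A * ErrT N lam A k ≤ (2 * u) * ((5 + 16 / c ^ 2) * u ^ 3 * (N * e)) :=
          mul_le_mul hLL hErrT hErr0 (by positivity)
      _ = N * (K * u ^ 4 * e) := by rw [hK]; ring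
      _ ≤ N * 1 := mul_le_mul_of_nonneg_left g2 hN0.le
      _ = N := mul_one _

end Pool.Agent.Lib_helper10.Erdos460
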