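import Mathlib
import Pool.Agent.Lib_helper10.Erdos460.FMb
import Pool.Agent.Lib_helper10.Erdos460.Exceptional
import Pool.Agent.Lib_helper10.Erdos460.Upper

set_option autoImplicit false
open N435e839e

namespace Pool.Agent.Lib_helper10.Erdos460

open Finset Filter Topology

lemma totalSum_nonneg (n : ℕ) : 0 ≤ totalSum false n := by
  unfold totalSum
  exact sum_nonneg fun a _ => by positivity

lemma totalSum_trivial (n : ℕ) : totalSum false n ≤ 1 + Real.log n := by
  have h1 : totalSum false n ≤ LL 0 n := by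
    unfold totalSum LL
    refine sum_le_sum_of_subset_of_nonneg ?_ fun a _ _ => by positivity
    intro a ha
    have h1 := sel_pos ha
    have h2 := sel_lt ha
    rw [mem_Ioc]
    omega
  exact h1.trans (LL_upper 0 n)

lemma totalSum_split (n a0 A : ℕ) :
    totalSum false n ≤ (1 + Real.log a0) + TS a0 A n + TS A n n := by
  classical
  unfold totalSum TS
  have hsub : selected false n ⊆ (Ioc 0 a0 ∪ (Ioc a0 A).filter (fun a => a ∈ selected false n)) ∪
      (Ioc A n).filter (fun a => a ∈ selected false n) := by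
    intro a ha
    have h1 := sel_pos ha
    have h2 := sel_lt ha
    simp only [mem_union, mem_filter, mem_Ioc]
    by_cases h3 : a ≤ a0
    · exact Or.inl (Or.inl ⟨h1, h3⟩)
    · by_cases h4 : a ≤ A
      · exact Or.inl (Or.inr ⟨⟨by omega, h4⟩, ha⟩)
      · exact Or.inr ⟨⟨by omega, by omega⟩, ha⟩
  have hle := sum_le_sum_of_subset_of_nonneg (f := fun a : ℕ => (1 : ℝ) / a) hsub
    (fun a _ _ => by positivity)
  refine hle.trans ?_
  have hu1 := sum_union_inter (s₁ := Ioc 0 a0 ∪ (Ioc a0 A).filter (fun a => a ∈ selected false n))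
    (s₂ := (Ioc A n).filter (fun a => a ∈ selected false n)) (f := fun a : ℕ => (1 : ℝ) / a)
  have hu2 := sum_union_inter (s₁ := Ioc 0 a0)
    (s₂ := (Ioc a0 A).filter (fun a => a ∈ selected false n)) (f := fun a : ℕ => (1 : ℝ) / a)
  have hn1 : 0 ≤ ∑ a ∈ (Ioc 0 a0 ∪ (Ioc a0 A).filter (fun a => a ∈ selected false n)) ∩
      (Ioc A n).filter (fun a => a ∈ selected false n), (1 : ℝ) / a :=
    sum_nonneg fun a _ => by positivity
  have hn2 : 0 ≤ ∑ a ∈ Ioc 0 a0 ∩ (Ioc a0 A).filter (fun a => a ∈ selected false n), (1 : ℝ) / a :=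
    sum_nonneg fun a _ => by positivity
  have h3 : ∑ a ∈ Ioc 0 a0, (1 : ℝ) / a ≤ 1 + Real.log a0 := LL_upper 0 a0
  linarith

theorem mean_upper : ∃ C4 : ℝ, 0 < C4 ∧ ∀ θ : ℝ, 0 < θ → θ ≤ 1 / 8 → ∀ᶠ N : ℕ in atTop,
    ∑ n ∈ Ioc 0 N, totalSum false n ≤ N * ((kap + C4 * θ) * Real.log (Real.log N)) := by
  classical
  obtain ⟨C1, hC1, hFM⟩ := FM_finite
  obtain ⟨C, hC, htail⟩ := tail_bound
  refine ⟨C1 + C + 1, by positivity, fun θ hθ hθ8 => ?_⟩
  obtain ⟨a0, ha0, hFM'⟩ := hFM θ hθ hθ8
  have hkap := kap_pos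
  set cst : ℝ := (1 + Real.log a0) + (kap + C1 * θ) * |Real.log (Real.log a0)| + 1 + 3 * C + 1
    with hcst
  have hev : ∀ᶠ u : ℝ in atTop, 2 ≤ u ^ (1 - θ) ∧ Real.log (a0 + 1) ≤ u ^ (1 - θ) ∧
      u ^ (1 - θ) ≤ u / 2 ∧ (1 + u) * Real.exp (-(u / 2)) ≤ 1 ∧ cst ≤ θ * Real.log u ∧ 1 ≤ u := by
    have h1 : ∀ᶠ u : ℝ in atTop, 2 ≤ u ^ (1 - θ) :=
      (tendsto_rpow_atTop (by linarith : 0 < 1 - θ)).eventually_ge_atTop _
    have h2 : ∀ᶠ u : ℝ in atTop, Real.log (a0 + 1) ≤ u ^ (1 - θ) :=
      (tendsto_rpow_atTop (by linarith : 0 < 1 - θ)).eventually_ge_atTop _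
    have h3 : ∀ᶠ u : ℝ in atTop, u ^ (1 - θ) ≤ u / 2 := by
      have h4 : ∀ᶠ u : ℝ in atTop, 2 ≤ u ^ θ :=
        (tendsto_rpow_atTop hθ).eventually_ge_atTop _
      filter_upwards [h4, eventually_gt_atTop 0] with u hu hu0
      have h5 : u ^ (1 - θ) * u ^ θ = u := by
        rw [← Real.rpow_add hu0]
        have : 1 - θ + θ = 1 := by ring
        rw [this, Real.rpow_one]
      have h6 : 0 < u ^ (1 - θ) := Real.rpow_pos_of_pos hu0 _
      nlinarith
    have h4 : ∀ᶠ u : ℝ in atTop, (1 + u) * Real.exp (-(u / 2)) ≤ 1 := by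
      have h5 := tendsto_rpow_mul_exp_neg_mul_atTop_nhds_zero 1 (1 / 2) (by norm_num)
      filter_upwards [h5.eventually (eventually_lt_nhds (by norm_num : (0 : ℝ) < 1 / 2)),
        eventually_ge_atTop 1] with u hu hu1
      rw [Real.rpow_one] at hu
      have e : -(1 / 2) * u = -(u / 2) := by ring
      rw [e] at hu
      have h6 := Real.exp_pos (-(u / 2))
      nlinarith
    have h5 : ∀ᶠ u : ℝ in atTop, cst ≤ θ * Real.log u := by
      have := Real.tendsto_log_atTop.const_mul_atTop hθ
      exact this.eventually_ge_atTop _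
    exact h1.and (h2.and (h3.and (h4.and (h5.and (eventually_ge_atTop 1)))))
  have hlogN : Tendsto (fun N : ℕ => Real.log (N : ℝ)) atTop atTop :=
    Real.tendsto_log_atTop.comp tendsto_natCast_atTop_atTop
  filter_upwards [hlogN.eventually hev, err_small θ hθ hθ8 a0, eventually_ge_atTop 3] with
    N hN hErr hN3
  obtain ⟨g1, g2, g3, g4, g5, g6⟩ := hN
  obtain ⟨k, lam, hlam, hErr⟩ := hErr
  set u := Real.log (N : ℝ) with hu
  have hN0 : (0 : ℝ) < N := by exact_mod_cast (by omega : 0 < N)
  have hexpu : Real.exp u = N := Real.exp_log hN0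
  have hu0 : 0 < u := by linarith
  set A := BB (u ^ (1 - θ)) with hA
  have hlogu : 0 ≤ Real.log u := Real.log_nonneg g6
  have haA : a0 ≤ A := by
    refine Nat.le_floor ?_
    rw [Real.log_le_iff_le_exp (by positivity)] at g2
    linarith
  have hA3 : 3 ≤ A := ha0.trans haA
  have hAR : (3 : ℝ) ≤ A := by exact_mod_cast hA3
  have hlogA : Real.log A ≤ u ^ (1 - θ) := log_BB_le (by linarith)
  have hlogA1 : u ^ (1 - θ) / 2 ≤ Real.log A := by
    rw [Real.le_log_iff_exp_le (by linarith)]
    have h1 : Real.exp (u ^ (1 - θ)) < A + 1 := lt_BB _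
    have h2 : Real.exp (u ^ (1 - θ)) = Real.exp (u ^ (1 - θ) / 2) * Real.exp (u ^ (1 - θ) / 2) := by
      rw [← Real.exp_add]; congr 1; ring
    have h3 : 1 + 1 ≤ Real.exp (u ^ (1 - θ) / 2) := by
      have := Real.add_one_le_exp (u ^ (1 - θ) / 2)
      linarith
    nlinarith
  have hlogA2 : 1 ≤ Real.log A := by linarith
  have hll : Real.log (Real.log A) ≤ Real.log u := by
    have h1 : u ^ (1 - θ) ≤ u := by linarith
    exact Real.log_le_log (by linarith) (hlogA.trans h1)
  have hll2 : (1 - θ) * Real.log u - 1 ≤ Real.log (Real.log A) := by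
    have h1 : Real.log (u ^ (1 - θ) / 2) ≤ Real.log (Real.log A) :=
      Real.log_le_log (by linarith) hlogA1
    rw [Real.log_div (by linarith) (by norm_num), Real.log_rpow hu0] at h1
    have h2 : Real.log 2 ≤ 1 := by
      have := Real.log_two_lt_d9
      linarith
    linarith
  -- split the sum
  have hsplit : ∑ n ∈ Ioc 0 N, totalSum false n ≤
      ∑ n ∈ Ioc 0 A, totalSum false n + ∑ n ∈ Ioc A (A + N), totalSum false n := by
    rw [← sum_union]
    · refine sum_le_sum_of_subset_of_nonneg ?_ fun n _ _ => totalSum_nonneg n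
      intro n hn
      rw [mem_Ioc] at hn
      rw [mem_union, mem_Ioc, mem_Ioc]
      omega
    · rw [Finset.disjoint_left]
      intro n h1 h2
      rw [mem_Ioc] at h1 h2
      omega
  have hfirst : ∑ n ∈ Ioc 0 A, totalSum false n ≤ N := by
    have h1 : ∀ n ∈ Ioc 0 A, totalSum false n ≤ 1 + u := by
      intro n hn
      rw [mem_Ioc] at hn
      refine (totalSum_trivial n).trans ?_
      have h2 : Real.log n ≤ Real.log A :=
        Real.log_le_log (by exact_mod_cast hn.1) (by exact_mod_cast hn.2)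
      have h3 : u ^ (1 - θ) ≤ u := by linarith
      linarith
    calc ∑ n ∈ Ioc 0 A, totalSum false n ≤ ∑ _n ∈ Ioc 0 A, (1 + u) := sum_le_sum h1
      _ = A * (1 + u) := by rw [sum_const, nsmul_eq_mul]; simp
      _ ≤ Real.exp (u / 2) * (1 + u) := by
          refine mul_le_mul_of_nonneg_right ((BB_le _).trans (Real.exp_le_exp.2 g3)) (by linarith)
      _ ≤ N := by
          rw [← hexpu]
          have h4 : Real.exp u = Real.exp (u / 2) * Real.exp (u / 2) := by
            rw [← Real.exp_add]; congr 1; ring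
          rw [h4]
          refine mul_le_mul_of_nonneg_left ?_ (Real.exp_pos _).le
          have h5 : Real.exp (-(u / 2)) * Real.exp (u / 2) = 1 := by
            rw [← Real.exp_add]; simp
          have h6 := Real.exp_pos (u / 2)
          nlinarith
  have hsecond : ∑ n ∈ Ioc A (A + N), totalSum false n ≤
      ∑ n ∈ Ioc A (A + N), TS a0 A n +
        N * ((1 + Real.log a0) + C * (θ * Real.log u + 3)) := by
    have h1 : ∀ n ∈ Ioc A (A + N), totalSum false n ≤
        TS a0 A n + ((1 + Real.log a0) + C * (θ * Real.log u + 3)) := by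
      intro n hn
      rw [mem_Ioc] at hn
      have h2 := totalSum_split n a0 A
      have h3 := htail n A n (by omega) (by omega) le_rfl
      have h4 : TS A n n ≤ C * (θ * Real.log u + 3) := by
        unfold TS
        refine h3.trans (mul_le_mul_of_nonneg_left ?_ hC.le)
        have h5 : 1 / Real.log A ≤ 1 := by
          rw [div_le_one (by linarith)]
          exact hlogA2
        have h6 : Real.log (Real.log n) ≤ Real.log u + 1 := by
          have hAN : (A : ℝ) ≤ N := by
            calc (A : ℝ) ≤ Real.exp (u ^ (1 - θ)) := BB_le _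
              _ ≤ Real.exp u := Real.exp_le_exp.2 (by linarith)
              _ = N := hexpu
          have h7 : (n : ℝ) ≤ 2 * N := by
            have : (n : ℝ) ≤ A + N := by exact_mod_cast hn.2
            linarith
          have hn0 : (3 : ℝ) < n := by
            have : (A : ℝ) < n := by exact_mod_cast hn.1
            linarith
          have h8 : Real.log n ≤ Real.log 2 + u := by
            rw [hu, ← Real.log_mul (by norm_num) hN0.ne']
            exact Real.log_le_log (by linarith) h7
          have h9 : Real.log 2 ≤ 1 := by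
            have := Real.log_two_lt_d9
            linarith
          have h10 : 0 < Real.log n := Real.log_pos (by linarith)
          have h11 : Real.log n ≤ 2 * u := by linarith
          calc Real.log (Real.log n) ≤ Real.log (2 * u) := Real.log_le_log h10 h11
            _ = Real.log 2 + Real.log u := Real.log_mul (by norm_num) hu0.ne'
            _ ≤ Real.log u + 1 := by linarith
        linarith
      linarith
    calc ∑ n ∈ Ioc A (A + N), totalSum false n ≤
          ∑ n ∈ Ioc A (A + N), (TS a0 A n + ((1 + Real.log a0) + C * (θ * Real.log u + 3))) :=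
          sum_le_sum h1
      _ = _ := by
          rw [sum_add_distrib, sum_const, nsmul_eq_mul]
          simp
  have hthird := hFM' A haA A N le_rfl k lam hlam
  have hll3 : Real.log (Real.log A) - Real.log (Real.log a0) ≤
      Real.log u + |Real.log (Real.log a0)| := by
    have := neg_le_abs (Real.log (Real.log a0))
    linarith
  have hcoef : 0 ≤ kap + C1 * θ := by positivity
  have h5 : N * ((kap + C1 * θ) * (Real.log (Real.log A) - Real.log (Real.log a0))) ≤
      N * ((kap + C1 * θ) * (Real.log u + |Real.log (Real.log a0)|)) :=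
    mul_le_mul_of_nonneg_left (mul_le_mul_of_nonneg_left hll3 hcoef) hN0.le
  have hfinal : (N : ℝ) + (N * ((kap + C1 * θ) * (Real.log u + |Real.log (Real.log a0)|)) + N +
      N * ((1 + Real.log a0) + C * (θ * Real.log u + 3))) ≤
      N * ((kap + (C1 + C + 1) * θ) * Real.log u) := by
    have e : (N : ℝ) + (N * ((kap + C1 * θ) * (Real.log u + |Real.log (Real.log a0)|)) + N +
      N * ((1 + Real.log a0) + C * (θ * Real.log u + 3))) =
      N * ((kap + (C1 + C) * θ) * Real.log u + cst) := by
      rw [hcst]; ring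
    rw [e]
    refine mul_le_mul_of_nonneg_left ?_ hN0.le
    linarith
  linarith

/-- small values are rare -/
theorem lower_rare (θ : ℝ) (hθ : 0 < θ) (η : ℝ) (hη : 0 < η) : ∀ᶠ N : ℕ in atTop,
    ((((Ioc 0 N).filter (fun n => totalSum false n <
      (1 - θ) * kap * Real.log (Real.log N))).card : ℕ) : ℝ) ≤ η * N := by
  classical
  rcases le_or_gt 1 θ with h1 | h1
  · filter_upwards [eventually_ge_atTop 16] with N hN
    have hNR : (16 : ℝ) ≤ N := by exact_mod_cast hN
    have hl1 : 1 < Real.log N := by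
      rw [Real.lt_log_iff_exp_lt (by linarith)]
      have := Real.exp_one_lt_d9
      linarith
    have hll : 0 < Real.log (Real.log N) := Real.log_pos hl1
    have hem : (Ioc 0 N).filter (fun n => totalSum false n <
      (1 - θ) * kap * Real.log (Real.log N)) = ∅ := by
      rw [filter_eq_empty_iff]
      intro n _ h2
      have h3 := totalSum_nonneg n
      have h4 : (1 - θ) * kap * Real.log (Real.log N) ≤ 0 :=
        mul_nonpos_of_nonpos_of_nonneg
          (mul_nonpos_of_nonpos_of_nonneg (by linarith) kap_pos.le) hll.le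
      linarith
    rw [hem]
    simp
    positivity
  obtain ⟨c, C, hc, hC, h⟩ := exceptional_bound θ hθ
  have hev : ∀ᶠ u : ℝ in atTop, Real.log (C / η) / c ≤ u ^ (θ ^ 2) ∧ 1 ≤ u :=
    ((tendsto_rpow_atTop (by positivity : 0 < θ ^ 2)).eventually_ge_atTop _).and
      (eventually_ge_atTop 1)
  have hlogN : Tendsto (fun N : ℕ => Real.log (N : ℝ)) atTop atTop :=
    Real.tendsto_log_atTop.comp tendsto_natCast_atTop_atTop
  filter_upwards [hlogN.eventually hev, eventually_ge_atTop 3] with N hN hN3
  obtain ⟨g1, g2⟩ := hN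
  set u := Real.log (N : ℝ) with hu
  have hN0 : (0 : ℝ) < N := by exact_mod_cast (by omega : 0 < N)
  have hu0 : 0 < u := by linarith
  have hlogu : 0 ≤ Real.log u := Real.log_nonneg g2
  have hkap := kap_pos
  have h2 := h ((1 - θ) * kap * Real.log u)
    (mul_nonneg (mul_nonneg (by linarith) hkap.le) hlogu) 0 N (by omega)
  rw [zero_add] at h2
  refine h2.trans ?_
  have hexpgam : Real.exp Real.eulerMascheroniConstant * kap = 1 := by
    unfold kap
    rw [← Real.exp_add]
    simp
  have e1 : Real.exp (-((1 + θ) * Real.exp Real.eulerMascheroniConstant *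
      ((1 - θ) * kap * Real.log u))) = u ^ (θ ^ 2 - 1) := by
    rw [Real.rpow_def_of_pos hu0]
    congr 1
    calc -((1 + θ) * Real.exp Real.eulerMascheroniConstant * ((1 - θ) * kap * Real.log u))
        = -((1 + θ) * (1 - θ) * (Real.exp Real.eulerMascheroniConstant * kap) * Real.log u) := by
          ring
      _ = Real.log u * (θ ^ 2 - 1) := by rw [hexpgam]; ring
  rw [e1]
  have e2 : (N : ℝ) ^ (1 - c * u ^ (θ ^ 2 - 1)) = N * Real.exp (-(c * u ^ (θ ^ 2))) := by
    rw [Real.rpow_def_of_pos hN0, mul_sub, mul_one, sub_eq_add_neg, Real.exp_add,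
      Real.exp_log hN0]
    congr 2
    have e3 : u ^ (θ ^ 2) = u ^ (θ ^ 2 - 1) * u := by
      rw [← Real.rpow_add_one hu0.ne']
      congr 1
      ring
    rw [e3, hu]
    ring
  rw [e2]
  have h3 : Real.exp (-(c * u ^ (θ ^ 2))) ≤ η / C := by
    have h4 : Real.log (C / η) ≤ c * u ^ (θ ^ 2) := by
      rw [div_le_iff₀ hc] at g1
      linarith
    have h5 : η / C = Real.exp (-Real.log (C / η)) := by
      rw [Real.exp_neg, Real.exp_log (by positivity), inv_div]
    rw [h5]
    exact Real.exp_le_exp.2 (by linarith)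
  calc C * (N * Real.exp (-(c * u ^ (θ ^ 2)))) ≤ C * (N * (η / C)) :=
        mul_le_mul_of_nonneg_left (mul_le_mul_of_nonneg_left h3 hN0.le) hC.le
    _ = η * N := by field_simp

end Pool.Agent.Lib_helper10.Erdos460
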