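import Mathlib
import Pool.Agent.Lib_helper10.Erdos460.Conc
import Pool.Agent.Lib_helper10.Erdos460.Exceptional

set_option autoImplicit false
open N435e839e

namespace Pool.Agent.Lib_helper10.Erdos460

open Finset Filter Topology

/-- the exceptional set for one block -/
noncomputable def badset (M N : ℕ) (δ : ℝ) (z A L : ℕ) : Finset ℕ :=
  (Ioc M (M + N)).filter (fun n => δ * (V z * L) < |Rz A L z n - V z * L|)

lemma sum_subblocks (f : ℕ → ℝ) (A L : ℕ) (H : ℕ) :
    ∑ a ∈ Ioc A (A + H * L), f a = ∑ t ∈ range H, ∑ a ∈ Ioc (A + t * L) (A + t * L + L), f a := by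
  induction H with
  | zero => simp
  | succ H ih =>
    rw [sum_range_succ, ← ih]
    have h1 : A + (H + 1) * L = A + H * L + L := by ring
    rw [h1, ← sum_union]
    · rw [Ioc_union_Ioc_eq_Ioc (by omega) (by omega)]
    · rw [Finset.disjoint_left]
      intro a ha hb
      rw [mem_Ioc] at ha hb
      omega

lemma harm_block (H : ℕ) (hH : 1 ≤ H) :
    Real.log 2 - 1 / H ≤ ∑ t ∈ range H, 1 / ((H : ℝ) + t + 1) := by
  have h1 : ∑ t ∈ range H, 1 / ((H : ℝ) + t + 1) = LL H (2 * H) := by
    unfold LL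
    have h2 : ∀ K : ℕ, ∑ t ∈ range K, 1 / ((H : ℝ) + t + 1) = ∑ a ∈ Ioc H (H + K), 1 / (a : ℝ) := by
      intro K
      induction K with
      | zero => simp
      | succ K ih =>
        rw [sum_range_succ, ih, ← add_assoc, sum_Ioc_succ_top (by omega)]
        push_cast
        rfl
    rw [h2 H]
    congr 2
    ring
  rw [h1]
  have h2 := LL_lower H (2 * H) (by omega)
  have hHR : (1 : ℝ) ≤ H := by exact_mod_cast hH
  have h3 : Real.log 2 - 1 / H ≤ Real.log (((2 * H : ℕ) : ℝ) + 1) - Real.log ((H : ℝ) + 1) := by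
    rw [← Real.log_div (by positivity) (by positivity)]
    have h4 : Real.log 2 - Real.log ((((2 * H : ℕ) : ℝ) + 1) / ((H : ℝ) + 1)) ≤ 1 / H := by
      rw [← Real.log_div (by norm_num) (by positivity)]
      have h5 : 2 / ((((2 * H : ℕ) : ℝ) + 1) / ((H : ℝ) + 1)) = 1 + 1 / (2 * H + 1) := by
        push_cast
        field_simp
        ring
      rw [h5]
      have h6 := Real.log_le_sub_one_of_pos (x := 1 + 1 / (2 * (H : ℝ) + 1)) (by positivity)
      have h7 : 1 / (2 * (H : ℝ) + 1) ≤ 1 / H :=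
        one_div_le_one_div_of_le (by linarith) (by linarith)
      linarith
    linarith
  linarith

lemma V_lower_sharp (θ : ℝ) (hθ : 0 < θ) : ∀ᶠ a : ℕ in atTop, (kap - θ) / Real.log a ≤ V a := by
  have h1 : ∀ᶠ n : ℕ in atTop, kap - θ < V (n + 1) * Real.log n :=
    mertens_third.eventually (eventually_gt_nhds (by unfold kap; linarith))
  filter_upwards [h1, eventually_ge_atTop 2] with n hn hn2
  have hl : 0 < Real.log n := Real.log_pos (by exact_mod_cast (by omega : 1 < n))
  rw [div_le_iff₀ hl]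
  refine hn.le.trans ?_
  exact mul_le_mul_of_nonneg_right (V_anti (Nat.le_succ n)) hl.le

/-- lower bound at one dyadic scale for good `n` -/
lemma scale_lower (δ : ℝ) (hδ1 : δ ≤ 1) (j n : ℕ) (hn : 2 ^ (j + 1) ≤ n)
    (hgood : ∀ t < 2 ^ (j - j / 2),
      |Rz (2 ^ j + t * 2 ^ (j / 2)) (2 ^ (j / 2)) (2 ^ (j + 1)) n -
        V (2 ^ (j + 1)) * ((2 ^ (j / 2) : ℕ) : ℝ)| ≤
        δ * (V (2 ^ (j + 1)) * ((2 ^ (j / 2) : ℕ) : ℝ))) :
    (1 - δ) * V (2 ^ (j + 1)) * (Real.log 2 - 1 / (2 ^ (j - j / 2) : ℕ)) ≤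
      XS (2 ^ j) (2 ^ (j + 1)) n := by
  classical
  set L : ℕ := 2 ^ (j / 2) with hL
  set H : ℕ := 2 ^ (j - j / 2) with hH
  set z : ℕ := 2 ^ (j + 1) with hz
  have hLpos : 0 < L := by positivity
  have hHpos : 0 < H := by positivity
  have hLR : (0 : ℝ) < L := by exact_mod_cast hLpos
  have hHR : (0 : ℝ) < H := by exact_mod_cast hHpos
  have hHL : 2 ^ j = H * L := by
    rw [hH, hL, ← pow_add]
    congr 1
    omega
  have hzz : z = 2 ^ j + H * L := by
    rw [hz, pow_succ, ← hHL]
    ring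
  have hVz := V_pos z
  unfold XS
  rw [show Ioc (2 ^ j) z = Ioc (2 ^ j) (2 ^ j + H * L) by rw [← hzz], sum_subblocks]
  have h1 : ∀ t ∈ range H, (1 - δ) * V z * (1 / ((H : ℝ) + t + 1)) ≤
      ∑ a ∈ Ioc (2 ^ j + t * L) (2 ^ j + t * L + L), if rough n a then (1 : ℝ) / a else 0 := by
    intro t ht
    have ht' := mem_range.1 ht
    have h2 := (abs_le.1 (hgood t ht')).1
    have h3 : (1 - δ) * (V z * L) ≤ Rz (2 ^ j + t * L) L z n := by linarith
    have hend : 2 ^ j + t * L + L = (H + t + 1) * L := by rw [hHL]; ring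
    have hendz : 2 ^ j + t * L + L ≤ z := by
      rw [hzz]
      have : (t + 1) * L ≤ H * L := Nat.mul_le_mul_right L ht'
      linarith
    have h4 : Rz (2 ^ j + t * L) L z n * (1 / (((H : ℝ) + t + 1) * L)) ≤
        ∑ a ∈ Ioc (2 ^ j + t * L) (2 ^ j + t * L + L), if rough n a then (1 : ℝ) / a else 0 := by
      unfold Rz
      rw [card_filter]
      push_cast
      rw [sum_mul]
      refine sum_le_sum fun a ha => ?_
      have ha' := mem_Ioc.1 ha
      have haz : a ≤ z := ha'.2.trans hendz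
      have han : a ≤ n := haz.trans hn
      split_ifs with hr hr'
      · rw [one_mul]
        have ha0 : (0 : ℝ) < a := by exact_mod_cast (by omega : 0 < a)
        refine one_div_le_one_div_of_le ha0 ?_
        have : a ≤ (H + t + 1) * L := by rw [← hend]; exact ha'.2
        exact_mod_cast this
      · exfalso
        apply hr'
        intro p hp hdvd
        have hp' := Nat.mem_primesBelow.1 hp
        refine hr p (Nat.mem_primesBelow.2 ⟨by omega, hp'.2⟩) ?_
        exact ((Nat.modEq_iff_dvd' han).2 hdvd).symm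
      · rw [zero_mul]; positivity
      · rw [zero_mul]
    refine le_trans ?_ h4
    have h5 : (1 - δ) * V z * (1 / ((H : ℝ) + t + 1)) =
        (1 - δ) * (V z * L) * (1 / (((H : ℝ) + t + 1) * L)) := by
      field_simp
    rw [h5]
    exact mul_le_mul_of_nonneg_right h3 (by positivity)
  refine le_trans ?_ (sum_le_sum h1)
  rw [← mul_sum]
  refine mul_le_mul_of_nonneg_left (harm_block H hHpos) ?_
  exact mul_nonneg (by linarith) (V_pos z).le

end Pool.Agent.Lib_helper10.Erdos460
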