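import Mathlib
import Pool.Agent.Lib_helper10.Erdos460.ScaleLower

set_option autoImplicit false
open N435e839e

namespace Pool.Agent.Lib_helper10.Erdos460

open Finset Filter Topology

lemma loglog_small (η C : ℝ) (hη : 0 < η) :
    ∀ᶠ x : ℝ in atTop, Real.log (Real.log x) + C ≤ η * Real.log x := by
  have h1 : ∀ᶠ y : ℝ in atTop, Real.log y ≤ η / 2 * y := by
    have h := Real.isLittleO_log_id_atTop.bound (by positivity : 0 < η / 2)
    filter_upwards [h, eventually_ge_atTop 1] with y hy hy1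
    rw [Real.norm_eq_abs, id, Real.norm_eq_abs, abs_of_nonneg (Real.log_nonneg hy1),
      abs_of_nonneg (by linarith)] at hy
    exact hy
  have h2 : ∀ᶠ y : ℝ in atTop, C ≤ η / 2 * y := by
    filter_upwards [eventually_ge_atTop (C / (η / 2))] with y hy
    rw [div_le_iff₀ (by positivity)] at hy
    linarith
  have h3 := Real.tendsto_log_atTop.eventually (h1.and h2)
  filter_upwards [h3] with x hx
  linarith [hx.1, hx.2]

lemma num_lower (K1 c2 β η : ℝ) (js : ℕ) (hK1 : 0 ≤ K1) (hc2 : 0 < c2) (hβ : 0 < β)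
    (hη : 0 < η) : ∀ᶠ x : ℝ in atTop,
    (β - η) * Real.log x ≤ β * (Real.log ((⌊c2 * x⌋₊ : ℝ) + 1) -
      Real.log (((⌈K1 * Real.log x⌉₊ + js : ℕ) : ℝ) + 1)) := by
  filter_upwards [loglog_small (η / β) (Real.log (K1 + js + 2) - Real.log c2) (by positivity),
    eventually_ge_atTop (Real.exp 1)] with x hx hx1
  have hx0 : 0 < x := (Real.exp_pos 1).trans_le hx1
  have hlx : 1 ≤ Real.log x := by
    rw [Real.le_log_iff_exp_le hx0]
    exact hx1
  have h1 : Real.log c2 + Real.log x ≤ Real.log ((⌊c2 * x⌋₊ : ℝ) + 1) := by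
    rw [← Real.log_mul hc2.ne' hx0.ne']
    exact Real.log_le_log (by positivity) (Nat.lt_floor_add_one _).le
  have h2 : Real.log (((⌈K1 * Real.log x⌉₊ + js : ℕ) : ℝ) + 1) ≤
      Real.log (K1 + js + 2) + Real.log (Real.log x) := by
    rw [← Real.log_mul (by positivity) (by positivity)]
    refine Real.log_le_log (by positivity) ?_
    push_cast
    have h3 : (⌈K1 * Real.log x⌉₊ : ℝ) < K1 * Real.log x + 1 := Nat.ceil_lt_add_one (by positivity)
    have h4 : (0 : ℝ) ≤ js := Nat.cast_nonneg js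
    nlinarith
  have h3 : β * (η / β * Real.log x) = η * Real.log x := by field_simp
  have h4 := mul_le_mul_of_nonneg_left hx hβ.le
  rw [h3] at h4
  have h5 : β * (Real.log c2 + Real.log x - (Real.log (K1 + js + 2) + Real.log (Real.log x))) ≤
      β * (Real.log ((⌊c2 * x⌋₊ : ℝ) + 1) -
      Real.log (((⌈K1 * Real.log x⌉₊ + js : ℕ) : ℝ) + 1)) :=
    mul_le_mul_of_nonneg_left (by linarith) hβ.le
  linarith

lemma harm_scales (j0 j1 : ℕ) (h : j0 ≤ j1) :
    Real.log ((j1 : ℝ) + 1) - Real.log ((j0 : ℝ) + 1) ≤ ∑ j ∈ Ico j0 j1, 1 / ((j : ℝ) + 1) := by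
  induction j1, h using Nat.le_induction with
  | base => simp
  | succ j1 hj ih =>
    rw [sum_Ico_succ_top hj]
    have h1 : Real.log (((j1 + 1 : ℕ) : ℝ) + 1) - Real.log ((j1 : ℝ) + 1) ≤ 1 / ((j1 : ℝ) + 1) := by
      rw [← Real.log_div (by positivity) (by positivity)]
      refine (Real.log_le_sub_one_of_pos (by positivity)).trans (le_of_eq ?_)
      push_cast
      field_simp
      ring
    linarith

lemma XS_scales (f : ℕ → ℝ) (n j0 j1 : ℕ) (h : j0 ≤ j1)
    (hf : ∀ j ∈ Ico j0 j1, f j ≤ XS (2 ^ j) (2 ^ (j + 1)) n) :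
    ∑ j ∈ Ico j0 j1, f j ≤ XS (2 ^ j0) (2 ^ j1) n := by
  induction j1, h using Nat.le_induction with
  | base => simp [XS]
  | succ j1 hj ih =>
    rw [sum_Ico_succ_top hj, XS_split (2 ^ j0) (2 ^ j1) (2 ^ (j1 + 1)) n
      (Nat.pow_le_pow_right (by norm_num) hj) (Nat.pow_le_pow_right (by norm_num) (Nat.le_succ _))]
    refine add_le_add (ih fun j hj' => hf j ?_) (hf j1 ?_)
    · rw [mem_Ico] at hj' ⊢
      omega
    · rw [mem_Ico]
      omega

lemma totalSum_nonneg' (n : ℕ) : 0 ≤ totalSum false n := by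
  unfold totalSum
  exact sum_nonneg fun a _ => by positivity

lemma kap_le_one : kap ≤ 1 := by
  unfold kap
  rw [Real.exp_le_one_iff]
  have := Real.one_half_lt_eulerMascheroniConstant
  linarith

/-- the scales used: conditions for the concentration theorem -/
lemma scale_cond (B : ℕ) (hB : 1 ≤ B) (c2 : ℝ) (hc2B : c2 * B ≤ 1) (N : ℕ)
    (hN : 2 ≤ Real.log N) (j : ℕ) (h0 : 4 * B / Real.log 2 * Real.log (Real.log N) ≤ j)
    (h1 : (j : ℝ) ≤ c2 * Real.log N) :
    (Real.log N) ^ B ≤ ((2 ^ (j / 2) : ℕ) : ℝ) ∧ (2 ^ (j / 2)) ^ B ≤ N := by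
  set x : ℝ := Real.log N with hx
  have hl2 : 0 < Real.log 2 := Real.log_pos (by norm_num)
  have hl21 : Real.log 2 ≤ 1 := by
    have := Real.log_two_lt_d9
    linarith
  have hBR : (1 : ℝ) ≤ B := by exact_mod_cast hB
  have hlx : Real.log 2 ≤ Real.log x := Real.log_le_log (by norm_num) hN
  have hdiv : (j : ℝ) / 2 - 1 / 2 ≤ ((j / 2 : ℕ) : ℝ) := by
    have : j ≤ 2 * (j / 2) + 1 := by omega
    have h2 : (j : ℝ) ≤ 2 * ((j / 2 : ℕ) : ℝ) + 1 := by exact_mod_cast this
    linarith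
  have hdiv2 : ((j / 2 : ℕ) : ℝ) ≤ j := by exact_mod_cast Nat.div_le_self j 2
  constructor
  · have h2 : ((2 ^ (j / 2) : ℕ) : ℝ) = Real.exp (((j / 2 : ℕ) : ℝ) * Real.log 2) := by
      push_cast
      rw [← Real.rpow_natCast, Real.rpow_def_of_pos (by norm_num)]
      congr 1
      ring
    have h3 : x ^ B = Real.exp (B * Real.log x) := by
      rw [Real.exp_nat_mul, Real.exp_log (by linarith)]
    rw [h2, h3]
    refine Real.exp_le_exp.2 ?_
    have h4 : 4 * B * Real.log x ≤ j * Real.log 2 := by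
      have h5 := mul_le_mul_of_nonneg_right h0 hl2.le
      have h6 : 4 * B / Real.log 2 * Real.log x * Real.log 2 = 4 * B * Real.log x := by
        field_simp
      linarith
    have h5 := mul_le_mul_of_nonneg_right hdiv hl2.le
    have h6 : Real.log 2 ≤ B * Real.log x := by
      calc Real.log 2 = 1 * Real.log 2 := (one_mul _).symm
        _ ≤ B * Real.log x := mul_le_mul hBR hlx hl2.le (by linarith)
    have h7 : ((j : ℝ) / 2 - 1 / 2) * Real.log 2 = j * Real.log 2 / 2 - Real.log 2 / 2 := by ring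
    linarith
  · have hN0 : (0 : ℝ) < N := by
      by_contra hcon
      have : (N : ℝ) = 0 := le_antisymm (not_lt.1 hcon) (Nat.cast_nonneg N)
      rw [hx, this, Real.log_zero] at hN
      linarith
    have h2 : (((2 ^ (j / 2)) ^ B : ℕ) : ℝ) ≤ N := by
      have h3 : (((2 ^ (j / 2)) ^ B : ℕ) : ℝ) =
          Real.exp (((j / 2 : ℕ) : ℝ) * B * Real.log 2) := by
        push_cast
        rw [← pow_mul, ← Real.rpow_natCast, Real.rpow_def_of_pos (by norm_num)]
        congr 1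
        push_cast
        ring
      rw [h3, ← Real.exp_log hN0]
      refine Real.exp_le_exp.2 ?_
      rw [← hx]
      have h4 : ((j / 2 : ℕ) : ℝ) * B ≤ x := by
        calc ((j / 2 : ℕ) : ℝ) * B ≤ (c2 * x) * B :=
              mul_le_mul_of_nonneg_right (hdiv2.trans h1) (by linarith)
          _ = (c2 * B) * x := by ring
          _ ≤ 1 * x := mul_le_mul_of_nonneg_right hc2B (by linarith)
          _ = x := one_mul x
      calc ((j / 2 : ℕ) : ℝ) * B * Real.log 2 ≤ x * 1 :=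
            mul_le_mul h4 hl21 hl2.le (by linarith)
        _ = x := mul_one x
    exact_mod_cast h2

/-- rare small values, for large `N` -/
theorem rare_small_large (δ : ℝ) (hδ : 0 < δ) (hδ1 : δ < kap) : ∃ c C : ℝ, 0 < c ∧ c ≤ 1 / 2 ∧
    0 < C ∧ ∀ᶠ N : ℕ in atTop, ∀ M : ℕ,
    ((((Ioc M (M + N)).filter (fun n => totalSum false n <
      (kap - δ) * Real.log (Real.log N))).card : ℕ) : ℝ) ≤ C * (N : ℝ) ^ (1 - c) := by
  classical
  have hkap := kap_pos
  have hkap1 := kap_le_one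
  have hl2 : 0 < Real.log 2 := Real.log_pos (by norm_num)
  set δ0 : ℝ := δ / 8 with hδ0
  have hδ0pos : 0 < δ0 := by positivity
  have hδ01 : δ0 ≤ 1 / 8 := by rw [hδ0]; linarith
  obtain ⟨c, B, hc0, hc1, hB1, hconc⟩ := conc 4 (by norm_num) δ0 hδ0pos
  have hBR : (1 : ℝ) ≤ B := by exact_mod_cast hB1
  set c2 : ℝ := min (c / 4) (1 / B) with hc2
  have hc2pos : 0 < c2 := lt_min (by positivity) (by positivity)
  have hc2c : c2 ≤ c / 4 := min_le_left _ _
  have hc2B : c2 * B ≤ 1 := by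
    have : c2 ≤ 1 / B := min_le_right _ _
    rwa [le_div_iff₀ (by linarith)] at this
  set β : ℝ := kap - δ / 2 with hβ
  have hβ0 : 0 < β := by rw [hβ]; linarith
  set K1 : ℝ := 4 * B / Real.log 2 with hK1
  have hK10 : 0 ≤ K1 := by positivity
  -- conditions valid for all large j
  have hj1 : ∀ᶠ j : ℕ in atTop, (kap - δ0) / Real.log ((2 ^ (j + 1) : ℕ) : ℝ) ≤ V (2 ^ (j + 1)) := by
    have h1 : Tendsto (fun j : ℕ => 2 ^ (j + 1)) atTop atTop :=
      (tendsto_pow_atTop_atTop_of_one_lt (by norm_num : 1 < 2)).comp (tendsto_add_atTop_nat 1)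
    exact h1.eventually (V_lower_sharp δ0 hδ0pos)
  have hj2 : ∀ᶠ j : ℕ in atTop, B ≤ 2 ^ (j / 2) := by
    filter_upwards [eventually_ge_atTop (2 * B)] with j hj
    have h1 : B ≤ j / 2 := by omega
    exact h1.trans (Nat.lt_two_pow_self).le
  have hj3 : ∀ᶠ j : ℕ in atTop, 1 / ((2 ^ (j - j / 2) : ℕ) : ℝ) ≤ δ0 * Real.log 2 := by
    have h1 : ∀ᶠ j : ℕ in atTop, ⌈1 / (δ0 * Real.log 2)⌉₊ ≤ j / 2 := by
      filter_upwards [eventually_ge_atTop (2 * ⌈1 / (δ0 * Real.log 2)⌉₊)] with j hj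
      omega
    filter_upwards [h1] with j hj
    have h2 : ((⌈1 / (δ0 * Real.log 2)⌉₊ : ℕ) : ℝ) ≤ ((2 ^ (j - j / 2) : ℕ) : ℝ) := by
      have h3 : j / 2 ≤ j - j / 2 := by omega
      have h4 : j - j / 2 ≤ 2 ^ (j - j / 2) := (Nat.lt_two_pow_self).le
      exact_mod_cast hj.trans (h3.trans h4)
    have h3 : 1 / (δ0 * Real.log 2) ≤ ((2 ^ (j - j / 2) : ℕ) : ℝ) := (Nat.le_ceil _).trans h2
    rw [div_le_iff₀ (by positivity)] at h3
    rw [div_le_iff₀ (by positivity)]
    linarith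
  obtain ⟨js, hjs⟩ := eventually_atTop.1 (hj1.and (hj2.and (hj3.and (eventually_ge_atTop 3))))
  refine ⟨c / 2, B + 1, by positivity, by linarith, by positivity, ?_⟩
  have hnum := num_lower K1 c2 β (δ / 2) js hK10 hc2pos hβ0 (by positivity)
  have hlogN : Tendsto (fun N : ℕ => Real.log N) atTop atTop :=
    Real.tendsto_log_atTop.comp tendsto_natCast_atTop_atTop
  filter_upwards [hlogN.eventually hnum, hlogN.eventually (eventually_ge_atTop (Real.exp 1)),
    eventually_ge_atTop 3] with N hnumN hxN hN3 M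
  set x : ℝ := Real.log N with hx
  have hNR : (0 : ℝ) < N := by exact_mod_cast (by omega : 0 < N)
  have hxexp : Real.exp x = N := Real.exp_log hNR
  have hx0 : 0 < x := (Real.exp_pos 1).trans_le hxN
  have hx2 : 2 ≤ x := by
    have := Real.exp_one_gt_d9
    linarith
  have hlx : 1 ≤ Real.log x := by
    rw [Real.le_log_iff_exp_le hx0]
    exact hxN
  set j0 : ℕ := ⌈K1 * Real.log x⌉₊ + js with hj0
  set j1 : ℕ := ⌊c2 * x⌋₊ with hj1def
  have hj1le : (j1 : ℝ) ≤ c2 * x := Nat.floor_le (by positivity)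
  -- size of 2 ^ j1
  have hpow : ((2 ^ j1 : ℕ) : ℝ) ≤ (N : ℝ) ^ (c / 4) := by
    have h1 : ((2 ^ j1 : ℕ) : ℝ) = Real.exp (j1 * Real.log 2) := by
      push_cast
      rw [← Real.rpow_natCast, Real.rpow_def_of_pos (by norm_num)]
      congr 1
      ring
    rw [h1, Real.rpow_def_of_pos hNR, ← hx]
    refine Real.exp_le_exp.2 ?_
    have hl21 : Real.log 2 ≤ 1 := by
      have := Real.log_two_lt_d9
      linarith
    calc (j1 : ℝ) * Real.log 2 ≤ (c2 * x) * 1 := mul_le_mul hj1le hl21 hl2.le (by positivity)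
      _ = c2 * x := mul_one _
      _ ≤ c / 4 * x := mul_le_mul_of_nonneg_right hc2c hx0.le
      _ = x * (c / 4) := mul_comm _ _
  set bad : ℕ → ℕ → Finset ℕ := fun j t =>
    badset M N δ0 (2 ^ (j + 1)) (2 ^ j + t * 2 ^ (j / 2)) (2 ^ (j / 2)) with hbad
  have hbadcard : ∀ j ∈ Ico j0 j1, ∀ t, (((bad j t).card : ℕ) : ℝ) ≤ B * (N : ℝ) ^ (1 - c) := by
    intro j hj t
    rw [mem_Ico] at hj
    have hjs' : js ≤ j := by omega
    obtain ⟨-, h2, -, h4⟩ := hjs j hjs'
    have hjx : K1 * Real.log x ≤ j := by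
      calc K1 * Real.log x ≤ (⌈K1 * Real.log x⌉₊ : ℝ) := Nat.le_ceil _
        _ ≤ j := by exact_mod_cast (by omega : ⌈K1 * Real.log x⌉₊ ≤ j)
    have hjx2 : (j : ℝ) ≤ c2 * x := by
      refine le_trans ?_ hj1le
      exact_mod_cast hj.2.le
    obtain ⟨h5, h6⟩ := scale_cond B hB1 c2 hc2B N hx2 j hjx hjx2
    refine hconc (2 ^ (j / 2)) N (2 ^ (j + 1)) (2 ^ j + t * 2 ^ (j / 2)) M h2 h5 h6 ?_ ?_
    · exact Nat.pow_le_pow_right (by norm_num) (by omega)
    · rw [← pow_mul]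
      exact Nat.pow_le_pow_right (by norm_num) (by omega)
  -- inclusion
  have hsub : (Ioc M (M + N)).filter (fun n => totalSum false n <
      (kap - δ) * Real.log x) ⊆ Icc 1 (2 ^ j1) ∪
      (Ico j0 j1).biUnion (fun j => (range (2 ^ (j - j / 2))).biUnion (bad j)) := by
    intro n hn
    rw [mem_filter] at hn
    rw [mem_union]
    by_contra hcon
    push Not at hcon
    obtain ⟨hc3, hc4⟩ := hcon
    have hnI := mem_Ioc.1 hn.1
    have hnbig : 2 ^ j1 < n := by
      by_contra h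
      exact hc3 (mem_Icc.2 ⟨by omega, by omega⟩)
    have hgood : ∀ j ∈ Ico j0 j1, ∀ t < 2 ^ (j - j / 2), n ∉ bad j t := by
      intro j hj t ht h
      refine hc4 (mem_biUnion.2 ⟨j, hj, mem_biUnion.2 ⟨t, mem_range.2 ht, h⟩⟩)
    rcases le_total j1 j0 with hjj | hjj
    · -- degenerate
      have h1 : Real.log ((j1 : ℝ) + 1) ≤ Real.log ((j0 : ℝ) + 1) :=
        Real.log_le_log (by positivity) (by
          have : (j1 : ℝ) ≤ j0 := by exact_mod_cast hjj
          linarith)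
      have h2 : β * (Real.log ((j1 : ℝ) + 1) - Real.log ((j0 : ℝ) + 1)) ≤ 0 :=
        mul_nonpos_of_nonneg_of_nonpos hβ0.le (by linarith)
      have h3 := totalSum_nonneg' n
      have h4 : β - δ / 2 = kap - δ := by rw [hβ]; ring
      rw [h4] at hnumN
      linarith [hn.2]
    · have hscale : ∀ j ∈ Ico j0 j1, β * (1 / ((j : ℝ) + 1)) ≤ XS (2 ^ j) (2 ^ (j + 1)) n := by
        intro j hj
        have hj' := mem_Ico.1 hj
        obtain ⟨h1, -, h3, -⟩ := hjs j (by omega)
        have h5 := scale_lower δ0 (by linarith) j n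
          (((Nat.pow_le_pow_right (by norm_num) hj'.2) : 2 ^ (j + 1) ≤ 2 ^ j1).trans hnbig.le)
          (fun t ht => by
            have h6 := hgood j hj t ht
            simp only [hbad, badset, mem_filter, not_and, not_lt] at h6
            exact h6 hn.1)
        refine le_trans ?_ h5
        have hlogj : Real.log ((2 ^ (j + 1) : ℕ) : ℝ) = (j + 1) * Real.log 2 := by
          push_cast
          rw [Real.log_pow]
          push_cast
          ring
        rw [hlogj] at h1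
        have h7 : (1 - δ0) * Real.log 2 ≤ Real.log 2 - 1 / ((2 ^ (j - j / 2) : ℕ) : ℝ) := by
          linarith
        have hj1pos : (0 : ℝ) < (j : ℝ) + 1 := by positivity
        have h8 : (1 - δ0) * ((kap - δ0) / (((j : ℝ) + 1) * Real.log 2)) ≤
            (1 - δ0) * V (2 ^ (j + 1)) := mul_le_mul_of_nonneg_left h1 (by linarith)
        have hkd : 0 ≤ kap - δ0 := by rw [hδ0]; linarith
        calc β * (1 / ((j : ℝ) + 1)) ≤ ((1 - δ0) * (1 - δ0) * (kap - δ0)) * (1 / ((j : ℝ) + 1)) := by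
              refine mul_le_mul_of_nonneg_right ?_ (by positivity)
              rw [hβ]
              have h9 : δ / 2 = 4 * δ0 := by rw [hδ0]; ring
              rw [h9]
              have h10 : 1 - 2 * δ0 ≤ (1 - δ0) * (1 - δ0) := by
                have := mul_nonneg hδ0pos.le hδ0pos.le
                linarith
              have h11 := mul_le_mul_of_nonneg_right h10 hkd
              have h12 : δ0 * kap ≤ δ0 * 1 := mul_le_mul_of_nonneg_left hkap1 hδ0pos.le
              have h13 : 0 ≤ δ0 * δ0 := mul_nonneg hδ0pos.le hδ0pos.le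
              have h14 : (1 - 2 * δ0) * (kap - δ0) =
                kap - δ0 - 2 * (δ0 * kap) + 2 * (δ0 * δ0) := by ring
              linarith
          _ = (1 - δ0) * ((kap - δ0) / (((j : ℝ) + 1) * Real.log 2)) * ((1 - δ0) * Real.log 2) := by
              field_simp
          _ ≤ (1 - δ0) * V (2 ^ (j + 1)) *
              (Real.log 2 - 1 / ((2 ^ (j - j / 2) : ℕ) : ℝ)) := by
              refine mul_le_mul h8 h7 (mul_nonneg (by linarith) hl2.le) ?_
              exact mul_nonneg (by linarith) (V_pos _).le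
      have h1 := XS_scales (fun j => β * (1 / ((j : ℝ) + 1))) n j0 j1 hjj hscale
      have h2 := XS_le_totalSum (2 ^ j0) (2 ^ j1) n hnbig
      rw [← mul_sum] at h1
      have h3 := mul_le_mul_of_nonneg_left (harm_scales j0 j1 hjj) hβ0.le
      have h4 : β - δ / 2 = kap - δ := by rw [hβ]; ring
      rw [h4] at hnumN
      linarith [hn.2]
  have hcard := card_le_card hsub
  have hcard2 : ((((Ioc M (M + N)).filter (fun n => totalSum false n <
      (kap - δ) * Real.log x)).card : ℕ) : ℝ) ≤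
      ((2 ^ j1 : ℕ) : ℝ) + ∑ j ∈ Ico j0 j1, ∑ t ∈ range (2 ^ (j - j / 2)),
        (((bad j t).card : ℕ) : ℝ) := by
    have h1 : ((Icc 1 (2 ^ j1) ∪ (Ico j0 j1).biUnion
        (fun j => (range (2 ^ (j - j / 2))).biUnion (bad j))).card : ℕ) ≤
        2 ^ j1 + ∑ j ∈ Ico j0 j1, ∑ t ∈ range (2 ^ (j - j / 2)), (bad j t).card := by
      refine (card_union_le _ _).trans (add_le_add (by simp) ?_)
      refine card_biUnion_le.trans (sum_le_sum fun j _ => card_biUnion_le)
    exact_mod_cast hcard.trans h1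
  refine hcard2.trans ?_
  have hP0 : 0 ≤ (N : ℝ) ^ (1 - c) := Real.rpow_nonneg hNR.le _
  have h1 : ∑ j ∈ Ico j0 j1, ∑ t ∈ range (2 ^ (j - j / 2)), (((bad j t).card : ℕ) : ℝ) ≤
      ∑ _j ∈ Ico j0 j1, ((2 ^ j1 : ℕ) : ℝ) * (B * (N : ℝ) ^ (1 - c)) := by
    refine sum_le_sum fun j hj => ?_
    calc ∑ t ∈ range (2 ^ (j - j / 2)), (((bad j t).card : ℕ) : ℝ)
        ≤ ∑ _t ∈ range (2 ^ (j - j / 2)), B * (N : ℝ) ^ (1 - c) :=
          sum_le_sum fun t _ => hbadcard j hj t
      _ = ((2 ^ (j - j / 2) : ℕ) : ℝ) * (B * (N : ℝ) ^ (1 - c)) := by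
          rw [sum_const, card_range, nsmul_eq_mul]
      _ ≤ ((2 ^ j1 : ℕ) : ℝ) * (B * (N : ℝ) ^ (1 - c)) := by
          refine mul_le_mul_of_nonneg_right ?_ (by positivity)
          have := (mem_Ico.1 hj).2
          exact_mod_cast Nat.pow_le_pow_right (by norm_num) (by omega : j - j / 2 ≤ j1)
  have h2 : ∑ _j ∈ Ico j0 j1, ((2 ^ j1 : ℕ) : ℝ) * (B * (N : ℝ) ^ (1 - c)) ≤
      ((2 ^ j1 : ℕ) : ℝ) * (((2 ^ j1 : ℕ) : ℝ) * (B * (N : ℝ) ^ (1 - c))) := by
    rw [sum_const, nsmul_eq_mul]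
    refine mul_le_mul_of_nonneg_right ?_ (by positivity)
    have h3 : (Ico j0 j1).card ≤ 2 ^ j1 := by
      rw [Nat.card_Ico]
      exact (Nat.sub_le _ _).trans (Nat.lt_two_pow_self).le
    exact_mod_cast h3
  have h3 : ((2 ^ j1 : ℕ) : ℝ) * (((2 ^ j1 : ℕ) : ℝ) * (B * (N : ℝ) ^ (1 - c))) ≤
      B * (N : ℝ) ^ (1 - c / 2) := by
    have h4 : ((2 ^ j1 : ℕ) : ℝ) * ((2 ^ j1 : ℕ) : ℝ) ≤ (N : ℝ) ^ (c / 4) * (N : ℝ) ^ (c / 4) :=
      mul_le_mul hpow hpow (by positivity) (Real.rpow_nonneg hNR.le _)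
    have h5 : (N : ℝ) ^ (c / 4) * (N : ℝ) ^ (c / 4) * (N : ℝ) ^ (1 - c) = (N : ℝ) ^ (1 - c / 2) := by
      rw [← Real.rpow_add hNR, ← Real.rpow_add hNR]
      congr 1
      ring
    calc ((2 ^ j1 : ℕ) : ℝ) * (((2 ^ j1 : ℕ) : ℝ) * (B * (N : ℝ) ^ (1 - c)))
        = B * ((((2 ^ j1 : ℕ) : ℝ) * ((2 ^ j1 : ℕ) : ℝ)) * (N : ℝ) ^ (1 - c)) := by ring
      _ ≤ B * (((N : ℝ) ^ (c / 4) * (N : ℝ) ^ (c / 4)) * (N : ℝ) ^ (1 - c)) :=
          mul_le_mul_of_nonneg_left (mul_le_mul_of_nonneg_right h4 hP0) (by linarith)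
      _ = B * (N : ℝ) ^ (1 - c / 2) := by rw [h5]
  have h4 : ((2 ^ j1 : ℕ) : ℝ) ≤ (N : ℝ) ^ (1 - c / 2) := by
    refine hpow.trans (Real.rpow_le_rpow_of_exponent_le ?_ (by linarith))
    exact_mod_cast (by omega : 1 ≤ N)
  have h5 : ((B : ℝ) + 1) * (N : ℝ) ^ (1 - c / 2) = (N : ℝ) ^ (1 - c / 2) +
      B * (N : ℝ) ^ (1 - c / 2) := by ring
  rw [h5]
  linarith

/-- Values of `S(n)` below `(e^{-γ} - δ) log log N` are rare, with a power saving, uniformly in the
position of the interval. -/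
theorem rare_small (δ : ℝ) (hδ : 0 < δ) : ∃ c C : ℝ, 0 < c ∧ 0 < C ∧ ∀ M N : ℕ, 1 ≤ N →
    ((((Ioc M (M + N)).filter (fun n => totalSum false n <
      (kap - δ) * Real.log (Real.log N))).card : ℕ) : ℝ) ≤ C * (N : ℝ) ^ (1 - c) := by
  classical
  have hkap := kap_pos
  set δ' : ℝ := min δ (kap / 2) with hδ'
  have hδ'0 : 0 < δ' := lt_min hδ (by positivity)
  have hδ'1 : δ' < kap := (min_le_right _ _).trans_lt (by linarith)
  obtain ⟨c, C, hc0, hc1, hC0, hev⟩ := rare_small_large δ' hδ'0 hδ'1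
  obtain ⟨N0, hN0⟩ := eventually_atTop.1 hev
  set N1 : ℕ := max N0 3 with hN1
  have hN1R : (3 : ℝ) ≤ N1 := by exact_mod_cast le_max_right N0 3
  refine ⟨c, max C ((N1 : ℝ) ^ c), hc0, lt_max_of_lt_left hC0, fun M N hN => ?_⟩
  have hNR : (1 : ℝ) ≤ N := by exact_mod_cast hN
  have hP0 : 0 ≤ (N : ℝ) ^ (1 - c) := Real.rpow_nonneg (by linarith) _
  rcases Nat.lt_or_ge N N1 with h | h
  · have h1 : ((((Ioc M (M + N)).filter (fun n => totalSum false n <
        (kap - δ) * Real.log (Real.log N))).card : ℕ) : ℝ) ≤ N := by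
      have : ((Ioc M (M + N)).filter (fun n => totalSum false n <
        (kap - δ) * Real.log (Real.log N))).card ≤ N := (card_filter_le _ _).trans (by simp)
      exact_mod_cast this
    refine h1.trans ?_
    have h2 : (N : ℝ) = (N : ℝ) ^ c * (N : ℝ) ^ (1 - c) := by
      rw [← Real.rpow_add (by linarith)]
      simp
    calc (N : ℝ) = (N : ℝ) ^ c * (N : ℝ) ^ (1 - c) := h2
      _ ≤ (N1 : ℝ) ^ c * (N : ℝ) ^ (1 - c) := by
          refine mul_le_mul_of_nonneg_right ?_ hP0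
          exact Real.rpow_le_rpow (by linarith) (by exact_mod_cast h.le) hc0.le
      _ ≤ max C ((N1 : ℝ) ^ c) * (N : ℝ) ^ (1 - c) :=
          mul_le_mul_of_nonneg_right (le_max_right _ _) hP0
  · have h1 := hN0 N ((le_max_left _ _).trans h) M
    have hN3 : (3 : ℝ) ≤ N := by exact_mod_cast (le_max_right N0 3).trans h
    have hll : 0 ≤ Real.log (Real.log N) := by
      refine Real.log_nonneg ?_
      rw [Real.le_log_iff_exp_le (by linarith)]
      have := Real.exp_one_lt_d9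
      linarith
    have h2 : (Ioc M (M + N)).filter (fun n => totalSum false n <
        (kap - δ) * Real.log (Real.log N)) ⊆ (Ioc M (M + N)).filter (fun n => totalSum false n <
        (kap - δ') * Real.log (Real.log N)) := by
      intro n hn
      rw [mem_filter] at hn ⊢
      refine ⟨hn.1, hn.2.trans_le (mul_le_mul_of_nonneg_right ?_ hll)⟩
      have : δ' ≤ δ := min_le_left _ _
      linarith
    have h3 : ((((Ioc M (M + N)).filter (fun n => totalSum false n <
        (kap - δ) * Real.log (Real.log N))).card : ℕ) : ℝ) ≤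
        ((((Ioc M (M + N)).filter (fun n => totalSum false n <
        (kap - δ') * Real.log (Real.log N))).card : ℕ) : ℝ) := by exact_mod_cast card_le_card h2
    refine h3.trans (h1.trans (mul_le_mul_of_nonneg_right (le_max_left _ _) hP0))

end Pool.Agent.Lib_helper10.Erdos460
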