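import Mathlib
import Pool.Agent.Lib_helper10.Erdos460.RareSmall
import Pool.Agent.Lib_helper10.Erdos460.NormalOrder

set_option autoImplicit false
open N435e839e

namespace Pool.Agent.Lib_helper10.Erdos460

open Finset Filter Topology

lemma harm_block_up (H : ℕ) (hH : 1 ≤ H) :
    ∑ t ∈ range H, 1 / ((H : ℝ) + t) ≤ Real.log 2 + 1 / H := by
  have hHR : (1 : ℝ) ≤ H := by exact_mod_cast hH
  have key : ∀ K : ℕ, ∑ t ∈ range (K + 1), 1 / ((H : ℝ) + t) ≤
      1 / H + (Real.log ((H : ℝ) + K) - Real.log H) := by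
    intro K
    induction K with
    | zero => simp
    | succ K ih =>
      rw [sum_range_succ]
      have h1 : 1 / ((H : ℝ) + ((K + 1 : ℕ) : ℝ)) ≤
          Real.log ((H : ℝ) + ((K + 1 : ℕ) : ℝ)) - Real.log ((H : ℝ) + K) := by
        have h2 : 0 < (H : ℝ) + K := by positivity
        have h3 : 0 < (H : ℝ) + ((K + 1 : ℕ) : ℝ) := by positivity
        have h4 := Real.log_le_sub_one_of_pos (x := ((H : ℝ) + K) / ((H : ℝ) + ((K + 1 : ℕ) : ℝ)))
          (by positivity)
        rw [Real.log_div h2.ne' h3.ne'] at h4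
        have h5 : ((H : ℝ) + K) / ((H : ℝ) + ((K + 1 : ℕ) : ℝ)) - 1 =
            -(1 / ((H : ℝ) + ((K + 1 : ℕ) : ℝ))) := by
          push_cast
          field_simp
          ring
        rw [h5] at h4
        linarith
      linarith
  obtain ⟨K, rfl⟩ : ∃ K, H = K + 1 := ⟨H - 1, by omega⟩
  refine (key K).trans ?_
  have h1 : Real.log (((K + 1 : ℕ) : ℝ) + K) - Real.log ((K + 1 : ℕ) : ℝ) ≤ Real.log 2 := by
    rw [← Real.log_div (by positivity) (by positivity)]
    refine Real.log_le_log (by positivity) ?_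
    rw [div_le_iff₀ (by positivity)]
    push_cast
    linarith
  linarith

/-- a prime in a good class has been used -/
lemma used_prime (j n q L' : ℕ) (hq : q.Prime) (hL : (L' + 1) * q ≤ 2 ^ j) (hn : 2 ^ j < n)
    (hex : ∃ b' ∈ Ioc 0 L', ∀ p ∈ Nat.primesBelow (2 ^ j), ¬ n / q ≡ b' [MOD p]) :
    ∃ b ∈ selected false n, b ≤ 2 ^ j ∧ q ∣ n - b := by
  obtain ⟨b', hb', hr⟩ := hex
  rw [mem_Ioc] at hb'
  have hq2 := hq.two_le
  set b := q * b' + n % q with hb
  have hmod : n % q < q := Nat.mod_lt _ (by omega)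
  have hnq : q * (n / q) + n % q = n := Nat.div_add_mod n q
  have hblt : b < 2 ^ j := by
    have h1 : q * b' + q ≤ (L' + 1) * q := by nlinarith [Nat.mul_le_mul_left q hb'.2]
    omega
  have hb1 : 1 ≤ b := by
    have : 1 * 1 ≤ q * b' := Nat.mul_le_mul (by omega) (by omega)
    omega
  have hbn : b < n := by omega
  have hle : b' ≤ n / q := by
    have h1 : q * b' ≤ q * (n / q) := by omega
    exact Nat.le_of_mul_le_mul_left h1 (by omega)
  have hsub : n - b = q * (n / q - b') := by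
    rw [Nat.mul_sub]
    omega
  obtain ⟨b'', h1, h2, h3⟩ := used_of_almost_rough (n := n) (b := b) (p := q) hb1 hbn
    (by rw [hsub]; exact dvd_mul_right _ _) (by
      intro p hp hpb hpq hdvd
      rw [hsub] at hdvd
      rcases (hp.dvd_mul).1 hdvd with h | h
      · exact hpq ((Nat.prime_dvd_prime_iff_eq hp hq).1 h)
      · refine hr p (Nat.mem_primesBelow.2 ⟨by omega, hp⟩) ?_
        exact ((Nat.modEq_iff_dvd' hle).2 h).symm)
  exact ⟨b'', h1, by omega, h3⟩

/-- upper bound at one dyadic scale for good `n` -/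
lemma scale_upper (δ : ℝ) (hδ0 : 0 ≤ δ) (j n w : ℕ) (hn : 2 ^ (j + 1) < n)
    (hused : ∀ q ∈ Nat.primesBelow (2 ^ w), ∃ b ∈ selected false n, b ≤ 2 ^ j ∧ q ∣ n - b)
    (hgood : ∀ t < 2 ^ (j - j / 2),
      |Rz (2 ^ j + t * 2 ^ (j / 2)) (2 ^ (j / 2)) (2 ^ w) n -
        V (2 ^ w) * ((2 ^ (j / 2) : ℕ) : ℝ)| ≤
        δ * (V (2 ^ w) * ((2 ^ (j / 2) : ℕ) : ℝ))) :
    TS (2 ^ j) (2 ^ (j + 1)) n ≤
      (1 + δ) * V (2 ^ w) * (Real.log 2 + 1 / (2 ^ (j - j / 2) : ℕ)) := by
  classical
  set L : ℕ := 2 ^ (j / 2) with hL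
  set H : ℕ := 2 ^ (j - j / 2) with hH
  set z : ℕ := 2 ^ w with hz
  have hLpos : 0 < L := by positivity
  have hHpos : 0 < H := by positivity
  have hLR : (0 : ℝ) < L := by exact_mod_cast hLpos
  have hHR : (0 : ℝ) < H := by exact_mod_cast hHpos
  have hHL : 2 ^ j = H * L := by
    rw [hH, hL, ← pow_add]
    congr 1
    omega
  have hzz : 2 ^ (j + 1) = 2 ^ j + H * L := by
    rw [pow_succ, ← hHL]
    ring
  have hVz := V_pos z
  unfold TS
  rw [sum_filter, hzz, sum_subblocks]
  have h1 : ∀ t ∈ range H,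
      ∑ a ∈ Ioc (2 ^ j + t * L) (2 ^ j + t * L + L),
        (if a ∈ selected false n then (1 : ℝ) / a else 0) ≤
        (1 + δ) * V z * (1 / ((H : ℝ) + t)) := by
    intro t ht
    have ht' := mem_range.1 ht
    have h2 := (abs_le.1 (hgood t ht')).2
    have h3 : Rz (2 ^ j + t * L) L z n ≤ (1 + δ) * (V z * L) := by linarith
    have hstart : 2 ^ j + t * L = (H + t) * L := by rw [hHL]; ring
    have hend : 2 ^ j + t * L + L ≤ 2 ^ (j + 1) := by
      rw [hzz]
      have : (t + 1) * L ≤ H * L := Nat.mul_le_mul_right L ht'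
      linarith
    have h4 : ∑ a ∈ Ioc (2 ^ j + t * L) (2 ^ j + t * L + L),
        (if a ∈ selected false n then (1 : ℝ) / a else 0) ≤
        Rz (2 ^ j + t * L) L z n * (1 / (((H : ℝ) + t) * L)) := by
      unfold Rz
      rw [card_filter]
      push_cast
      rw [sum_mul]
      refine sum_le_sum fun a ha => ?_
      have ha' := mem_Ioc.1 ha
      have han : a ≤ n := (ha'.2.trans hend).trans hn.le
      have haj : 2 ^ j < a := lt_of_le_of_lt (Nat.le_add_right _ _) ha'.1
      have hpos : 0 < ((H : ℝ) + t) * L := by positivity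
      split_ifs with hs hr hr
      · rw [one_mul]
        refine one_div_le_one_div_of_le hpos ?_
        have : (H + t) * L ≤ a := by rw [← hstart]; exact ha'.1.le
        exact_mod_cast this
      · exfalso
        apply hr
        intro p hp hmod
        obtain ⟨b, hb1, hb2, hb3⟩ := hused p hp
        refine not_dvd_of_used (Nat.mem_primesBelow.1 hp).2 hs hb1 (by omega) hb3 ?_
        exact (Nat.modEq_iff_dvd' han).1 hmod.symm
      · rw [one_mul]; positivity
      · rw [zero_mul]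
    refine h4.trans ?_
    have h5 : (1 + δ) * V z * (1 / ((H : ℝ) + t)) =
        (1 + δ) * (V z * L) * (1 / (((H : ℝ) + t) * L)) := by
      field_simp
    rw [h5]
    exact mul_le_mul_of_nonneg_right h3 (by positivity)
  refine (sum_le_sum h1).trans ?_
  rw [← mul_sum]
  refine mul_le_mul_of_nonneg_left (harm_block_up H hHpos) ?_
  exact mul_nonneg (by linarith) (V_pos z).le

end Pool.Agent.Lib_helper10.Erdos460
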