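import Mathlib
import Pool.Agent.Lib_helper10.Erdos460.ScaleUpper

set_option autoImplicit false
open N435e839e

namespace Pool.Agent.Lib_helper10.Erdos460

open Finset Filter Topology

/-- exceptional set attached to a modulus -/
noncomputable def badq (M N : ℕ) (δ : ℝ) (z L q : ℕ) : Finset ℕ :=
  (Ioc M (M + N)).filter (fun n => q ≤ n ∧ n / q ∈ badset (M / q - 1) (N / q + 2) δ z 0 L)

lemma badq_card (M N : ℕ) (δ : ℝ) (z L q : ℕ) (hq : 0 < q) :
    (badq M N δ z L q).card ≤ q * (badset (M / q - 1) (N / q + 2) δ z 0 L).card := by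
  classical
  have h1 : (badq M N δ z L q).card ≤ q * ((badq M N δ z L q).image (fun n => n / q)).card := by
    refine card_le_mul_card_image (badq M N δ z L q) q fun m _ => ?_
    have h2 : (badq M N δ z L q).filter (fun n => n / q = m) ⊆ Ico (m * q) (m * q + q) := by
      intro n hn
      have h3 := (mem_filter.1 hn).2
      rw [mem_Ico]
      have h4 := Nat.div_add_mod n q
      have h5 := Nat.mod_lt n hq
      rw [h3] at h4
      have h6 : q * m = m * q := Nat.mul_comm q m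
      constructor
      · omega
      · omega
    refine (card_le_card h2).trans ?_
    simp
  refine h1.trans (Nat.mul_le_mul_left q (card_le_card ?_))
  intro m hm
  rw [mem_image] at hm
  obtain ⟨n, hn, rfl⟩ := hm
  exact (mem_filter.1 hn).2.2

lemma div_mem_Ioc (M N n q : ℕ) (hq : 0 < q) (hn : n ∈ Ioc M (M + N)) (hqn : q ≤ n) :
    n / q ∈ Ioc (M / q - 1) (M / q - 1 + (N / q + 2)) := by
  rw [mem_Ioc] at hn ⊢
  have h1 : 1 ≤ n / q := (Nat.le_div_iff_mul_le hq).2 (by omega)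
  have h2 : M / q ≤ n / q := Nat.div_le_div_right hn.1.le
  have h3 : n / q ≤ (M + N) / q := Nat.div_le_div_right hn.2
  have h4 : (M + N) / q ≤ M / q + N / q + 1 := by
    have e1 := Nat.div_add_mod M q
    have e2 := Nat.div_add_mod N q
    have e3 := Nat.mod_lt M hq
    have e4 := Nat.mod_lt N hq
    rw [Nat.div_le_iff_le_mul_add_pred hq]
    have : q * (M / q + N / q + 1) + (q - 1) = q * (M / q) + q * (N / q) + q + (q - 1) := by ring
    rw [this]
    omega
  constructor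
  · omega
  · omega

/-- from a good `n` to the existence of an almost rough shift -/
lemma exists_shift (M N : ℕ) (δ : ℝ) (hδ : δ < 1) (z L q n : ℕ) (hq : 0 < q) (hL : 1 ≤ L)
    (hn : n ∈ Ioc M (M + N)) (hqn : q ≤ n) (hbad : n ∉ badq M N δ z L q) :
    ∃ b' ∈ Ioc 0 L, ∀ p ∈ Nat.primesBelow z, ¬ n / q ≡ b' [MOD p] := by
  classical
  have h1 : n / q ∉ badset (M / q - 1) (N / q + 2) δ z 0 L := by
    intro h
    exact hbad (mem_filter.2 ⟨hn, hqn, h⟩)
  have h2 := div_mem_Ioc M N n q hq hn hqn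
  simp only [badset, mem_filter, not_and, not_lt] at h1
  have h3 := (abs_le.1 (h1 h2)).1
  have hLR : (0 : ℝ) < L := by exact_mod_cast hL
  have h4 : 0 < Rz 0 L z (n / q) := by
    have := mul_pos (V_pos z) hLR
    nlinarith
  unfold Rz at h4
  have h5 : 0 < ((Ioc 0 (0 + L)).filter
      (fun a => ∀ p ∈ Nat.primesBelow z, ¬ n / q ≡ a [MOD p])).card := by exact_mod_cast h4
  obtain ⟨b, hb⟩ := card_pos.1 h5
  rw [mem_filter, zero_add] at hb
  exact ⟨b, hb.1, hb.2⟩

lemma two_pow_exp (k : ℕ) : ((2 ^ k : ℕ) : ℝ) = Real.exp (k * Real.log 2) := by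
  push_cast
  rw [← Real.rpow_natCast, Real.rpow_def_of_pos (by norm_num)]
  congr 1
  ring

/-- conditions for progressions -/
lemma scale_cond_q (B E : ℕ) (hB : 1 ≤ B) (hE : 2 ≤ E) (c2 : ℝ) (hc2B : c2 * (B + 1) ≤ 1)
    (N : ℕ) (hN : 2 ≤ Real.log N) (j : ℕ) (h0 : 4 * E * B / Real.log 2 * Real.log (Real.log N) ≤ j)
    (h1 : (j : ℝ) ≤ c2 * Real.log N) (hj : E * (4 * B + 8) ≤ j) (q : ℕ) (hq : 0 < q)
    (hqw : q ≤ 2 ^ ((j * (E - 1)) / E)) :
    2 ^ (j / E - 1) ≤ 2 ^ j / q - 1 ∧ B ≤ 2 ^ j / q - 1 ∧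
    (Real.log ((N / q + 2 : ℕ) : ℝ)) ^ B ≤ ((2 ^ j / q - 1 : ℕ) : ℝ) ∧
    (2 ^ j / q - 1) ^ B ≤ N / q + 2 ∧ 2 ^ j / q - 1 ≤ 2 ^ j ∧
    2 ^ j ≤ (2 ^ j / q - 1) ^ (2 * E) := by
  set w : ℕ := (j * (E - 1)) / E with hw
  have hE0 : 0 < E := by omega
  set k : ℕ := j / E with hk
  have hwj : w + k ≤ j := by
    rw [hw, hk]
    have h2 : (j * (E - 1)) / E + j / E ≤ (j * (E - 1) + j) / E :=
      Nat.div_add_div_le_add_div
    have h3 : j * (E - 1) + j = j * E := by
      obtain ⟨e, rfl⟩ : ∃ e, E = e + 1 := ⟨E - 1, by omega⟩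
      simp only [Nat.add_sub_cancel]
      ring
    rw [h3, Nat.mul_div_cancel _ hE0] at h2
    exact h2
  have hk8 : 4 * B + 8 ≤ k := by
    rw [hk, Nat.le_div_iff_mul_le hE0]
    linarith [Nat.mul_comm E (4 * B + 8)]
  have hdiv : 2 ^ k ≤ 2 ^ j / q := by
    rw [Nat.le_div_iff_mul_le hq]
    calc 2 ^ k * q ≤ 2 ^ k * 2 ^ w := Nat.mul_le_mul_left _ hqw
      _ = 2 ^ (w + k) := by rw [← pow_add, add_comm]
      _ ≤ 2 ^ j := Nat.pow_le_pow_right (by norm_num) hwj
  have hL1 : 2 ^ (k - 1) ≤ 2 ^ j / q - 1 := by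
    have h2 : 2 ^ k = 2 * 2 ^ (k - 1) := by
      rw [← pow_succ']
      congr 1
      omega
    have h3 : 1 ≤ 2 ^ (k - 1) := Nat.one_le_two_pow
    omega
  have hN0 : (0 : ℝ) < N := by
    by_contra hcon
    have : (N : ℝ) = 0 := le_antisymm (not_lt.1 hcon) (Nat.cast_nonneg N)
    rw [this, Real.log_zero] at hN
    linarith
  set x : ℝ := Real.log N with hx
  have hxexp : Real.exp x = N := Real.exp_log hN0
  have hl2 : 0 < Real.log 2 := Real.log_pos (by norm_num)
  have hl21 : Real.log 2 ≤ 1 := by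
    have := Real.log_two_lt_d9
    linarith
  have hBR : (1 : ℝ) ≤ B := by exact_mod_cast hB
  have hER : (2 : ℝ) ≤ E := by exact_mod_cast hE
  refine ⟨hL1, ?_, ?_, ?_, ?_, ?_⟩
  · have h2 : B ≤ k - 1 := by omega
    exact (h2.trans (Nat.lt_two_pow_self).le).trans hL1
  · -- log condition
    have hN3 : (3 : ℝ) ≤ N := by
      rw [← hxexp]
      have := Real.add_one_le_exp x
      linarith
    have h2 : ((N / q + 2 : ℕ) : ℝ) ≤ (N : ℝ) * N := by
      have h3 : N / q + 2 ≤ N + 2 := Nat.add_le_add_right (Nat.div_le_self N q) 2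
      have h4 : ((N / q + 2 : ℕ) : ℝ) ≤ (N : ℝ) + 2 := by exact_mod_cast h3
      nlinarith
    have h3 : Real.log ((N / q + 2 : ℕ) : ℝ) ≤ 2 * x := by
      calc Real.log ((N / q + 2 : ℕ) : ℝ) ≤ Real.log ((N : ℝ) * N) :=
            Real.log_le_log (by positivity) h2
        _ = 2 * x := by rw [Real.log_mul hN0.ne' hN0.ne']; ring
    have h4 : 0 ≤ Real.log ((N / q + 2 : ℕ) : ℝ) := by
      refine Real.log_nonneg ?_
      push_cast
      have : (0 : ℝ) ≤ ((N / q : ℕ) : ℝ) := Nat.cast_nonneg _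
      linarith
    have h5 : (Real.log ((N / q + 2 : ℕ) : ℝ)) ^ B ≤ (2 * x) ^ B := pow_le_pow_left₀ h4 h3 B
    refine h5.trans ?_
    have h6 : (2 * x) ^ B = Real.exp (B * (Real.log 2 + Real.log x)) := by
      rw [Real.exp_nat_mul, Real.exp_add, Real.exp_log (by norm_num), Real.exp_log (by linarith)]
    have h7 : ((2 ^ (k - 1) : ℕ) : ℝ) ≤ ((2 ^ j / q - 1 : ℕ) : ℝ) := by exact_mod_cast hL1
    refine le_trans ?_ h7
    rw [h6, two_pow_exp]
    refine Real.exp_le_exp.2 ?_
    have h8 : (j : ℝ) / E - 2 ≤ ((k - 1 : ℕ) : ℝ) := by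
      have h9 : j < E * (k + 1) := by
        rw [hk]
        exact Nat.lt_mul_div_succ j hE0
      have h10 : (j : ℝ) ≤ E * (((k - 1 : ℕ) : ℝ) + 2) := by
        have h11 : j ≤ E * ((k - 1) + 2) := by
          have : (k - 1) + 2 = k + 1 := by omega
          rw [this]
          exact h9.le
        exact_mod_cast h11
      have h12 : (j : ℝ) / E ≤ ((k - 1 : ℕ) : ℝ) + 2 := by
        rw [div_le_iff₀ (by linarith)]
        linarith
      linarith
    have h9 : 4 * B * Real.log x ≤ (j : ℝ) / E * Real.log 2 := by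
      have h10 := mul_le_mul_of_nonneg_right h0 hl2.le
      have h11 : 4 * E * B / Real.log 2 * Real.log x * Real.log 2 = E * (4 * B * Real.log x) := by
        field_simp
      rw [h11] at h10
      rw [div_mul_eq_mul_div, le_div_iff₀ (by linarith)]
      linarith
    have h10 : (4 * B + 8 : ℝ) ≤ (j : ℝ) / E := by
      rw [le_div_iff₀ (by linarith)]
      have : ((E * (4 * B + 8) : ℕ) : ℝ) ≤ j := by exact_mod_cast hj
      push_cast at this
      linarith
    have h11 : ((j : ℝ) / E - 2) * Real.log 2 ≤ ((k - 1 : ℕ) : ℝ) * Real.log 2 :=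
      mul_le_mul_of_nonneg_right h8 hl2.le
    have h12 : (4 * B + 8 : ℝ) * Real.log 2 ≤ (j : ℝ) / E * Real.log 2 :=
      mul_le_mul_of_nonneg_right h10 hl2.le
    have hlx : 0 ≤ Real.log x := Real.log_nonneg (by linarith)
    nlinarith
  · have h2 : (2 ^ j / q - 1) ^ B * q ≤ N := by
      have h3 : (2 ^ j / q - 1) ^ B * q ≤ (2 ^ j) ^ B * 2 ^ j := by
        refine Nat.mul_le_mul (Nat.pow_le_pow_left ?_ B) ?_
        · exact (Nat.sub_le _ _).trans (Nat.div_le_self _ _)
        · exact hqw.trans (Nat.pow_le_pow_right (by norm_num) (by omega))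
      refine h3.trans ?_
      have h4 : (2 ^ j) ^ B * 2 ^ j = 2 ^ (j * (B + 1)) := by
        rw [← pow_mul, ← pow_add]
        congr 1
      rw [h4]
      have h5 : ((2 ^ (j * (B + 1)) : ℕ) : ℝ) ≤ N := by
        rw [two_pow_exp, ← hxexp]
        refine Real.exp_le_exp.2 ?_
        push_cast
        have h6 : (j : ℝ) * (B + 1) ≤ x := by
          calc (j : ℝ) * (B + 1) ≤ (c2 * x) * (B + 1) :=
                mul_le_mul_of_nonneg_right h1 (by linarith)
            _ = (c2 * (B + 1)) * x := by ring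
            _ ≤ 1 * x := mul_le_mul_of_nonneg_right hc2B (by linarith)
            _ = x := one_mul x
        calc (j : ℝ) * (B + 1) * Real.log 2 ≤ x * 1 := mul_le_mul h6 hl21 hl2.le (by linarith)
          _ = x := mul_one x
      exact_mod_cast h5
    have h3 : (2 ^ j / q - 1) ^ B ≤ N / q := (Nat.le_div_iff_mul_le hq).2 h2
    omega
  · exact (Nat.sub_le _ _).trans (Nat.div_le_self _ _)
  · calc 2 ^ j ≤ 2 ^ ((k - 1) * (2 * E)) := by
          refine Nat.pow_le_pow_right (by norm_num) ?_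
          have h9 : j < E * (k + 1) := by
            rw [hk]
            exact Nat.lt_mul_div_succ j hE0
          have h10 : k + 1 ≤ 2 * (k - 1) := by omega
          calc j ≤ E * (k + 1) := h9.le
            _ ≤ E * (2 * (k - 1)) := Nat.mul_le_mul_left E h10
            _ = (k - 1) * (2 * E) := by ring
      _ = (2 ^ (k - 1)) ^ (2 * E) := by rw [← pow_mul]
      _ ≤ (2 ^ j / q - 1) ^ (2 * E) := Nat.pow_le_pow_left hL1 _

end Pool.Agent.Lib_helper10.Erdos460
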