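import Mathlib
import Pool.Agent.Lib_helper10.Erdos460.ScaleQ

set_option autoImplicit false
open N435e839e

namespace Pool.Agent.Lib_helper10.Erdos460

open Finset Filter Topology

lemma TS_split (y z A n : ℕ) (h1 : y ≤ z) (h2 : z ≤ A) : TS y A n = TS y z n + TS z A n := by
  unfold TS
  simp only [sum_filter]
  rw [← sum_union]
  · rw [Ioc_union_Ioc_eq_Ioc h1 h2]
  · rw [Finset.disjoint_left]
    intro a ha hb
    rw [mem_Ioc] at ha hb
    omega

lemma TS_scales (f : ℕ → ℝ) (n j0 j1 : ℕ) (h : j0 ≤ j1)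
    (hf : ∀ j ∈ Ico j0 j1, TS (2 ^ j) (2 ^ (j + 1)) n ≤ f j) :
    TS (2 ^ j0) (2 ^ j1) n ≤ ∑ j ∈ Ico j0 j1, f j := by
  induction j1, h using Nat.le_induction with
  | base => simp [TS]
  | succ j1 hj ih =>
    rw [sum_Ico_succ_top hj, TS_split (2 ^ j0) (2 ^ j1) (2 ^ (j1 + 1)) n
      (Nat.pow_le_pow_right (by norm_num) hj) (Nat.pow_le_pow_right (by norm_num) (Nat.le_succ _))]
    refine add_le_add (ih fun j hj' => hf j ?_) (hf j1 ?_)
    · rw [mem_Ico] at hj' ⊢
      omega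
    · rw [mem_Ico]
      omega

lemma harm_up (j0 j1 : ℕ) (h0 : 1 ≤ j0) :
    ∑ j ∈ Ico j0 j1, 1 / (j : ℝ) ≤ 1 + Real.log j1 := by
  have h1 : ∑ j ∈ Ico j0 j1, 1 / (j : ℝ) ≤ LL 0 j1 := by
    unfold LL
    refine sum_le_sum_of_subset_of_nonneg ?_ fun a _ _ => by positivity
    intro a ha
    rw [mem_Ico] at ha
    rw [mem_Ioc]
    omega
  exact h1.trans (LL_upper 0 j1)

lemma scales_ne (K1 c2 : ℝ) (js : ℕ) (hK1 : 0 ≤ K1) (hc2 : 0 < c2) :
    ∀ᶠ x : ℝ in atTop, ⌈K1 * Real.log x⌉₊ + js ≤ ⌊c2 * x⌋₊ ∧ 2 ≤ c2 * x := by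
  have h1 : ∀ᶠ x : ℝ in atTop, Real.log x ≤ c2 / (2 * (K1 + 1)) * x := by
    have h := Real.isLittleO_log_id_atTop.bound (by positivity : 0 < c2 / (2 * (K1 + 1)))
    filter_upwards [h, eventually_ge_atTop 1] with y hy hy1
    rw [Real.norm_eq_abs, id, Real.norm_eq_abs, abs_of_nonneg (Real.log_nonneg hy1),
      abs_of_nonneg (by linarith)] at hy
    exact hy
  filter_upwards [h1, eventually_ge_atTop (2 * (js + 2) / c2), eventually_ge_atTop 1]
    with x hx1 hx2 hx3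
  rw [div_le_iff₀ hc2] at hx2
  have hlx : 0 ≤ Real.log x := Real.log_nonneg hx3
  have h2 : K1 * Real.log x ≤ c2 * x / 2 := by
    calc K1 * Real.log x ≤ (K1 + 1) * Real.log x := mul_le_mul_of_nonneg_right (by linarith) hlx
      _ ≤ (K1 + 1) * (c2 / (2 * (K1 + 1)) * x) := mul_le_mul_of_nonneg_left hx1 (by linarith)
      _ = c2 * x / 2 := by field_simp
  have hjs0 : (0 : ℝ) ≤ js := Nat.cast_nonneg js
  constructor
  · refine Nat.le_floor ?_
    push_cast
    have h3 : (⌈K1 * Real.log x⌉₊ : ℝ) < K1 * Real.log x + 1 := Nat.ceil_lt_add_one (by positivity)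
    linarith
  · linarith

/-- rare large values, for large `N` -/
theorem rare_large_large (δ : ℝ) (hδ : 0 < δ) (hδ1 : δ ≤ 1) (Ae : ℕ) (hAe : 1 ≤ Ae) :
    ∃ c C : ℝ, 0 < c ∧ c ≤ 1 / 2 ∧
    0 < C ∧ ∀ᶠ N : ℕ in atTop, ∀ M : ℕ, M ≤ N ^ Ae →
    ((((Ioc M (M + N)).filter (fun n => (kap + δ) * Real.log (Real.log N) <
      totalSum false n)).card : ℕ) : ℝ) ≤ C * (N : ℝ) ^ (1 - c) := by
  classical
  have hkap := kap_pos
  have hkap1 := kap_le_one
  have hl2 : 0 < Real.log 2 := Real.log_pos (by norm_num)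
  have hl21 : Real.log 2 ≤ 1 := by
    have := Real.log_two_lt_d9
    linarith
  set δ0 : ℝ := δ / 16 with hδ0
  have hδ0pos : 0 < δ0 := by positivity
  have hδ01 : δ0 ≤ 1 / 16 := by rw [hδ0]; linarith
  set E : ℕ := ⌈4 / δ0⌉₊ with hEdef
  have hE4 : 4 / δ0 ≤ (E : ℝ) := Nat.le_ceil _
  have hE64 : (64 : ℝ) ≤ 4 / δ0 := by
    rw [le_div_iff₀ hδ0pos]
    linarith
  have hER : (64 : ℝ) ≤ E := hE64.trans hE4
  have hE2 : 2 ≤ E := by
    have : (2 : ℝ) ≤ E := by linarith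
    exact_mod_cast this
  have hEδ : 2 / (E : ℝ) ≤ δ0 / 2 := by
    rw [div_le_iff₀ (by linarith)]
    rw [div_le_iff₀ hδ0pos] at hE4
    linarith
  obtain ⟨c, B, hc0, hc1, hB1, hconc⟩ := conc (2 * E) (by omega) δ0 hδ0pos
  have hBR : (1 : ℝ) ≤ B := by exact_mod_cast hB1
  set c2 : ℝ := min (c / 8) (1 / (B + 1)) with hc2
  have hc2pos : 0 < c2 := lt_min (by positivity) (by positivity)
  have hc2c : c2 ≤ c / 8 := min_le_left _ _
  have hc2B1 : c2 * (B + 1) ≤ 1 := by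
    have : c2 ≤ 1 / (B + 1) := min_le_right _ _
    rwa [le_div_iff₀ (by linarith)] at this
  have hc2B : c2 * B ≤ 1 := by
    refine le_trans ?_ hc2B1
    exact mul_le_mul_of_nonneg_left (by linarith) hc2pos.le
  set β : ℝ := kap + δ / 2 with hβ
  have hβ0 : 0 < β := by rw [hβ]; positivity
  set K1 : ℝ := 4 * E * B / Real.log 2 with hK1
  have hK10 : 0 ≤ K1 := by positivity
  set W : ℕ → ℕ := fun j => (j * (E - 1)) / E with hW
  have hWge : ∀ j : ℕ, E ≤ j → (1 - 2 / (E : ℝ)) * j ≤ (W j : ℝ) := by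
    intro j hj
    have h1 : j * (E - 1) < E * (W j + 1) := Nat.lt_mul_div_succ _ (by omega)
    have h2 : ((j * (E - 1) : ℕ) : ℝ) ≤ E * ((W j : ℝ) + 1) := by exact_mod_cast h1.le
    rw [Nat.cast_mul, Nat.cast_sub (by omega)] at h2
    push_cast at h2
    have hE0 : (0 : ℝ) < E := by linarith
    have h3 : (1 - 2 / (E : ℝ)) * j = (j * (E - 1) - j) / E := by
      field_simp
      ring
    rw [h3, div_le_iff₀ hE0]
    have h4 : (E : ℝ) ≤ j := by exact_mod_cast hj
    nlinarith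
  have hWhalf : ∀ j : ℕ, j / 2 ≤ W j := by
    intro j
    rw [hW]
    simp only
    rw [Nat.le_div_iff_mul_le (by omega)]
    have h1 : j / 2 * 2 ≤ j := Nat.div_mul_le_self j 2
    have h2 : E ≤ 2 * (E - 1) := by omega
    calc j / 2 * E ≤ j / 2 * (2 * (E - 1)) := Nat.mul_le_mul_left _ h2
      _ = j / 2 * 2 * (E - 1) := by ring
      _ ≤ j * (E - 1) := Nat.mul_le_mul_right _ h1
  have hWle : ∀ j : ℕ, W j ≤ j := by
    intro j
    rw [hW]
    simp only
    refine Nat.div_le_of_le_mul ?_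
    rw [Nat.mul_comm E j]
    exact Nat.mul_le_mul_left j (by omega)
  -- conditions valid for all large j
  have hj1 : ∀ᶠ j : ℕ in atTop, V (2 ^ (W j)) ≤ (kap + δ0) / Real.log ((2 ^ (W j) : ℕ) : ℝ) := by
    have h0 : Tendsto W atTop atTop := by
      refine tendsto_atTop_mono hWhalf ?_
      exact Nat.tendsto_div_const_atTop (by norm_num)
    have h1 : Tendsto (fun j : ℕ => 2 ^ (W j)) atTop atTop :=
      (tendsto_pow_atTop_atTop_of_one_lt (by norm_num : 1 < 2)).comp h0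
    exact h1.eventually (V_upper_sharp δ0 hδ0pos)
  have hj2 : ∀ᶠ j : ℕ in atTop, B ≤ 2 ^ (j / 2) := by
    filter_upwards [eventually_ge_atTop (2 * B)] with j hj
    have h1 : B ≤ j / 2 := by omega
    exact h1.trans (Nat.lt_two_pow_self).le
  have hj3 : ∀ᶠ j : ℕ in atTop, 1 / ((2 ^ (j - j / 2) : ℕ) : ℝ) ≤ δ0 * Real.log 2 := by
    have h1 : ∀ᶠ j : ℕ in atTop, ⌈1 / (δ0 * Real.log 2)⌉₊ ≤ j / 2 := by
      filter_upwards [eventually_ge_atTop (2 * ⌈1 / (δ0 * Real.log 2)⌉₊)] with j hj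
      omega
    filter_upwards [h1] with j hj
    have h2 : ((⌈1 / (δ0 * Real.log 2)⌉₊ : ℕ) : ℝ) ≤ ((2 ^ (j - j / 2) : ℕ) : ℝ) := by
      have h3 : j / 2 ≤ j - j / 2 := by omega
      have h4 : j - j / 2 ≤ 2 ^ (j - j / 2) := (Nat.lt_two_pow_self).le
      exact_mod_cast hj.trans (h3.trans h4)
    have h3 : 1 / (δ0 * Real.log 2) ≤ ((2 ^ (j - j / 2) : ℕ) : ℝ) := (Nat.le_ceil _).trans h2
    rw [div_le_iff₀ (by positivity)] at h3
    rw [div_le_iff₀ (by positivity)]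
    linarith
  obtain ⟨js, hjs⟩ := eventually_atTop.1 (hj1.and (hj2.and (hj3.and
    (eventually_ge_atTop (E * (4 * B + 8) + E + 3)))))
  have hjs1 : 1 ≤ js := by
    have := (hjs js le_rfl).2.2.2
    omega
  obtain ⟨Ct, hCt, htail⟩ := tail_bound
  refine ⟨c / 2, 4 * B + 1, by positivity, by linarith, by positivity, ?_⟩
  -- numerical condition
  have hnum : ∀ᶠ x : ℝ in atTop,
      (1 + Real.log 2) + Ct * (1 / Real.log 2 + Real.log ((⌈K1 * Real.log x⌉₊ + js : ℕ) : ℝ)) +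
        β * (1 + Real.log x) +
        Ct * (1 / Real.log 2 + Real.log (2 * (Ae + 1) / (c2 * Real.log 2))) ≤
      (kap + δ) * Real.log x := by
    set R : ℝ := (1 + Real.log 2) + Ct * (1 / Real.log 2 + Real.log (K1 + js + 2)) + β +
        Ct * (1 / Real.log 2 + Real.log (2 * (Ae + 1) / (c2 * Real.log 2))) with hR
    filter_upwards [loglog_small (δ / (2 * Ct)) (R / Ct) (by positivity),
      eventually_ge_atTop (Real.exp 1)] with x hx hx1
    have hx0 : 0 < x := (Real.exp_pos 1).trans_le hx1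
    have hlx : 1 ≤ Real.log x := by
      rw [Real.le_log_iff_exp_le hx0]
      exact hx1
    have h2 : Real.log ((⌈K1 * Real.log x⌉₊ + js : ℕ) : ℝ) ≤
        Real.log (K1 + js + 2) + Real.log (Real.log x) := by
      rw [← Real.log_mul (by positivity) (by positivity)]
      refine Real.log_le_log ?_ ?_
      · exact_mod_cast (by omega : 0 < ⌈K1 * Real.log x⌉₊ + js)
      · push_cast
        have h3 : (⌈K1 * Real.log x⌉₊ : ℝ) < K1 * Real.log x + 1 :=
          Nat.ceil_lt_add_one (by positivity)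
        have h4 : (0 : ℝ) ≤ js := Nat.cast_nonneg js
        nlinarith
    have h3 := mul_le_mul_of_nonneg_left hx hCt.le
    have h4 : Ct * (Real.log (Real.log x) + R / Ct) = Ct * Real.log (Real.log x) + R := by
      field_simp
    have h5 : Ct * (δ / (2 * Ct) * Real.log x) = δ / 2 * Real.log x := by field_simp
    rw [h4, h5] at h3
    have h6 := mul_le_mul_of_nonneg_left h2 hCt.le
    have h7 : (kap + δ) * Real.log x = β * Real.log x + δ / 2 * Real.log x := by rw [hβ]; ring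
    rw [h7]
    rw [hR] at h3
    nlinarith
  have hlogN : Tendsto (fun N : ℕ => Real.log N) atTop atTop :=
    Real.tendsto_log_atTop.comp tendsto_natCast_atTop_atTop
  filter_upwards [hlogN.eventually hnum, hlogN.eventually (eventually_ge_atTop (Real.exp 1)),
    hlogN.eventually (scales_ne K1 c2 js hK10 hc2pos), eventually_ge_atTop 3]
    with N hnumN hxN hjj' hN3 M hMA
  obtain ⟨hjj, hc2x⟩ := hjj'
  set x : ℝ := Real.log N with hx
  have hNR : (0 : ℝ) < N := by exact_mod_cast (by omega : 0 < N)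
  have hNR1 : (1 : ℝ) ≤ N := by exact_mod_cast (by omega : 1 ≤ N)
  have hxexp : Real.exp x = N := Real.exp_log hNR
  have hx0 : 0 < x := (Real.exp_pos 1).trans_le hxN
  have hx2 : 2 ≤ x := by
    have := Real.exp_one_gt_d9
    linarith
  have hlx : 1 ≤ Real.log x := by
    rw [Real.le_log_iff_exp_le hx0]
    exact hxN
  set j0 : ℕ := ⌈K1 * Real.log x⌉₊ + js with hj0
  set j1 : ℕ := ⌊c2 * x⌋₊ with hj1def
  have hj1le : (j1 : ℝ) ≤ c2 * x := Nat.floor_le (by positivity)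
  have hj01 : 1 ≤ j0 := by omega
  have hpow : ((2 ^ j1 : ℕ) : ℝ) ≤ (N : ℝ) ^ (c / 8) := by
    rw [two_pow_exp, Real.rpow_def_of_pos hNR, ← hx]
    refine Real.exp_le_exp.2 ?_
    calc (j1 : ℝ) * Real.log 2 ≤ (c2 * x) * 1 := mul_le_mul hj1le hl21 hl2.le (by positivity)
      _ = c2 * x := mul_one _
      _ ≤ c / 8 * x := mul_le_mul_of_nonneg_right hc2c hx0.le
      _ = x * (c / 8) := mul_comm _ _
  set bad : ℕ → ℕ → Finset ℕ := fun j t =>
    badset M N δ0 (2 ^ (W j)) (2 ^ j + t * 2 ^ (j / 2)) (2 ^ (j / 2)) with hbad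
  set bq : ℕ → ℕ → Finset ℕ := fun j q =>
    badq M N δ0 (2 ^ j) (2 ^ j / q - 1) q with hbq
  have hjprop : ∀ j ∈ Ico j0 j1, js ≤ j ∧ K1 * Real.log x ≤ j ∧ (j : ℝ) ≤ c2 * x := by
    intro j hj
    rw [mem_Ico] at hj
    refine ⟨by omega, ?_, ?_⟩
    · calc K1 * Real.log x ≤ (⌈K1 * Real.log x⌉₊ : ℝ) := Nat.le_ceil _
        _ ≤ j := by exact_mod_cast (by omega : ⌈K1 * Real.log x⌉₊ ≤ j)
    · refine le_trans ?_ hj1le
      exact_mod_cast hj.2.le
  have hP0 : 0 ≤ (N : ℝ) ^ (1 - c) := Real.rpow_nonneg hNR.le _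
  have hbadcard : ∀ j ∈ Ico j0 j1, ∀ t, (((bad j t).card : ℕ) : ℝ) ≤ B * (N : ℝ) ^ (1 - c) := by
    intro j hj t
    obtain ⟨hjs', hjx, hjx2⟩ := hjprop j hj
    obtain ⟨-, h2, -, h4⟩ := hjs j hjs'
    have hjx' : 4 * B / Real.log 2 * Real.log x ≤ j := by
      refine le_trans ?_ hjx
      refine mul_le_mul_of_nonneg_right ?_ (by linarith)
      rw [hK1]
      refine div_le_div_of_nonneg_right ?_ hl2.le
      have : (B : ℝ) ≤ E * B := le_mul_of_one_le_left (by linarith) (by linarith)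
      linarith
    obtain ⟨h5, h6⟩ := scale_cond B hB1 c2 hc2B N hx2 j hjx' hjx2
    refine hconc (2 ^ (j / 2)) N (2 ^ (W j)) (2 ^ j + t * 2 ^ (j / 2)) M h2 h5 h6 ?_ ?_
    · exact Nat.pow_le_pow_right (by norm_num) (hWhalf j)
    · rw [← pow_mul]
      refine Nat.pow_le_pow_right (by norm_num) ((hWle j).trans ?_)
      have h7 : j / 2 * 4 ≤ j / 2 * (2 * E) := Nat.mul_le_mul_left _ (by omega)
      omega
  have hbqcard : ∀ j ∈ Ico j0 j1, ∀ q ∈ Nat.primesBelow (2 ^ (W j)),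
      (((bq j q).card : ℕ) : ℝ) ≤ ((2 ^ j1 : ℕ) : ℝ) * (B * (3 * (N : ℝ) ^ (1 - c))) := by
    intro j hj q hq
    obtain ⟨hjs', hjx, hjx2⟩ := hjprop j hj
    obtain ⟨-, -, -, h4⟩ := hjs j hjs'
    have hq' := Nat.mem_primesBelow.1 hq
    obtain ⟨e0, e1, e2, e3, e4, e5⟩ := scale_cond_q B E hB1 hE2 c2 hc2B1 N hx2 j hjx hjx2
      (by omega) q hq'.2.pos hq'.1.le
    have h5 := hconc (2 ^ j / q - 1) (N / q + 2) (2 ^ j) 0 (M / q - 1) e1 e2 e3 e4 e5
    have h6 := badq_card M N δ0 (2 ^ j) (2 ^ j / q - 1) q hq'.2.pos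
    have h7 : (((bq j q).card : ℕ) : ℝ) ≤ q *
        (((badset (M / q - 1) (N / q + 2) δ0 (2 ^ j) 0 (2 ^ j / q - 1)).card : ℕ) : ℝ) := by
      exact_mod_cast h6
    refine h7.trans ?_
    have h8 : (q : ℝ) ≤ ((2 ^ j1 : ℕ) : ℝ) := by
      have h9 : q ≤ 2 ^ j1 := by
        refine hq'.1.le.trans (Nat.pow_le_pow_right (by norm_num) ?_)
        exact (hWle j).trans (mem_Ico.1 hj).2.le
      exact_mod_cast h9
    have h9 : (((N / q + 2 : ℕ) : ℝ)) ^ (1 - c) ≤ 3 * (N : ℝ) ^ (1 - c) := by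
      have h10 : ((N / q + 2 : ℕ) : ℝ) ≤ 3 * N := by
        have h11 : N / q + 2 ≤ N + 2 := Nat.add_le_add_right (Nat.div_le_self N q) 2
        have h12 : ((N / q + 2 : ℕ) : ℝ) ≤ (N : ℝ) + 2 := by exact_mod_cast h11
        linarith
      calc (((N / q + 2 : ℕ) : ℝ)) ^ (1 - c) ≤ (3 * (N : ℝ)) ^ (1 - c) :=
            Real.rpow_le_rpow (by positivity) h10 (by linarith)
        _ = (3 : ℝ) ^ (1 - c) * (N : ℝ) ^ (1 - c) := Real.mul_rpow (by norm_num) hNR.le
        _ ≤ 3 * (N : ℝ) ^ (1 - c) := by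
            refine mul_le_mul_of_nonneg_right ?_ hP0
            calc (3 : ℝ) ^ (1 - c) ≤ (3 : ℝ) ^ (1 : ℝ) :=
                  Real.rpow_le_rpow_of_exponent_le (by norm_num) (by linarith)
              _ = 3 := Real.rpow_one 3
    refine mul_le_mul h8 (h5.trans (mul_le_mul_of_nonneg_left h9 (by linarith)))
      (by positivity) (by positivity)
  -- inclusion
  have hsub : (Ioc M (M + N)).filter (fun n => (kap + δ) * Real.log x < totalSum false n) ⊆
      (Icc 1 (2 ^ j1) ∪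
      (Ico j0 j1).biUnion (fun j => (range (2 ^ (j - j / 2))).biUnion (bad j))) ∪
      (Ico j0 j1).biUnion (fun j => (Nat.primesBelow (2 ^ (W j))).biUnion (bq j)) := by
    intro n hn
    rw [mem_filter] at hn
    by_contra hcon
    rw [mem_union, mem_union] at hcon
    push Not at hcon
    obtain ⟨⟨hc3, hc4⟩, hc5⟩ := hcon
    have hnI := mem_Ioc.1 hn.1
    have hnbig : 2 ^ j1 < n := by
      by_contra h
      exact hc3 (mem_Icc.2 ⟨by omega, by omega⟩)
    have hgood : ∀ j ∈ Ico j0 j1, ∀ t < 2 ^ (j - j / 2), n ∉ bad j t := by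
      intro j hj t ht h
      exact hc4 (mem_biUnion.2 ⟨j, hj, mem_biUnion.2 ⟨t, mem_range.2 ht, h⟩⟩)
    have hgood2 : ∀ j ∈ Ico j0 j1, ∀ q ∈ Nat.primesBelow (2 ^ (W j)), n ∉ bq j q := by
      intro j hj q hq h
      exact hc5 (mem_biUnion.2 ⟨j, hj, mem_biUnion.2 ⟨q, hq, h⟩⟩)
    have hscale : ∀ j ∈ Ico j0 j1, TS (2 ^ j) (2 ^ (j + 1)) n ≤ β * (1 / (j : ℝ)) := by
      intro j hj
      obtain ⟨hjs', hjx, hjx2⟩ := hjprop j hj
      obtain ⟨h1, -, h3, h4⟩ := hjs j hjs'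
      have hjn : 2 ^ (j + 1) < n :=
        ((Nat.pow_le_pow_right (by norm_num) (mem_Ico.1 hj).2) : 2 ^ (j + 1) ≤ 2 ^ j1).trans_lt
          hnbig
      have hjn2 : 2 ^ j < n := (Nat.pow_lt_pow_right (by norm_num) (Nat.lt_succ_self j)).trans hjn
      have h5 := scale_upper δ0 hδ0pos.le j n (W j) hjn
        (fun q hq => by
          have hq' := Nat.mem_primesBelow.1 hq
          obtain ⟨e0, e1, e2, e3, e4, e5⟩ := scale_cond_q B E hB1 hE2 c2 hc2B1 N hx2 j hjx hjx2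
            (by omega) q hq'.2.pos hq'.1.le
          have hL1 : 1 ≤ 2 ^ j / q - 1 := (Nat.one_le_two_pow).trans e0
          refine used_prime j n q (2 ^ j / q - 1) hq'.2 ?_ hjn2 ?_
          · have h6 : 2 ^ j / q - 1 + 1 = 2 ^ j / q := by omega
            rw [h6]
            exact Nat.div_mul_le_self _ _
          · refine exists_shift M N δ0 (by linarith) (2 ^ j) (2 ^ j / q - 1) q n hq'.2.pos hL1
              hn.1 ?_ (hgood2 j hj q hq)
            refine hq'.1.le.trans ((Nat.pow_le_pow_right (by norm_num) (hWle j)).trans hjn2.le))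
        (fun t ht => by
          have h6 := hgood j hj t ht
          simp only [hbad, badset, mem_filter, not_and, not_lt] at h6
          exact h6 hn.1)
      refine h5.trans ?_
      have hEj : E ≤ j := by omega
      have hjpos : (0 : ℝ) < j := by exact_mod_cast (by omega : 0 < j)
      have hw := hWge j hEj
      have hE1 : 1 - δ0 / 2 ≤ 1 - 2 / (E : ℝ) := by linarith
      have hw2 : (1 - δ0 / 2) * j ≤ (W j : ℝ) := (mul_le_mul_of_nonneg_right hE1 hjpos.le).trans hw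
      have hwpos : (0 : ℝ) < (W j : ℝ) := lt_of_lt_of_le (mul_pos (by linarith) hjpos) hw2
      have hlogw : Real.log ((2 ^ (W j) : ℕ) : ℝ) = (W j : ℝ) * Real.log 2 := by
        push_cast
        rw [Real.log_pow]
      rw [hlogw] at h1
      have h7 : Real.log 2 + 1 / ((2 ^ (j - j / 2) : ℕ) : ℝ) ≤ (1 + δ0) * Real.log 2 := by
        linarith
      have h8 : (1 + δ0) * V (2 ^ (W j)) ≤ (1 + δ0) * ((kap + δ0) / ((W j : ℝ) * Real.log 2)) :=
        mul_le_mul_of_nonneg_left h1 (by linarith)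
      have h9 : 1 / (W j : ℝ) ≤ (1 + δ0) * (1 / (j : ℝ)) := by
        rw [mul_one_div, div_le_div_iff₀ hwpos hjpos, one_mul]
        have h10 : (1 : ℝ) ≤ (1 + δ0) * (1 - δ0 / 2) := by nlinarith
        calc (j : ℝ) = 1 * j := (one_mul _).symm
          _ ≤ ((1 + δ0) * (1 - δ0 / 2)) * j := mul_le_mul_of_nonneg_right h10 hjpos.le
          _ = (1 + δ0) * ((1 - δ0 / 2) * j) := by ring
          _ ≤ (1 + δ0) * (W j : ℝ) := mul_le_mul_of_nonneg_left hw2 (by linarith)
      calc (1 + δ0) * V (2 ^ (W j)) * (Real.log 2 + 1 / ((2 ^ (j - j / 2) : ℕ) : ℝ))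
          ≤ (1 + δ0) * ((kap + δ0) / ((W j : ℝ) * Real.log 2)) * ((1 + δ0) * Real.log 2) := by
            refine mul_le_mul h8 h7 (by positivity) (by positivity)
        _ = ((1 + δ0) * (1 + δ0) * (kap + δ0)) * (1 / (W j : ℝ)) := by
            field_simp
        _ ≤ ((1 + δ0) * (1 + δ0) * (kap + δ0)) * ((1 + δ0) * (1 / (j : ℝ))) :=
            mul_le_mul_of_nonneg_left h9 (by positivity)
        _ = ((1 + δ0) * (1 + δ0) * (1 + δ0) * (kap + δ0)) * (1 / (j : ℝ)) := by ring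
        _ ≤ β * (1 / (j : ℝ)) := by
            refine mul_le_mul_of_nonneg_right ?_ (by positivity)
            have h10 : (1 + δ0) * (1 + δ0) * (1 + δ0) ≤ 1 + 4 * δ0 := by
              have h11 : δ0 * δ0 ≤ δ0 * (1 / 16) := mul_le_mul_of_nonneg_left hδ01 hδ0pos.le
              have h12 : δ0 * δ0 * δ0 ≤ δ0 * (1 / 16) := by
                calc δ0 * δ0 * δ0 ≤ (δ0 * (1 / 16)) * 1 :=
                      mul_le_mul h11 (by linarith) hδ0pos.le (by positivity)
                  _ = _ := mul_one _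
              have h13 : (1 + δ0) * (1 + δ0) * (1 + δ0) =
                1 + 3 * δ0 + 3 * (δ0 * δ0) + δ0 * δ0 * δ0 := by ring
              rw [h13]
              linarith
            calc (1 + δ0) * (1 + δ0) * (1 + δ0) * (kap + δ0) ≤ (1 + 4 * δ0) * (kap + δ0) :=
                  mul_le_mul_of_nonneg_right h10 (by linarith)
              _ ≤ β := by
                  rw [hβ]
                  have h11 : δ / 2 = 8 * δ0 := by rw [hδ0]; ring
                  rw [h11]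
                  have h12 : δ0 * kap ≤ δ0 * 1 := mul_le_mul_of_nonneg_left hkap1 hδ0pos.le
                  have h13 : δ0 * δ0 ≤ δ0 * (1 / 16) := mul_le_mul_of_nonneg_left hδ01 hδ0pos.le
                  have h14 : (1 + 4 * δ0) * (kap + δ0) =
                    kap + δ0 + 4 * (δ0 * kap) + 4 * (δ0 * δ0) := by ring
                  rw [h14]
                  linarith
    have h1 := TS_scales (fun j => β * (1 / (j : ℝ))) n j0 j1 hjj hscale
    rw [← mul_sum] at h1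
    have h2 := mul_le_mul_of_nonneg_left (harm_up j0 j1 hj01) hβ0.le
    have h2n : (2 : ℕ) ≤ 2 ^ j0 := by
      calc 2 = 2 ^ 1 := by norm_num
        _ ≤ 2 ^ j0 := Nat.pow_le_pow_right (by norm_num) hj01
    have h01 : 2 ^ j0 ≤ 2 ^ j1 := Nat.pow_le_pow_right (by norm_num) hjj
    have h3 := totalSum_split n 2 (2 ^ j1)
    rw [TS_split 2 (2 ^ j0) (2 ^ j1) n h2n h01] at h3
    have h4 := htail n 2 (2 ^ j0) le_rfl h2n (h01.trans hnbig.le)
    have h5 := htail n (2 ^ j1) n (h2n.trans h01) hnbig.le le_rfl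
    have hj0R : (0 : ℝ) < j0 := by exact_mod_cast hj01
    have hj1R : (1 : ℝ) ≤ j1 := by exact_mod_cast hj01.trans hjj
    have h6 : Real.log (Real.log ((2 ^ j0 : ℕ) : ℝ)) - Real.log (Real.log ((2 : ℕ) : ℝ)) =
        Real.log j0 := by
      push_cast
      rw [Real.log_pow, Real.log_mul hj0R.ne' hl2.ne']
      ring
    rw [h6] at h4
    push_cast at h4
    have hlog1 : Real.log ((2 ^ j1 : ℕ) : ℝ) = j1 * Real.log 2 := by
      push_cast
      rw [Real.log_pow]
    have h7 : 1 / Real.log ((2 ^ j1 : ℕ) : ℝ) ≤ 1 / Real.log 2 := by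
      rw [hlog1]
      refine one_div_le_one_div_of_le hl2 ?_
      exact le_mul_of_one_le_left hl2.le hj1R
    have hnle : (n : ℝ) ≤ (N : ℝ) ^ (Ae + 1) := by
      have h8 : n ≤ N ^ (Ae + 1) := by
        calc n ≤ M + N := hnI.2
          _ ≤ N ^ Ae + N ^ Ae := by
              refine add_le_add hMA ?_
              calc N = N ^ 1 := (pow_one N).symm
                _ ≤ N ^ Ae := Nat.pow_le_pow_right (by omega) hAe
          _ = 2 * N ^ Ae := by ring
          _ ≤ N * N ^ Ae := Nat.mul_le_mul_right _ (by omega)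
          _ = N ^ (Ae + 1) := by ring
      exact_mod_cast h8
    have hn2R : (2 : ℝ) < n := by
      have : 2 < n := by omega
      exact_mod_cast this
    have h8 : Real.log (Real.log n) - Real.log (Real.log ((2 ^ j1 : ℕ) : ℝ)) ≤
        Real.log (2 * (Ae + 1) / (c2 * Real.log 2)) := by
      have h9 : Real.log n ≤ (Ae + 1) * x := by
        calc Real.log n ≤ Real.log ((N : ℝ) ^ (Ae + 1)) := Real.log_le_log (by linarith) hnle
          _ = (Ae + 1) * x := by rw [Real.log_pow]; push_cast; rfl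
      have h10 : c2 * x / 2 * Real.log 2 ≤ Real.log ((2 ^ j1 : ℕ) : ℝ) := by
        rw [hlog1]
        refine mul_le_mul_of_nonneg_right ?_ hl2.le
        have h11 : c2 * x < j1 + 1 := Nat.lt_floor_add_one _
        linarith
      have h11 : 0 < Real.log n := Real.log_pos (by linarith)
      have h12 : 0 < c2 * x / 2 * Real.log 2 := by positivity
      rw [← Real.log_div h11.ne' (h12.trans_le h10).ne']
      refine Real.log_le_log (div_pos h11 (h12.trans_le h10)) ?_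
      calc Real.log n / Real.log ((2 ^ j1 : ℕ) : ℝ) ≤ (Ae + 1) * x / (c2 * x / 2 * Real.log 2) :=
            div_le_div₀ (by positivity) h9 h12 h10
        _ = 2 * (Ae + 1) / (c2 * Real.log 2) := by field_simp
    have h9 : Real.log j1 ≤ Real.log x := by
      refine Real.log_le_log (by linarith) ?_
      refine hj1le.trans ?_
      have : c2 ≤ 1 := by linarith
      calc c2 * x ≤ 1 * x := mul_le_mul_of_nonneg_right this hx0.le
        _ = x := one_mul x
    have h10 : TS 2 (2 ^ j0) n ≤ Ct * (1 / Real.log 2 + Real.log j0) := h4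
    have h11 : TS (2 ^ j1) n n ≤ Ct * (1 / Real.log 2 +
        Real.log (2 * (Ae + 1) / (c2 * Real.log 2))) :=
      h5.trans (mul_le_mul_of_nonneg_left (add_le_add h7 h8) hCt.le)
    have h12 : β * (1 + Real.log j1) ≤ β * (1 + Real.log x) :=
      mul_le_mul_of_nonneg_left (by linarith) hβ0.le
    have h13 : Real.log ((2 : ℕ) : ℝ) = Real.log 2 := by norm_num
    rw [h13] at h3
    have h14 := hn.2
    linarith
  have hcard := card_le_card hsub
  have hcard2 : ((((Ioc M (M + N)).filter (fun n => (kap + δ) * Real.log x <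
      totalSum false n)).card : ℕ) : ℝ) ≤
      ((2 ^ j1 : ℕ) : ℝ) + ∑ j ∈ Ico j0 j1, ∑ t ∈ range (2 ^ (j - j / 2)),
        (((bad j t).card : ℕ) : ℝ) + ∑ j ∈ Ico j0 j1, ∑ q ∈ Nat.primesBelow (2 ^ (W j)),
        (((bq j q).card : ℕ) : ℝ) := by
    have h1 : ((Icc 1 (2 ^ j1) ∪ (Ico j0 j1).biUnion
        (fun j => (range (2 ^ (j - j / 2))).biUnion (bad j))) ∪
        (Ico j0 j1).biUnion (fun j => (Nat.primesBelow (2 ^ (W j))).biUnion (bq j))).card ≤
        2 ^ j1 + ∑ j ∈ Ico j0 j1, ∑ t ∈ range (2 ^ (j - j / 2)), (bad j t).card +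
        ∑ j ∈ Ico j0 j1, ∑ q ∈ Nat.primesBelow (2 ^ (W j)), (bq j q).card := by
      refine (card_union_le _ _).trans (add_le_add ((card_union_le _ _).trans
        (add_le_add (by simp) ?_)) ?_)
      · exact card_biUnion_le.trans (sum_le_sum fun j _ => card_biUnion_le)
      · exact card_biUnion_le.trans (sum_le_sum fun j _ => card_biUnion_le)
    exact_mod_cast hcard.trans h1
  refine hcard2.trans ?_
  set T1 : ℝ := ((2 ^ j1 : ℕ) : ℝ) with hT1
  have hT10 : 0 ≤ T1 := by positivity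
  have hT11 : 1 ≤ T1 := by
    rw [hT1]
    exact_mod_cast Nat.one_le_two_pow
  have hcIco : (((Ico j0 j1).card : ℕ) : ℝ) ≤ T1 := by
    have h3 : (Ico j0 j1).card ≤ 2 ^ j1 := by
      rw [Nat.card_Ico]
      exact (Nat.sub_le _ _).trans (Nat.lt_two_pow_self).le
    rw [hT1]
    exact_mod_cast h3
  have h1 : ∑ j ∈ Ico j0 j1, ∑ t ∈ range (2 ^ (j - j / 2)), (((bad j t).card : ℕ) : ℝ) ≤
      T1 * (T1 * (B * (N : ℝ) ^ (1 - c))) := by
    calc ∑ j ∈ Ico j0 j1, ∑ t ∈ range (2 ^ (j - j / 2)), (((bad j t).card : ℕ) : ℝ)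
        ≤ ∑ _j ∈ Ico j0 j1, T1 * (B * (N : ℝ) ^ (1 - c)) := by
          refine sum_le_sum fun j hj => ?_
          calc ∑ t ∈ range (2 ^ (j - j / 2)), (((bad j t).card : ℕ) : ℝ)
              ≤ ∑ _t ∈ range (2 ^ (j - j / 2)), B * (N : ℝ) ^ (1 - c) :=
                sum_le_sum fun t _ => hbadcard j hj t
            _ = ((2 ^ (j - j / 2) : ℕ) : ℝ) * (B * (N : ℝ) ^ (1 - c)) := by
                rw [sum_const, card_range, nsmul_eq_mul]
            _ ≤ T1 * (B * (N : ℝ) ^ (1 - c)) := by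
                refine mul_le_mul_of_nonneg_right ?_ (by positivity)
                have := (mem_Ico.1 hj).2
                rw [hT1]
                exact_mod_cast Nat.pow_le_pow_right (by norm_num) (by omega : j - j / 2 ≤ j1)
      _ = (((Ico j0 j1).card : ℕ) : ℝ) * (T1 * (B * (N : ℝ) ^ (1 - c))) := by
          rw [sum_const, nsmul_eq_mul]
      _ ≤ T1 * (T1 * (B * (N : ℝ) ^ (1 - c))) :=
          mul_le_mul_of_nonneg_right hcIco (by positivity)
  have h2 : ∑ j ∈ Ico j0 j1, ∑ q ∈ Nat.primesBelow (2 ^ (W j)), (((bq j q).card : ℕ) : ℝ) ≤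
      T1 * (T1 * (T1 * (B * (3 * (N : ℝ) ^ (1 - c))))) := by
    calc ∑ j ∈ Ico j0 j1, ∑ q ∈ Nat.primesBelow (2 ^ (W j)), (((bq j q).card : ℕ) : ℝ)
        ≤ ∑ _j ∈ Ico j0 j1, T1 * (T1 * (B * (3 * (N : ℝ) ^ (1 - c)))) := by
          refine sum_le_sum fun j hj => ?_
          calc ∑ q ∈ Nat.primesBelow (2 ^ (W j)), (((bq j q).card : ℕ) : ℝ)
              ≤ ∑ _q ∈ Nat.primesBelow (2 ^ (W j)), T1 * (B * (3 * (N : ℝ) ^ (1 - c))) :=
                sum_le_sum fun q hq => hbqcard j hj q hq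
            _ = (((Nat.primesBelow (2 ^ (W j))).card : ℕ) : ℝ) *
                (T1 * (B * (3 * (N : ℝ) ^ (1 - c)))) := by
                rw [sum_const, nsmul_eq_mul]
            _ ≤ T1 * (T1 * (B * (3 * (N : ℝ) ^ (1 - c)))) := by
                refine mul_le_mul_of_nonneg_right ?_ (by positivity)
                have h3 : (Nat.primesBelow (2 ^ (W j))).card ≤ 2 ^ j1 :=
                  (card_primesBelow_le _).trans (Nat.pow_le_pow_right (by norm_num)
                    ((hWle j).trans (mem_Ico.1 hj).2.le))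
                rw [hT1]
                exact_mod_cast h3
      _ = (((Ico j0 j1).card : ℕ) : ℝ) * (T1 * (T1 * (B * (3 * (N : ℝ) ^ (1 - c))))) := by
          rw [sum_const, nsmul_eq_mul]
      _ ≤ T1 * (T1 * (T1 * (B * (3 * (N : ℝ) ^ (1 - c))))) :=
          mul_le_mul_of_nonneg_right hcIco (by positivity)
  have h3 : T1 * (T1 * (B * (N : ℝ) ^ (1 - c))) ≤ T1 * (T1 * (T1 * (B * (N : ℝ) ^ (1 - c)))) := by
    refine mul_le_mul_of_nonneg_left (mul_le_mul_of_nonneg_left ?_ hT10) hT10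
    exact le_mul_of_one_le_left (by positivity) hT11
  have h4 : T1 * (T1 * (T1 * (N : ℝ) ^ (1 - c))) ≤ (N : ℝ) ^ (1 - c / 2) := by
    have h5 : T1 * T1 * T1 ≤ (N : ℝ) ^ (c / 8) * (N : ℝ) ^ (c / 8) * (N : ℝ) ^ (c / 8) :=
      mul_le_mul (mul_le_mul hpow hpow hT10 (Real.rpow_nonneg hNR.le _)) hpow hT10
        (mul_nonneg (Real.rpow_nonneg hNR.le _) (Real.rpow_nonneg hNR.le _))
    calc T1 * (T1 * (T1 * (N : ℝ) ^ (1 - c))) = (T1 * T1 * T1) * (N : ℝ) ^ (1 - c) := by ring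
      _ ≤ ((N : ℝ) ^ (c / 8) * (N : ℝ) ^ (c / 8) * (N : ℝ) ^ (c / 8)) * (N : ℝ) ^ (1 - c) :=
          mul_le_mul_of_nonneg_right h5 hP0
      _ = (N : ℝ) ^ (c / 8 + c / 8 + c / 8 + (1 - c)) := by
          rw [← Real.rpow_add hNR, ← Real.rpow_add hNR, ← Real.rpow_add hNR]
      _ ≤ (N : ℝ) ^ (1 - c / 2) := Real.rpow_le_rpow_of_exponent_le hNR1 (by linarith)
  have h5 : T1 ≤ (N : ℝ) ^ (1 - c / 2) :=
    hpow.trans (Real.rpow_le_rpow_of_exponent_le hNR1 (by linarith))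
  have h6 : T1 * (T1 * (T1 * (B * (3 * (N : ℝ) ^ (1 - c))))) =
      3 * B * (T1 * (T1 * (T1 * (N : ℝ) ^ (1 - c)))) := by ring
  have h7 : T1 * (T1 * (T1 * (B * (N : ℝ) ^ (1 - c)))) =
      B * (T1 * (T1 * (T1 * (N : ℝ) ^ (1 - c)))) := by ring
  have h8 : B * (T1 * (T1 * (T1 * (N : ℝ) ^ (1 - c)))) ≤ B * (N : ℝ) ^ (1 - c / 2) :=
    mul_le_mul_of_nonneg_left h4 (by linarith)
  have h9 : (4 * (B : ℝ) + 1) * (N : ℝ) ^ (1 - c / 2) = (N : ℝ) ^ (1 - c / 2) +
      B * (N : ℝ) ^ (1 - c / 2) + 3 * (B * (N : ℝ) ^ (1 - c / 2)) := by ring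
  rw [h9]
  linarith

end Pool.Agent.Lib_helper10.Erdos460
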